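import Pool.Agent.H52.PR.Defs

/-!
PRIME RACES (MP_2936c6_nt), module Al: the Fourier coefficients and the weights.

PROOF. `al w χ = (1/φ) Σ w u χ(u⁻¹)`, `χ(u⁻¹) = χ⁻¹(u)`; inversion as in `wt_coprime` (RQ/Wt.lean):
`DirichletCharacter.sum_char_inv_mul_char_eq`. `al_w2_one`: `Σ_u w(u²) = Σ_χ al w χ Σ_u χ²(u) = φ Σ_{χ² = 1} al w χ`.
`vv_coprime`: `wq = 0` (`wq_coprime`). `vv_cast`: `wq_cast`. `vv_abs`: `wq_le`.
-/

set_option autoImplicit false

namespace Pool.Agent.H52.PR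

open Pool.Agent.H50.RQ (LL Vq wq lfc gx wq_coprime wq_le wq_cast)

private theorem tot_pos (q : ℕ) [NeZero q] : (0 : ℝ) < (q.totient : ℝ) := by
  exact_mod_cast Nat.totient_pos.mpr (Nat.pos_of_ne_zero (NeZero.ne q))

private theorem tot_ne (q : ℕ) [NeZero q] : (q.totient : ℂ) ≠ 0 := by
  exact_mod_cast (tot_pos q).ne'

private theorem ch_inv {q : ℕ} [NeZero q] (χ : DirichletCharacter ℂ q) (u : (ZMod q)ˣ) :
    χ (((u⁻¹ : (ZMod q)ˣ)) : ZMod q) = χ⁻¹ (u : ZMod q) := by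
  rw [MulChar.inv_apply, Ring.inverse_unit]

private theorem al_eq {q : ℕ} [NeZero q] (w : (ZMod q)ˣ → ℝ) (χ : DirichletCharacter ℂ q) :
    al w χ = (∑ u : (ZMod q)ˣ, (w u : ℂ) * χ⁻¹ (u : ZMod q)) / (q.totient : ℂ) := by
  unfold al
  rw [Finset.sum_div]
  refine Finset.sum_congr rfl fun u _ => ?_
  rw [ch_inv, mul_div_assoc]

theorem al_re {q : ℕ} [NeZero q] (w : (ZMod q)ˣ → ℝ)
    (h : ∀ χ : DirichletCharacter ℂ q, (∑ u : (ZMod q)ˣ, (w u : ℂ) * χ (u : ZMod q)).re ≤ 0)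
    (χ : DirichletCharacter ℂ q) : (al w χ).re ≤ 0 := by
  rw [al_eq, Complex.div_natCast_re]
  exact div_nonpos_of_nonpos_of_nonneg (h χ⁻¹) (tot_pos q).le

theorem al_one {q : ℕ} [NeZero q] (w : (ZMod q)ˣ → ℝ) (h : ∑ u, w u = 0) : al w 1 = 0 := by
  rw [al_eq, inv_one]
  have h1 : ∑ u : (ZMod q)ˣ, (w u : ℂ) * (1 : DirichletCharacter ℂ q) (u : ZMod q) = 0 := by
    have h2 : ((∑ u, w u : ℝ) : ℂ) = 0 := by rw [h, Complex.ofReal_zero]
    rw [Complex.ofReal_sum] at h2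
    rw [← h2]
    refine Finset.sum_congr rfl fun u _ => ?_
    rw [MulChar.one_apply u.isUnit, mul_one]
  rw [h1, zero_div]

theorem al_conj {q : ℕ} [NeZero q] (w : (ZMod q)ˣ → ℝ) (χ : DirichletCharacter ℂ q) :
    al w χ⁻¹ = (starRingEnd ℂ) (al w χ) := by
  rw [al_eq, al_eq, map_div₀, map_natCast, map_sum]
  have h1 : ∀ u : (ZMod q)ˣ, (w u : ℂ) * (χ⁻¹)⁻¹ (u : ZMod q) =
      (starRingEnd ℂ) ((w u : ℂ) * χ⁻¹ (u : ZMod q)) := by
    intro u
    rw [map_mul, Complex.conj_ofReal, ← MulChar.star_apply' χ⁻¹]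
    rfl
  rw [Finset.sum_congr rfl fun u _ => h1 u]

private theorem inversion {q : ℕ} [NeZero q] (w : (ZMod q)ˣ → ℝ) (u : (ZMod q)ˣ) :
    ∑ χ : DirichletCharacter ℂ q, al w χ * χ (u : ZMod q) = (w u : ℂ) := by
  have h1 : ∀ χ : DirichletCharacter ℂ q, al w χ * χ (u : ZMod q) =
      ∑ v : (ZMod q)ˣ, (w v : ℂ) / (q.totient : ℂ) * (χ (((v⁻¹ : (ZMod q)ˣ)) : ZMod q) * χ (u : ZMod q)) := by
    intro χ
    unfold al
    rw [Finset.sum_mul]
    refine Finset.sum_congr rfl fun v _ => ?_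
    ring
  rw [Finset.sum_congr rfl fun χ _ => h1 χ, Finset.sum_comm]
  have h2 : ∀ v : (ZMod q)ˣ, ∑ χ : DirichletCharacter ℂ q,
      (w v : ℂ) / (q.totient : ℂ) * (χ (((v⁻¹ : (ZMod q)ˣ)) : ZMod q) * χ (u : ZMod q)) =
      if v = u then (w v : ℂ) else 0 := by
    intro v
    rw [← Finset.mul_sum]
    have h3 := DirichletCharacter.sum_char_inv_mul_char_eq ℂ v.isUnit (u : ZMod q)
    rw [ZMod.inv_coe_unit] at h3
    rw [h3]
    by_cases h4 : v = u
    · rw [if_pos h4, if_pos (by rw [h4]), div_mul_cancel₀ _ (tot_ne q)]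
    · rw [if_neg h4, if_neg (fun h5 => h4 (Units.ext h5)), mul_zero]
  rw [Finset.sum_congr rfl fun v _ => h2 v, Finset.sum_ite_eq' Finset.univ u, if_pos (Finset.mem_univ _)]

private theorem ch_sum {q : ℕ} [NeZero q] (ψ : DirichletCharacter ℂ q) [Decidable (ψ = 1)] :
    ∑ u : (ZMod q)ˣ, ψ (u : ZMod q) = if ψ = 1 then (q.totient : ℂ) else 0 := by
  split_ifs with h
  · rw [h]
    rw [Finset.sum_congr rfl fun u _ => MulChar.one_apply u.isUnit, Finset.sum_const, Finset.card_univ,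
      ZMod.card_units_eq_totient, nsmul_eq_mul, mul_one]
  · obtain ⟨v, hv⟩ := MulChar.ne_one_iff.1 h
    have h1 : ψ (v : ZMod q) * ∑ u : (ZMod q)ˣ, ψ (u : ZMod q) = ∑ u : (ZMod q)ˣ, ψ (u : ZMod q) := by
      rw [Finset.mul_sum]
      refine Fintype.sum_equiv (Equiv.mulLeft v) _ _ fun u => ?_
      rw [Equiv.coe_mulLeft, Units.val_mul, map_mul]
    have h2 : (ψ (v : ZMod q) - 1) * ∑ u : (ZMod q)ˣ, ψ (u : ZMod q) = 0 := by
      rw [sub_mul, h1, one_mul, sub_self]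
    rcases mul_eq_zero.1 h2 with h3 | h3
    · exact absurd (sub_eq_zero.1 h3) hv
    · exact h3

theorem al_w2_one {q : ℕ} [NeZero q] (w : (ZMod q)ˣ → ℝ) (h : ∀ χ : DirichletCharacter ℂ q, (al w χ).re ≤ 0) :
    ∃ r : ℝ, r ≤ 0 ∧ al (w2 w) 1 = (r : ℂ) := by
  classical
  have h1 : al (w2 w) 1 = (((∑ u : (ZMod q)ˣ, w (u * u)) / (q.totient : ℝ) : ℝ) : ℂ) := by
    rw [al_eq, inv_one, Complex.ofReal_div, Complex.ofReal_natCast, Complex.ofReal_sum]
    refine congrArg (fun x => x / (q.totient : ℂ)) ?_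
    refine Finset.sum_congr rfl fun u _ => ?_
    rw [MulChar.one_apply u.isUnit, mul_one]
    rfl
  refine ⟨_, ?_, h1⟩
  have h2 : ((∑ u : (ZMod q)ˣ, w (u * u) : ℝ) : ℂ) =
      ∑ χ : DirichletCharacter ℂ q, al w χ * (if χ * χ = 1 then (q.totient : ℂ) else 0) := by
    rw [Complex.ofReal_sum]
    have h3 : ∀ u : (ZMod q)ˣ, ((w (u * u) : ℝ) : ℂ) =
        ∑ χ : DirichletCharacter ℂ q, al w χ * (χ * χ) (u : ZMod q) := by
      intro u
      rw [← inversion w (u * u)]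
      refine Finset.sum_congr rfl fun χ _ => ?_
      rw [Units.val_mul, map_mul, MulChar.mul_apply]
    rw [Finset.sum_congr rfl fun u _ => h3 u, Finset.sum_comm]
    refine Finset.sum_congr rfl fun χ _ => ?_
    rw [← Finset.mul_sum]
    refine congrArg (fun x => al w χ * x) ?_
    exact ch_sum (χ * χ)
  have h3 : (∑ u : (ZMod q)ˣ, w (u * u)) =
      ∑ χ : DirichletCharacter ℂ q, (al w χ).re * (if χ * χ = 1 then (q.totient : ℝ) else 0) := by
    have h4 := congrArg Complex.re h2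
    rw [Complex.ofReal_re, Complex.re_sum] at h4
    rw [h4]
    refine Finset.sum_congr rfl fun χ _ => ?_
    split_ifs
    · rw [Complex.mul_re, Complex.natCast_re, Complex.natCast_im, mul_zero, sub_zero]
    · rw [mul_zero, mul_zero, Complex.zero_re]
  rw [h3]
  refine div_nonpos_of_nonpos_of_nonneg (Finset.sum_nonpos fun χ _ => ?_) (tot_pos q).le
  split_ifs
  · exact mul_nonpos_of_nonpos_of_nonneg (h χ) (tot_pos q).le
  · rw [mul_zero]

theorem ww_unit {q : ℕ} [NeZero q] (w : (ZMod q)ˣ → ℝ) (u : (ZMod q)ˣ) (n : ℕ) (h : (n : ZMod q) = (u : ZMod q)) :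
    ww w n = w u := by
  unfold ww
  rw [Finset.sum_eq_single u]
  · rw [if_pos h]
  · intro v _ hv
    rw [if_neg]
    intro h2
    apply hv
    exact Units.ext (h2.symm.trans h)
  · intro h2
    exact absurd (Finset.mem_univ _) h2

theorem ww_not {q : ℕ} [NeZero q] (w : (ZMod q)ˣ → ℝ) (n : ℕ) (h : ¬ n.Coprime q) : ww w n = 0 := by
  unfold ww
  refine Finset.sum_eq_zero fun u _ => ?_
  rw [if_neg]
  intro h1
  apply h
  rw [← ZMod.isUnit_iff_coprime, h1]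
  exact u.isUnit

theorem ww_abs {q : ℕ} [NeZero q] (w : (ZMod q)ˣ → ℝ) (n : ℕ) : |ww w n| ≤ ∑ u : (ZMod q)ˣ, |w u| := by
  unfold ww
  refine (Finset.abs_sum_le_sum_abs _ _).trans (Finset.sum_le_sum fun u _ => ?_)
  split_ifs
  · exact le_rfl
  · rw [abs_zero]
    exact abs_nonneg _

theorem ww_sq {q : ℕ} [NeZero q] (w : (ZMod q)ˣ → ℝ) (m : ℕ) : ww w (m * m) = ww (w2 w) m := by
  by_cases h : m.Coprime q
  · obtain ⟨u, hu⟩ := (ZMod.isUnit_iff_coprime m q).2 h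
    rw [ww_unit (w2 w) u m hu.symm, ww_unit w (u * u) (m * m) (by rw [Nat.cast_mul, Units.val_mul, hu])]
    rfl
  · rw [ww_not (w2 w) m h, ww_not w (m * m) (fun h2 => h (Nat.Coprime.coprime_mul_right h2))]

private theorem Vq_le {q : ℕ} [NeZero q] (u : (ZMod q)ˣ) (n : ℕ) : |Vq q u n| ≤ ArithmeticFunction.vonMangoldt n := by
  unfold Vq
  split_ifs
  · rw [abs_of_nonneg ArithmeticFunction.vonMangoldt_nonneg]
  · rw [abs_zero]
    exact ArithmeticFunction.vonMangoldt_nonneg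

theorem vv_coprime {q : ℕ} [NeZero q] (w : (ZMod q)ˣ → ℝ) (n : ℕ) (h : n.Coprime q) :
    vv w n = ArithmeticFunction.vonMangoldt n * ww w n := by
  unfold vv ww
  rw [Finset.mul_sum]
  refine Finset.sum_congr rfl fun u _ => ?_
  rw [wq_coprime q u n h, add_zero]
  unfold Vq
  split_ifs
  · rw [mul_comm]
  · rw [mul_zero, mul_zero]

theorem vv_cast {q : ℕ} [NeZero q] (w : (ZMod q)ˣ → ℝ) (n : ℕ) :
    ((vv w n : ℝ) : ℂ) = ((ArithmeticFunction.vonMangoldt n : ℝ) : ℂ) *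
      ∑ χ : DirichletCharacter ℂ q, al w χ * gx χ n := by
  unfold vv al
  rw [Complex.ofReal_sum]
  have h1 : ∀ u : (ZMod q)ˣ, ((w u * (Vq q u n + wq q u n) : ℝ) : ℂ) =
      ((ArithmeticFunction.vonMangoldt n : ℝ) : ℂ) * ∑ χ : DirichletCharacter ℂ q,
        (w u : ℂ) * (χ (((u⁻¹ : (ZMod q)ˣ)) : ZMod q) / (q.totient : ℂ)) * gx χ n := by
    intro u
    rw [Complex.ofReal_mul, wq_cast, mul_left_comm, Finset.mul_sum]
    refine congrArg (fun x => ((ArithmeticFunction.vonMangoldt n : ℝ) : ℂ) * x) ?_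
    refine Finset.sum_congr rfl fun χ _ => ?_
    rw [mul_assoc]
  rw [Finset.sum_congr rfl fun u _ => h1 u, ← Finset.mul_sum, Finset.sum_comm]
  refine congrArg (fun x => ((ArithmeticFunction.vonMangoldt n : ℝ) : ℂ) * x) ?_
  refine Finset.sum_congr rfl fun χ _ => ?_
  rw [Finset.sum_mul]

theorem vv_abs {q : ℕ} [NeZero q] (w : (ZMod q)ˣ → ℝ) (n : ℕ) :
    |vv w n| ≤ 2 * (∑ u : (ZMod q)ˣ, |w u|) * ArithmeticFunction.vonMangoldt n := by
  unfold vv
  refine (Finset.abs_sum_le_sum_abs _ _).trans ?_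
  rw [Finset.mul_sum, Finset.sum_mul]
  refine Finset.sum_le_sum fun u _ => ?_
  rw [abs_mul]
  have h1 : |Vq q u n + wq q u n| ≤ 2 * ArithmeticFunction.vonMangoldt n := by
    refine (abs_add_le _ _).trans ?_
    have h2 := Vq_le u n
    have h3 := wq_le q u n
    linarith
  refine (mul_le_mul_of_nonneg_left h1 (abs_nonneg _)).trans (le_of_eq ?_)
  ring

end Pool.Agent.H52.PR
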