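import Pool.Agent.H52.PR.Mn

/-!
PRIME RACES (MP_2936c6_nt), module Cor: the consequences.

`cn b a n` = number of primes `p < n`, `p ≡ a mod b`; `cu q u n` the same for a reduced class `u : (ZMod q)ˣ`.
-/

set_option autoImplicit false

namespace Pool.Agent.H52.PR

/-- primes below `n` in the class of `a` mod `b` -/
def cn (b a n : ℕ) : ℕ := ((Finset.range n).filter (fun p => p.Prime ∧ p % b = a % b)).card

/-- primes below `n` in the class `u` -/
def cu (q : ℕ) (u : (ZMod q)ˣ) (n : ℕ) : ℕ :=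
  ((Finset.range n).filter (fun p : ℕ => p.Prime ∧ (p : ZMod q) = (u : ZMod q))).card

private theorem cu_succ {q : ℕ} (u : (ZMod q)ˣ) (n : ℕ) : cu q u (n + 1) =
    cu q u n + (if n.Prime ∧ (n : ZMod q) = (u : ZMod q) then 1 else 0) := by
  unfold cu
  rw [Finset.range_add_one, Finset.filter_insert]
  split_ifs with h
  · rw [Finset.card_insert_of_notMem (by simp)]
  · rfl

private theorem cu_sum {q : ℕ} (u : (ZMod q)ˣ) (n : ℕ) : ((cu q u (n + 1) : ℕ) : ℝ) =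
    ∑ k ∈ Finset.Icc 1 n, (if k.Prime ∧ (k : ZMod q) = (u : ZMod q) then (1 : ℝ) else 0) := by
  induction n with
  | zero =>
    rw [cu_succ, if_neg (fun h => Nat.not_prime_zero h.1), Finset.Icc_eq_empty (by norm_num), Finset.sum_empty]
    have h : cu q u 0 = 0 := rfl
    rw [h, Nat.cast_zero]
  | succ n ih =>
    rw [cu_succ, Nat.cast_add, ih, Finset.sum_Icc_succ_top (by omega)]
    split_ifs
    · rw [Nat.cast_one]
    · rw [Nat.cast_zero]

theorem BB_cu {q : ℕ} [NeZero q] (w : (ZMod q)ˣ → ℝ) (n : ℕ) :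
    BB w n = ∑ u : (ZMod q)ˣ, w u * (cu q u (n + 1) : ℝ) := by
  unfold BB
  have h0 : ∀ u : (ZMod q)ˣ, w u * (cu q u (n + 1) : ℝ) =
      ∑ k ∈ Finset.Icc 1 n, w u * (if k.Prime ∧ (k : ZMod q) = (u : ZMod q) then (1 : ℝ) else 0) := by
    intro u
    rw [cu_sum u n, Finset.mul_sum]
  symm
  rw [Finset.sum_congr rfl fun u _ => h0 u, Finset.sum_comm]
  refine Finset.sum_congr rfl fun k _ => ?_
  symm
  unfold bb ww
  split_ifs with hk
  · refine Finset.sum_congr rfl fun u _ => ?_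
    by_cases h : (k : ZMod q) = (u : ZMod q)
    · rw [if_pos h, if_pos ⟨hk, h⟩, mul_one]
    · rw [if_neg h, if_neg (fun h2 => h h2.2), mul_zero]
  · symm
    refine Finset.sum_eq_zero fun u _ => ?_
    rw [if_neg (fun h2 => hk h2.1), mul_zero]

/-- the theorem for weights, with counting functions -/
theorem weights {q : ℕ} [NeZero q] (w : (ZMod q)ˣ → ℝ) (hw : w ≠ 0) (h1 : ∑ u, w u = 0)
    (hχ : ∀ χ : DirichletCharacter ℂ q, (∑ u : (ZMod q)ˣ, (w u : ℂ) * χ (u : ZMod q)).re ≤ 0)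
    (α C : ℝ) (hα : α < 1 / 2) (N : ℕ) :
    ∃ n : ℕ, N < n ∧ C * (n : ℝ) ^ α < ∑ u : (ZMod q)ˣ, w u * (cu q u n : ℝ) := by
  obtain ⟨n, hn, h2⟩ := main w h1 hw hχ (max α 0) (2 * max C 0) (max_lt hα (by norm_num)) (N + 1)
  refine ⟨n + 1, by omega, ?_⟩
  rw [← BB_cu]
  refine lt_of_le_of_lt ?_ h2
  have hn1 : (1 : ℝ) ≤ n := by exact_mod_cast (by omega : 1 ≤ n)
  have hC : 0 ≤ max C 0 := le_max_right _ _
  have ha0 : 0 ≤ max α 0 := le_max_right _ _
  have ha1 : max α 0 ≤ 1 := max_le (by linarith) (by norm_num)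
  have h3 : ((n + 1 : ℕ) : ℝ) ^ α ≤ 2 * (n : ℝ) ^ (max α 0) := by
    have h4 : (1 : ℝ) ≤ ((n + 1 : ℕ) : ℝ) := by push_cast; linarith
    calc ((n + 1 : ℕ) : ℝ) ^ α ≤ ((n + 1 : ℕ) : ℝ) ^ (max α 0) := Real.rpow_le_rpow_of_exponent_le h4 (le_max_left _ _)
      _ ≤ (2 * (n : ℝ)) ^ (max α 0) := by
        refine Real.rpow_le_rpow (by positivity) ?_ ha0
        push_cast
        linarith
      _ = 2 ^ (max α 0) * (n : ℝ) ^ (max α 0) := Real.mul_rpow (by norm_num) (by positivity)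
      _ ≤ 2 * (n : ℝ) ^ (max α 0) := by
        refine mul_le_mul_of_nonneg_right ?_ (by positivity)
        have h5 := Real.rpow_le_rpow_of_exponent_le (x := 2) (by norm_num) ha1
        rwa [Real.rpow_one] at h5
  have h4 : (0 : ℝ) ≤ ((n + 1 : ℕ) : ℝ) ^ α := by positivity
  calc C * ((n + 1 : ℕ) : ℝ) ^ α ≤ max C 0 * ((n + 1 : ℕ) : ℝ) ^ α := mul_le_mul_of_nonneg_right (le_max_left _ _) h4
    _ ≤ max C 0 * (2 * (n : ℝ) ^ (max α 0)) := mul_le_mul_of_nonneg_left h3 hC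
    _ = 2 * max C 0 * (n : ℝ) ^ (max α 0) := by ring

private theorem cu_cn {q : ℕ} (u : (ZMod q)ˣ) (a : ℕ) (h : (a : ZMod q) = (u : ZMod q)) (n : ℕ) : cu q u n = cn q a n := by
  unfold cu cn
  refine congrArg Finset.card (Finset.filter_congr fun p _ => ?_)
  rw [← h, ZMod.natCast_eq_natCast_iff' p a q]

/-- two classes -/
private theorem two {q : ℕ} [NeZero q] (u v : (ZMod q)ˣ) (huv : u ≠ v)
    (hχ : ∀ χ : DirichletCharacter ℂ q, (χ (u : ZMod q)).re ≤ (χ (v : ZMod q)).re)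
    (α C : ℝ) (hα : α < 1 / 2) (N : ℕ) :
    ∃ n : ℕ, N < n ∧ (cu q v n : ℝ) + C * (n : ℝ) ^ α < (cu q u n : ℝ) := by
  classical
  obtain ⟨n, hn, h⟩ := weights (fun x => (if x = u then (1 : ℝ) else 0) - (if x = v then 1 else 0)) (by
      intro h0
      have h1 := congrFun h0 u
      simp only [if_true, if_neg huv, Pi.zero_apply, sub_zero] at h1
      exact one_ne_zero h1) (by
      rw [Finset.sum_sub_distrib, Finset.sum_ite_eq' Finset.univ u, Finset.sum_ite_eq' Finset.univ v,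
        if_pos (Finset.mem_univ _), if_pos (Finset.mem_univ _), sub_self]) (fun χ => by
      have h1 : ∀ x : (ZMod q)ˣ, ((((if x = u then (1 : ℝ) else 0) - (if x = v then 1 else 0) : ℝ)) : ℂ) * χ (x : ZMod q) =
          (if x = u then χ (x : ZMod q) else 0) - (if x = v then χ (x : ZMod q) else 0) := by
        intro x
        split_ifs <;> push_cast <;> ring
      rw [Finset.sum_congr rfl fun x _ => h1 x, Finset.sum_sub_distrib, Finset.sum_ite_eq' Finset.univ u,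
        Finset.sum_ite_eq' Finset.univ v, if_pos (Finset.mem_univ _), if_pos (Finset.mem_univ _), Complex.sub_re]
      linarith [hχ χ]) α C hα N
  refine ⟨n, hn, ?_⟩
  have h2 : ∑ x : (ZMod q)ˣ, ((if x = u then (1 : ℝ) else 0) - (if x = v then 1 else 0)) * (cu q x n : ℝ) =
      (cu q u n : ℝ) - (cu q v n : ℝ) := by
    have h1 : ∀ x : (ZMod q)ˣ, ((if x = u then (1 : ℝ) else 0) - (if x = v then 1 else 0)) * (cu q x n : ℝ) =
        (if x = u then (cu q x n : ℝ) else 0) - (if x = v then (cu q x n : ℝ) else 0) := by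
      intro x
      split_ifs <;> ring
    rw [Finset.sum_congr rfl fun x _ => h1 x, Finset.sum_sub_distrib, Finset.sum_ite_eq' Finset.univ u,
      Finset.sum_ite_eq' Finset.univ v, if_pos (Finset.mem_univ _), if_pos (Finset.mem_univ _)]
  rw [h2] at h
  linarith

/-- every class beats the class `1` -/
theorem beat_one (b a : ℕ) (hb : 0 < b) (ha : a.Coprime b) (h1 : a % b ≠ 1 % b) (α C : ℝ) (hα : α < 1 / 2) (N : ℕ) :
    ∃ n : ℕ, N < n ∧ (cn b 1 n : ℝ) + C * (n : ℝ) ^ α < (cn b a n : ℝ) := by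
  have : NeZero b := ⟨hb.ne'⟩
  obtain ⟨u, hu⟩ := (ZMod.isUnit_iff_coprime a b).2 ha
  obtain ⟨n, hn, h⟩ := two u (1 : (ZMod b)ˣ) (by
    intro h
    apply h1
    rw [h] at hu
    rw [← ZMod.natCast_eq_natCast_iff' a 1 b, ← hu, Units.val_one, Nat.cast_one]) (fun χ => by
    rw [Units.val_one, map_one, Complex.one_re]
    exact (Complex.re_le_norm _).trans (DirichletCharacter.norm_le_one χ _)) α C hα N
  refine ⟨n, hn, ?_⟩
  rw [cu_cn u a hu.symm n, cu_cn (1 : (ZMod b)ˣ) 1 (by rw [Units.val_one, Nat.cast_one]) n] at h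
  exact h

/-- a class and its inverse -/
theorem beat_inv (b a a' : ℕ) (hb : 0 < b) (haa : (a * a') % b = 1 % b) (h1 : (a * a) % b ≠ 1 % b)
    (α C : ℝ) (hα : α < 1 / 2) (N : ℕ) :
    ∃ n : ℕ, N < n ∧ (cn b a' n : ℝ) + C * (n : ℝ) ^ α < (cn b a n : ℝ) := by
  have : NeZero b := ⟨hb.ne'⟩
  have h2 : (a : ZMod b) * (a' : ZMod b) = 1 := by
    rw [← ZMod.natCast_eq_natCast_iff' (a * a') 1 b, Nat.cast_mul, Nat.cast_one] at haa
    exact haa
  obtain ⟨u, hu⟩ : ∃ u : (ZMod b)ˣ, (u : ZMod b) = (a : ZMod b) := ⟨Units.mkOfMulEqOne _ _ h2, rfl⟩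
  have h3 : (((u⁻¹ : (ZMod b)ˣ)) : ZMod b) = (a' : ZMod b) := by
    have h4 : ((u * u⁻¹ : (ZMod b)ˣ) : ZMod b) = 1 := by rw [mul_inv_cancel, Units.val_one]
    rw [Units.val_mul, hu] at h4
    have h5 : (a' : ZMod b) * ((a : ZMod b) * (((u⁻¹ : (ZMod b)ˣ)) : ZMod b)) = (a' : ZMod b) * 1 := by rw [h4]
    rw [← mul_assoc, mul_comm (a' : ZMod b), h2, one_mul, mul_one] at h5
    exact h5
  obtain ⟨n, hn, h⟩ := two u u⁻¹ (by
    intro h
    apply h1
    rw [← ZMod.natCast_eq_natCast_iff' (a * a) 1 b, Nat.cast_mul, Nat.cast_one, ← hu]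
    have h4 : ((u * u⁻¹ : (ZMod b)ˣ) : ZMod b) = 1 := by rw [mul_inv_cancel, Units.val_one]
    rw [← h, Units.val_mul] at h4
    exact h4) (fun χ => by
    have h4 : χ (((u⁻¹ : (ZMod b)ˣ)) : ZMod b) = (starRingEnd ℂ) (χ (u : ZMod b)) := by
      have h5 := MulChar.star_apply' χ (u : ZMod b)
      rw [MulChar.inv_apply, Ring.inverse_unit] at h5
      exact h5.symm
    rw [h4, Complex.conj_re]) α C hα N
  refine ⟨n, hn, ?_⟩
  rw [cu_cn u a hu.symm n, cu_cn u⁻¹ a' h3.symm n] at h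
  exact h

private theorem cn_mono (b a : ℕ) {m n : ℕ} (h : m ≤ n) : cn b a m ≤ cn b a n := by
  unfold cn
  refine Finset.card_le_card (Finset.filter_subset_filter _ ?_)
  exact Finset.range_subset_range.2 h

private theorem cn_le (b a n : ℕ) : cn b a n ≤ n := by
  unfold cn
  refine (Finset.card_filter_le _ _).trans ?_
  rw [Finset.card_range]

private theorem cn_succ (b a n : ℕ) : cn b a (n + 1) = cn b a n + (if n.Prime ∧ n % b = a % b then 1 else 0) := by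
  unfold cn
  rw [Finset.range_add_one, Finset.filter_insert]
  split_ifs with h
  · rw [Finset.card_insert_of_notMem (by simp)]
  · rfl

private theorem cn_congr (b a a' n : ℕ) (h : a % b = a' % b) : cn b a n = cn b a' n := by
  unfold cn
  rw [h]

/-- at most one prime in a class which is not reduced -/
private theorem cn_not (b a n : ℕ) (ha : ¬ a.Coprime b) : cn b a n ≤ 1 := by
  unfold cn
  rw [Finset.card_le_one]
  have key : ∀ p ∈ (Finset.range n).filter (fun p => p.Prime ∧ p % b = a % b), p = Nat.gcd a b := by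
    intro p hp
    rw [Finset.mem_filter] at hp
    obtain ⟨_, hp1, hp2⟩ := hp
    have h1 : Nat.gcd p b = Nat.gcd a b := Nat.ModEq.gcd_eq hp2
    rcases (Nat.dvd_prime hp1).1 (Nat.gcd_dvd_left p b) with h2 | h2
    · exact absurd (h1.symm.trans h2) ha
    · rw [← h1, h2]
  intro p hp p' hp'
  rw [key p hp, key p' hp']

/-- the tie argument -/
private theorem tie (b a : ℕ) (h : ∀ K : ℕ, ∃ n a' : ℕ, cn b a n + K < cn b a' n) (N : ℕ) :
    ∃ t : ℕ, N < t ∧ ∃ c : ℕ, c.Coprime b ∧ c % b ≠ a % b ∧ ∀ a₂ : ℕ, a₂ % b ≠ c % b → cn b a₂ t < cn b c t := by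
  classical
  obtain ⟨n, a', hn⟩ := h (N + 1)
  obtain ⟨k, hk⟩ : ∃ k : ℕ, k = cn b a n + N + 2 := ⟨_, rfl⟩
  have hex : ∃ t : ℕ, ∃ c : ℕ, k ≤ cn b c t := ⟨n, a', by omega⟩
  obtain ⟨t, ht⟩ : ∃ t : ℕ, t = Nat.find hex := ⟨_, rfl⟩
  have ht1 : ∃ c : ℕ, k ≤ cn b c t := by rw [ht]; exact Nat.find_spec hex
  have ht2 : ∀ m < t, ∀ c : ℕ, cn b c m < k := by
    intro m hm c
    rw [ht] at hm
    by_contra hcon
    exact Nat.find_min hex hm ⟨c, not_lt.1 hcon⟩
  obtain ⟨c, hc⟩ := ht1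
  have ht3 : t ≤ n := by
    rw [ht]
    exact Nat.find_min' hex ⟨a', by omega⟩
  have ht0 : t ≠ 0 := by
    intro h0
    have := cn_le b c t
    omega
  obtain ⟨m, hm⟩ : ∃ m, t = m + 1 := ⟨t - 1, by omega⟩
  have hm2 := fun d => ht2 m (by omega) d
  have hcs := cn_succ b c m
  have hcm := hm2 c
  rw [hm] at hc
  have hprime : m.Prime ∧ m % b = c % b := by
    by_contra hcon
    rw [if_neg hcon] at hcs
    omega
  rw [if_pos hprime] at hcs
  refine ⟨m + 1, ?_, c, ?_, ?_, ?_⟩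
  · have := cn_le b c (m + 1)
    omega
  · by_contra hcon
    have := cn_not b c (m + 1) hcon
    omega
  · intro h0
    have h1 := cn_congr b c a (m + 1) h0
    have h2 := cn_mono b a (show m + 1 ≤ n by omega)
    omega
  · intro a₂ ha₂
    have h1 := cn_succ b a₂ m
    rw [if_neg (fun h2 => ha₂ (h2.2.symm.trans hprime.2))] at h1
    have h2 := hm2 a₂
    omega

/-- pigeonhole -/
private theorem pig (b a : ℕ) (hb : 0 < b) (h : ∀ K : ℕ, ∃ n a' : ℕ, cn b a n + K < cn b a' n) :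
    ∃ c : ℕ, c.Coprime b ∧ c % b ≠ a % b ∧ ∀ N : ℕ, ∃ n : ℕ, N < n ∧
      ∀ a₂ : ℕ, a₂ % b ≠ c % b → cn b a₂ n < cn b c n := by
  classical
  by_contra hcon
  push Not at hcon
  have h1 : ∀ r : ℕ, ∃ M : ℕ, ∀ c : ℕ, c.Coprime b → c % b ≠ a % b → c % b = r →
      ∀ n : ℕ, M < n → ∃ a₂ : ℕ, a₂ % b ≠ c % b ∧ cn b c n ≤ cn b a₂ n := by
    intro r
    by_cases h2 : ∃ c : ℕ, c.Coprime b ∧ c % b ≠ a % b ∧ c % b = r
    · obtain ⟨c, hc1, hc2, hc3⟩ := h2
      obtain ⟨M, hM⟩ := hcon c hc1 hc2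
      refine ⟨M, fun c' _ _ hc' n hn => ?_⟩
      obtain ⟨a₂, h3, h4⟩ := hM n hn
      have h5 : c % b = c' % b := by rw [hc3, hc']
      exact ⟨a₂, by rwa [← h5], by rwa [← cn_congr b c c' n h5]⟩
    · exact ⟨0, fun c' h3 h4 h5 => absurd ⟨c', h3, h4, h5⟩ h2⟩
  choose M hM using h1
  obtain ⟨t, ht, c, hc1, hc2, hc3⟩ := tie b a h (∑ r ∈ Finset.range b, M r)
  have h2 : M (c % b) ≤ ∑ r ∈ Finset.range b, M r :=
    Finset.single_le_sum (fun _ _ => Nat.zero_le _) (Finset.mem_range.2 (Nat.mod_lt c hb))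
  obtain ⟨a₂, h3, h4⟩ := hM (c % b) c hc1 hc2 rfl t (by omega)
  have h5 := hc3 a₂ h3
  omega

private theorem cn_one (b : ℕ) (hb : 0 < b) (K : ℕ) : ∃ n : ℕ, K < cn b 1 n := by
  have : NeZero b := ⟨hb.ne'⟩
  have hP : ∀ n : ℕ, ∃ p : ℕ, n < p ∧ p.Prime ∧ p % b = 1 % b := by
    intro n
    obtain ⟨p, h1, h2, h3⟩ := Nat.forall_exists_prime_gt_and_eq_mod (q := b) (a := 1) isUnit_one n
    refine ⟨p, h1, h2, ?_⟩
    rw [← ZMod.natCast_eq_natCast_iff', Nat.cast_one]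
    exact h3
  induction K with
  | zero =>
    obtain ⟨p, _, h2, h3⟩ := hP 0
    refine ⟨p + 1, ?_⟩
    rw [cn_succ, if_pos ⟨h2, h3⟩]
    omega
  | succ K ih =>
    obtain ⟨n, hn⟩ := ih
    obtain ⟨p, h1, h2, h3⟩ := hP n
    refine ⟨p + 1, ?_⟩
    rw [cn_succ, if_pos ⟨h2, h3⟩]
    have := cn_mono b 1 h1.le
    omega

/-- **the leader** -/
theorem leader (b a : ℕ) (hb : 2 < b) (ha : a % b = 1 ∨ (a * a) % b ≠ 1) :
    ∃ c : ℕ, c.Coprime b ∧ c % b ≠ a % b ∧ ∀ N : ℕ, ∃ n : ℕ, N < n ∧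
      ∀ a₂ : ℕ, a₂ % b ≠ c % b → cn b a₂ n < cn b c n := by
  have h1b : 1 % b = 1 := Nat.mod_eq_of_lt (by omega)
  refine pig b a (by omega) fun K => ?_
  by_cases hc : a.Coprime b
  · rcases ha with ha | ha
    · obtain ⟨n, _, h⟩ := beat_one b (b - 1) (by omega) (by
        rw [Nat.coprime_comm]
        exact (Nat.coprime_self_sub_right (by omega)).2 (Nat.coprime_one_right b)) (by
        rw [h1b, Nat.mod_eq_of_lt (by omega)]
        omega) 0 K (by norm_num) 0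
      refine ⟨n, b - 1, ?_⟩
      rw [Real.rpow_zero, mul_one] at h
      rw [cn_congr b a 1 n (by rw [ha, h1b])]
      exact_mod_cast h
    · obtain ⟨u, hu⟩ := (ZMod.isUnit_iff_coprime a b).2 hc
      have : NeZero b := ⟨by omega⟩
      have h2 : (a * ((u⁻¹ : (ZMod b)ˣ) : ZMod b).val) % b = 1 % b := by
        rw [← ZMod.natCast_eq_natCast_iff', Nat.cast_mul, ZMod.natCast_zmod_val, ← hu, Nat.cast_one, ← Units.val_mul,
          mul_inv_cancel, Units.val_one]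
      obtain ⟨n, _, h⟩ := beat_inv b ((u⁻¹ : (ZMod b)ˣ) : ZMod b).val a (by omega) (by rw [mul_comm]; exact h2) (by
        intro h3
        apply ha
        rw [← ZMod.natCast_eq_natCast_iff', Nat.cast_mul, ZMod.natCast_zmod_val, Nat.cast_one, ← Units.val_mul,
          Units.val_eq_one] at h3
        have h4 : u * u = 1 := by
          have h5 : (u⁻¹ * u⁻¹)⁻¹ = 1 := by rw [h3, inv_one]
          rw [mul_inv, inv_inv] at h5
          exact h5
        have h5 : (a * a) % b = 1 % b := by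
          rw [← ZMod.natCast_eq_natCast_iff', Nat.cast_mul, ← hu, ← Units.val_mul, h4, Units.val_one, Nat.cast_one]
        rw [h5, h1b]) 0 K (by norm_num) 0
      refine ⟨n, ((u⁻¹ : (ZMod b)ˣ) : ZMod b).val, ?_⟩
      rw [Real.rpow_zero, mul_one] at h
      exact_mod_cast h
  · obtain ⟨n, hn⟩ := cn_one b (by omega) (K + 1)
    refine ⟨n, 1, ?_⟩
    have := cn_not b a n hc
    omega

end Pool.Agent.H52.PR
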