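import Pool.Agent.H50.RQ.Zi
import Pool.Agent.H24.TS.Ldt
import Pool.Agent.H24.TS.Lnb

/-!
# PRIME RACES, UNCONDITIONAL COMPARISONS FOR ALL MODULI (MP_2936c6_nt): definitions

`w` a real weight on the reduced classes mod `q`. `ww w n = w(n mod q)` (`0` if `n` is not coprime to `q`),
`bb w` the same on the primes, `BB w n = ∑_{p ≤ n} w(p)`. `al w χ` the Fourier coefficients: `w(n) = ∑ al w χ χ(n)`.
`vv w n = Λ(n) ∑ al w χ χ*(n)` (primitive characters), `sq w` the same for `w(u²)` on the squares `n = m²`,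
`oo w` what is left. `JJ w = ∑ al w χ L'/L(s, χ*)`, `GG w` the derivative of `∑ w(p) p^(-s)`,
`co w ρ` the residue of `JJ w` at `ρ`.
-/

set_option autoImplicit false

namespace Pool.Agent.H52.PR

open Pool.Agent.H50.RQ (LL Vq wq lfc)

/-- the weight of a natural number -/
noncomputable def ww {q : ℕ} [NeZero q] (w : (ZMod q)ˣ → ℝ) (n : ℕ) : ℝ :=
  ∑ u : (ZMod q)ˣ, if (n : ZMod q) = (u : ZMod q) then w u else 0

/-- the weight on primes -/
noncomputable def bb {q : ℕ} [NeZero q] (w : (ZMod q)ˣ → ℝ) (n : ℕ) : ℝ :=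
  if n.Prime then ww w n else 0

/-- the summatory function -/
noncomputable def BB {q : ℕ} [NeZero q] (w : (ZMod q)ˣ → ℝ) (n : ℕ) : ℝ :=
  ∑ k ∈ Finset.Icc 1 n, bb w k

/-- the Fourier coefficients -/
noncomputable def al {q : ℕ} [NeZero q] (w : (ZMod q)ˣ → ℝ) (χ : DirichletCharacter ℂ q) : ℂ :=
  ∑ u : (ZMod q)ˣ, (w u : ℂ) * (χ (((u⁻¹ : (ZMod q)ˣ)) : ZMod q) / (q.totient : ℂ))

/-- the weight `w(u²)` -/
def w2 {q : ℕ} (w : (ZMod q)ˣ → ℝ) (u : (ZMod q)ˣ) : ℝ := w (u * u)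

/-- the weight times the von Mangoldt function, from the primitive characters -/
noncomputable def vv {q : ℕ} [NeZero q] (w : (ZMod q)ˣ → ℝ) (n : ℕ) : ℝ :=
  ∑ u : (ZMod q)ˣ, w u * (Vq q u n + wq q u n)

open Classical in
/-- the contribution of the squares -/
noncomputable def sq {q : ℕ} [NeZero q] (w : (ZMod q)ˣ → ℝ) (n : ℕ) : ℝ :=
  if IsSquare n then vv (w2 w) (Nat.sqrt n) else 0

/-- the rest -/
noncomputable def oo {q : ℕ} [NeZero q] (w : (ZMod q)ˣ → ℝ) (n : ℕ) : ℝ :=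
  vv w n - sq w n - (if n.Prime then Real.log n * ww w n else 0)

/-- the logarithmic derivatives -/
noncomputable def JJ {q : ℕ} [NeZero q] (w : (ZMod q)ˣ → ℝ) (s : ℂ) : ℂ :=
  ∑ χ : DirichletCharacter ℂ q, al w χ * (deriv (LL χ) s / LL χ s)

/-- the derivative of the Dirichlet series of `bb` -/
noncomputable def GG {q : ℕ} [NeZero q] (w : (ZMod q)ˣ → ℝ) (s : ℂ) : ℂ :=
  JJ w s - JJ (w2 w) (2 * s) + al (w2 w) 1 / (2 * s - 1) + LSeries (fun n => ((oo w n : ℝ) : ℂ)) s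

/-- the residue -/
noncomputable def co {q : ℕ} [NeZero q] (w : (ZMod q)ˣ → ℝ) (ρ : ℂ) : ℂ :=
  ∑ χ : DirichletCharacter ℂ q, al w χ * (analyticOrderNatAt (LL χ) ρ : ℂ)

end Pool.Agent.H52.PR
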