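import Pool.Agent.H52.PR.Oo

/-!
PRIME RACES (MP_2936c6_nt), module Der: the derivative of `D(s) = ∑ bb w n n^(-s)` is `GG w s` for `Re s > 1`.

PROOF (as `bb_deriv` in `Pool/Agent/H24/TS/Lnd.lean`). `|bb w n| ≤ ∑ |w u|` (`ww_abs`), so `D` converges absolutely for `Re s > 1` and
`D'(s) = -L(logMul bb)(s)` (`LSeries_hasDerivAt`). `log n bb w n = vv w n - sq w n - oo w n` (definition of `oo`). 
`L(vv w)(s) = ∑_χ al w χ ∑_n Λ(n) gx χ n n^(-s)` (`vv_cast`) `= ∑_χ al w χ (-(LL χ)'/LL χ (s) + p_χ/(s-1))`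
(`(lfc χ).ld`, `lfc_F`, `lfc_g`, `lfc_p`; absolutely convergent, `gx_le`) `= -JJ w s + al w 1/(s-1) = -JJ w s` (`al_one`).
`L(sq w)(s) = ∑_m vv (w2 w) m (m²)^(-s) = ∑_m vv (w2 w) m m^(-2s) = -JJ (w2 w) (2s) + al (w2 w) 1/(2s-1)` (the sum over the squares
`n = m m`, `m ≥ 1`: `Function.Injective.tsum_eq`/`hasSum_iff`; `2 Re s > 1`). `L(oo w)(s)`: `oo_sum`.
-/

set_option autoImplicit false

namespace Pool.Agent.H52.PR

open Pool.Agent.H50.RQ (LL Vq wq lfc gx)

theorem bb_summable {q : ℕ} [NeZero q] (w : (ZMod q)ˣ → ℝ) (s : ℂ) (hs : 1 < s.re) :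
    LSeriesSummable (fun n => ((bb w n : ℝ) : ℂ)) s := by
  refine LSeriesSummable_of_bounded_of_one_lt_re (m := ∑ u : (ZMod q)ˣ, |w u|) (fun n _ => ?_) hs
  rw [Complex.norm_real, Real.norm_eq_abs]
  unfold bb
  split_ifs
  · exact ww_abs w n
  · rw [abs_zero]
    exact Finset.sum_nonneg fun u _ => abs_nonneg _

open Classical in
/-- one character -/
private theorem ch_L {q : ℕ} [NeZero q] (χ : DirichletCharacter ℂ q) (s : ℂ) (hs : 1 < s.re) :
    LSeriesHasSum (fun n => ((ArithmeticFunction.vonMangoldt n : ℝ) : ℂ) * gx χ n) s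
      (-(deriv (LL χ) s / LL χ s) + (if χ = 1 then 1 else 0) / (s - 1)) := by
  have hs0 : s ≠ 0 := by
    intro h
    rw [h, Complex.zero_re] at hs
    linarith
  have hsum : LSeriesSummable (fun n => ((ArithmeticFunction.vonMangoldt n : ℝ) : ℂ) * gx χ n) s := by
    refine Summable.of_norm_bounded (ArithmeticFunction.LSeriesSummable_vonMangoldt hs).norm (fun n => ?_)
    rcases Nat.eq_zero_or_pos n with h | h
    · subst h
      rw [LSeries.term_zero, LSeries.term_zero]
    · rw [LSeries.term_of_ne_zero h.ne', LSeries.term_of_ne_zero h.ne', norm_div, norm_div, norm_mul]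
      refine div_le_div_of_nonneg_right ?_ (norm_nonneg _)
      exact mul_le_of_le_one_right (norm_nonneg _) (Pool.Agent.H50.RQ.gx_le χ n)
  have h1 := hsum.LSeriesHasSum
  have h2 := (lfc χ).ld s hs
  rw [Pool.Agent.H50.RQ.lfc_F, Pool.Agent.H50.RQ.lfc_p] at h2
  have h3 : LSeries (fun n => ((ArithmeticFunction.vonMangoldt n : ℝ) : ℂ) * gx χ n) s =
      ∑' n : ℕ, (ArithmeticFunction.vonMangoldt n : ℂ) * (lfc χ).g n * (n : ℂ) ^ (-s) := by
    unfold LSeries
    refine tsum_congr (fun n => ?_)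
    rw [Pool.Agent.H50.RQ.lfc_g]
    rcases Nat.eq_zero_or_pos n with h | h
    · subst h
      rw [LSeries.term_zero, ArithmeticFunction.map_zero]
      simp
    · rw [LSeries.term_of_ne_zero h.ne', Complex.cpow_neg, div_eq_mul_inv]
  rw [h3] at h1
  have h4 : (∑' n : ℕ, (ArithmeticFunction.vonMangoldt n : ℂ) * (lfc χ).g n * (n : ℂ) ^ (-s)) =
      -(deriv (LL χ) s / LL χ s) + (if χ = 1 then 1 else 0) / (s - 1) := by
    rw [h2]
    ring
  rw [h4] at h1
  exact h1

/-- the main series -/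
private theorem vv_L {q : ℕ} [NeZero q] (w : (ZMod q)ˣ → ℝ) (s : ℂ) (hs : 1 < s.re) :
    LSeriesHasSum (fun n => ((vv w n : ℝ) : ℂ)) s (-JJ w s + al w 1 / (s - 1)) := by
  classical
  have h1 : HasSum (fun n => ∑ χ : DirichletCharacter ℂ q, al w χ *
      LSeries.term (fun n => ((ArithmeticFunction.vonMangoldt n : ℝ) : ℂ) * gx χ n) s n)
      (∑ χ : DirichletCharacter ℂ q, al w χ * (-(deriv (LL χ) s / LL χ s) + (if χ = 1 then 1 else 0) / (s - 1))) :=
    hasSum_sum fun χ _ => (ch_L χ s hs).mul_left (al w χ)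
  have h2 : ∑ χ : DirichletCharacter ℂ q, al w χ * (-(deriv (LL χ) s / LL χ s) + (if χ = 1 then 1 else 0) / (s - 1)) =
      -JJ w s + al w 1 / (s - 1) := by
    unfold JJ
    have h3 : ∀ χ : DirichletCharacter ℂ q, al w χ * (-(deriv (LL χ) s / LL χ s) + (if χ = 1 then 1 else 0) / (s - 1)) =
        -(al w χ * (deriv (LL χ) s / LL χ s)) + (if χ = 1 then al w χ / (s - 1) else 0) := by
      intro χ
      split_ifs
      · ring
      · ring
    rw [Finset.sum_congr rfl fun χ _ => h3 χ, Finset.sum_add_distrib, Finset.sum_neg_distrib,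
      Finset.sum_ite_eq' Finset.univ (1 : DirichletCharacter ℂ q), if_pos (Finset.mem_univ _)]
  rw [h2] at h1
  unfold LSeriesHasSum
  have h4 : LSeries.term (fun n => ((vv w n : ℝ) : ℂ)) s = fun n => ∑ χ : DirichletCharacter ℂ q, al w χ *
      LSeries.term (fun n => ((ArithmeticFunction.vonMangoldt n : ℝ) : ℂ) * gx χ n) s n := by
    funext n
    rcases Nat.eq_zero_or_pos n with h | h
    · subst h
      rw [LSeries.term_zero]
      refine (Finset.sum_eq_zero fun χ _ => ?_).symm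
      rw [LSeries.term_zero, mul_zero]
    · rw [LSeries.term_of_ne_zero h.ne', vv_cast, Finset.mul_sum, Finset.sum_div]
      refine Finset.sum_congr rfl fun χ _ => ?_
      rw [LSeries.term_of_ne_zero h.ne']
      ring
  rw [h4]
  exact h1

/-- the squares -/
private theorem sq_L {q : ℕ} [NeZero q] (w : (ZMod q)ˣ → ℝ) (s : ℂ) (hs : 1 < s.re) :
    LSeriesHasSum (fun n => ((sq w n : ℝ) : ℂ)) s (-JJ (w2 w) (2 * s) + al (w2 w) 1 / (2 * s - 1)) := by
  have h2s : 1 < (2 * s).re := by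
    rw [Complex.mul_re, Complex.re_ofNat, Complex.im_ofNat]
    linarith
  have h1 := vv_L (w2 w) (2 * s) h2s
  unfold LSeriesHasSum at h1 ⊢
  have hinj : Function.Injective (fun m : ℕ => m * m) := fun a b hab => Nat.mul_self_inj.1 hab
  refine (hinj.hasSum_iff ?_).1 ?_
  · intro n hn
    rcases Nat.eq_zero_or_pos n with h | h
    · subst h
      rw [LSeries.term_zero]
    · rw [LSeries.term_of_ne_zero h.ne']
      have h2 : sq w n = 0 := by
        unfold sq
        rw [if_neg]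
        rintro ⟨m, hm⟩
        exact hn ⟨m, hm.symm⟩
      rw [h2, Complex.ofReal_zero, zero_div]
  · have h3 : (LSeries.term (fun n => ((sq w n : ℝ) : ℂ)) s) ∘ (fun m : ℕ => m * m) =
        LSeries.term (fun n => ((vv (w2 w) n : ℝ) : ℂ)) (2 * s) := by
      funext m
      rw [Function.comp]
      rcases Nat.eq_zero_or_pos m with h | h
      · subst h
        rw [Nat.zero_mul, LSeries.term_zero, LSeries.term_zero]
      · have hmm : m * m ≠ 0 := (Nat.mul_pos h h).ne'
        rw [LSeries.term_of_ne_zero hmm, LSeries.term_of_ne_zero h.ne']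
        have h2 : sq w (m * m) = vv (w2 w) m := by
          unfold sq
          rw [if_pos ⟨m, rfl⟩, Nat.sqrt_eq]
        have hm0 : (m : ℂ) ≠ 0 := by exact_mod_cast h.ne'
        have h4 : ((m * m : ℕ) : ℂ) ^ s = (m : ℂ) ^ (2 * s) := by
          rw [Nat.cast_mul, Complex.natCast_mul_natCast_cpow, ← Complex.cpow_add _ _ hm0, two_mul]
        rw [h2, h4]
    rw [h3]
    exact h1

theorem bb_der {q : ℕ} [NeZero q] (w : (ZMod q)ˣ → ℝ) (h1 : ∑ u, w u = 0) (s : ℂ) (hs : 1 < s.re) :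
    HasDerivAt (LSeries (fun n => ((bb w n : ℝ) : ℂ))) (GG w s) s := by
  have habs : LSeries.abscissaOfAbsConv (fun n => ((bb w n : ℝ) : ℂ)) < ((s.re : ℝ) : EReal) := by
    have h2 : LSeries.abscissaOfAbsConv (fun n => ((bb w n : ℝ) : ℂ)) ≤ ((1 : ℝ) : EReal) := by
      refine LSeries.abscissaOfAbsConv_le_of_forall_lt_LSeriesSummable fun y hy => ?_
      exact bb_summable w _ (by simpa using hy)
    exact lt_of_le_of_lt h2 (by exact_mod_cast hs)
  have h2 := LSeries_hasDerivAt habs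
  have hO := (oo_sum w s (by linarith)).LSeriesHasSum
  have hall := ((vv_L w s hs).sub (sq_L w s hs)).sub hO
  have hcong : LSeriesHasSum (LSeries.logMul (fun n => ((bb w n : ℝ) : ℂ))) s
      (-JJ w s + al w 1 / (s - 1) - (-JJ (w2 w) (2 * s) + al (w2 w) 1 / (2 * s - 1)) -
        LSeries (fun n => ((oo w n : ℝ) : ℂ)) s) := by
    refine (LSeriesHasSum_congr s _ fun {n} hn => ?_).1 hall
    simp only [Pi.sub_apply, LSeries.logMul]
    have h6 : Complex.log n = ((Real.log n : ℝ) : ℂ) := by rw [Complex.natCast_log]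
    rw [h6, ← Complex.ofReal_sub, ← Complex.ofReal_sub, ← Complex.ofReal_mul]
    refine congrArg Complex.ofReal ?_
    unfold oo bb
    split_ifs
    · ring
    · ring
  have e : -LSeries (LSeries.logMul (fun n => ((bb w n : ℝ) : ℂ))) s = GG w s := by
    rw [hcong.LSeries_eq, al_one w h1]
    unfold GG
    ring
  rw [e] at h2
  exact h2

end Pool.Agent.H52.PR
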