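import Mathlib

/-!
PRIME RACES (MP_2936c6_nt) v2: positive definite functions on the real line as a discrete group: definition.
-/

set_option autoImplicit false

namespace Pool.Agent.H52.PR

/-- positive definite on the discrete group of the reals -/
def PD (R : ℝ → ℂ) : Prop := ∀ (F : Finset ℝ) (c : ℝ → ℂ),
  0 ≤ (∑ s ∈ F, ∑ t ∈ F, c s * (starRingEnd ℂ) (c t) * R (s - t)).re

end Pool.Agent.H52.PR
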