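import Pool.Agent.H52.PR.Der
import Pool.Agent.H52.PR.Pdf

/-!
PRIME RACES (MP_2936c6_nt) v2, module Lan3: the Landau step with a general majorant `m`.

`am m w n = m n - BB w n ≥ 0`, `A = LSeries (am m w)`, `M = LSeries m`. As in `Lan.lean` (private lemmas there: copy and adapt; `C ζ(z-α)` is
replaced by `M(z)`): `E(z) = (z-1)(M(z) - A(z) - K(z-1))`, `E' = G(· - 1)` off the poles, `E` analytic to the right of the abscissa (and of
`1 + σ₀`).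
`lan_alt`: if the abscissa `x₀` is `> 1 + σ₀`, put `β = x₀ - 1`; `hr` gives the real `κ` at `β`; `κ = 0`: contradiction by `landau_local`; `κ < 0`:
`E(x) → +∞`, contradiction; so `κ > 0`.
`lan_ext`: identity theorem. `lan_pd`: near `z₀ = 1 + β + it`, on the right half disc, `E(z) = r t log(z - z₀) + P(z) + c`, so
`A(z₀ + δ) = M(z₀ + δ) - r t log δ/(β + it) + O(1)`, `A(z₀ + δ)/log(1/δ) → μ t + r t/(β + it)` as `δ → 0+`. For `δ > 0`:
`∑ c_s conj(c_t) A(1 + β + δ + i(s-t)) = ∑_n am n n^(-1-β-δ) |∑ c_s n^(-is)|² ≥ 0` (absolutely convergent). Divide by `log(1/δ) > 0`, `δ → 0+`.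
-/

set_option autoImplicit false

namespace Pool.Agent.H52.PR

open Filter Topology

/-- the nonnegative coefficients -/
noncomputable def am {q : ℕ} [NeZero q] (m : ℕ → ℝ) (w : (ZMod q)ˣ → ℝ) (n : ℕ) : ℂ := ((m n - BB w n : ℝ) : ℂ)

section Gen3

open Complex LSeries Pool.Agent.H24.TS
open scoped ComplexOrder ComplexConjugate

/-- identity theorem for meromorphic functions on a half plane -/
private theorem mer_id (f g : ℂ → ℂ) (x₀ x₁ : ℝ) (hf : MeromorphicOn f {z : ℂ | x₀ < z.re})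
    (hg : MeromorphicOn g {z : ℂ | x₀ < z.re}) (heq : ∀ z : ℂ, x₁ < z.re → f z = g z) (z : ℂ)
    (hz : x₀ < z.re) : f =ᶠ[𝓝[≠] z] g := by
  set U : Set ℂ := {z : ℂ | x₀ < z.re} with hU
  have hUc : IsConnected U := ⟨⟨z, hz⟩, (convex_halfSpace_re_gt x₀).isPreconnected⟩
  have hm : MeromorphicOn (f - g) U := hf.sub hg
  set b : ℝ := max x₀ x₁ + 1 with hb
  have hb0 : x₀ < b := by rw [hb]; linarith [le_max_left x₀ x₁]
  have hb1 : x₁ < b := by rw [hb]; linarith [le_max_right x₀ x₁]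
  have hbU : (b : ℂ) ∈ U := by
    show x₀ < (b : ℂ).re
    rw [ofReal_re]; exact hb0
  have h0 : meromorphicOrderAt (f - g) (b : ℂ) = ⊤ := by
    rw [meromorphicOrderAt_eq_top_iff]
    have h1 : ∀ᶠ s : ℂ in 𝓝 (b : ℂ), x₁ < s.re := by
      refine (isOpen_lt continuous_const Complex.continuous_re).mem_nhds ?_
      show x₁ < (b : ℂ).re
      rw [ofReal_re]; exact hb1
    filter_upwards [nhdsWithin_le_nhds h1] with s hs
    rw [Pi.sub_apply, heq s hs, sub_self]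
  have h2 : meromorphicOrderAt (f - g) z = ⊤ := by
    by_contra hne
    exact (hm.exists_meromorphicOrderAt_ne_top_iff_forall_mem hUc).1 ⟨z, hz, hne⟩ (b : ℂ) hbU h0
  rw [meromorphicOrderAt_eq_top_iff] at h2
  filter_upwards [h2] with s hs
  rw [Pi.sub_apply] at hs
  exact sub_eq_zero.1 hs

/-- the local form of a primitive of a function with a simple pole -/
private theorem near_log (E G H : ℂ → ℂ) (z₀ r : ℂ)
    (hE : ∀ z : ℂ, z₀.re < z.re → AnalyticAt ℂ E z)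
    (hEG : ∀ z : ℂ, z₀.re < z.re → deriv E =ᶠ[𝓝[≠] z] fun z => G (z - 1))
    (hH : AnalyticAt ℂ H (z₀ - 1)) (hG : ∀ᶠ s in 𝓝[≠] (z₀ - 1), G s = r / (s - (z₀ - 1)) + H s) :
    ∃ P : ℂ → ℂ, AnalyticAt ℂ P z₀ ∧ ∀ᶠ z in 𝓝 z₀, z₀.re < z.re → E z = r * Complex.log (z - z₀) + P z := by
  have h3 : ∀ᶠ s : ℂ in 𝓝 (z₀ - 1), AnalyticAt ℂ H s ∧
      (s ≠ z₀ - 1 → G s = r / (s - (z₀ - 1)) + H s) := by
    refine hH.eventually_analyticAt.and ?_
    rw [eventually_nhdsWithin_iff] at hG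
    filter_upwards [hG] with s hs hne using hs hne
  have hc : Tendsto (fun z : ℂ => z - 1) (𝓝 z₀) (𝓝 (z₀ - 1)) :=
    (continuous_id.sub continuous_const).tendsto _
  obtain ⟨R, hR, hbR⟩ := Metric.eventually_nhds_iff_ball.1 (hc.eventually h3)
  have hHan' : ∀ z ∈ Metric.ball z₀ R, DifferentiableAt ℂ (fun z => H (z - 1)) z := by
    intro z hz
    exact DifferentiableAt.comp z (hbR z hz).1.differentiableAt (by fun_prop)
  have hHB : DifferentiableOn ℂ (fun z => H (z - 1)) (Metric.ball z₀ R) :=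
    fun z hz => (hHan' z hz).differentiableWithinAt
  obtain ⟨P, hP⟩ := hHB.isExactOn_ball
  set W : Set ℂ := Metric.ball z₀ R ∩ {z : ℂ | z₀.re < z.re} with hW
  have hWo : IsOpen W :=
    Metric.isOpen_ball.inter (isOpen_lt continuous_const Complex.continuous_re)
  have hWc : Convex ℝ W := (convex_ball _ _).inter (convex_halfSpace_re_gt z₀.re)
  have hder0 : ∀ z ∈ W, deriv E z = r / (z - z₀) + H (z - 1) := by
    intro z hz
    have hz2 : z₀.re < z.re := hz.2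
    have hzx : z - z₀ ≠ 0 := by
      intro h
      have h5 : (z - z₀).re = 0 := by rw [h]; simp
      rw [sub_re] at h5
      linarith
    have h5 : ContinuousAt (deriv E) z := (hE z hz2).deriv.continuousAt
    have h6 : ContinuousAt (fun z : ℂ => r / (z - z₀) + H (z - 1)) z := by
      refine ContinuousAt.add ?_ (hHan' z hz.1).continuousAt
      exact ContinuousAt.div continuousAt_const (by fun_prop) hzx
    have h7 : deriv E =ᶠ[𝓝[≠] z] fun z : ℂ => r / (z - z₀) + H (z - 1) := by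
      have h8 : ∀ᶠ w in 𝓝[≠] z, w ∈ W := nhdsWithin_le_nhds (hWo.mem_nhds hz)
      filter_upwards [hEG z hz2, h8] with w hw hwW
      rw [hw]
      have hw2 : z₀.re < w.re := hwW.2
      have h9 := (hbR w hwW.1).2 (by
        intro h
        have h10 : (w - 1).re = (z₀ - 1).re := by rw [h]
        rw [sub_re, sub_re] at h10
        linarith)
      rw [h9]
      congr 2
      ring
    exact ((h5.eventuallyEq_nhds_iff_eventuallyEq_nhdsNE h6).1 h7).eq_of_nhds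
  have hder : ∀ z ∈ W, HasDerivAt (fun w => E w - (r * Complex.log (w - z₀) + P w)) 0 z := by
    intro z hz
    have hz2 : z₀.re < z.re := hz.2
    have h3 := (hE z hz2).differentiableAt.hasDerivAt
    rw [hder0 z hz] at h3
    have hsl : z - z₀ ∈ Complex.slitPlane := by
      left
      rw [sub_re]; linarith
    have h4 : HasDerivAt (fun w : ℂ => r * Complex.log (w - z₀)) (r / (z - z₀)) z := by
      have h5 : HasDerivAt (fun w : ℂ => w - z₀) 1 z := (hasDerivAt_id z).sub_const _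
      have h6 := (h5.clog hsl).const_mul r
      rwa [mul_one_div] at h6
    have h5 := h3.sub (h4.add (hP z hz.1))
    rwa [sub_self] at h5
  obtain ⟨c, hc'⟩ : ∃ c : ℂ, ∀ z ∈ W, E z - (r * Complex.log (z - z₀) + P z) = c := by
    refine hWo.exists_is_const_of_deriv_eq_zero hWc.isPreconnected
      (fun z hz => (hder z hz).differentiableAt.differentiableWithinAt)
      (fun z hz => (hder z hz).deriv)
  have hPd : DifferentiableOn ℂ P (Metric.ball z₀ R) :=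
    fun z hz => (hP z hz).differentiableAt.differentiableWithinAt
  refine ⟨fun z => P z + c, ?_, ?_⟩
  · exact (hPd.analyticAt (Metric.isOpen_ball.mem_nhds (Metric.mem_ball_self hR))).add analyticAt_const
  · filter_upwards [Metric.isOpen_ball.mem_nhds (Metric.mem_ball_self hR)] with z hz hz2
    have := hc' z ⟨hz, hz2⟩
    rw [← this]
    ring

/-- Dirichlet series with nonnegative coefficients are positive definite on vertical lines -/
private theorem pd_series (a : ℕ → ℂ) (ha : 0 ≤ a) (σ : ℝ) (hσ : LSeriesSummable a (σ : ℂ))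
    (T : Finset ℝ) (c : ℝ → ℂ) :
    0 ≤ ∑ s ∈ T, ∑ t ∈ T, c s * conj (c t) * LSeries a ((σ : ℂ) + ((s - t : ℝ) : ℂ) * I) := by
  have hre : ∀ u : ℝ, ((σ : ℂ) + (u : ℂ) * I).re = σ := by
    intro u
    rw [add_re, ofReal_re, re_ofReal_mul, I_re, mul_zero, add_zero]
  have hsum : ∀ u : ℝ, LSeriesSummable a ((σ : ℂ) + (u : ℂ) * I) := by
    intro u
    refine (LSeriesSummable_iff_of_re_eq_re ?_).1 hσ
    rw [hre, ofReal_re]
  have hterm : ∀ n : ℕ, ∑ s ∈ T, ∑ t ∈ T, c s * conj (c t) * term a ((σ : ℂ) + ((s - t : ℝ) : ℂ) * I) n =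
      term a (σ : ℂ) n * ((∑ s ∈ T, c s * (n : ℂ) ^ (-((s : ℂ) * I))) *
        conj (∑ s ∈ T, c s * (n : ℂ) ^ (-((s : ℂ) * I)))) := by
    intro n
    rcases eq_or_ne n 0 with rfl | hn
    · simp
    have hn' : (n : ℂ) ≠ 0 := Nat.cast_ne_zero.2 hn
    have h1 : ∀ s t : ℝ, term a ((σ : ℂ) + ((s - t : ℝ) : ℂ) * I) n =
        term a (σ : ℂ) n * ((n : ℂ) ^ (-((s : ℂ) * I)) * conj ((n : ℂ) ^ (-((t : ℂ) * I)))) := by
      intro s t
      rw [term_of_ne_zero hn, term_of_ne_zero hn]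
      have h2 : conj ((n : ℂ) ^ (-((t : ℂ) * I))) = (n : ℂ) ^ ((t : ℂ) * I) := by
        have h4 : (n : ℂ).arg ≠ Real.pi := by
          rw [Complex.natCast_arg]
          exact Real.pi_ne_zero.symm
        have h5 := Complex.conj_cpow (n : ℂ) ((t : ℂ) * I) h4
        rw [map_mul, conj_ofReal, conj_I, mul_neg, map_natCast] at h5
        exact h5.symm
      rw [h2, ← Complex.cpow_add _ _ hn']
      have h3 : -((s : ℂ) * I) + (t : ℂ) * I = -(((s - t : ℝ) : ℂ) * I) := by push_cast; ring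
      rw [h3, Complex.cpow_add _ _ hn', Complex.cpow_neg, div_eq_mul_inv, div_eq_mul_inv, mul_inv, mul_assoc]
    rw [map_sum, Finset.sum_mul_sum, Finset.mul_sum]
    refine Finset.sum_congr rfl fun s _ => ?_
    rw [Finset.mul_sum]
    refine Finset.sum_congr rfl fun t _ => ?_
    rw [h1 s t, map_mul]
    ring
  have e : ∑ s ∈ T, ∑ t ∈ T, c s * conj (c t) * LSeries a ((σ : ℂ) + ((s - t : ℝ) : ℂ) * I) =
      ∑' n, term a (σ : ℂ) n * ((∑ s ∈ T, c s * (n : ℂ) ^ (-((s : ℂ) * I))) *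
        conj (∑ s ∈ T, c s * (n : ℂ) ^ (-((s : ℂ) * I)))) := by
    rw [← tsum_congr hterm]
    rw [Summable.tsum_finsetSum]
    · refine Finset.sum_congr rfl fun s _ => ?_
      rw [Summable.tsum_finsetSum]
      · refine Finset.sum_congr rfl fun t _ => ?_
        rw [tsum_mul_left]
        rfl
      · intro t _
        exact (hsum (s - t)).mul_left _
    · intro s _
      refine summable_sum fun t _ => ?_
      exact (hsum (s - t)).mul_left _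
  rw [e]
  refine tsum_nonneg fun n => ?_
  refine mul_nonneg ?_ ?_
  · rcases eq_or_ne n 0 with rfl | hn
    · simp
    rw [term_of_ne_zero hn, div_eq_mul_inv]
    exact mul_nonneg (ha n) (inv_natCast_cpow_ofReal_pos hn σ).le
  · rw [Complex.mul_conj]
    exact Complex.zero_le_real.2 (Complex.normSq_nonneg _)

/-- the limit of a positive definite family -/
private theorem pd_lim (a : ℕ → ℂ) (ha : 0 ≤ a) (x₀ : ℝ) (habs : abscissaOfAbsConv a ≤ (x₀ : EReal))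
    (R : ℝ → ℂ) (hR : ∀ t : ℝ, Tendsto (fun δ : ℝ => LSeries a (((x₀ + δ : ℝ) : ℂ) + (t : ℂ) * I) /
      ((Real.log (1 / δ) : ℝ) : ℂ)) (𝓝[>] 0) (𝓝 (R t))) (T : Finset ℝ) (c : ℝ → ℂ) :
    0 ≤ ∑ s ∈ T, ∑ t ∈ T, c s * conj (c t) * R (s - t) := by
  have h1 : Tendsto (fun δ : ℝ => ∑ s ∈ T, ∑ t ∈ T, c s * conj (c t) *
      (LSeries a (((x₀ + δ : ℝ) : ℂ) + ((s - t : ℝ) : ℂ) * I) / ((Real.log (1 / δ) : ℝ) : ℂ))) (𝓝[>] 0)
      (𝓝 (∑ s ∈ T, ∑ t ∈ T, c s * conj (c t) * R (s - t))) := by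
    refine tendsto_finsetSum _ fun s _ => ?_
    refine tendsto_finsetSum _ fun t _ => ?_
    exact (hR (s - t)).const_mul _
  refine ge_of_tendsto h1 ?_
  have h2 : Set.Ioo (0 : ℝ) 1 ∈ 𝓝[>] (0 : ℝ) := Ioo_mem_nhdsGT one_pos
  filter_upwards [h2] with δ hδ
  have hlog : 0 < Real.log (1 / δ) := Real.log_pos (by rw [lt_div_iff₀ hδ.1]; linarith [hδ.2])
  have h3 := pd_series a ha (x₀ + δ) (LSeriesSummable_of_abscissaOfAbsConv_lt_re (lt_of_le_of_lt habs (by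
    rw [ofReal_re]; exact_mod_cast (by linarith [hδ.1] : x₀ < x₀ + δ)))) T c
  have e : ∑ s ∈ T, ∑ t ∈ T, c s * conj (c t) *
      (LSeries a (((x₀ + δ : ℝ) : ℂ) + ((s - t : ℝ) : ℂ) * I) / ((Real.log (1 / δ) : ℝ) : ℂ)) =
      (∑ s ∈ T, ∑ t ∈ T, c s * conj (c t) * LSeries a (((x₀ + δ : ℝ) : ℂ) + ((s - t : ℝ) : ℂ) * I)) *
        (((Real.log (1 / δ))⁻¹ : ℝ) : ℂ) := by
    rw [Finset.sum_mul]
    refine Finset.sum_congr rfl fun s _ => ?_
    rw [Finset.sum_mul]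
    refine Finset.sum_congr rfl fun t _ => ?_
    rw [ofReal_inv]
    ring
  rw [e]
  exact mul_nonneg h3 (Complex.zero_le_real.2 (inv_nonneg.2 hlog.le))

private theorem a3_sum (B b m : ℕ → ℝ) (σ₀ : ℝ) (hσ : σ₀ < 1)
    (hms : ∀ z : ℂ, 1 + σ₀ < z.re → LSeriesSummable (fun n => ((m n : ℝ) : ℂ)) z) (K : ℂ → ℂ)
    (hK : ∀ s : ℂ, 1 < s.re →
      LSeriesSummable (fun n => ((B n : ℝ) : ℂ)) (s + 1) ∧
      LSeries (fun n => ((B n : ℝ) : ℂ)) (s + 1) =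
        LSeries (fun n => ((b n : ℝ) : ℂ)) s / s + K s) {s : ℂ} (hs : 1 < s.re) :
    LSeriesHasSum (fun n => ((m n - B n : ℝ) : ℂ)) (s + 1)
      (LSeries (fun n => ((m n : ℝ) : ℂ)) (s + 1) - (LSeries (fun n => ((b n : ℝ) : ℂ)) s / s + K s)) := by
  have h1 : LSeriesHasSum (fun n => ((B n : ℝ) : ℂ)) (s + 1)
      (LSeries (fun n => ((b n : ℝ) : ℂ)) s / s + K s) := by
    rw [← (hK s hs).2]
    exact (hK s hs).1.LSeriesHasSum
  have h3 := (hms (s + 1) (by rw [add_re, one_re]; linarith)).LSeriesHasSum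
  have h4 := h3.sub h1
  have e4 : (fun n => ((m n - B n : ℝ) : ℂ)) = (fun n : ℕ => ((m n : ℝ) : ℂ)) -
      (fun n : ℕ => ((B n : ℝ) : ℂ)) := by
    ext n
    simp only [Pi.sub_apply]
    push_cast
    ring
  rw [e4]
  exact h4

private theorem a3_two (B b m : ℕ → ℝ) (σ₀ : ℝ) (hσ : σ₀ < 1)
    (hms : ∀ z : ℂ, 1 + σ₀ < z.re → LSeriesSummable (fun n => ((m n : ℝ) : ℂ)) z) (K : ℂ → ℂ)
    (hK : ∀ s : ℂ, 1 < s.re →
      LSeriesSummable (fun n => ((B n : ℝ) : ℂ)) (s + 1) ∧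
      LSeries (fun n => ((B n : ℝ) : ℂ)) (s + 1) =
        LSeries (fun n => ((b n : ℝ) : ℂ)) s / s + K s) :
    abscissaOfAbsConv (fun n => ((m n - B n : ℝ) : ℂ)) ≤ ((2 : ℝ) : EReal) := by
  refine abscissaOfAbsConv_le_of_forall_lt_LSeriesSummable fun y hy => ?_
  have h3 := (a3_sum B b m σ₀ hσ hms K hK (s := ((y - 1 : ℝ) : ℂ))
    (by rw [ofReal_re]; linarith)).LSeriesSummable
  have e : ((y - 1 : ℝ) : ℂ) + 1 = (y : ℂ) := by push_cast; ring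
  rwa [e] at h3

/-- analyticity of the majorant -/
private theorem m3_an (m : ℕ → ℝ) (σ₀ : ℝ)
    (hms : ∀ z : ℂ, 1 + σ₀ < z.re → LSeriesSummable (fun n => ((m n : ℝ) : ℂ)) z) (z : ℂ)
    (hz : 1 + σ₀ < z.re) : AnalyticAt ℂ (LSeries (fun n => ((m n : ℝ) : ℂ))) z := by
  refine LSeries_analyticOnNhd _ z ?_
  show abscissaOfAbsConv (fun n => ((m n : ℝ) : ℂ)) < _
  have h1 : abscissaOfAbsConv (fun n => ((m n : ℝ) : ℂ)) ≤ ((1 + σ₀ : ℝ) : EReal) :=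
    abscissaOfAbsConv_le_of_forall_lt_LSeriesSummable fun y hy => hms _ (by rw [ofReal_re]; exact hy)
  refine lt_of_le_of_lt h1 ?_
  exact_mod_cast hz

private theorem k3_an (K : ℂ → ℂ) (hK1 : DifferentiableOn ℂ K {s : ℂ | 0 < s.re}) (z : ℂ) (hz : 1 < z.re) :
    AnalyticAt ℂ (fun z => K (z - 1)) z := by
  have hU : IsOpen {w : ℂ | 1 < w.re} := isOpen_lt continuous_const Complex.continuous_re
  have h3 : DifferentiableOn ℂ (fun z : ℂ => K (z - 1)) {w : ℂ | 1 < w.re} := by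
    refine hK1.comp (by fun_prop) ?_
    intro w hw
    have hw : 1 < w.re := hw
    show 0 < (w - 1).re
    rw [sub_re, one_re]
    linarith
  exact h3.analyticAt (hU.mem_nhds hz)

/-- the function `E`, analytic to the right of the abscissa, with derivative `G (z - 1)` -/
private theorem lan3_E (B b m : ℕ → ℝ) (σ₀ : ℝ) (h0 : 0 < σ₀) (hσ : σ₀ < 1)
    (hms : ∀ z : ℂ, 1 + σ₀ < z.re → LSeriesSummable (fun n => ((m n : ℝ) : ℂ)) z)
    (K : ℂ → ℂ) (hK1 : DifferentiableOn ℂ K {s : ℂ | 0 < s.re})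
    (hK : ∀ s : ℂ, 1 < s.re →
      LSeriesSummable (fun n => ((B n : ℝ) : ℂ)) (s + 1) ∧
      LSeries (fun n => ((B n : ℝ) : ℂ)) (s + 1) =
        LSeries (fun n => ((b n : ℝ) : ℂ)) s / s + K s) (G : ℂ → ℂ)
    (hm : MeromorphicOn G {s : ℂ | σ₀ < s.re})
    (hd : ∀ s : ℂ, 1 < s.re → HasDerivAt (LSeries (fun n => ((b n : ℝ) : ℂ))) (G s) s)
    (x₀ : ℝ) (hx : 1 + σ₀ ≤ x₀)
    (habs : abscissaOfAbsConv (fun n => ((m n - B n : ℝ) : ℂ)) ≤ (x₀ : EReal)) :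
    (∀ z : ℂ, x₀ < z.re → AnalyticAt ℂ (fun z => (z - 1) * (LSeries (fun n => ((m n : ℝ) : ℂ)) z -
        LSeries (fun n => ((m n - B n : ℝ) : ℂ)) z - K (z - 1))) z) ∧
    (∀ z : ℂ, x₀ < z.re → deriv (fun z => (z - 1) * (LSeries (fun n => ((m n : ℝ) : ℂ)) z -
        LSeries (fun n => ((m n - B n : ℝ) : ℂ)) z - K (z - 1))) =ᶠ[𝓝[≠] z] fun z => G (z - 1)) := by
  set A : ℂ → ℂ := LSeries (fun n => ((m n - B n : ℝ) : ℂ)) with hA
  set M : ℂ → ℂ := LSeries (fun n => ((m n : ℝ) : ℂ)) with hM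
  have hAan : ∀ z : ℂ, x₀ < z.re → AnalyticAt ℂ A z := by
    intro z hz
    refine LSeries_analyticOnNhd _ z ?_
    show abscissaOfAbsConv (fun n => ((m n - B n : ℝ) : ℂ)) < _
    refine lt_of_le_of_lt habs ?_
    exact_mod_cast hz
  set E : ℂ → ℂ := fun z => (z - 1) * (M z - A z - K (z - 1)) with hE
  have hEan : ∀ z : ℂ, x₀ < z.re → AnalyticAt ℂ E z := by
    intro z hz
    have h3 := hAan z hz
    have h4 := k3_an K hK1 z (by linarith)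
    have h5 := m3_an m σ₀ hms z (by linarith)
    have h6 : AnalyticAt ℂ (fun z : ℂ => z - 1) z := by fun_prop
    exact h6.mul ((h5.sub h3).sub h4)
  have hED : ∀ z : ℂ, 2 < z.re → E z = LSeries (fun n => ((b n : ℝ) : ℂ)) (z - 1) := by
    intro z hz
    have h3 := (a3_sum B b m σ₀ hσ hms K hK (s := z - 1)
      (by rw [sub_re, one_re]; linarith)).LSeries_eq
    have e : z - 1 + 1 = z := by ring
    rw [e] at h3
    simp only [hE, hA]
    rw [h3]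
    have hz1 : z - 1 ≠ 0 := by
      intro h
      have h4 : (z - 1).re = 0 := by rw [h]; simp
      rw [sub_re, one_re] at h4
      linarith
    simp only [hM]
    field_simp
    ring
  have hE' : ∀ z : ℂ, 2 < z.re → deriv E z = G (z - 1) := by
    intro z hz
    have h3 : E =ᶠ[𝓝 z] fun w => LSeries (fun n => ((b n : ℝ) : ℂ)) (w - 1) := by
      have hU : IsOpen {w : ℂ | 2 < w.re} := isOpen_lt continuous_const Complex.continuous_re
      filter_upwards [hU.mem_nhds hz] with w hw using hED w hw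
    rw [h3.deriv_eq]
    have h4 := hd (z - 1) (by rw [sub_re, one_re]; linarith)
    exact (h4.comp_sub_const z 1).deriv
  refine ⟨hEan, fun z hz => ?_⟩
  refine mer_id (deriv E) (fun z => G (z - 1)) x₀ 2 (fun w hw => (hEan w hw).deriv.meromorphicAt)
    (fun w hw => ?_) hE' z hz
  have hw : x₀ < w.re := hw
  have h7 : MeromorphicAt G (w - 1) := by
    refine hm (w - 1) ?_
    show σ₀ < (w - 1).re
    rw [sub_re, one_re]; linarith
  exact h7.comp_analyticAt (f := G) (g := fun z : ℂ => z - 1) (by fun_prop)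

private theorem alt_gen (B b m : ℕ → ℝ) (L : ℝ) (hL0 : 0 ≤ L) (hL : ∀ n : ℕ, |B n| ≤ L * n)
    (hb : ∀ n, B (n + 1) = B n + b (n + 1))
    (hbs : ∀ s : ℂ, 1 < s.re → LSeriesSummable (fun n => ((b n : ℝ) : ℂ)) s)
    (G : ℂ → ℂ) (σ₀ : ℝ) (h0 : 0 < σ₀) (hσ : σ₀ < 1)
    (hms : ∀ z : ℂ, 1 + σ₀ < z.re → LSeriesSummable (fun n => ((m n : ℝ) : ℂ)) z)
    (hB : ∀ n : ℕ, B n ≤ m n)
    (hm : MeromorphicOn G {s : ℂ | σ₀ < s.re})
    (hd : ∀ s : ℂ, 1 < s.re → HasDerivAt (LSeries (fun n => ((b n : ℝ) : ℂ))) (G s) s)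
    (hr : ∀ x : ℝ, σ₀ < x → ∃ κ : ℝ, ∃ H : ℂ → ℂ, AnalyticAt ℂ H (x : ℂ) ∧
      ∀ᶠ s in 𝓝[≠] (x : ℂ), G s = (κ : ℂ) / (s - (x : ℂ)) + H s) :
    abscissaOfAbsConv (fun n => ((m n - B n : ℝ) : ℂ)) ≤ ((1 + σ₀ : ℝ) : EReal) ∨
    ∃ β : ℝ, σ₀ < β ∧ abscissaOfAbsConv (fun n => ((m n - B n : ℝ) : ℂ)) = ((1 + β : ℝ) : EReal) ∧
      ∃ κ : ℝ, 0 < κ ∧ ∃ H : ℂ → ℂ, AnalyticAt ℂ H (β : ℂ) ∧
        ∀ᶠ s in 𝓝[≠] (β : ℂ), G s = (κ : ℂ) / (s - (β : ℂ)) + H s := by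
  obtain ⟨K, hK1, hK⟩ := lnb B b L hL0 hL hb hbs
  have ha : (0 : ℕ → ℂ) ≤ (fun n => ((m n - B n : ℝ) : ℂ)) := by
    intro n
    exact Complex.zero_le_real.2 (sub_nonneg.2 (hB n))
  have h2 := a3_two B b m σ₀ hσ hms K hK
  by_cases hcase : abscissaOfAbsConv (fun n => ((m n - B n : ℝ) : ℂ)) ≤ ((1 + σ₀ : ℝ) : EReal)
  · exact Or.inl hcase
  right
  have hcon := not_le.1 hcase
  have htop : abscissaOfAbsConv (fun n => ((m n - B n : ℝ) : ℂ)) ≠ ⊤ :=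
    ne_of_lt (lt_of_le_of_lt h2 (EReal.coe_lt_top _))
  have hbot : abscissaOfAbsConv (fun n => ((m n - B n : ℝ) : ℂ)) ≠ ⊥ :=
    ne_of_gt (lt_trans (EReal.bot_lt_coe _) hcon)
  obtain ⟨x₀, hx₀⟩ : ∃ x₀ : ℝ, abscissaOfAbsConv (fun n => ((m n - B n : ℝ) : ℂ)) = (x₀ : EReal) :=
    ⟨(abscissaOfAbsConv (fun n => ((m n - B n : ℝ) : ℂ))).toReal, (EReal.coe_toReal htop hbot).symm⟩
  have hσx : 1 + σ₀ < x₀ := by
    rw [hx₀] at hcon
    exact_mod_cast hcon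
  have e1 : (1 : ℝ) + (x₀ - 1) = x₀ := by ring
  refine ⟨x₀ - 1, by linarith, by rw [e1]; exact hx₀, ?_⟩
  obtain ⟨κ, H, hHan, hHG⟩ := hr (x₀ - 1) (by linarith)
  refine ⟨κ, ?_, H, hHan, hHG⟩
  by_contra hκ0
  have hκ : κ ≤ 0 := not_lt.1 hκ0
  apply hcase
  refine landau_local _ ha _ htop ?_
  intro x₁ hx₁ habs₁
  have hx10 : x₁ = x₀ := by
    rw [hx₀] at habs₁
    exact_mod_cast habs₁.symm
  subst hx10
  obtain ⟨hEan, hEG⟩ := lan3_E B b m σ₀ h0 hσ hms K hK1 hK G hm hd x₁ hx₁.le hx₀.le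
  set A : ℂ → ℂ := LSeries (fun n => ((m n - B n : ℝ) : ℂ)) with hA
  set M : ℂ → ℂ := LSeries (fun n => ((m n : ℝ) : ℂ)) with hM
  set E : ℂ → ℂ := fun z => (z - 1) * (M z - A z - K (z - 1)) with hE
  have ez : (x₁ : ℂ) - 1 = ((x₁ - 1 : ℝ) : ℂ) := by push_cast; ring
  obtain ⟨P, hP, hEP⟩ := near_log E G H (x₁ : ℂ) (κ : ℂ) (fun z hz => hEan z (by rwa [ofReal_re] at hz))
    (fun z hz => hEG z (by rwa [ofReal_re] at hz)) (by rw [ez]; exact hHan) (by rw [ez]; exact hHG)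
  have hMan := m3_an m σ₀ hms (x₁ : ℂ) (by rw [ofReal_re]; exact hx₁)
  have hKan := k3_an K hK1 (x₁ : ℂ) (by rw [ofReal_re]; linarith)
  rcases hκ.lt_or_eq with hneg | hzero
  · exfalso
    set Q : ℂ → ℂ := fun z => (z - 1) * (M z - K (z - 1)) - P z with hQ
    have hQc : ContinuousAt Q (x₁ : ℂ) := by
      have h8 : ContinuousAt (fun z : ℂ => z - 1) (x₁ : ℂ) := by fun_prop
      exact (h8.mul (hMan.continuousAt.sub hKan.continuousAt)).sub hP.continuousAt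
    have hT : Tendsto (fun x : ℝ => (x : ℂ)) (𝓝[>] x₁) (𝓝 (x₁ : ℂ)) :=
      (Complex.continuous_ofReal.tendsto x₁).mono_left nhdsWithin_le_nhds
    have hQ1 : Tendsto (fun x : ℝ => (Q (x : ℂ)).re) (𝓝[>] x₁) (𝓝 (Q (x₁ : ℂ)).re) :=
      (Complex.continuous_re.continuousAt.tendsto.comp (hQc.tendsto.comp hT))
    have hlog : Tendsto (fun x : ℝ => κ * Real.log (x - x₁)) (𝓝[>] x₁) atTop := by
      have h5 : Tendsto (fun x : ℝ => x - x₁) (𝓝[>] x₁) (𝓝[>] 0) := by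
        refine tendsto_nhdsWithin_iff.2 ⟨?_, ?_⟩
        · have h6 : Tendsto (fun x : ℝ => x - x₁) (𝓝 x₁) (𝓝 (x₁ - x₁)) :=
            (continuous_id.sub continuous_const).tendsto _
          rw [sub_self] at h6
          exact h6.mono_left nhdsWithin_le_nhds
        · filter_upwards [self_mem_nhdsWithin] with x hx
          have hx : x₁ < x := hx
          show 0 < x - x₁
          linarith
      exact (Real.tendsto_log_nhdsGT_zero.comp h5).const_mul_atBot_of_neg hneg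
    have hle : ∀ᶠ x : ℝ in 𝓝[>] x₁, κ * Real.log (x - x₁) ≤ (Q (x : ℂ)).re := by
      filter_upwards [hT.eventually hEP, self_mem_nhdsWithin] with x hx hx'
      have hx' : x₁ < x := hx'
      have h7 := hx (by rw [ofReal_re, ofReal_re]; exact hx')
      have h8 : Complex.log ((x : ℂ) - x₁) = ((Real.log (x - x₁) : ℝ) : ℂ) := by
        rw [← ofReal_sub, ofReal_log (by linarith)]
      rw [h8] at h7
      have h9 : (0 : ℝ) ≤ (A (x : ℂ)).re := by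
        have h10 : (0 : ℂ) ≤ A (x : ℂ) := by
          rw [hA]
          unfold LSeries
          refine tsum_nonneg fun n => ?_
          rcases eq_or_ne n 0 with rfl | hn
          · simp
          rw [term_of_ne_zero hn, div_eq_mul_inv]
          exact mul_nonneg (ha n) (inv_natCast_cpow_ofReal_pos hn x).le
        exact (Complex.nonneg_iff.1 h10).1
      have h10 : ((κ * Real.log (x - x₁) : ℝ) : ℂ) = Q (x : ℂ) - ((x - 1 : ℝ) : ℂ) * A (x : ℂ) := by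
        simp only [hQ]
        simp only [hE] at h7
        push_cast
        linear_combination -h7
      have h11 := congrArg Complex.re h10
      rw [ofReal_re, sub_re, re_ofReal_mul] at h11
      rw [h11]
      have h12 : 0 ≤ (x - 1) * (A (x : ℂ)).re := mul_nonneg (by linarith) h9
      linarith
    have hQT : Tendsto (fun x : ℝ => (Q (x : ℂ)).re) (𝓝[>] x₁) atTop := tendsto_atTop_mono' _ hle hlog
    exact not_tendsto_nhds_of_tendsto_atTop hQT _ hQ1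
  · -- extension
    have h4 : ∀ᶠ z : ℂ in 𝓝 (x₁ : ℂ), 1 < z.re := by
      refine (isOpen_lt continuous_const Complex.continuous_re).mem_nhds ?_
      show 1 < (x₁ : ℂ).re
      rw [ofReal_re]; linarith
    obtain ⟨R, hR, hbR⟩ := Metric.eventually_nhds_iff_ball.1
      ((hEP.and h4).and ((hP.eventually_analyticAt.and hMan.eventually_analyticAt).and
        hKan.eventually_analyticAt))
    refine ⟨fun z => M z - K (z - 1) - P z / (z - 1), R, hR, ?_, ?_⟩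
    · intro z hz
      obtain ⟨⟨_, h5⟩, ⟨h6, h7⟩, h8⟩ := hbR z hz
      refine DifferentiableAt.differentiableWithinAt ?_
      have h5 : z - 1 ≠ 0 := by
        intro h
        have h4 : (z - 1).re = 0 := by rw [h]; simp
        rw [sub_re, one_re] at h4
        linarith
      exact (h7.differentiableAt.sub h8.differentiableAt).sub (h6.differentiableAt.div (by fun_prop) h5)
    · intro z hz hz2
      obtain ⟨⟨h3, h6⟩, _⟩ := hbR z hz
      have h7 := h3 (by rw [ofReal_re]; exact hz2)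
      rw [hzero, ofReal_zero, zero_mul, zero_add] at h7
      have h5 : z - 1 ≠ 0 := by
        intro h
        have h4 : (z - 1).re = 0 := by rw [h]; simp
        rw [sub_re, one_re] at h4
        linarith
      show M z - K (z - 1) - P z / (z - 1) = A z
      rw [← h7]
      simp only [hE]
      rw [mul_div_cancel_left₀ _ h5]
      ring

private theorem ext_gen (B b m : ℕ → ℝ) (L : ℝ) (hL0 : 0 ≤ L) (hL : ∀ n : ℕ, |B n| ≤ L * n)
    (hb : ∀ n, B (n + 1) = B n + b (n + 1))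
    (hbs : ∀ s : ℂ, 1 < s.re → LSeriesSummable (fun n => ((b n : ℝ) : ℂ)) s)
    (G : ℂ → ℂ) (σ₀ : ℝ) (h0 : 0 < σ₀) (hσ : σ₀ < 1)
    (hms : ∀ z : ℂ, 1 + σ₀ < z.re → LSeriesSummable (fun n => ((m n : ℝ) : ℂ)) z)
    (hm : MeromorphicOn G {s : ℂ | σ₀ < s.re})
    (hd : ∀ s : ℂ, 1 < s.re → HasDerivAt (LSeries (fun n => ((b n : ℝ) : ℂ))) (G s) s)
    (β : ℝ) (hβ : σ₀ ≤ β)
    (habs : abscissaOfAbsConv (fun n => ((m n - B n : ℝ) : ℂ)) ≤ ((1 + β : ℝ) : EReal))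
    (ρ : ℂ) (hρ : β < ρ.re) : ∃ H : ℂ → ℂ, AnalyticAt ℂ H ρ ∧ ∀ᶠ s in 𝓝[≠] ρ, G s = H s := by
  obtain ⟨K, hK1, hK⟩ := lnb B b L hL0 hL hb hbs
  obtain ⟨hEan, hEG⟩ := lan3_E B b m σ₀ h0 hσ hms K hK1 hK G hm hd (1 + β) (by linarith) habs
  set E : ℂ → ℂ := fun z => (z - 1) * (LSeries (fun n => ((m n : ℝ) : ℂ)) z -
    LSeries (fun n => ((m n - B n : ℝ) : ℂ)) z - K (z - 1)) with hE
  have hre : 1 + β < (ρ + 1).re := by rw [add_re, one_re]; linarith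
  refine ⟨fun s => deriv E (s + 1), ?_, ?_⟩
  · have h3 : AnalyticAt ℂ (deriv E) (ρ + 1) := (hEan _ hre).deriv
    exact AnalyticAt.comp (g := deriv E) (f := fun s : ℂ => s + 1) h3 (by fun_prop)
  · have h3 := hEG _ hre
    have hT : Tendsto (fun s : ℂ => s + 1) (𝓝[≠] ρ) (𝓝[≠] (ρ + 1)) := by
      refine tendsto_nhdsWithin_iff.2 ⟨?_, ?_⟩
      · exact ((continuous_id.add continuous_const).tendsto _).mono_left nhdsWithin_le_nhds
      · filter_upwards [self_mem_nhdsWithin] with x hx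
        have hx : x ≠ ρ := hx
        show x + 1 ≠ ρ + 1
        intro h
        exact hx (add_right_cancel h)
    filter_upwards [hT.eventually h3] with s hs
    have e : s + 1 - 1 = s := by ring
    rw [e] at hs
    exact hs.symm

private theorem alg3 (l Mv Pv Kv iv rt : ℂ) (hl : l ≠ 0) :
    Mv / l - (Pv * l⁻¹ - rt) * iv - Kv * l⁻¹ = (Mv - (rt * (-l) + Pv) * iv - Kv) / l := by
  field_simp
  ring

private theorem alg3b (x Mv Av Kv : ℂ) (hx : x ≠ 0) : Av = Mv - x * (Mv - Av - Kv) * x⁻¹ - Kv := by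
  rw [mul_comm x, mul_assoc, mul_inv_cancel₀ hx]
  ring

private theorem pd_gen (B b m : ℕ → ℝ) (L : ℝ) (hL0 : 0 ≤ L) (hL : ∀ n : ℕ, |B n| ≤ L * n)
    (hb : ∀ n, B (n + 1) = B n + b (n + 1))
    (hbs : ∀ s : ℂ, 1 < s.re → LSeriesSummable (fun n => ((b n : ℝ) : ℂ)) s)
    (G : ℂ → ℂ) (σ₀ : ℝ) (h0 : 0 < σ₀) (hσ : σ₀ < 1)
    (hms : ∀ z : ℂ, 1 + σ₀ < z.re → LSeriesSummable (fun n => ((m n : ℝ) : ℂ)) z)
    (hB : ∀ n : ℕ, B n ≤ m n)
    (hm : MeromorphicOn G {s : ℂ | σ₀ < s.re})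
    (hd : ∀ s : ℂ, 1 < s.re → HasDerivAt (LSeries (fun n => ((b n : ℝ) : ℂ))) (G s) s)
    (β : ℝ) (hβ : σ₀ ≤ β)
    (habs : abscissaOfAbsConv (fun n => ((m n - B n : ℝ) : ℂ)) ≤ ((1 + β : ℝ) : EReal))
    (r : ℝ → ℂ) (hr : ∀ t : ℝ, ∃ H : ℂ → ℂ, AnalyticAt ℂ H ((β : ℂ) + (t : ℂ) * Complex.I) ∧
      ∀ᶠ s in 𝓝[≠] ((β : ℂ) + (t : ℂ) * Complex.I), G s = r t / (s - ((β : ℂ) + (t : ℂ) * Complex.I)) + H s)
    (μ : ℝ → ℂ) (hμ : ∀ t : ℝ, Tendsto (fun δ : ℝ => LSeries (fun n => ((m n : ℝ) : ℂ))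
      (1 + ((β : ℂ) + (t : ℂ) * Complex.I) + (δ : ℂ)) / ((Real.log (1 / δ) : ℝ) : ℂ)) (𝓝[>] 0) (𝓝 (μ t)))
    (T : Finset ℝ) (c : ℝ → ℂ) :
    0 ≤ ∑ s ∈ T, ∑ t ∈ T, c s * conj (c t) *
      (fun t : ℝ => μ t + r t / ((β : ℂ) + (t : ℂ) * Complex.I)) (s - t) := by
  obtain ⟨K, hK1, hK⟩ := lnb B b L hL0 hL hb hbs
  have ha : (0 : ℕ → ℂ) ≤ (fun n => ((m n - B n : ℝ) : ℂ)) := by
    intro n
    exact Complex.zero_le_real.2 (sub_nonneg.2 (hB n))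
  refine pd_lim _ ha (1 + β) habs (fun t : ℝ => μ t + r t / ((β : ℂ) + (t : ℂ) * Complex.I)) ?_ T c
  intro t
  obtain ⟨hEan, hEG⟩ := lan3_E B b m σ₀ h0 hσ hms K hK1 hK G hm hd (1 + β) (by linarith) habs
  set A : ℂ → ℂ := LSeries (fun n => ((m n - B n : ℝ) : ℂ)) with hA
  set M : ℂ → ℂ := LSeries (fun n => ((m n : ℝ) : ℂ)) with hM
  set E : ℂ → ℂ := fun z => (z - 1) * (M z - A z - K (z - 1)) with hE
  obtain ⟨H, hHan, hHG⟩ := hr t
  set ρ : ℂ := (β : ℂ) + (t : ℂ) * Complex.I with hρ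
  have hρre : ρ.re = β := by
    rw [hρ, add_re, ofReal_re, re_ofReal_mul, I_re, mul_zero, add_zero]
  have hz₀re : (1 + ρ).re = 1 + β := by rw [add_re, one_re, hρre]
  have ez : 1 + ρ - 1 = ρ := by ring
  obtain ⟨P, hP, hEP⟩ := near_log E G H (1 + ρ) (r t) (fun z hz => hEan z (by rwa [hz₀re] at hz))
    (fun z hz => hEG z (by rwa [hz₀re] at hz)) (by rw [ez]; exact hHan) (by rw [ez]; exact hHG)
  have hKan := k3_an K hK1 (1 + ρ) (by rw [hz₀re]; linarith)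
  have hρ0 : ρ ≠ 0 := by
    intro h
    rw [h, zero_re] at hρre
    linarith
  -- the path
  have hpath : Tendsto (fun δ : ℝ => 1 + ρ + (δ : ℂ)) (𝓝[>] 0) (𝓝 (1 + ρ)) := by
    have h1 : Tendsto (fun δ : ℝ => 1 + ρ + (δ : ℂ)) (𝓝 0) (𝓝 (1 + ρ + ((0 : ℝ) : ℂ))) :=
      (continuous_const.add Complex.continuous_ofReal).tendsto 0
    rw [ofReal_zero, add_zero] at h1
    exact h1.mono_left nhdsWithin_le_nhds
  have hlog : Tendsto (fun δ : ℝ => Real.log (1 / δ)) (𝓝[>] 0) atTop := by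
    have h1 : Tendsto (fun δ : ℝ => -Real.log δ) (𝓝[>] 0) atTop :=
      tendsto_neg_atBot_atTop.comp Real.tendsto_log_nhdsGT_zero
    refine h1.congr fun δ => ?_
    rw [one_div, Real.log_inv]
  have hinv : Tendsto (fun δ : ℝ => (((Real.log (1 / δ))⁻¹ : ℝ) : ℂ)) (𝓝[>] 0) (𝓝 0) := by
    have h1 := tendsto_inv_atTop_zero.comp hlog
    have h2 := (Complex.continuous_ofReal.tendsto 0).comp h1
    rw [ofReal_zero] at h2
    exact h2
  have hPl : Tendsto (fun δ : ℝ => P (1 + ρ + (δ : ℂ)) * (((Real.log (1 / δ))⁻¹ : ℝ) : ℂ)) (𝓝[>] 0) (𝓝 0) := by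
    have h1 := (hP.continuousAt.tendsto.comp hpath).mul hinv
    rw [mul_zero] at h1
    exact h1
  have hKl : Tendsto (fun δ : ℝ => K (1 + ρ + (δ : ℂ) - 1) * (((Real.log (1 / δ))⁻¹ : ℝ) : ℂ)) (𝓝[>] 0)
      (𝓝 0) := by
    have h1 := (hKan.continuousAt.tendsto.comp hpath).mul hinv
    rw [mul_zero] at h1
    exact h1
  have hzl : Tendsto (fun δ : ℝ => (1 + ρ + (δ : ℂ) - 1)⁻¹) (𝓝[>] 0) (𝓝 ρ⁻¹) := by
    have h1 : Tendsto (fun δ : ℝ => 1 + ρ + (δ : ℂ) - 1) (𝓝[>] 0) (𝓝 (1 + ρ - 1)) :=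
      hpath.sub tendsto_const_nhds
    rw [ez] at h1
    exact h1.inv₀ hρ0
  have hlim := (((hμ t).sub (((hPl.sub (tendsto_const_nhds (x := r t))).mul hzl))).sub hKl)
  have e1 : μ t - (0 - r t) * ρ⁻¹ - 0 = μ t + r t / ρ := by
    rw [div_eq_mul_inv]; ring
  rw [e1] at hlim
  refine hlim.congr' ?_
  have h2 : Set.Ioo (0 : ℝ) 1 ∈ 𝓝[>] (0 : ℝ) := Ioo_mem_nhdsGT one_pos
  filter_upwards [h2, hpath.eventually hEP] with δ hδ hδE
  have hlog0 : 0 < Real.log (1 / δ) := Real.log_pos (by rw [lt_div_iff₀ hδ.1]; linarith [hδ.2])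
  have h3 := hδE (by rw [hz₀re, add_re, hz₀re, ofReal_re]; linarith [hδ.1])
  have h4 : Complex.log (1 + ρ + (δ : ℂ) - (1 + ρ)) = -((Real.log (1 / δ) : ℝ) : ℂ) := by
    have h5 : 1 + ρ + (δ : ℂ) - (1 + ρ) = (δ : ℂ) := by ring
    rw [h5, ← ofReal_log hδ.1.le, one_div, Real.log_inv, ofReal_neg, neg_neg]
  rw [h4] at h3
  have hz1 : 1 + ρ + (δ : ℂ) - 1 ≠ 0 := by
    intro h
    have h5 : (1 + ρ + (δ : ℂ) - 1).re = 0 := by rw [h]; simp
    rw [sub_re, add_re, hz₀re, ofReal_re, one_re] at h5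
    linarith [hδ.1]
  have e2 : (((1 + β + δ : ℝ)) : ℂ) + (t : ℂ) * I = 1 + ρ + (δ : ℂ) := by
    rw [hρ]; push_cast; ring
  have e2' : (((1 + β) + δ : ℝ) : ℂ) + (t : ℂ) * I = 1 + ρ + (δ : ℂ) := e2
  rw [e2']
  have hl0 : ((Real.log (1 / δ) : ℝ) : ℂ) ≠ 0 := by exact_mod_cast hlog0.ne'
  have h6 : A (1 + ρ + (δ : ℂ)) = M (1 + ρ + (δ : ℂ)) -
      (r t * (-((Real.log (1 / δ) : ℝ) : ℂ)) + P (1 + ρ + (δ : ℂ))) *
      (1 + ρ + (δ : ℂ) - 1)⁻¹ - K (1 + ρ + (δ : ℂ) - 1) := by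
    rw [← h3]
    exact alg3b _ _ _ _ hz1
  rw [h6, ofReal_inv]
  exact alg3 _ _ _ _ _ _ hl0

end Gen3

private theorem BB_lin {q : ℕ} [NeZero q] (w : (ZMod q)ˣ → ℝ) (n : ℕ) :
    |BB w n| ≤ (∑ u : (ZMod q)ˣ, |w u|) * n := by
  have hb0 : ∀ n : ℕ, |bb w n| ≤ ∑ u : (ZMod q)ˣ, |w u| := by
    intro n
    unfold bb
    split_ifs
    · exact ww_abs w n
    · rw [abs_zero]
      exact Finset.sum_nonneg fun u _ => abs_nonneg _
  unfold BB
  refine (Finset.abs_sum_le_sum_abs _ _).trans ?_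
  refine (Finset.sum_le_sum fun k _ => hb0 k).trans ?_
  rw [Finset.sum_const, Nat.card_Icc, nsmul_eq_mul, Nat.add_sub_cancel, mul_comm]

private theorem BB_step {q : ℕ} [NeZero q] (w : (ZMod q)ˣ → ℝ) (n : ℕ) :
    BB w (n + 1) = BB w n + bb w (n + 1) := by
  unfold BB
  rw [Finset.sum_Icc_succ_top (by omega)]

theorem lan_alt {q : ℕ} [NeZero q] (w : (ZMod q)ˣ → ℝ) (G : ℂ → ℂ) (m : ℕ → ℝ) (σ₀ : ℝ) (h0 : 0 < σ₀) (hσ : σ₀ < 1)
    (hms : ∀ z : ℂ, 1 + σ₀ < z.re → LSeriesSummable (fun n => ((m n : ℝ) : ℂ)) z)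
    (hB : ∀ n : ℕ, BB w n ≤ m n)
    (hm : MeromorphicOn G {s : ℂ | σ₀ < s.re})
    (hd : ∀ s : ℂ, 1 < s.re → HasDerivAt (LSeries (fun n => ((bb w n : ℝ) : ℂ))) (G s) s)
    (hr : ∀ x : ℝ, σ₀ < x → ∃ κ : ℝ, ∃ H : ℂ → ℂ, AnalyticAt ℂ H (x : ℂ) ∧
      ∀ᶠ s in 𝓝[≠] (x : ℂ), G s = (κ : ℂ) / (s - (x : ℂ)) + H s) :
    LSeries.abscissaOfAbsConv (am m w) ≤ ((1 + σ₀ : ℝ) : EReal) ∨
    ∃ β : ℝ, σ₀ < β ∧ LSeries.abscissaOfAbsConv (am m w) = ((1 + β : ℝ) : EReal) ∧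
      ∃ κ : ℝ, 0 < κ ∧ ∃ H : ℂ → ℂ, AnalyticAt ℂ H (β : ℂ) ∧
        ∀ᶠ s in 𝓝[≠] (β : ℂ), G s = (κ : ℂ) / (s - (β : ℂ)) + H s := by
  exact alt_gen (BB w) (bb w) m (∑ u : (ZMod q)ˣ, |w u|) (Finset.sum_nonneg fun u _ => abs_nonneg _)
    (BB_lin w) (BB_step w) (fun s hs => bb_summable w s hs) G σ₀ h0 hσ hms hB hm hd hr

theorem lan_ext {q : ℕ} [NeZero q] (w : (ZMod q)ˣ → ℝ) (G : ℂ → ℂ) (m : ℕ → ℝ) (σ₀ : ℝ) (h0 : 0 < σ₀) (hσ : σ₀ < 1)
    (hms : ∀ z : ℂ, 1 + σ₀ < z.re → LSeriesSummable (fun n => ((m n : ℝ) : ℂ)) z)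
    (hB : ∀ n : ℕ, BB w n ≤ m n)
    (hm : MeromorphicOn G {s : ℂ | σ₀ < s.re})
    (hd : ∀ s : ℂ, 1 < s.re → HasDerivAt (LSeries (fun n => ((bb w n : ℝ) : ℂ))) (G s) s)
    (β : ℝ) (hβ : σ₀ ≤ β) (habs : LSeries.abscissaOfAbsConv (am m w) ≤ ((1 + β : ℝ) : EReal))
    (ρ : ℂ) (hρ : β < ρ.re) : ∃ H : ℂ → ℂ, AnalyticAt ℂ H ρ ∧ ∀ᶠ s in 𝓝[≠] ρ, G s = H s := by
  exact ext_gen (BB w) (bb w) m (∑ u : (ZMod q)ˣ, |w u|) (Finset.sum_nonneg fun u _ => abs_nonneg _)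
    (BB_lin w) (BB_step w) (fun s hs => bb_summable w s hs) G σ₀ h0 hσ hms hm hd β hβ habs ρ hρ

theorem lan_pd {q : ℕ} [NeZero q] (w : (ZMod q)ˣ → ℝ) (G : ℂ → ℂ) (m : ℕ → ℝ) (σ₀ : ℝ) (h0 : 0 < σ₀) (hσ : σ₀ < 1)
    (hms : ∀ z : ℂ, 1 + σ₀ < z.re → LSeriesSummable (fun n => ((m n : ℝ) : ℂ)) z)
    (hB : ∀ n : ℕ, BB w n ≤ m n)
    (hm : MeromorphicOn G {s : ℂ | σ₀ < s.re})
    (hd : ∀ s : ℂ, 1 < s.re → HasDerivAt (LSeries (fun n => ((bb w n : ℝ) : ℂ))) (G s) s)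
    (β : ℝ) (hβ : σ₀ ≤ β) (habs : LSeries.abscissaOfAbsConv (am m w) ≤ ((1 + β : ℝ) : EReal))
    (r : ℝ → ℂ) (hr : ∀ t : ℝ, ∃ H : ℂ → ℂ, AnalyticAt ℂ H ((β : ℂ) + (t : ℂ) * Complex.I) ∧
      ∀ᶠ s in 𝓝[≠] ((β : ℂ) + (t : ℂ) * Complex.I), G s = r t / (s - ((β : ℂ) + (t : ℂ) * Complex.I)) + H s)
    (μ : ℝ → ℂ) (hμ : ∀ t : ℝ, Tendsto (fun δ : ℝ => LSeries (fun n => ((m n : ℝ) : ℂ))
      (1 + ((β : ℂ) + (t : ℂ) * Complex.I) + (δ : ℂ)) / ((Real.log (1 / δ) : ℝ) : ℂ)) (𝓝[>] 0) (𝓝 (μ t))) :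
    PD (fun t => μ t + r t / ((β : ℂ) + (t : ℂ) * Complex.I)) := by
  intro T c
  have h := pd_gen (BB w) (bb w) m (∑ u : (ZMod q)ˣ, |w u|) (Finset.sum_nonneg fun u _ => abs_nonneg _)
    (BB_lin w) (BB_step w) (fun s hs => bb_summable w s hs) G σ₀ h0 hσ hms hB hm hd β hβ habs r hr μ hμ T c
  exact (Complex.nonneg_iff.1 h).1

end Pool.Agent.H52.PR
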