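import Pool.Agent.H52.PR.Pd1

/-!
PRIME RACES (MP_2936c6_nt) v2, module Pd2: the triangle and the exponential kernel.

PROOF. `pd_tri`: `(1 - |t|/T)_+ = (1/T) ∫ 1_[0,T](y + s) 1_[0,T](y + s') dy` for `t = s - s'` (any `y`-integral over ℝ), so
`∑ c_s conj(c_s') R(s-s') (1 - |s-s'|/T)_+ e^(iu(s-s')) = (1/T) ∫ ∑ (c_s e^(ius) 1(y+s)) conj(c_s' e^(ius') 1(y+s')) R(s-s') dy`, and the real part
of the integrand is `≥ 0` by `PD R`. `pd_exp`: `pd_fin` for the function of `pd_tri` (support finite by `hfin`), `tsum` of a finitely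
supported function. `pd_pois`: multiply `pd_exp` (with `u = -h` if `a > 0`, `u = h` if `a < 0`, `h > 0`) by `|a| e^(-|a|h)` and integrate over
`h > 0`: `∫_0^∞ |a| e^(-|a|h) e^(∓ith) dh = a/(a + it)`; the sum is finite, so the integral and the sum commute:
`0 ≤ Re ∑_t R(t) (1-|t|/T)_+ a/(a+it)`; let `T → ∞` (`tendsto_tsum_of_dominated_convergence`, bound
`‖R t‖ |a|/‖a+it‖ ≤ C ‖R t‖/(1+|t|)`).
-/

set_option autoImplicit false

namespace Pool.Agent.H52.PR

open MeasureTheory Filter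

private noncomputable def bx (T : ℝ) (x : ℝ) : ℝ := Set.indicator (Set.Icc 0 T) (fun _ => (1 : ℝ)) x

private theorem bx_mul (T s t : ℝ) :
    (fun y : ℝ => bx T (y + s) * bx T (y + t)) =
      Set.indicator (Set.Icc (max (-s) (-t)) (min (T - s) (T - t))) 1 := by
  funext y
  have h1 : (y + s ∈ Set.Icc 0 T ∧ y + t ∈ Set.Icc 0 T) ↔
      y ∈ Set.Icc (max (-s) (-t)) (min (T - s) (T - t)) := by
    simp only [Set.mem_Icc, max_le_iff, le_min_iff]
    constructor
    · rintro ⟨⟨a, b⟩, c, d⟩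
      exact ⟨⟨by linarith, by linarith⟩, by linarith, by linarith⟩
    · rintro ⟨⟨a, b⟩, c, d⟩
      exact ⟨⟨by linarith, by linarith⟩, by linarith, by linarith⟩
  unfold bx
  by_cases h : y ∈ Set.Icc (max (-s) (-t)) (min (T - s) (T - t))
  · obtain ⟨h2, h3⟩ := h1.2 h
    rw [Set.indicator_of_mem h2, Set.indicator_of_mem h3, Set.indicator_of_mem h]
    simp
  · rw [Set.indicator_of_notMem h]
    by_cases h2 : y + s ∈ Set.Icc 0 T
    · have h3 : y + t ∉ Set.Icc 0 T := fun h3 => h (h1.1 ⟨h2, h3⟩)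
      rw [Set.indicator_of_notMem h3, mul_zero]
    · rw [Set.indicator_of_notMem h2, zero_mul]

private theorem bx_intble (T s t : ℝ) : Integrable (fun y : ℝ => bx T (y + s) * bx T (y + t)) := by
  rw [bx_mul]
  rw [integrable_indicator_iff measurableSet_Icc]
  exact integrableOn_const (by simp) (by simp)

private theorem bx_int (T s t : ℝ) :
    ∫ y : ℝ, bx T (y + s) * bx T (y + t) = max 0 (T - |s - t|) := by
  rw [bx_mul, integral_indicator_one measurableSet_Icc, Real.volume_real_Icc, max_comm]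
  congr 1
  rcases le_total s t with h | h
  · rw [abs_of_nonpos (by linarith), max_eq_left (by linarith), min_eq_right (by linarith)]
    ring
  · rw [abs_of_nonneg (by linarith), max_eq_right (by linarith), min_eq_left (by linarith)]
    ring

theorem pd_tri (R : ℝ → ℂ) (hR : PD R) (T : ℝ) (hT : 0 < T) (u : ℝ) :
    PD (fun t => R t * ((max 0 (1 - |t| / T) : ℝ) : ℂ) * Complex.exp (((u * t : ℝ) : ℂ) * Complex.I)) := by
  intro F c
  set A : ℝ → ℝ → ℝ := fun s t => (c s * (starRingEnd ℂ) (c t) *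
    (R (s - t) * Complex.exp (((u * (s - t) : ℝ) : ℂ) * Complex.I))).re with hA
  have h1 : ∀ y : ℝ, 0 ≤ ∑ s ∈ F, ∑ t ∈ F, A s t * (bx T (y + s) * bx T (y + t)) := by
    intro y
    have h := hR F (fun s => c s * Complex.exp (((u * s : ℝ) : ℂ) * Complex.I) *
      ((bx T (y + s) : ℝ) : ℂ))
    refine h.trans_eq ?_
    rw [Complex.re_sum]
    refine Finset.sum_congr rfl fun s _ => ?_
    rw [Complex.re_sum]
    refine Finset.sum_congr rfl fun t _ => ?_
    have e1 : (starRingEnd ℂ) (Complex.exp (((u * t : ℝ) : ℂ) * Complex.I)) =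
        Complex.exp (-(((u * t : ℝ) : ℂ) * Complex.I)) := by
      rw [← Complex.exp_conj, map_mul, Complex.conj_ofReal, Complex.conj_I, mul_neg]
    have e2 : Complex.exp (((u * (s - t) : ℝ) : ℂ) * Complex.I) =
        Complex.exp (((u * s : ℝ) : ℂ) * Complex.I) * Complex.exp (-(((u * t : ℝ) : ℂ) * Complex.I)) := by
      rw [← Complex.exp_add]
      congr 1
      push_cast
      ring
    have e3 : c s * Complex.exp (((u * s : ℝ) : ℂ) * Complex.I) * ((bx T (y + s) : ℝ) : ℂ) *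
        (starRingEnd ℂ) (c t * Complex.exp (((u * t : ℝ) : ℂ) * Complex.I) *
          ((bx T (y + t) : ℝ) : ℂ)) * R (s - t) =
        (c s * (starRingEnd ℂ) (c t) *
          (R (s - t) * Complex.exp (((u * (s - t) : ℝ) : ℂ) * Complex.I))) *
          (((bx T (y + s) * bx T (y + t) : ℝ)) : ℂ) := by
      rw [map_mul, map_mul, e1, e2, Complex.conj_ofReal]
      push_cast
      ring
    rw [e3, Complex.re_mul_ofReal]
  have h2 : ∫ y : ℝ, ∑ s ∈ F, ∑ t ∈ F, A s t * (bx T (y + s) * bx T (y + t)) =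
      ∑ s ∈ F, ∑ t ∈ F, A s t * max 0 (T - |s - t|) := by
    rw [integral_finsetSum _ fun s _ => integrable_finsetSum _ fun t _ =>
      (bx_intble T s t).const_mul _]
    refine Finset.sum_congr rfl fun s _ => ?_
    rw [integral_finsetSum _ fun t _ => (bx_intble T s t).const_mul _]
    refine Finset.sum_congr rfl fun t _ => ?_
    rw [integral_const_mul, bx_int]
  have h3 : 0 ≤ ∑ s ∈ F, ∑ t ∈ F, A s t * max 0 (T - |s - t|) := by
    rw [← h2]
    exact integral_nonneg h1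
  have h4 : (∑ s ∈ F, ∑ t ∈ F, c s * (starRingEnd ℂ) (c t) *
      (R (s - t) * ((max 0 (1 - |s - t| / T) : ℝ) : ℂ) *
        Complex.exp (((u * (s - t) : ℝ) : ℂ) * Complex.I))).re =
      (1 / T) * ∑ s ∈ F, ∑ t ∈ F, A s t * max 0 (T - |s - t|) := by
    rw [Complex.re_sum, Finset.mul_sum]
    refine Finset.sum_congr rfl fun s _ => ?_
    rw [Complex.re_sum, Finset.mul_sum]
    refine Finset.sum_congr rfl fun t _ => ?_
    have e1 : max 0 (1 - |s - t| / T) = (1 / T) * max 0 (T - |s - t|) := by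
      rw [mul_max_of_nonneg _ _ (by positivity : (0 : ℝ) ≤ 1 / T)]
      congr 1
      · ring
      · field_simp
    have e2 : c s * (starRingEnd ℂ) (c t) * (R (s - t) * ((max 0 (1 - |s - t| / T) : ℝ) : ℂ) *
        Complex.exp (((u * (s - t) : ℝ) : ℂ) * Complex.I)) =
        (c s * (starRingEnd ℂ) (c t) *
          (R (s - t) * Complex.exp (((u * (s - t) : ℝ) : ℂ) * Complex.I))) *
          ((max 0 (1 - |s - t| / T) : ℝ) : ℂ) := by ring
    rw [e2, Complex.re_mul_ofReal, e1]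
    simp only [hA]
    ring
  rw [h4]
  exact mul_nonneg (by positivity) h3

theorem pd_exp (R : ℝ → ℂ) (hR : PD R) (hfin : ∀ T : ℝ, {t : ℝ | |t| ≤ T ∧ R t ≠ 0}.Finite) (T : ℝ) (hT : 0 < T) (u : ℝ) :
    0 ≤ (∑' t : ℝ, R t * ((max 0 (1 - |t| / T) : ℝ) : ℂ) * Complex.exp (((u * t : ℝ) : ℂ) * Complex.I)).re := by
  have h0 : ∀ t : ℝ, t ∉ (hfin T).toFinset →
      R t * ((max 0 (1 - |t| / T) : ℝ) : ℂ) * Complex.exp (((u * t : ℝ) : ℂ) * Complex.I) = 0 := by
    intro t ht
    rw [Set.Finite.mem_toFinset] at ht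
    by_cases h : R t = 0
    · rw [h, zero_mul, zero_mul]
    · have h1 : T < |t| := by
        by_contra hc
        exact ht ⟨not_lt.1 hc, h⟩
      have h2 : max 0 (1 - |t| / T) = 0 := by
        refine max_eq_left ?_
        have : 1 < |t| / T := (one_lt_div hT).2 h1
        linarith
      rw [h2, Complex.ofReal_zero, mul_zero, zero_mul]
  rw [tsum_eq_sum fun t ht => h0 t ht]
  exact pd_fin _ (pd_tri R hR T hT u) _ h0

private theorem pois_T (R : ℝ → ℂ) (hR : PD R) (hfin : ∀ T : ℝ, {t : ℝ | |t| ≤ T ∧ R t ≠ 0}.Finite)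
    (a : ℝ) (ha : a ≠ 0) (T : ℝ) (hT : 0 < T) :
    0 ≤ (∑' t : ℝ, R t * ((max 0 (1 - |t| / T) : ℝ) : ℂ) *
      ((a : ℂ) / ((a : ℂ) + (t : ℂ) * Complex.I))).re := by
  have hz : ∀ t : ℝ, t ∉ (hfin T).toFinset → R t * ((max 0 (1 - |t| / T) : ℝ) : ℂ) = 0 := by
    intro t ht
    rw [Set.Finite.mem_toFinset] at ht
    by_cases h : R t = 0
    · rw [h, zero_mul]
    · have h1 : T < |t| := by
        by_contra hc
        exact ht ⟨not_lt.1 hc, h⟩
      have h2 : max 0 (1 - |t| / T) = 0 := by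
        refine max_eq_left ?_
        have : 1 < |t| / T := (one_lt_div hT).2 h1
        linarith
      rw [h2, Complex.ofReal_zero, mul_zero]
  rw [tsum_eq_sum (s := (hfin T).toFinset) fun t ht => by rw [hz t ht, zero_mul]]
  set S := (hfin T).toFinset
  -- the sign
  obtain ⟨e, he1, he2⟩ : ∃ e : ℝ, e * e = 1 ∧ |a| = - e * a := by
    rcases lt_or_gt_of_ne ha with h | h
    · exact ⟨1, by norm_num, by rw [abs_of_neg h]; ring⟩
    · exact ⟨-1, by norm_num, by rw [abs_of_pos h]; ring⟩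
  have habs : 0 < |a| := abs_pos.2 ha
  have hre : ∀ t : ℝ, (-((|a| : ℝ) : ℂ) + ((e * t : ℝ) : ℂ) * Complex.I).re < 0 := by
    intro t
    simp only [Complex.add_re, Complex.neg_re, Complex.ofReal_re, Complex.re_ofReal_mul,
      Complex.I_re, mul_zero, add_zero]
    linarith
  have hint : ∀ t : ℝ, ∫ h : ℝ in Set.Ioi 0,
      Complex.exp ((-((|a| : ℝ) : ℂ) + ((e * t : ℝ) : ℂ) * Complex.I) * h) =
      (1 / ((|a| : ℝ) : ℂ)) * ((a : ℂ) / ((a : ℂ) + (t : ℂ) * Complex.I)) := by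
    intro t
    rw [integral_exp_mul_complex_Ioi (hre t)]
    have n1 : (a : ℂ) + (t : ℂ) * Complex.I ≠ 0 := by
      intro h
      have := congrArg Complex.re h
      simp at this
      exact ha this
    have n2 : (-((|a| : ℝ) : ℂ) + ((e * t : ℝ) : ℂ) * Complex.I) ≠ 0 := by
      intro h
      have := hre t
      rw [h] at this
      simp at this
    have n3 : ((|a| : ℝ) : ℂ) ≠ 0 := by
      exact_mod_cast habs.ne'
    have n4 : (a : ℂ) ≠ 0 := by exact_mod_cast ha
    have e3 : ((e : ℝ) : ℂ) * e = 1 := by exact_mod_cast he1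
    have e4 : ((|a| : ℝ) : ℂ) = - e * a := by exact_mod_cast he2
    have n5 : ((e : ℝ) : ℂ) ≠ 0 := by
      intro h
      rw [h] at e3
      simp at e3
    rw [Complex.ofReal_zero, mul_zero, Complex.exp_zero]
    rw [e4]
    have e5 : -(-(e : ℂ) * a) + ((e * t : ℝ) : ℂ) * Complex.I = e * ((a : ℂ) + t * Complex.I) := by
      push_cast
      ring
    rw [e5, div_mul_div_comm, div_eq_div_iff (mul_ne_zero n5 n1)
      (mul_ne_zero (mul_ne_zero (neg_ne_zero.2 n5) n4) n1)]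
    linear_combination (0 : ℂ) * e3
  have hI : ∀ t : ℝ, Integrable (fun h : ℝ =>
      Complex.exp ((-((|a| : ℝ) : ℂ) + ((e * t : ℝ) : ℂ) * Complex.I) * h))
      (volume.restrict (Set.Ioi 0)) := fun t => integrableOn_exp_mul_complex_Ioi (hre t) 0
  have hsum : ∑ t ∈ S, R t * ((max 0 (1 - |t| / T) : ℝ) : ℂ) *
      ((a : ℂ) / ((a : ℂ) + (t : ℂ) * Complex.I)) =
      ∫ h : ℝ in Set.Ioi 0, ∑ t ∈ S, (R t * ((max 0 (1 - |t| / T) : ℝ) : ℂ) * ((|a| : ℝ) : ℂ)) *
        Complex.exp ((-((|a| : ℝ) : ℂ) + ((e * t : ℝ) : ℂ) * Complex.I) * h) := by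
    rw [integral_finsetSum _ fun t _ => (hI t).const_mul _]
    refine Finset.sum_congr rfl fun t _ => ?_
    rw [integral_const_mul, hint]
    have n3 : ((|a| : ℝ) : ℂ) ≠ 0 := by
      exact_mod_cast habs.ne'
    field_simp
  rw [hsum]
  have hIS : Integrable (fun h : ℝ => ∑ t ∈ S, (R t * ((max 0 (1 - |t| / T) : ℝ) : ℂ) * ((|a| : ℝ) : ℂ)) *
        Complex.exp ((-((|a| : ℝ) : ℂ) + ((e * t : ℝ) : ℂ) * Complex.I) * h))
      (volume.restrict (Set.Ioi 0)) := integrable_finsetSum _ fun t _ => (hI t).const_mul _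
  have hcomm := Complex.reCLM.integral_comp_comm hIS
  simp only [Complex.reCLM_apply] at hcomm
  rw [← hcomm]
  refine setIntegral_nonneg measurableSet_Ioi fun h _ => ?_
  have hf : ∑ t ∈ S, (R t * ((max 0 (1 - |t| / T) : ℝ) : ℂ) * ((|a| : ℝ) : ℂ)) *
        Complex.exp ((-((|a| : ℝ) : ℂ) + ((e * t : ℝ) : ℂ) * Complex.I) * h) =
      ((|a| * Real.exp (-|a| * h) : ℝ) : ℂ) *
        ∑ t ∈ S, R t * ((max 0 (1 - |t| / T) : ℝ) : ℂ) *
          Complex.exp ((((e * h) * t : ℝ) : ℂ) * Complex.I) := by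
    rw [Finset.mul_sum]
    refine Finset.sum_congr rfl fun t _ => ?_
    have e6 : Complex.exp ((-((|a| : ℝ) : ℂ) + ((e * t : ℝ) : ℂ) * Complex.I) * h) =
        ((Real.exp (-|a| * h) : ℝ) : ℂ) * Complex.exp ((((e * h) * t : ℝ) : ℂ) * Complex.I) := by
      rw [Complex.ofReal_exp, ← Complex.exp_add]
      congr 1
      push_cast
      ring
    rw [e6]
    push_cast
    ring
  rw [hf, Complex.re_ofReal_mul]
  refine mul_nonneg (by positivity) ?_
  have h5 := pd_exp R hR hfin T hT (e * h)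
  rwa [tsum_eq_sum (s := S) fun t ht => by rw [hz t ht, zero_mul]] at h5

theorem pd_pois (R : ℝ → ℂ) (hR : PD R) (hfin : ∀ T : ℝ, {t : ℝ | |t| ≤ T ∧ R t ≠ 0}.Finite)
    (hs : Summable fun t : ℝ => ‖R t‖ / (1 + |t|)) (a : ℝ) (ha : a ≠ 0) :
    0 ≤ (∑' t : ℝ, R t * ((a : ℂ) / ((a : ℂ) + (t : ℂ) * Complex.I))).re := by
  have habs : 0 < |a| := abs_pos.2 ha
  have hb : ∀ t : ℝ, ‖(a : ℂ) / ((a : ℂ) + (t : ℂ) * Complex.I)‖ ≤ (1 + |a|) / (1 + |t|) := by
    intro t
    have n1 : (a : ℂ) + (t : ℂ) * Complex.I ≠ 0 := by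
      intro h
      have := congrArg Complex.re h
      simp at this
      exact ha this
    have n2 : 0 < ‖(a : ℂ) + (t : ℂ) * Complex.I‖ := norm_pos_iff.2 n1
    have l1 : |a| ≤ ‖(a : ℂ) + (t : ℂ) * Complex.I‖ := by
      have := Complex.abs_re_le_norm ((a : ℂ) + (t : ℂ) * Complex.I)
      simpa using this
    have l2 : |t| ≤ ‖(a : ℂ) + (t : ℂ) * Complex.I‖ := by
      have := Complex.abs_im_le_norm ((a : ℂ) + (t : ℂ) * Complex.I)
      simpa using this
    have ht : 0 < 1 + |t| := by positivity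
    rw [norm_div, div_le_div_iff₀ n2 ht, Complex.norm_real, Real.norm_eq_abs]
    nlinarith [mul_le_mul_of_nonneg_left l2 habs.le]
  have hlim : Tendsto (fun n : ℕ => ∑' t : ℝ, R t * ((max 0 (1 - |t| / ((n : ℝ) + 1)) : ℝ) : ℂ) *
      ((a : ℂ) / ((a : ℂ) + (t : ℂ) * Complex.I))) atTop
      (nhds (∑' t : ℝ, R t * ((a : ℂ) / ((a : ℂ) + (t : ℂ) * Complex.I)))) := by
    refine tendsto_tsum_of_dominated_convergence
      (bound := fun t => (1 + |a|) * (‖R t‖ / (1 + |t|))) (hs.mul_left _) ?_ ?_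
    · intro t
      have h1 : Tendsto (fun n : ℕ => |t| / ((n : ℝ) + 1)) atTop (nhds 0) :=
        (tendsto_const_nhds.div_atTop (tendsto_atTop_add_const_right _ _ tendsto_natCast_atTop_atTop))
      have h2 : Tendsto (fun n : ℕ => max 0 (1 - |t| / ((n : ℝ) + 1))) atTop (nhds (max 0 (1 - 0))) :=
        tendsto_const_nhds.max (tendsto_const_nhds.sub h1)
      have h3 : Tendsto (fun n : ℕ => ((max 0 (1 - |t| / ((n : ℝ) + 1)) : ℝ) : ℂ)) atTop
          (nhds (1 : ℂ)) := by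
        have h5 := (Complex.continuous_ofReal.tendsto _).comp h2
        have e : ((max 0 (1 - 0) : ℝ) : ℂ) = 1 := by norm_num
        rw [e] at h5
        exact h5
      have h4 := (h3.const_mul (R t)).mul_const ((a : ℂ) / ((a : ℂ) + (t : ℂ) * Complex.I))
      simpa using h4
    · refine Eventually.of_forall fun n t => ?_
      rw [norm_mul, norm_mul, Complex.norm_real, Real.norm_eq_abs,
        abs_of_nonneg (le_max_left _ _)]
      have h1 : max 0 (1 - |t| / ((n : ℝ) + 1)) ≤ 1 := by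
        refine max_le zero_le_one ?_
        have : 0 ≤ |t| / ((n : ℝ) + 1) := by positivity
        linarith
      calc ‖R t‖ * max 0 (1 - |t| / ((n : ℝ) + 1)) * ‖(a : ℂ) / ((a : ℂ) + (t : ℂ) * Complex.I)‖
          ≤ ‖R t‖ * 1 * ((1 + |a|) / (1 + |t|)) := by
            gcongr
            exact hb t
        _ = (1 + |a|) * (‖R t‖ / (1 + |t|)) := by ring
  have hre := (Complex.continuous_re.tendsto _).comp hlim
  refine ge_of_tendsto' hre fun n => ?_
  exact pois_T R hR hfin a ha ((n : ℝ) + 1) (by positivity)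

end Pool.Agent.H52.PR
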