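import Pool.Agent.H52.PR.Lit1
import Pool.Agent.H52.PR.Pd2

/-!
PRIME RACES (MP_2936c6_nt) v2, module Lit: no positive definite function on the critical line (the Littlewood step).

PROOF. Write `b(t) = co w (1/2 + it)`, so `b(-t) = conj b(t)` (`al_conj`, `LL_conj_order`). `co w ρ ≠ 0` only for `ρ = 1/2 + it` and for
`ρ = -n`, `n : ℕ` (`hco`, symmetry `LL_sym` as in `ex_sym` of Exs.lean, `ex_left` there). `hfin`, `hs` of `pd_pois` for
`R t = if t = 0 then c₀ else b t/(1/2 + it)`: `LF.zfin`, and `mix_w` with the weight `1/‖ρ‖^(3/2)`, `LF.s_one` (as `zi_s1`, `zi_fin` in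
`H50/RQ/Zi.lean`, `hS` in Exs.lean).
Let `c = al w` if `ε = 1`, `c = conj (al w)` if `ε = -1`, `cc (fun χ => lfc χ) c ρ = co w ρ` or its conjugate. `LF.log_formula`
(`RQ/Lz2.lean`) for `lfc χ`, times `c χ`, summed (`mix` with `h ρ = 1/(s-ρ) - 1/(2-ρ)`): for real `s > 1`
`V(s) = Re ∑_i cc_i (1/(s-ρ_i) - 1/(2-ρ_i)) = const + Re ∑_χ c_χ (LL χ)'/(LL χ)(s)`, which is bounded for real `s ≥ 2` (`LF.ld`: the Dirichlet series is at
most `∑ Λ(n) n^(-2)`; the term with `χ = 1` has `c 1 = 0`, `al_one`).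
CLAIM: `ε V(s) → +∞` as `s → +∞`. Put `s = 1/2 + a`.
Trivial zeros: `-ε Re(c χ) ≥ 0` for all `χ`, so `ε Re ∑_{ρ=-n} = ∑_n ∑_χ (-ε Re c χ) ord_{-n}(LL χ) (s-2)/((s+n)(n+2)) ≥` the part of one `χ` with
`Re (al w χ) ≠ 0` (`χ ≠ 1` since `al w 1 = 0`), for which `LL χ (-n) = 0` for all `n` of one parity (`LFunction_eq_completed_div_gammaFactor` for the
primitive character, `Gammaℝ_eq_zero_iff`; see `chi_left` in `RQ/Xz.lean`; the conductor is `≠ 1`), `ord ≥ 1` (`LF.one_le`): this tends to `+∞` (the sum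
of `(s-2)/((s+n)(n+2))` over `n ≤ s` of one parity is at least `c log s`).
Zeros on the line: for `ε = 1`, `pd_pois` at `-a`: `0 ≤ c₀ + Re ∑_{t≠0} b(t)/(1/2+it) a/(a-it)` and
`1/((1/2+it)(a-it)) = (1/(a+1/2)) (1/(1/2+it) + 1/(a-it))`, so `Re ∑_{t≠0} b(t) (1/(a-it) - 1/(3/2-it)) ≥ -c₀ (a+1/2)/a - |∑ b(t) (1/(1/2+it) + 1/(3/2-it))|`
is bounded below. For `ε = -1`, `pd_pois` at `a`: `1/((1/2+it)(a+it)) = (1/(a-1/2)) (1/(1/2+it) - 1/(a+it))`, so
`Re ∑_{t≠0} b(t) (1/(a+it) - 1/(3/2+it))` is bounded above, and it is `Re ∑ conj b(t) (1/(a-it) - 1/(3/2-it))`. All series converge absolutely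
(`∑ |b(t)|/(1+t²) < ∞`); the single term `t = 0` is bounded.
-/

set_option autoImplicit false

namespace Pool.Agent.H52.PR

open Filter Topology
open Pool.Agent.H50.RQ (LL Vq wq lfc gx LF lfc_F LL_sym chi_left prim_ne_one)

private theorem lf_ne {q : ℕ} [NeZero q] (w : (ZMod q)ˣ → ℝ) (ρ : ℂ) (h : co w ρ ≠ 0) :
    ∃ χ : DirichletCharacter ℂ q, LL χ ρ = 0 := by
  by_contra hcon
  push Not at hcon
  apply h
  unfold co
  refine Finset.sum_eq_zero fun χ _ => ?_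
  unfold analyticOrderNatAt
  rw [analyticOrderAt_eq_zero.2 (Or.inr (hcon χ))]
  simp

private theorem lf_lt {q : ℕ} [NeZero q] (w : (ZMod q)ˣ → ℝ) (ρ : ℂ) (h : co w ρ ≠ 0) : ρ.re < 1 := by
  obtain ⟨χ, hχ⟩ := lf_ne w ρ h
  by_contra h1
  rw [← lfc_F] at hχ
  exact (lfc χ).ne ρ (not_lt.1 h1) hχ

private theorem lf_left {q : ℕ} [NeZero q] (w : (ZMod q)ˣ → ℝ) (ρ : ℂ) (h : co w ρ ≠ 0) (h0 : ρ.re ≤ 0) :
    ∃ n : ℕ, ρ = -(n : ℂ) := by
  obtain ⟨χ, hχ⟩ := lf_ne w ρ h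
  by_cases h1 : χ = 1
  · rw [LL, if_pos h1, Pool.Agent.H50.RL.FF_zero_iff] at hχ
    obtain ⟨n, hn⟩ := Pool.Agent.H50.RL.zeta_left ρ hχ h0
    exact ⟨2 * (n + 1), by rw [hn]; push_cast; ring⟩
  · rw [LL, if_neg h1] at hχ
    exact chi_left χ.conductor χ.primitiveCharacter χ.primitiveCharacter_isPrimitive (prim_ne_one χ h1) ρ
      hχ h0

private theorem lf_sym {q : ℕ} [NeZero q] (w : (ZMod q)ˣ → ℝ) (ρ : ℂ) (h0 : 0 < ρ.re) (h1 : ρ.re < 1) :
    co w (1 - (starRingEnd ℂ) ρ) = co w ρ := by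
  unfold co
  exact Finset.sum_congr rfl fun χ _ => by rw [LL_sym χ ρ h0 h1]

/-- the places of the residues -/
private theorem lf_places {q : ℕ} [NeZero q] (w : (ZMod q)ˣ → ℝ)
    (hco : ∀ ρ : ℂ, 1 / 2 < ρ.re → co w ρ = 0) (ρ : ℂ) (h : co w ρ ≠ 0) :
    (∃ n : ℕ, ρ = -(n : ℂ)) ∨ ∃ t : ℝ, ρ = 1 / 2 + (t : ℂ) * Complex.I := by
  have h1 := lf_lt w ρ h
  rcases le_or_gt ρ.re 0 with h2 | h2
  · exact Or.inl (lf_left w ρ h h2)
  · right
    have h3 : ¬ 1 / 2 < ρ.re := fun h4 => h (hco ρ h4)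
    have h4 : ¬ ρ.re < 1 / 2 := by
      intro h5
      apply h
      rw [← lf_sym w ρ h2 h1]
      apply hco
      rw [Complex.sub_re, Complex.one_re, Complex.conj_re]
      linarith
    have h5 : ρ.re = 1 / 2 := le_antisymm (not_lt.1 h3) (not_lt.1 h4)
    refine ⟨ρ.im, ?_⟩
    have h6 := (Complex.re_add_im ρ).symm
    rw [h5] at h6
    rw [h6]
    simp

private theorem lf_line_inj : Function.Injective (fun t : ℝ => (1 / 2 : ℂ) + (t : ℂ) * Complex.I) := by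
  intro a b hab
  have h1 := congrArg Complex.im hab
  simpa using h1

private theorem lf_sum {q : ℕ} [NeZero q] (w : (ZMod q)ˣ → ℝ) :
    Summable fun t : ℝ => ‖co w (1 / 2 + (t : ℂ) * Complex.I)‖ / ‖(1 / 2 : ℂ) + (t : ℂ) * Complex.I‖ ^ 2 := by
  have h1 : ∀ χ : DirichletCharacter ℂ q, Summable fun ρ : ℂ =>
      (analyticOrderNatAt (LL χ) ρ : ℝ) / ‖ρ‖ ^ 2 := by
    intro χ
    have hi : Function.Injective (Subtype.val : (lfc χ).Z → ℂ) := Subtype.val_injective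
    refine (hi.summable_iff fun x hx => ?_).1 ?_
    · have h2 : LL χ x ≠ 0 := by
        intro h3
        rw [← lfc_F] at h3
        exact hx ⟨⟨x, h3⟩, rfl⟩
      have h3 : analyticOrderNatAt (LL χ) x = 0 := by
        unfold analyticOrderNatAt
        rw [analyticOrderAt_eq_zero.2 (Or.inr h2)]
        rfl
      rw [h3, Nat.cast_zero, zero_div]
    · refine ((lfc χ).s_one 2 (by norm_num)).congr fun ρ => ?_
      show (analyticOrderNatAt (lfc χ).F (ρ : ℂ) : ℝ) / ‖(ρ : ℂ)‖ ^ (2 : ℝ) =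
        (analyticOrderNatAt (LL χ) (ρ : ℂ) : ℝ) / ‖(ρ : ℂ)‖ ^ 2
      rw [Real.rpow_ofNat]
      exact congrArg (fun F : ℂ → ℂ => (analyticOrderNatAt F (ρ : ℂ) : ℝ) / ‖(ρ : ℂ)‖ ^ 2) (lfc_F χ)
  have h2 : Summable fun t : ℝ => ∑ χ : DirichletCharacter ℂ q, ‖al w χ‖ *
      ((analyticOrderNatAt (LL χ) (1 / 2 + (t : ℂ) * Complex.I) : ℝ) /
        ‖(1 / 2 : ℂ) + (t : ℂ) * Complex.I‖ ^ 2) :=
    summable_sum fun χ _ => ((h1 χ).comp_injective lf_line_inj).mul_left _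
  refine Summable.of_nonneg_of_le (fun t => by positivity) (fun t => ?_) h2
  have h3 : ‖co w (1 / 2 + (t : ℂ) * Complex.I)‖ ≤ ∑ χ : DirichletCharacter ℂ q, ‖al w χ‖ *
      (analyticOrderNatAt (LL χ) (1 / 2 + (t : ℂ) * Complex.I) : ℝ) := by
    unfold co
    refine (norm_sum_le _ _).trans (Finset.sum_le_sum fun χ _ => ?_)
    rw [norm_mul, Complex.norm_natCast]
  refine (div_le_div_of_nonneg_right h3 (by positivity)).trans (le_of_eq ?_)
  rw [Finset.sum_div]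
  exact Finset.sum_congr rfl fun χ _ => mul_div_assoc _ _ _

private theorem lf_fin {q : ℕ} [NeZero q] (w : (ZMod q)ˣ → ℝ) (T : ℝ) :
    {t : ℝ | |t| ≤ T ∧ co w (1 / 2 + (t : ℂ) * Complex.I) ≠ 0}.Finite := by
  have h1 : (⋃ χ : DirichletCharacter ℂ q, Subtype.val '' {ρ : (lfc χ).Z | ‖(ρ : ℂ)‖ ≤ 1 + T}).Finite :=
    Set.finite_iUnion fun χ => ((lfc χ).zfin (1 + T)).image _
  refine (h1.preimage lf_line_inj.injOn).subset ?_
  rintro t ⟨ht, h⟩
  obtain ⟨χ, hχ⟩ := lf_ne w _ h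
  rw [← lfc_F] at hχ
  refine Set.mem_iUnion.2 ⟨χ, ⟨⟨_, hχ⟩, ?_, rfl⟩⟩
  show ‖(1 / 2 : ℂ) + (t : ℂ) * Complex.I‖ ≤ 1 + T
  refine (norm_add_le _ _).trans ?_
  rw [norm_mul, Complex.norm_I, mul_one, Complex.norm_real, Real.norm_eq_abs]
  have h2 : ‖(1 / 2 : ℂ)‖ = 1 / 2 := by
    rw [norm_div, norm_one, Complex.norm_ofNat]
  rw [h2]
  linarith

/-- lower bound for the distance from the line -/
private theorem lf_low (a t : ℝ) (ha : 1 ≤ |a|) : (1 + |t|) / 2 ≤ ‖(a : ℂ) + (t : ℂ) * Complex.I‖ := by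
  have h1 := Complex.abs_re_le_norm ((a : ℂ) + (t : ℂ) * Complex.I)
  have h2 := Complex.abs_im_le_norm ((a : ℂ) + (t : ℂ) * Complex.I)
  have h3 : ((a : ℂ) + (t : ℂ) * Complex.I).re = a := by simp
  have h4 : ((a : ℂ) + (t : ℂ) * Complex.I).im = t := by simp
  rw [h3] at h1
  rw [h4] at h2
  linarith

private theorem lf_alg (A B C a e b D : ℂ) (hA : A ≠ 0) (hB : B ≠ 0) (hC : C ≠ 0) (ha : a ≠ 0)
    (he : e * e = 1) (h1 : a + e / 2 = e * C + A) (h2 : 3 / 2 + e / 2 = e * C + B) (hD : D = -(e * A)) :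
    e * (b * (1 / A - 1 / B)) = (a + e / 2) / a * (b / C * (-(e * a) / D)) - (3 / 2 + e / 2) * (b / C / B) := by
  have he0 : e ≠ 0 := by
    rintro rfl
    simp at he
  have h3 : -(e * a) / D = a / A := by
    rw [hD]
    field_simp
  rw [h3, h1, h2]
  field_simp
  ring

private theorem lf_id (e : ℝ) (he : e = 1 ∨ e = -1) (a : ℝ) (ha : 3 / 2 ≤ a) (t : ℝ) (b : ℂ) :
    (e : ℂ) * (b * (1 / ((a : ℂ) - (e : ℂ) * ((t : ℂ) * Complex.I)) - 1 / (3 / 2 - (e : ℂ) * ((t : ℂ) * Complex.I)))) =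
      (((a + e / 2) / a : ℝ) : ℂ) * (b / (1 / 2 + (t : ℂ) * Complex.I) *
        (((-(e * a) : ℝ) : ℂ) / (((-(e * a) : ℝ) : ℂ) + (t : ℂ) * Complex.I))) -
      ((3 / 2 + e / 2 : ℝ) : ℂ) * (b / (1 / 2 + (t : ℂ) * Complex.I) / (3 / 2 - (e : ℂ) * ((t : ℂ) * Complex.I))) := by
  have h0 : (a : ℂ) ≠ 0 := by
    have : a ≠ 0 := by linarith
    exact_mod_cast this
  have hee : e * e = 1 := by rcases he with rfl | rfl <;> norm_num
  have hee' : (e : ℂ) * (e : ℂ) = 1 := by exact_mod_cast hee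
  have h1 : (1 / 2 : ℂ) + (t : ℂ) * Complex.I ≠ 0 := by
    intro h
    have := congrArg Complex.re h
    simp at this
  have hne : ∀ x : ℝ, x ≠ 0 → (x : ℂ) - (e : ℂ) * ((t : ℂ) * Complex.I) ≠ 0 := by
    intro x hx h
    have := congrArg Complex.re h
    simp at this
    exact hx this
  have h2 := hne a (by linarith)
  have h3 := hne (3 / 2) (by norm_num)
  push_cast at h3 ⊢
  refine lf_alg _ _ _ _ _ _ _ h2 h3 h1 h0 hee' ?_ ?_ ?_
  · ring
  · ring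
  · linear_combination (t : ℂ) * Complex.I * (1 - hee')

/-- the positive definite function bounds the sum over the line -/
private theorem lf_line (b : ℝ → ℂ) (c₀ : ℝ) (e : ℝ) (he : e = 1 ∨ e = -1)
    (hb : Summable fun t : ℝ => ‖b t‖ / ‖(1 / 2 : ℂ) + (t : ℂ) * Complex.I‖ ^ 2)
    (hfin : ∀ T : ℝ, {t : ℝ | |t| ≤ T ∧ b t ≠ 0}.Finite)
    (hpd : PD (fun t : ℝ => if t = 0 then (c₀ : ℂ) else b t / (1 / 2 + (t : ℂ) * Complex.I))) :
    ∃ M : ℝ, ∀ a : ℝ, 3 / 2 ≤ a → -M ≤ e * (∑' t : ℝ, b t *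
      (1 / ((a : ℂ) - (e : ℂ) * ((t : ℂ) * Complex.I)) - 1 / (3 / 2 - (e : ℂ) * ((t : ℂ) * Complex.I)))).re := by
  obtain ⟨R, hR⟩ : ∃ R : ℝ → ℂ, R = fun t : ℝ => if t = 0 then (c₀ : ℂ) else
    b t / (1 / 2 + (t : ℂ) * Complex.I) := ⟨_, rfl⟩
  rw [← hR] at hpd
  have hR0 : R 0 = c₀ := by rw [hR]; simp
  have hR1 : ∀ t : ℝ, t ≠ 0 → R t = b t / (1 / 2 + (t : ℂ) * Complex.I) := by
    intro t ht
    rw [hR]
    simp only [if_neg ht]
  have he1 : |e| = 1 := by rcases he with rfl | rfl <;> simp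
  have hee : e * e = 1 := by rcases he with rfl | rfl <;> norm_num
  have hemin : -1 ≤ e ∧ e ≤ 1 := abs_le.1 he1.le
  have hRfin : ∀ T : ℝ, {t : ℝ | |t| ≤ T ∧ R t ≠ 0}.Finite := by
    intro T
    refine ((hfin T).insert 0).subset ?_
    rintro t ⟨ht, h⟩
    by_cases h0 : t = 0
    · exact Or.inl h0
    · right
      refine ⟨ht, fun h1 => h ?_⟩
      rw [hR1 t h0, h1, zero_div]
  have hRs : Summable fun t : ℝ => ‖R t‖ / (1 + |t|) := by
    refine Summable.of_norm_bounded_eventually hb ?_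
    have hev : ∀ᶠ t : ℝ in cofinite, t ≠ 0 := by
      rw [Filter.eventually_cofinite]
      simp
    filter_upwards [hev] with t ht
    have h1 : 0 < ‖(1 / 2 : ℂ) + (t : ℂ) * Complex.I‖ := by
      rw [norm_pos_iff]
      intro h
      have := congrArg Complex.re h
      simp at this
    have h2 : ‖(1 / 2 : ℂ) + (t : ℂ) * Complex.I‖ ≤ 1 + |t| := by
      refine (norm_add_le _ _).trans ?_
      rw [norm_mul, Complex.norm_I, mul_one, Complex.norm_real, Real.norm_eq_abs]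
      have h3 : ‖(1 / 2 : ℂ)‖ = 1 / 2 := by
        rw [norm_div, norm_one, Complex.norm_ofNat]
      rw [h3]
      linarith
    rw [Real.norm_eq_abs, abs_of_nonneg (by positivity), hR1 t ht, norm_div, div_div]
    refine div_le_div_of_nonneg_left (norm_nonneg _) (by positivity) ?_
    rw [pow_two]
    exact mul_le_mul_of_nonneg_left h2 h1.le
  -- the auxiliary series
  have hS : Summable fun t : ℝ => R t / (3 / 2 - (e : ℂ) * ((t : ℂ) * Complex.I)) := by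
    refine Summable.of_norm_bounded (hRs.mul_left 2) fun t => ?_
    have h1 := lf_low (3 / 2) (-(e * t)) (by rw [abs_of_nonneg (by norm_num)]; norm_num)
    have h2 : |(-(e * t))| = |t| := by rw [abs_neg, abs_mul, he1, one_mul]
    have h3 : (((3 / 2 : ℝ)) : ℂ) + ((-(e * t) : ℝ) : ℂ) * Complex.I =
        3 / 2 - (e : ℂ) * ((t : ℂ) * Complex.I) := by
      push_cast
      ring
    rw [h2, h3] at h1
    rw [norm_div]
    have h4 : 0 < (1 + |t|) / 2 := by positivity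
    refine (div_le_div_of_nonneg_left (norm_nonneg _) h4 h1).trans (le_of_eq ?_)
    field_simp
  obtain ⟨S, hSe⟩ : ∃ S : ℂ, S = ∑' t : ℝ, R t / (3 / 2 - (e : ℂ) * ((t : ℂ) * Complex.I)) := ⟨_, rfl⟩
  refine ⟨2 * ‖S‖ + ‖b 0‖ + 4 * |c₀|, fun a ha => ?_⟩
  have ha0 : 0 < a := by linarith
  have hane : -(e * a) ≠ 0 := by
    have h1 : e ≠ 0 := by
      rintro rfl
      norm_num at hee
    exact neg_ne_zero.2 (mul_ne_zero h1 ha0.ne')
  have hP := pd_pois R hpd hRfin hRs (-(e * a)) hane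
  have hPs : Summable fun t : ℝ => R t *
      (((-(e * a) : ℝ) : ℂ) / (((-(e * a) : ℝ) : ℂ) + (t : ℂ) * Complex.I)) := by
    refine Summable.of_norm_bounded (hRs.mul_left (2 * a)) fun t => ?_
    have h2 : |(-(e * a))| = a := by rw [abs_neg, abs_mul, he1, one_mul, abs_of_pos ha0]
    have h1 := lf_low (-(e * a)) t (by rw [h2]; linarith)
    rw [norm_mul, norm_div, Complex.norm_real, Real.norm_eq_abs, h2]
    have h4 : 0 < (1 + |t|) / 2 := by positivity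
    have h5 : a / ‖((-(e * a) : ℝ) : ℂ) + (t : ℂ) * Complex.I‖ ≤ a / ((1 + |t|) / 2) :=
      div_le_div_of_nonneg_left ha0.le h4 h1
    refine (mul_le_mul_of_nonneg_left h5 (norm_nonneg _)).trans (le_of_eq ?_)
    field_simp
  obtain ⟨δ, hδ⟩ : ∃ δ : ℂ, δ = (e : ℂ) * (b 0 * (1 / (a : ℂ) - 1 / (3 / 2))) -
      (((a + e / 2) / a : ℝ) : ℂ) * c₀ + ((3 / 2 + e / 2 : ℝ) : ℂ) * ((c₀ : ℂ) / (3 / 2)) := ⟨_, rfl⟩
  have hterm : ∀ t : ℝ, (e : ℂ) * (b t * (1 / ((a : ℂ) - (e : ℂ) * ((t : ℂ) * Complex.I)) -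
      1 / (3 / 2 - (e : ℂ) * ((t : ℂ) * Complex.I)))) =
      (((a + e / 2) / a : ℝ) : ℂ) * (R t *
        (((-(e * a) : ℝ) : ℂ) / (((-(e * a) : ℝ) : ℂ) + (t : ℂ) * Complex.I))) -
      ((3 / 2 + e / 2 : ℝ) : ℂ) * (R t / (3 / 2 - (e : ℂ) * ((t : ℂ) * Complex.I))) +
      (if t = 0 then δ else 0) := by
    intro t
    by_cases h0 : t = 0
    · subst h0
      have h1 : (((-(e * a) : ℝ) : ℂ)) ≠ 0 := by exact_mod_cast hane
      rw [if_pos rfl, hR0, Complex.ofReal_zero, zero_mul, mul_zero, sub_zero, sub_zero, add_zero,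
        div_self h1, mul_one, hδ]
      ring
    · rw [if_neg h0, add_zero, lf_id e he a ha t (b t), hR1 t h0]
  have hsum : (e : ℂ) * (∑' t : ℝ, b t * (1 / ((a : ℂ) - (e : ℂ) * ((t : ℂ) * Complex.I)) -
      1 / (3 / 2 - (e : ℂ) * ((t : ℂ) * Complex.I)))) =
      (((a + e / 2) / a : ℝ) : ℂ) * (∑' t : ℝ, R t *
        (((-(e * a) : ℝ) : ℂ) / (((-(e * a) : ℝ) : ℂ) + (t : ℂ) * Complex.I))) -
      ((3 / 2 + e / 2 : ℝ) : ℂ) * S + δ := by
    have h1 := hPs.mul_left (((a + e / 2) / a : ℝ) : ℂ)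
    have h2 := hS.mul_left ((3 / 2 + e / 2 : ℝ) : ℂ)
    have h3 : Summable fun t : ℝ => if t = 0 then δ else 0 := (hasSum_ite_eq 0 δ).summable
    rw [← tsum_mul_left, tsum_congr hterm, (h1.sub h2).tsum_add h3, h1.tsum_sub h2, tsum_mul_left,
      tsum_mul_left, ← hSe, tsum_ite_eq]
  have hre := congrArg Complex.re hsum
  rw [Complex.re_ofReal_mul, Complex.add_re, Complex.sub_re, Complex.re_ofReal_mul, Complex.re_ofReal_mul] at hre
  rw [hre]
  have hq : 0 ≤ (a + e / 2) / a := div_nonneg (by linarith [hemin.1]) ha0.le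
  have hq2 : (a + e / 2) / a ≤ 2 := by
    rw [div_le_iff₀ ha0]
    linarith [hemin.2]
  have hP' : 0 ≤ (a + e / 2) / a * (∑' t : ℝ, R t *
        (((-(e * a) : ℝ) : ℂ) / (((-(e * a) : ℝ) : ℂ) + (t : ℂ) * Complex.I))).re := mul_nonneg hq hP
  have hS' : (3 / 2 + e / 2) * S.re ≤ 2 * ‖S‖ := by
    have h1 := Complex.abs_re_le_norm S
    have h2 : |(3 / 2 + e / 2) * S.re| ≤ 2 * ‖S‖ := by
      rw [abs_mul, abs_of_nonneg (by linarith [hemin.1])]
      exact mul_le_mul (by linarith [hemin.2]) h1 (abs_nonneg _) (by norm_num)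
    exact (le_abs_self _).trans h2
  have hδn : ‖δ‖ ≤ ‖b 0‖ + 4 * |c₀| := by
    rw [hδ]
    have h1 : ‖(e : ℂ) * (b 0 * (1 / (a : ℂ) - 1 / (3 / 2)))‖ ≤ ‖b 0‖ := by
      rw [norm_mul, Complex.norm_real, Real.norm_eq_abs, he1, one_mul, norm_mul]
      have h2 : (1 / (a : ℂ) - 1 / (3 / 2)) = (((1 / a - 2 / 3) : ℝ) : ℂ) := by
        push_cast
        norm_num
      rw [h2, Complex.norm_real, Real.norm_eq_abs]
      have h3 : |1 / a - 2 / 3| ≤ 1 := by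
        have h4 : 0 < 1 / a := by positivity
        have h5 : 1 / a ≤ 1 := by
          rw [div_le_one ha0]
          linarith
        rw [abs_le]
        constructor <;> linarith
      exact mul_le_of_le_one_right (norm_nonneg _) h3
    have h2 : ‖(((a + e / 2) / a : ℝ) : ℂ) * c₀‖ ≤ 2 * |c₀| := by
      rw [norm_mul, Complex.norm_real, Real.norm_eq_abs, Complex.norm_real, Real.norm_eq_abs,
        abs_of_nonneg hq]
      exact mul_le_mul_of_nonneg_right hq2 (abs_nonneg _)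
    have h3 : ‖((3 / 2 + e / 2 : ℝ) : ℂ) * ((c₀ : ℂ) / (3 / 2))‖ ≤ 2 * |c₀| := by
      have h4 : (c₀ : ℂ) / (3 / 2) = ((c₀ / (3 / 2) : ℝ) : ℂ) := by
        push_cast
        rfl
      rw [h4, norm_mul, Complex.norm_real, Real.norm_eq_abs, Complex.norm_real, Real.norm_eq_abs, abs_div,
        abs_of_nonneg (show (0 : ℝ) ≤ 3 / 2 + e / 2 by linarith [hemin.1]),
        abs_of_nonneg (show (0 : ℝ) ≤ 3 / 2 by norm_num)]
      have h5 : |c₀| / (3 / 2) ≤ |c₀| := div_le_self (abs_nonneg _) (by norm_num)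
      exact mul_le_mul (by linarith [hemin.2]) h5 (by positivity) (by norm_num)
    refine (norm_add_le _ _).trans ?_
    have h4 := norm_sub_le ((e : ℂ) * (b 0 * (1 / (a : ℂ) - 1 / (3 / 2)))) ((((a + e / 2) / a : ℝ) : ℂ) * c₀)
    linarith
  have hδr : -‖δ‖ ≤ δ.re := (abs_le.1 (Complex.abs_re_le_norm δ)).1
  linarith

theorem lit {q : ℕ} [NeZero q] (w : (ZMod q)ˣ → ℝ) (h1 : ∑ u, w u = 0) (ε : ℝ) (hε : ε = 1 ∨ ε = -1)
    (hal : ∀ χ : DirichletCharacter ℂ q, ε * (al w χ).re ≤ 0)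
    (hne : ∃ χ : DirichletCharacter ℂ q, (al w χ).re ≠ 0)
    (hco : ∀ ρ : ℂ, 1 / 2 < ρ.re → co w ρ = 0) (c₀ : ℝ)
    (hpd : PD (fun t : ℝ => if t = 0 then (c₀ : ℂ) else
      co w (1 / 2 + (t : ℂ) * Complex.I) / (1 / 2 + (t : ℂ) * Complex.I))) : False := by
  obtain ⟨χ₀, hχ₀⟩ := hne
  have h0 : χ₀ ≠ 1 := by
    rintro rfl
    apply hχ₀
    rw [al_one w h1, Complex.zero_re]
  have hε1 : |ε| = 1 := by rcases hε with rfl | rfl <;> simp
  obtain ⟨M, hM⟩ := lf_line (fun t => co w (1 / 2 + (t : ℂ) * Complex.I)) c₀ ε hε (lf_sum w) (lf_fin w) hpd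
  have hpl := lf_places w hco
  -- the mixture
  obtain ⟨c, hc, hcne, hDD, hlim⟩ : ∃ c : DirichletCharacter ℂ q → ℂ,
      (∀ χ : DirichletCharacter ℂ q, ε * (c χ).re ≤ 0) ∧ (c χ₀).re ≠ 0 ∧
      (∀ ρ, DD c ρ ≠ 0 → co w ρ ≠ 0) ∧ ∀ a : ℝ, (∑' t : ℝ, DD c (1 / 2 + (t : ℂ) * Complex.I) *
      (1 / (((a + 1 / 2 : ℝ) : ℂ) - (1 / 2 + (t : ℂ) * Complex.I)) -
        1 / (2 - (1 / 2 + (t : ℂ) * Complex.I)))).re =
      (∑' t : ℝ, co w (1 / 2 + (t : ℂ) * Complex.I) *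
      (1 / ((a : ℂ) - (ε : ℂ) * ((t : ℂ) * Complex.I)) -
        1 / (3 / 2 - (ε : ℂ) * ((t : ℂ) * Complex.I)))).re := by
    rcases hε with rfl | rfl
    · refine ⟨al w, hal, hχ₀, fun ρ h => h, fun a => ?_⟩
      refine congrArg Complex.re (tsum_congr fun t => ?_)
      have h2 : ((a + 1 / 2 : ℝ) : ℂ) - (1 / 2 + (t : ℂ) * Complex.I) =
          (a : ℂ) - ((1 : ℝ) : ℂ) * ((t : ℂ) * Complex.I) := by
        push_cast
        ring
      have h3 : (2 : ℂ) - (1 / 2 + (t : ℂ) * Complex.I) =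
          3 / 2 - ((1 : ℝ) : ℂ) * ((t : ℂ) * Complex.I) := by
        push_cast
        ring
      rw [h2, h3]
      rfl
    · have hconj : ∀ ρ, DD (fun χ => (starRingEnd ℂ) (al w χ)) ρ = (starRingEnd ℂ) (co w ρ) := by
        intro ρ
        unfold DD co
        rw [map_sum]
        refine Finset.sum_congr rfl fun χ _ => ?_
        rw [map_mul, map_natCast]
      refine ⟨fun χ => (starRingEnd ℂ) (al w χ), fun χ => ?_, ?_, fun ρ h h2 => h ?_, fun a => ?_⟩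
      · rw [Complex.conj_re]
        exact hal χ
      · rw [Complex.conj_re]
        exact hχ₀
      · rw [hconj, h2, map_zero]
      · rw [← Complex.conj_re (∑' t : ℝ, co w (1 / 2 + (t : ℂ) * Complex.I) *
          (1 / ((a : ℂ) - ((-1 : ℝ) : ℂ) * ((t : ℂ) * Complex.I)) -
          1 / (3 / 2 - ((-1 : ℝ) : ℂ) * ((t : ℂ) * Complex.I)))), Complex.conj_tsum]
        refine congrArg Complex.re (tsum_congr fun t => ?_)
        rw [hconj, map_mul, map_sub, map_div₀, map_div₀, map_sub, map_sub, map_one, map_mul, map_mul, map_div₀,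
          Complex.conj_ofReal, Complex.conj_ofReal, Complex.conj_ofReal, Complex.conj_I, map_ofNat, map_ofNat]
        have h2 : ((a + 1 / 2 : ℝ) : ℂ) - (1 / 2 + (t : ℂ) * Complex.I) =
            (a : ℂ) - ((-1 : ℝ) : ℂ) * ((t : ℂ) * -Complex.I) := by
          push_cast
          ring
        have h3 : (2 : ℂ) - (1 / 2 + (t : ℂ) * Complex.I) =
            3 / 2 - ((-1 : ℝ) : ℂ) * ((t : ℂ) * -Complex.I) := by
          push_cast
          ring
        rw [h2, h3]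
  have hcore := li_core c ε hε1 hc χ₀ h0 hcne (fun ρ h => hpl ρ (hDD ρ h))
  obtain ⟨s, hs1, hs2⟩ := ((hcore.eventually_lt_atBot (-M)).and (eventually_ge_atTop 2)).exists
  have h2 := hM (s - 1 / 2) (by linarith)
  rw [← hlim (s - 1 / 2), sub_add_cancel] at h2
  linarith

end Pool.Agent.H52.PR
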