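import Mathlib

/-!
PRIME RACES (MP_2936c6_nt) v2, module Maj: the majorant `C √n / log n`.

PROOF. `mj_sum`: `|mj C n| ≤ |C| √n/log 2 ≤ 2 |C| n^(1/2)`. `mj_lim`: `L(z) = ∑_{n ≥ 2} √n/log n n^(-z)` has `L'(z) = -(ζ(z - 1/2) - 1)`
for `Re z > 3/2` (`LSeries_hasDerivAt`). Near `z₀ = 3/2 + it`, `t ≠ 0`: `ζ(z-1/2)` is analytic at `z₀`, so `L'` is bounded on
`z₀ + δ`, `0 < δ ≤ 1`, and `L(z₀ + δ)` is bounded. `t = 0`: `ζ(z - 1/2) = 1/(z-3/2) + analytic`
(`riemannZeta_residue_one`, or `differentiable`/`tendsto` lemmas for `ζ(s) - 1/(s-1)`; in the library `riemannZeta₀`), so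
`L(3/2 + δ) = log(1/δ) + O(1)`. Divide by `log(1/δ) → ∞`.
-/

set_option autoImplicit false

namespace Pool.Agent.H52.PR

open Filter Topology

/-- the majorant -/
noncomputable def mj (C : ℝ) (n : ℕ) : ℝ := if n ≤ 1 then 0 else C * (Real.sqrt n / Real.log n)

private theorem half_le_log (n : ℕ) (h : ¬ n ≤ 1) : (1 / 2 : ℝ) ≤ Real.log n := by
  have h1 : Real.log 2 ≤ Real.log n := by
    refine Real.log_le_log (by norm_num) ?_
    have : 2 ≤ n := by omega
    exact_mod_cast this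
  have h2 := Real.log_two_gt_d9
  linarith

theorem mj_sum (C : ℝ) (z : ℂ) (hz : 1 + 1 / 2 < z.re) : LSeriesSummable (fun n => ((mj C n : ℝ) : ℂ)) z := by
  refine LSeriesSummable_of_le_const_mul_rpow (x := 3 / 2) (by linarith) ⟨2 * |C|, fun n _ => ?_⟩
  rw [Complex.norm_real, Real.norm_eq_abs]
  have h12 : ((3 : ℝ) / 2 - 1) = 1 / 2 := by norm_num
  rw [h12, ← Real.sqrt_eq_rpow]
  unfold mj
  split_ifs with h
  · rw [abs_zero]
    positivity
  · have hl := half_le_log n h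
    have hs := Real.sqrt_nonneg (n : ℝ)
    rw [abs_mul, abs_of_nonneg (div_nonneg hs (by linarith))]
    have h1 : Real.sqrt n / Real.log n ≤ 2 * Real.sqrt n := by
      rw [div_le_iff₀ (by linarith)]
      nlinarith
    calc |C| * (Real.sqrt n / Real.log n) ≤ |C| * (2 * Real.sqrt n) := mul_le_mul_of_nonneg_left h1 (abs_nonneg C)
      _ = 2 * |C| * Real.sqrt n := by ring

private theorem mj_log (C : ℝ) (z : ℂ) (hz : 1 + 1 / 2 < z.re) :
    LSeries (LSeries.logMul (fun n => ((mj C n : ℝ) : ℂ))) z = C * (riemannZeta (z - 1 / 2) - 1) := by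
  have hz1 : 1 < (z - 1 / 2).re := by
    have : (z - 1 / 2).re = z.re - 1 / 2 := by simp
    rw [this]
    linarith
  have hD : LSeriesHasSum LSeries.delta (z - 1 / 2) 1 := by
    have h2 : LSeriesSummable LSeries.delta (z - 1 / 2) :=
      LSeriesSummable_of_bounded_of_one_lt_re (m := 1) (fun n _ => by
        unfold LSeries.delta
        split_ifs <;> simp) hz1
    have h3 := h2.LSeriesHasSum
    rw [LSeries_delta] at h3
    exact h3
  have hO : HasSum (LSeries.term 1 (z - 1 / 2)) (riemannZeta (z - 1 / 2)) := LSeriesHasSum_one hz1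
  have hD2 : HasSum (LSeries.term LSeries.delta (z - 1 / 2)) 1 := hD
  have hall : HasSum (fun n => (C : ℂ) * (LSeries.term 1 (z - 1 / 2) n - LSeries.term LSeries.delta (z - 1 / 2) n))
      (C * (riemannZeta (z - 1 / 2) - 1)) := (hO.sub hD2).mul_left (C : ℂ)
  have hcong : LSeriesHasSum (LSeries.logMul (fun n => ((mj C n : ℝ) : ℂ))) z (C * (riemannZeta (z - 1 / 2) - 1)) := by
    unfold LSeriesHasSum
    have e : LSeries.term (LSeries.logMul (fun n => ((mj C n : ℝ) : ℂ))) z = fun n => (C : ℂ) *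
        (LSeries.term 1 (z - 1 / 2) n - LSeries.term LSeries.delta (z - 1 / 2) n) := by
      funext n
      rcases Nat.eq_zero_or_pos n with h | h
      · subst h
        simp
      · rw [LSeries.term_of_ne_zero h.ne', LSeries.term_of_ne_zero h.ne', LSeries.term_of_ne_zero h.ne']
        simp only [Pi.one_apply, LSeries.logMul, LSeries.delta]
        by_cases h1 : n = 1
        · subst h1
          simp
        · rw [if_neg h1, zero_div, sub_zero]
          have hn1 : ¬ n ≤ 1 := by omega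
          have hl := half_le_log n hn1
          have hl0 : ((Real.log n : ℝ) : ℂ) ≠ 0 := by
            have : Real.log n ≠ 0 := by linarith
            exact_mod_cast this
          have hn0 : (n : ℂ) ≠ 0 := by exact_mod_cast h.ne'
          have h6 : Complex.log n = ((Real.log n : ℝ) : ℂ) := by rw [Complex.natCast_log]
          have hs : (n : ℂ) ^ (1 / 2 : ℂ) = ((Real.sqrt n : ℝ) : ℂ) := by
            rw [Real.sqrt_eq_rpow, Complex.ofReal_cpow (Nat.cast_nonneg n)]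
            push_cast
            rfl
          have hs0 : ((Real.sqrt n : ℝ) : ℂ) ≠ 0 := by
            have h7 : (0 : ℝ) < n := by exact_mod_cast h
            have : Real.sqrt n ≠ 0 := (Real.sqrt_pos.2 h7).ne'
            exact_mod_cast this
          have hzn : (n : ℂ) ^ z ≠ 0 := by
            rw [Complex.cpow_def_of_ne_zero hn0]
            exact Complex.exp_ne_zero _
          rw [h6, mj, if_neg hn1, Complex.cpow_sub _ _ hn0, hs, Complex.ofReal_mul, Complex.ofReal_div]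
          generalize ((Real.log n : ℝ) : ℂ) = l at hl0
          generalize ((Real.sqrt n : ℝ) : ℂ) = e at hs0
          generalize (n : ℂ) ^ z = y at hzn
          field_simp
    rw [e]
    exact hall
  exact hcong.LSeries_eq

private theorem mj_der (C : ℝ) (z : ℂ) (hz : 1 + 1 / 2 < z.re) :
    HasDerivAt (fun z : ℂ => LSeries (fun n => ((mj C n : ℝ) : ℂ)) z + C * Complex.log (z - 3 / 2))
      (-(C * (riemannZeta₀ (z - 1 / 2) - 1))) z := by
  have habs : LSeries.abscissaOfAbsConv (fun n => ((mj C n : ℝ) : ℂ)) < ((z.re : ℝ) : EReal) := by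
    have h1 : LSeries.abscissaOfAbsConv (fun n => ((mj C n : ℝ) : ℂ)) ≤ ((1 + 1 / 2 : ℝ) : EReal) := by
      refine LSeries.abscissaOfAbsConv_le_of_forall_lt_LSeriesSummable fun y hy => ?_
      exact mj_sum C _ (by simpa using hy)
    exact lt_of_le_of_lt h1 (by exact_mod_cast hz)
  have h1 := LSeries_hasDerivAt habs
  rw [mj_log C z hz] at h1
  have hre : 0 < (z - 3 / 2).re := by
    have : (z - 3 / 2).re = z.re - 3 / 2 := by simp
    rw [this]
    linarith
  have hne : z - 3 / 2 ≠ 0 := by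
    intro h
    rw [h, Complex.zero_re] at hre
    exact lt_irrefl _ hre
  have hsl : z - 3 / 2 ∈ Complex.slitPlane := Or.inl hre
  have h2 : HasDerivAt (fun z : ℂ => Complex.log (z - 3 / 2)) (1 / (z - 3 / 2)) z :=
    ((hasDerivAt_id z).sub_const (3 / 2 : ℂ)).clog hsl
  have h3 := h1.add (h2.const_mul (C : ℂ))
  have hne2 : z - 1 / 2 ≠ 1 := by
    intro h
    apply hne
    linear_combination h
  have e : -(C * (riemannZeta (z - 1 / 2) - 1)) + C * (1 / (z - 3 / 2)) = -((C : ℂ) * (riemannZeta₀ (z - 1 / 2) - 1)) := by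
    rw [riemannZeta_eq_inv_sub_add hne2]
    have h4 : z - 1 / 2 - 1 = z - 3 / 2 := by ring
    rw [h4]
    field_simp
    ring
  rw [e] at h3
  exact h3

theorem mj_lim (C : ℝ) (t : ℝ) :
    Tendsto (fun δ : ℝ => LSeries (fun n => ((mj C n : ℝ) : ℂ)) (1 + (1 / 2 + (t : ℂ) * Complex.I) + (δ : ℂ)) /
      ((Real.log (1 / δ) : ℝ) : ℂ)) (𝓝[>] 0) (𝓝 (if t = 0 then (C : ℂ) else 0)) := by
  obtain ⟨z₀, hz₀⟩ : ∃ z₀ : ℂ, z₀ = 1 + (1 / 2 + (t : ℂ) * Complex.I) := ⟨_, rfl⟩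
  rw [← hz₀]
  have hzre : z₀.re = 1 + 1 / 2 := by
    rw [hz₀]
    simp
  obtain ⟨H, hH⟩ : ∃ H : ℂ → ℂ, H = fun z : ℂ => LSeries (fun n => ((mj C n : ℝ) : ℂ)) z + C * Complex.log (z - 3 / 2) :=
    ⟨_, rfl⟩
  -- the derivative on the segment
  have hder : ∀ e : ℝ, 0 < e → HasDerivAt (fun e : ℝ => H (z₀ + (e : ℂ))) (-(C * (riemannZeta₀ (z₀ + (e : ℂ) - 1 / 2) - 1))) e := by
    intro e he
    have h1 := mj_der C (z₀ + (e : ℂ)) (by rw [Complex.add_re, hzre, Complex.ofReal_re]; linarith)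
    rw [← hH] at h1
    exact (h1.comp_const_add z₀ (e : ℂ)).comp_ofReal
  obtain ⟨K, hK⟩ : ∃ K : ℝ, ∀ e ∈ Set.Icc (0 : ℝ) 1, ‖-((C : ℂ) * (riemannZeta₀ (z₀ + (e : ℂ) - 1 / 2) - 1))‖ ≤ K := by
    have hc : Continuous (fun e : ℝ => -((C : ℂ) * (riemannZeta₀ (z₀ + (e : ℂ) - 1 / 2) - 1))) := by
      have h1 := differentiable_riemannZeta₀.continuous
      have h2 : Continuous (fun e : ℝ => riemannZeta₀ (z₀ + (e : ℂ) - 1 / 2)) := by
        refine h1.comp ?_
        exact ((continuous_const.add Complex.continuous_ofReal).sub continuous_const)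
      exact (continuous_const.mul (h2.sub continuous_const)).neg
    exact isCompact_Icc.exists_bound_of_continuousOn hc.continuousOn
  have hK0 : 0 ≤ K := (norm_nonneg _).trans (hK 0 (by constructor <;> norm_num))
  have hbd : ∀ e : ℝ, 0 < e → e ≤ 1 → ‖H (z₀ + (e : ℂ))‖ ≤ K + ‖H (z₀ + ((1 : ℝ) : ℂ))‖ := by
    intro e he he1
    have h1 := norm_image_sub_le_of_norm_deriv_le_segment' (f := fun e : ℝ => H (z₀ + (e : ℂ))) (a := e) (b := 1)
      (f' := fun e => -((C : ℂ) * (riemannZeta₀ (z₀ + (e : ℂ) - 1 / 2) - 1))) (C := K)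
      (fun x hx => (hder x (lt_of_lt_of_le he hx.1)).hasDerivWithinAt)
      (fun x hx => hK x ⟨he.le.trans hx.1, hx.2.le⟩) 1 ⟨he1, le_rfl⟩
    have h2 : K * (1 - e) ≤ K := by nlinarith
    have h3 : ‖H (z₀ + (e : ℂ))‖ ≤ ‖H (z₀ + ((1 : ℝ) : ℂ)) - H (z₀ + (e : ℂ))‖ + ‖H (z₀ + ((1 : ℝ) : ℂ))‖ := by
      have h4 : H (z₀ + (e : ℂ)) = H (z₀ + ((1 : ℝ) : ℂ)) - (H (z₀ + ((1 : ℝ) : ℂ)) - H (z₀ + (e : ℂ))) := by ring
      calc ‖H (z₀ + (e : ℂ))‖ = ‖H (z₀ + ((1 : ℝ) : ℂ)) - (H (z₀ + ((1 : ℝ) : ℂ)) - H (z₀ + (e : ℂ)))‖ := by rw [← h4]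
        _ ≤ ‖H (z₀ + ((1 : ℝ) : ℂ))‖ + ‖H (z₀ + ((1 : ℝ) : ℂ)) - H (z₀ + (e : ℂ))‖ := norm_sub_le _ _
        _ = _ := add_comm _ _
    linarith
  -- the logarithm
  have hL : Tendsto (fun δ : ℝ => Real.log (1 / δ)) (𝓝[>] 0) atTop := by
    have h1 := Real.tendsto_log_atTop.comp (tendsto_inv_nhdsGT_zero (𝕜 := ℝ))
    refine h1.congr (fun δ => ?_)
    rw [Function.comp, one_div]
  have hinv : Tendsto (fun δ : ℝ => (((Real.log (1 / δ) : ℝ) : ℂ))⁻¹) (𝓝[>] 0) (𝓝 0) := by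
    have h1 := tendsto_inv_atTop_zero.comp hL
    have h2 := (Complex.continuous_ofReal.tendsto (0 : ℝ)).comp h1
    rw [Complex.ofReal_zero] at h2
    refine h2.congr (fun δ => ?_)
    simp [Function.comp]
  have h01 : ∀ᶠ δ : ℝ in 𝓝[>] 0, 0 < δ ∧ δ < 1 := by
    have h1 : ∀ᶠ δ : ℝ in 𝓝[>] 0, δ ∈ Set.Ioo (0 : ℝ) 1 := Ioo_mem_nhdsGT one_pos
    exact h1
  have hA : Tendsto (fun δ : ℝ => H (z₀ + (δ : ℂ)) * (((Real.log (1 / δ) : ℝ) : ℂ))⁻¹) (𝓝[>] 0) (𝓝 0) := by
    refine isBoundedUnder_le_mul_tendsto_zero ?_ hinv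
    refine ⟨K + ‖H (z₀ + ((1 : ℝ) : ℂ))‖, ?_⟩
    rw [eventually_map]
    filter_upwards [h01] with δ hδ
    exact hbd δ hδ.1 hδ.2.le
  have hB : Tendsto (fun δ : ℝ => (C : ℂ) * Complex.log (z₀ + (δ : ℂ) - 3 / 2) * (((Real.log (1 / δ) : ℝ) : ℂ))⁻¹) (𝓝[>] 0)
      (𝓝 (-(if t = 0 then (C : ℂ) else 0))) := by
    have hzz : ∀ δ : ℝ, z₀ + (δ : ℂ) - 3 / 2 = (δ : ℂ) + (t : ℂ) * Complex.I := by
      intro δ
      rw [hz₀]
      ring
    by_cases ht : t = 0
    · rw [if_pos ht]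
      refine Tendsto.congr' ?_ tendsto_const_nhds
      filter_upwards [h01] with δ hδ
      rw [hzz, ht, Complex.ofReal_zero, zero_mul, add_zero, ← Complex.ofReal_log hδ.1.le, one_div, Real.log_inv]
      have h1 : Real.log δ ≠ 0 := (Real.log_neg hδ.1 hδ.2).ne
      have h2 : ((Real.log δ : ℝ) : ℂ) ≠ 0 := by exact_mod_cast h1
      push_cast
      field_simp
    · rw [if_neg ht, neg_zero]
      have h1 : Tendsto (fun δ : ℝ => Complex.log (z₀ + (δ : ℂ) - 3 / 2)) (𝓝[>] 0)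
          (𝓝 (Complex.log ((0 : ℝ) + (t : ℂ) * Complex.I))) := by
        have hsl : ((0 : ℝ) : ℂ) + (t : ℂ) * Complex.I ∈ Complex.slitPlane := by
          refine Or.inr ?_
          simp [ht]
        have h2 : ContinuousAt (fun δ : ℝ => Complex.log ((δ : ℂ) + (t : ℂ) * Complex.I)) 0 := by
          refine ContinuousAt.clog ?_ hsl
          exact (Complex.continuous_ofReal.add continuous_const).continuousAt
        refine (h2.tendsto.mono_left nhdsWithin_le_nhds).congr (fun δ => ?_)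
        rw [hzz]
      have h3 := (h1.const_mul (C : ℂ)).mul hinv
      rw [mul_zero] at h3
      exact h3
  have hAB := hA.sub hB
  rw [zero_sub, neg_neg] at hAB
  refine hAB.congr (fun δ => ?_)
  rw [hH]
  simp only
  ring

end Pool.Agent.H52.PR
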