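import Pool.Agent.H52.PR.Res

/-!
PRIME RACES (MP_2936c6_nt) v2, module Prm: zeros of `LL χ` and of `L(s, χ)`.

PROOF. `LL_iff`: `LL χ` and `LFunction χ` have the same order at `s`, `Re s > 0` (`prim_order` of
`H50/RQ/Xp.lean`), both are entire and not identically zero (`χ ≠ 1`). `ord_iff`:
`analyticOrderAt_eq_zero`. `co_inv`: for the weights `1_a - 1_{a₀}`,
`co ρ = (1/φ) ∑_χ (χ(a⁻¹) - χ(a₀⁻¹)) m_χ`; if this vanishes for all `a`, then `a ↦ ∑_χ χ(a⁻¹) m_χ` is constant and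
`φ m_ψ = ∑_a ψ(a) ∑_χ χ(a⁻¹) m_χ = 0` for `ψ ≠ 1` (orthogonality over `a`).
-/

set_option autoImplicit false

namespace Pool.Agent.H52.PR

open Pool.Agent.H50.RQ (LL Vq wq lfc gx prim_order lfc_F)

private theorem prm_order {f : ℂ → ℂ} (hf : Differentiable ℂ f) (s₀ : ℂ) (h₀ : f s₀ ≠ 0) (s : ℂ) :
    analyticOrderNatAt f s = 0 ↔ f s ≠ 0 := by
  have htop : analyticOrderAt f s ≠ ⊤ := by
    intro h
    rw [analyticOrderAt_eq_top] at h
    have h1 : AnalyticOnNhd ℂ f Set.univ := fun w _ => hf.analyticAt w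
    have h2 := h1.eqOn_zero_of_preconnected_of_eventuallyEq_zero isPreconnected_univ
      (Set.mem_univ s) h
    exact h₀ (h2 (Set.mem_univ s₀))
  rw [← (hf.analyticAt s).analyticOrderAt_eq_zero, ← Nat.cast_analyticOrderNatAt htop,
    Nat.cast_eq_zero]

theorem ord_iff {q : ℕ} [NeZero q] (χ : DirichletCharacter ℂ q) (s : ℂ) :
    analyticOrderNatAt (LL χ) s = 0 ↔ LL χ s ≠ 0 := by
  refine prm_order ?_ 2 (LL_ne χ 2 (by norm_num)) s
  rw [← lfc_F]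
  exact (lfc χ).diff

theorem LL_iff {q : ℕ} [NeZero q] (χ : DirichletCharacter ℂ q) (hχ : χ ≠ 1) (s : ℂ) (hs : 0 < s.re) :
    LL χ s = 0 ↔ DirichletCharacter.LFunction χ s = 0 := by
  have h1 := prm_order (DirichletCharacter.differentiable_LFunction hχ) 2
    (DirichletCharacter.LFunction_ne_zero_of_one_le_re χ (Or.inl hχ) (by norm_num)) s
  rw [prim_order q χ s hs, ord_iff χ s] at h1
  exact not_iff_not.1 h1

open Classical in
/-- the weight of the class `a` against the class `b` -/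
noncomputable def dw {q : ℕ} (a b : (ZMod q)ˣ) (x : (ZMod q)ˣ) : ℝ := (if x = a then 1 else 0) - (if x = b then 1 else 0)

private theorem prm_al {q : ℕ} [NeZero q] (a b : (ZMod q)ˣ) (χ : DirichletCharacter ℂ q) :
    al (dw a b) χ = (χ (((a⁻¹ : (ZMod q)ˣ)) : ZMod q) - χ (((b⁻¹ : (ZMod q)ˣ)) : ZMod q)) /
      (q.totient : ℂ) := by
  classical
  unfold al dw
  have h1 : ∀ u : (ZMod q)ˣ,
      (((if u = a then (1 : ℝ) else 0) - (if u = b then (1 : ℝ) else 0) : ℝ) : ℂ) *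
        (χ (((u⁻¹ : (ZMod q)ˣ)) : ZMod q) / (q.totient : ℂ)) =
      (if u = a then χ (((u⁻¹ : (ZMod q)ˣ)) : ZMod q) / (q.totient : ℂ) else 0) -
      (if u = b then χ (((u⁻¹ : (ZMod q)ˣ)) : ZMod q) / (q.totient : ℂ) else 0) := by
    intro u
    split_ifs <;> simp
  rw [Finset.sum_congr rfl fun u _ => h1 u, Finset.sum_sub_distrib, Finset.sum_ite_eq',
    Finset.sum_ite_eq', if_pos (Finset.mem_univ a), if_pos (Finset.mem_univ b), sub_div]

private theorem prm_sum {q : ℕ} [NeZero q] (θ : DirichletCharacter ℂ q) (hθ : θ ≠ 1) :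
    ∑ u : (ZMod q)ˣ, θ (u : ZMod q) = 0 := by
  obtain ⟨v, hv⟩ : ∃ v : (ZMod q)ˣ, θ (v : ZMod q) ≠ 1 := by
    by_contra h
    push Not at h
    apply hθ
    ext u
    rw [h u, MulChar.one_apply u.isUnit]
  have h1 : (∑ u : (ZMod q)ˣ, θ (u : ZMod q)) * θ (v : ZMod q) =
      ∑ u : (ZMod q)ˣ, θ (u : ZMod q) := by
    rw [Finset.sum_mul]
    have h2 : ∀ u : (ZMod q)ˣ, θ (u : ZMod q) * θ (v : ZMod q) =
        θ (((u * v : (ZMod q)ˣ)) : ZMod q) := by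
      intro u
      rw [Units.val_mul, map_mul]
    rw [Finset.sum_congr rfl fun u _ => h2 u]
    exact Equiv.sum_comp (Equiv.mulRight v) (fun u : (ZMod q)ˣ => θ (u : ZMod q))
  have h3 : (∑ u : (ZMod q)ˣ, θ (u : ZMod q)) * (θ (v : ZMod q) - 1) = 0 := by
    rw [mul_sub, h1, mul_one, sub_self]
  rcases mul_eq_zero.1 h3 with h4 | h4
  · exact h4
  · exact absurd (sub_eq_zero.1 h4) hv

private theorem prm_orth {q : ℕ} [NeZero q] (ψ χ : DirichletCharacter ℂ q) :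
    ∑ u : (ZMod q)ˣ, ψ (u : ZMod q) * χ (((u⁻¹ : (ZMod q)ˣ)) : ZMod q) =
      (open Classical in if χ = ψ then (q.totient : ℂ) else 0) := by
  classical
  have h1 : ∀ u : (ZMod q)ˣ, ψ (u : ZMod q) * χ (((u⁻¹ : (ZMod q)ˣ)) : ZMod q) =
      (ψ * χ⁻¹) (u : ZMod q) := by
    intro u
    rw [MulChar.mul_apply, MulChar.inv_apply, Ring.inverse_unit]
  rw [Finset.sum_congr rfl fun u _ => h1 u]
  by_cases h : χ = ψ
  · rw [if_pos h, h, mul_inv_cancel]
    have h2 : ∀ u : (ZMod q)ˣ, (1 : DirichletCharacter ℂ q) (u : ZMod q) = 1 :=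
      fun u => MulChar.one_apply u.isUnit
    rw [Finset.sum_congr rfl fun u _ => h2 u, Finset.sum_const, Finset.card_univ,
      ZMod.card_units_eq_totient, nsmul_eq_mul, mul_one]
  · rw [if_neg h]
    apply prm_sum
    intro h2
    exact h (mul_inv_eq_one.1 h2).symm

theorem co_inv {q : ℕ} [NeZero q] (a₀ : (ZMod q)ˣ) (ρ : ℂ) (h : ∀ a : (ZMod q)ˣ, co (dw a a₀) ρ = 0)
    (χ : DirichletCharacter ℂ q) (hχ : χ ≠ 1) : LL χ ρ ≠ 0 := by
  classical
  have hφ : (q.totient : ℂ) ≠ 0 := by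
    exact_mod_cast (Nat.totient_pos.mpr (Nat.pos_of_ne_zero (NeZero.ne q))).ne'
  obtain ⟨m, hm⟩ : ∃ m : DirichletCharacter ℂ q → ℂ, ∀ ψ, m ψ = (analyticOrderNatAt (LL ψ) ρ : ℂ) :=
    ⟨_, fun _ => rfl⟩
  obtain ⟨S, hS⟩ : ∃ S : (ZMod q)ˣ → ℂ, ∀ a, S a =
      ∑ ψ : DirichletCharacter ℂ q, ψ (((a⁻¹ : (ZMod q)ˣ)) : ZMod q) * m ψ := ⟨_, fun _ => rfl⟩
  -- the sums are constant
  have h1 : ∀ a, S a = S a₀ := by
    intro a
    have h2 := h a
    unfold co at h2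
    have h3 : ∀ ψ : DirichletCharacter ℂ q, al (dw a a₀) ψ * (analyticOrderNatAt (LL ψ) ρ : ℂ) =
        (ψ (((a⁻¹ : (ZMod q)ˣ)) : ZMod q) * m ψ - ψ (((a₀⁻¹ : (ZMod q)ˣ)) : ZMod q) * m ψ) /
          (q.totient : ℂ) := by
      intro ψ
      rw [prm_al, hm]
      ring
    rw [Finset.sum_congr rfl fun ψ _ => h3 ψ, ← Finset.sum_div, Finset.sum_sub_distrib,
      ← hS, ← hS, div_eq_zero_iff] at h2
    rcases h2 with h2 | h2
    · exact sub_eq_zero.1 h2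
    · exact absurd h2 hφ
  -- orthogonality
  have h4 : ∑ a : (ZMod q)ˣ, χ (a : ZMod q) * S a = (q.totient : ℂ) * m χ := by
    have h5 : ∀ a : (ZMod q)ˣ, χ (a : ZMod q) * S a = ∑ ψ : DirichletCharacter ℂ q,
        m ψ * (χ (a : ZMod q) * ψ (((a⁻¹ : (ZMod q)ˣ)) : ZMod q)) := by
      intro a
      rw [hS, Finset.mul_sum]
      refine Finset.sum_congr rfl fun ψ _ => ?_
      ring
    rw [Finset.sum_congr rfl fun a _ => h5 a, Finset.sum_comm]
    have h6 : ∀ ψ : DirichletCharacter ℂ q, ∑ a : (ZMod q)ˣ,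
        m ψ * (χ (a : ZMod q) * ψ (((a⁻¹ : (ZMod q)ˣ)) : ZMod q)) =
        if ψ = χ then (q.totient : ℂ) * m ψ else 0 := by
      intro ψ
      rw [← Finset.mul_sum, prm_orth]
      split_ifs
      · ring
      · ring
    rw [Finset.sum_congr rfl fun ψ _ => h6 ψ, Finset.sum_ite_eq', if_pos (Finset.mem_univ χ)]
  have h7 : ∑ a : (ZMod q)ˣ, χ (a : ZMod q) * S a = 0 := by
    rw [Finset.sum_congr rfl fun a _ => by rw [h1 a], ← Finset.sum_mul, prm_sum χ hχ, zero_mul]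
  rw [h7] at h4
  have h8 : m χ = 0 := by
    rcases mul_eq_zero.1 h4.symm with h9 | h9
    · exact absurd h9 hφ
    · exact h9
  rw [hm] at h8
  exact (ord_iff χ ρ).1 (by exact_mod_cast h8)

end Pool.Agent.H52.PR
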