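import Pool.Agent.H52.PR.Cor
import Pool.Agent.H52.PR.Lan3
import Pool.Agent.H52.PR.Lit
import Pool.Agent.H52.PR.Maj
import Pool.Agent.H52.PR.Prm

/-!
PRIME RACES (MP_2936c6_nt) v2, module Dic: the dichotomy for weights.

PROOF. Suppose `BB w n ≤ C √n/log n` for `n > N`; enlarge `C`, so that `BB w n ≤ mj C n` for all `n`. `lan_alt` with `σ₀ = 1/2`: either the abscissa is
`≤ 3/2` (`β = 1/2`, `lan_ext`, `lan_pd`), or there is a real `β > 1/2` with a positive residue, and nothing to the right of it.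
For `Re ŵ` of constant sign, `lit` excludes `β = 1/2`; if `Re ŵ ≤ 0` then the residue at a real `β` is `≤ 0`, so `β > 1/2` is excluded too.
-/

set_option autoImplicit false

namespace Pool.Agent.H52.PR

open Filter Topology
open Pool.Agent.H50.RQ (LL Vq wq lfc gx LL_conj_order)

private theorem no_pole {ρ κ κ' : ℂ} {F G H : ℂ → ℂ} (hG : AnalyticAt ℂ G ρ) (hH : AnalyticAt ℂ H ρ)
    (h1 : ∀ᶠ s in 𝓝[≠] ρ, F s = κ / (s - ρ) + G s) (h2 : ∀ᶠ s in 𝓝[≠] ρ, F s = κ' / (s - ρ) + H s) : κ = κ' := by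
  have h3 : ∀ᶠ s in 𝓝[≠] ρ, (s - ρ) * (H s - G s) = κ - κ' := by
    have h6 : ∀ᶠ s in 𝓝[≠] ρ, s ≠ ρ := eventually_mem_nhdsWithin
    filter_upwards [h1, h2, h6] with s h4 h5 h7
    have h8 : s - ρ ≠ 0 := sub_ne_zero.2 h7
    have h9 : H s - G s = (κ - κ') / (s - ρ) := by
      rw [sub_div]
      linear_combination h4 - h5
    rw [h9]
    field_simp
  have h4 : Tendsto (fun s => (s - ρ) * (H s - G s)) (𝓝[≠] ρ) (𝓝 ((ρ - ρ) * (H ρ - G ρ))) := by
    have h5 : ContinuousAt (fun s => (s - ρ) * (H s - G s)) ρ :=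
      (continuousAt_id.sub continuousAt_const).mul (hH.continuousAt.sub hG.continuousAt)
    exact h5.tendsto.mono_left nhdsWithin_le_nhds
  rw [sub_self, zero_mul] at h4
  have h5 := tendsto_nhds_unique (tendsto_const_nhds.congr' (h3.mono fun s hs => hs.symm)) h4
  exact sub_eq_zero.1 h5

private theorem co_re {q : ℕ} [NeZero q] (w : (ZMod q)ˣ → ℝ) (x : ℝ) : ((co w (x : ℂ)).re : ℂ) = co w (x : ℂ) := by
  rw [← Complex.conj_eq_iff_re]
  unfold co
  rw [map_sum, ← Equiv.sum_comp (Equiv.inv (DirichletCharacter ℂ q))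
    (fun χ : DirichletCharacter ℂ q => al w χ * (analyticOrderNatAt (LL χ) (x : ℂ) : ℂ))]
  refine Finset.sum_congr rfl fun χ _ => ?_
  have h2 := LL_conj_order χ (x : ℂ)
  rw [Complex.conj_ofReal] at h2
  rw [Equiv.inv_apply, map_mul, map_natCast, al_conj, h2]

private theorem al_one_re {q : ℕ} [NeZero q] (w : (ZMod q)ˣ → ℝ) : ((al w 1).re : ℂ) = al w 1 := by
  rw [← Complex.conj_eq_iff_re, ← al_conj, inv_one]

private theorem co_lt {q : ℕ} [NeZero q] (w : (ZMod q)ˣ → ℝ) (ρ : ℂ) (h : co w ρ ≠ 0) : ρ.re < 1 := by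
  by_contra h1
  apply h
  unfold co
  refine Finset.sum_eq_zero fun χ _ => ?_
  rw [(ord_iff χ ρ).2 (LL_ne χ ρ (not_lt.1 h1)), Nat.cast_zero, mul_zero]

private theorem bdd {q : ℕ} [NeZero q] (w : (ZMod q)ˣ → ℝ) (C : ℝ) (N : ℕ)
    (h : ∀ n : ℕ, N < n → BB w n ≤ C * (Real.sqrt n / Real.log n)) :
    ∃ (S : ℝ) (N' : ℕ), ∀ n : ℕ, BB w n ≤ mj C n + (if n ≤ N' then S else 0) := by
  refine ⟨∑ k ∈ Finset.range (N + 2), (|BB w k| + |mj C k|), N + 1, fun n => ?_⟩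
  split_ifs with h0
  · have h3 : |BB w n| + |mj C n| ≤ ∑ k ∈ Finset.range (N + 2), (|BB w k| + |mj C k|) :=
      Finset.single_le_sum (f := fun k => |BB w k| + |mj C k|) (fun k _ => by positivity)
        (Finset.mem_range.2 (by omega))
    have h4 := le_abs_self (BB w n)
    have h5 := neg_abs_le (mj C n)
    linarith
  · rw [add_zero, mj, if_neg (by omega)]
    exact h n (by omega)

private theorem fin_term (S : ℝ) (N n : ℕ) (z : ℂ) :
    LSeries.term (fun n => (((if n ≤ N then S else 0 : ℝ)) : ℂ)) z n =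
      if n ≤ N then (if n = 0 then 0 else (S : ℂ) / (n : ℂ) ^ z) else 0 := by
  by_cases h0 : n = 0
  · rw [if_pos h0, ite_self, h0, LSeries.term_zero]
  · rw [LSeries.term_of_ne_zero h0, if_neg h0]
    by_cases h1 : n ≤ N
    · simp only [if_pos h1]
    · simp only [if_neg h1]
      rw [Complex.ofReal_zero, zero_div]

private theorem fin_sum (S : ℝ) (N : ℕ) (z : ℂ) :
    LSeriesSummable (fun n => (((if n ≤ N then S else 0 : ℝ)) : ℂ)) z := by
  unfold LSeriesSummable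
  refine summable_of_hasFiniteSupport ((Set.finite_Iic N).subset fun n hn => ?_)
  rw [Function.mem_support, fin_term] at hn
  rw [Set.mem_Iic]
  by_contra h
  apply hn
  rw [if_neg h]

private theorem fin_eq (S : ℝ) (N : ℕ) (z : ℂ) : LSeries (fun n => (((if n ≤ N then S else 0 : ℝ)) : ℂ)) z =
    ∑ n ∈ Finset.range (N + 1), (if n = 0 then 0 else (S : ℂ) / (n : ℂ) ^ z) := by
  unfold LSeries
  rw [tsum_eq_sum (s := Finset.range (N + 1))]
  · refine Finset.sum_congr rfl fun n hn => ?_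
    rw [Finset.mem_range] at hn
    rw [fin_term, if_pos (by omega : n ≤ N)]
  · intro n hn
    rw [Finset.mem_range] at hn
    rw [fin_term, if_neg (by omega : ¬ n ≤ N)]

private theorem fin_lim (S : ℝ) (N : ℕ) (z : ℂ) :
    Tendsto (fun δ : ℝ => LSeries (fun n => (((if n ≤ N then S else 0 : ℝ)) : ℂ)) (z + (δ : ℂ)) /
      ((Real.log (1 / δ) : ℝ) : ℂ)) (𝓝[>] 0) (𝓝 0) := by
  have h1 : ContinuousAt (fun y : ℂ => LSeries (fun n => (((if n ≤ N then S else 0 : ℝ)) : ℂ)) y) z := by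
    have e : (fun y : ℂ => LSeries (fun n => (((if n ≤ N then S else 0 : ℝ)) : ℂ)) y) =
        fun y : ℂ => ∑ n ∈ Finset.range (N + 1), (if n = 0 then 0 else (S : ℂ) / (n : ℂ) ^ y) := by
      funext y
      exact fin_eq S N y
    rw [e]
    refine tendsto_finsetSum _ fun n _ => ?_
    by_cases h : n = 0
    · simp only [if_pos h]
      exact tendsto_const_nhds
    · simp only [if_neg h]
      have hn : (n : ℂ) ≠ 0 := by exact_mod_cast h
      have h2 : ContinuousAt (fun y : ℂ => (n : ℂ) ^ y) z := by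
        refine (continuousAt_const_cpow hn)
      exact (continuousAt_const.div h2 (by rw [Complex.cpow_def_of_ne_zero hn]; exact Complex.exp_ne_zero _)).tendsto
  have h2 : Tendsto (fun δ : ℝ => z + (δ : ℂ)) (𝓝[>] 0) (𝓝 z) := by
    have h3 : Tendsto (fun δ : ℝ => z + (δ : ℂ)) (𝓝 0) (𝓝 (z + ((0 : ℝ) : ℂ))) :=
      (continuous_const.add Complex.continuous_ofReal).tendsto 0
    rw [Complex.ofReal_zero, add_zero] at h3
    exact h3.mono_left nhdsWithin_le_nhds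
  have h3 : Tendsto (fun δ : ℝ => (((Real.log (1 / δ))⁻¹ : ℝ) : ℂ)) (𝓝[>] 0) (𝓝 0) := by
    have h4 : Tendsto (fun δ : ℝ => Real.log (1 / δ)) (𝓝[>] 0) atTop := by
      have h5 : Tendsto (fun δ : ℝ => 1 / δ) (𝓝[>] 0) atTop := by
        simp only [one_div]
        exact tendsto_inv_nhdsGT_zero
      exact Real.tendsto_log_atTop.comp h5
    have h5 : Tendsto (fun δ : ℝ => (Real.log (1 / δ))⁻¹) (𝓝[>] 0) (𝓝 0) := tendsto_inv_atTop_zero.comp h4
    have h6 := (Complex.continuous_ofReal.tendsto 0).comp h5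
    rw [Complex.ofReal_zero] at h6
    exact h6
  have h4 := (h1.tendsto.comp h2).mul h3
  rw [mul_zero] at h4
  refine h4.congr fun δ => ?_
  rw [Complex.ofReal_inv, div_eq_mul_inv]
  rfl

private noncomputable def m2 (C S : ℝ) (N : ℕ) (n : ℕ) : ℝ := mj C n + (if n ≤ N then S else 0)

private theorem m2_eq (C S : ℝ) (N : ℕ) : (fun n => ((m2 C S N n : ℝ) : ℂ)) =
    (fun n => ((mj C n : ℝ) : ℂ)) + (fun n => (((if n ≤ N then S else 0 : ℝ)) : ℂ)) := by
  funext n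
  rw [Pi.add_apply, m2, Complex.ofReal_add]

private theorem m2_sum (C S : ℝ) (N : ℕ) (z : ℂ) (hz : 1 + 1 / 2 < z.re) :
    LSeriesSummable (fun n => ((m2 C S N n : ℝ) : ℂ)) z := by
  rw [m2_eq]
  exact (mj_sum C z hz).add (fin_sum S N z)

private theorem m2_lim (C S : ℝ) (N : ℕ) (t : ℝ) :
    Tendsto (fun δ : ℝ => LSeries (fun n => ((m2 C S N n : ℝ) : ℂ)) (1 + (1 / 2 + (t : ℂ) * Complex.I) + (δ : ℂ)) /
      ((Real.log (1 / δ) : ℝ) : ℂ)) (𝓝[>] 0) (𝓝 (if t = 0 then (C : ℂ) else 0)) := by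
  have h1 := (mj_lim C t).add (fin_lim S N (1 + (1 / 2 + (t : ℂ) * Complex.I)))
  rw [add_zero] at h1
  refine h1.congr' ?_
  filter_upwards [self_mem_nhdsWithin] with δ hδ
  have hδ : 0 < δ := hδ
  rw [m2_eq, LSeries_add (mj_sum C _ (by simp; linarith)) (fin_sum S N _), add_div]

private theorem core {q : ℕ} [NeZero q] (w : (ZMod q)ˣ → ℝ) (h1 : ∑ u, w u = 0) (C : ℝ) (N : ℕ)
    (hcon : ∀ n : ℕ, N < n → BB w n ≤ C * (Real.sqrt n / Real.log n)) :
    ∃ β : ℝ, 1 / 2 ≤ β ∧ β < 1 ∧ (1 / 2 < β → 0 < (co w (β : ℂ)).re) ∧ (∀ ρ : ℂ, β < ρ.re → co w ρ = 0) ∧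
      (β = 1 / 2 → PD (fun t : ℝ => if t = 0 then
        (((C + 2 * ((co w (((1 / 2 : ℝ)) : ℂ)).re + (al (w2 w) 1).re / 2) : ℝ)) : ℂ) else
        co w (1 / 2 + (t : ℂ) * Complex.I) / (1 / 2 + (t : ℂ) * Complex.I))) := by
  obtain ⟨S, N', hB⟩ := bdd w C N hcon
  have hB : ∀ n : ℕ, BB w n ≤ m2 C S N' n := hB
  have hm : MeromorphicOn (GG w) {s : ℂ | 1 / 2 < s.re} := fun s hs => GG_mer w s (by
    have hs' : 1 / 2 < s.re := hs
    show 2 / 5 < s.re
    linarith)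
  have hE : ∀ s : ℂ, 1 / 2 < s.re → ∃ G : ℂ → ℂ, AnalyticAt ℂ G s ∧
      ∀ᶠ z in 𝓝[≠] s, GG w z = co w s / (z - s) + G z := by
    intro s hs
    refine GG_exp w s (by linarith) ?_ (fun χ => LL_ne χ _ ?_)
    · intro h2
      have h3 := congrArg Complex.re h2
      rw [Complex.mul_re, Complex.re_ofNat, Complex.im_ofNat, zero_mul, sub_zero, Complex.one_re] at h3
      linarith
    · rw [Complex.mul_re, Complex.re_ofNat, Complex.im_ofNat, zero_mul, sub_zero]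
      linarith
  have hr : ∀ x : ℝ, 1 / 2 < x → ∃ κ : ℝ, ∃ H : ℂ → ℂ, AnalyticAt ℂ H (x : ℂ) ∧
      ∀ᶠ s in 𝓝[≠] (x : ℂ), GG w s = (κ : ℂ) / (s - (x : ℂ)) + H s := by
    intro x hx
    obtain ⟨G, hG1, hG2⟩ := hE (x : ℂ) (by rwa [Complex.ofReal_re])
    refine ⟨(co w (x : ℂ)).re, G, hG1, ?_⟩
    rw [co_re]
    exact hG2
  have hext : ∀ β : ℝ, 1 / 2 ≤ β → LSeries.abscissaOfAbsConv (am (m2 C S N') w) ≤ ((1 + β : ℝ) : EReal) →
      ∀ ρ : ℂ, β < ρ.re → co w ρ = 0 := by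
    intro β hβ habs ρ hρ
    obtain ⟨H, hH1, hH2⟩ := lan_ext w (GG w) (m2 C S N') (1 / 2) (by norm_num) (by norm_num) (m2_sum C S N') hB hm
      (bb_der w h1) β hβ habs ρ hρ
    obtain ⟨G, hG1, hG2⟩ := hE ρ (by linarith)
    refine no_pole (κ' := 0) hG1 hH1 hG2 ?_
    filter_upwards [hH2] with s hs
    rw [hs, zero_div, zero_add]
  rcases lan_alt w (GG w) (m2 C S N') (1 / 2) (by norm_num) (by norm_num) (m2_sum C S N') hB hm (bb_der w h1) hr with
    habs | ⟨β, hβ, habs, κ, hκ, H, hH1, hH2⟩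
  · refine ⟨1 / 2, le_rfl, by norm_num, fun h => absurd h (lt_irrefl _), hext (1 / 2) le_rfl habs, fun _ => ?_⟩
    have h2 := lan_pd w (GG w) (m2 C S N') (1 / 2) (by norm_num) (by norm_num) (m2_sum C S N') hB hm
      (bb_der w h1) (1 / 2) le_rfl habs
      (fun t : ℝ => if t = 0 then co w (((1 / 2 : ℝ)) : ℂ) + al (w2 w) 1 / 2 else co w (1 / 2 + (t : ℂ) * Complex.I))
      (fun t => by
        by_cases ht : t = 0
        · obtain ⟨G, hG1, hG2⟩ := GG_half w (((1 / 2 : ℝ)) : ℂ) (by push_cast; norm_num)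
          have e : (((1 / 2 : ℝ)) : ℂ) + (t : ℂ) * Complex.I = (((1 / 2 : ℝ)) : ℂ) := by
            rw [ht, Complex.ofReal_zero, zero_mul, add_zero]
          rw [e]
          refine ⟨G, hG1, ?_⟩
          simp only [if_pos ht]
          exact hG2
        · have e : (((1 / 2 : ℝ)) : ℂ) + (t : ℂ) * Complex.I = 1 / 2 + (t : ℂ) * Complex.I := by
            push_cast
            rfl
          obtain ⟨G, hG1, hG2⟩ := GG_exp w (1 / 2 + (t : ℂ) * Complex.I) (by simp; norm_num) (by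
            intro h3
            have h4 := congrArg Complex.im h3
            simp at h4
            exact ht h4) (fun χ => LL_ne χ _ (by simp))
          rw [e]
          refine ⟨G, hG1, ?_⟩
          simp only [if_neg ht]
          exact hG2)
      (fun t : ℝ => if t = 0 then (C : ℂ) else 0)
      (fun t => by
        have h3 := m2_lim C S N' t
        have e : (((1 / 2 : ℝ)) : ℂ) = 1 / 2 := by push_cast; rfl
        rw [e]
        exact h3)
    have e2 : (fun t : ℝ => (if t = 0 then (C : ℂ) else 0) +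
        (if t = 0 then co w (((1 / 2 : ℝ)) : ℂ) + al (w2 w) 1 / 2 else co w (1 / 2 + (t : ℂ) * Complex.I)) /
          ((((1 / 2 : ℝ)) : ℂ) + (t : ℂ) * Complex.I)) =
        (fun t : ℝ => if t = 0 then (((C + 2 * ((co w (((1 / 2 : ℝ)) : ℂ)).re + (al (w2 w) 1).re / 2) : ℝ)) : ℂ) else
        co w (1 / 2 + (t : ℂ) * Complex.I) / (1 / 2 + (t : ℂ) * Complex.I)) := by
      funext t
      by_cases ht : t = 0
      · rw [if_pos ht, if_pos ht, if_pos ht, ht, Complex.ofReal_zero, zero_mul, add_zero]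
        push_cast
        rw [al_one_re]
        have h4 := co_re w (1 / 2)
        push_cast at h4
        rw [h4]
        field_simp
      · rw [if_neg ht, if_neg ht, if_neg ht, zero_add]
        push_cast
        rfl
    rw [e2] at h2
    exact h2
  · obtain ⟨G, hG1, hG2⟩ := hE (β : ℂ) (by rwa [Complex.ofReal_re])
    have h3 : co w (β : ℂ) = (κ : ℂ) := no_pole hG1 hH1 hG2 hH2
    refine ⟨β, hβ.le, ?_, fun _ => ?_, hext β hβ.le habs.le, fun h => absurd h hβ.ne'⟩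
    · have h4 := co_lt w (β : ℂ) (by
        rw [h3]
        exact_mod_cast hκ.ne')
      rwa [Complex.ofReal_re] at h4
    · rw [h3, Complex.ofReal_re]
      exact hκ

/-- weights with `Re ŵ ≤ 0` -/
theorem dic_P {q : ℕ} [NeZero q] (w : (ZMod q)ˣ → ℝ) (h1 : ∑ u, w u = 0)
    (hal : ∀ χ : DirichletCharacter ℂ q, (al w χ).re ≤ 0)
    (hne : ∃ χ : DirichletCharacter ℂ q, (al w χ).re ≠ 0)
    (C : ℝ) (N : ℕ) : ∃ n : ℕ, N < n ∧ C * (Real.sqrt n / Real.log n) < BB w n := by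
  by_contra hcon
  push Not at hcon
  obtain ⟨β, h2, h3, h4, h5, h6⟩ := core w h1 C N hcon
  obtain ⟨r, hr, hr'⟩ := co_real w hal β
  have h7 : β = 1 / 2 := by
    rcases h2.lt_or_eq with h8 | h8
    · have h9 := h4 h8
      rw [hr', Complex.ofReal_re] at h9
      linarith
    · exact h8.symm
  exact lit w h1 1 (Or.inl rfl) (fun χ => by rw [one_mul]; exact hal χ) hne (fun ρ hρ => h5 ρ (by rwa [h7])) _ (h6 h7)

/-- weights with `Re ŵ ≥ 0` -/
theorem dic_N {q : ℕ} [NeZero q] (w : (ZMod q)ˣ → ℝ) (h1 : ∑ u, w u = 0)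
    (hal : ∀ χ : DirichletCharacter ℂ q, 0 ≤ (al w χ).re)
    (hne : ∃ χ : DirichletCharacter ℂ q, (al w χ).re ≠ 0) :
    (∀ (C : ℝ) (N : ℕ), ∃ n : ℕ, N < n ∧ C * (Real.sqrt n / Real.log n) < BB w n) ∨
    ∃ β : ℝ, 1 / 2 < β ∧ β < 1 ∧ 0 < (co w (β : ℂ)).re ∧ ∀ ρ : ℂ, β < ρ.re → co w ρ = 0 := by
  by_cases hcon : ∀ (C : ℝ) (N : ℕ), ∃ n : ℕ, N < n ∧ C * (Real.sqrt n / Real.log n) < BB w n
  · exact Or.inl hcon
  · right
    push Not at hcon
    obtain ⟨C, N, hcon⟩ := hcon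
    obtain ⟨β, h2, h3, h4, h5, h6⟩ := core w h1 C N hcon
    rcases h2.lt_or_eq with h8 | h8
    · exact ⟨β, h8, h3, h4 h8, h5⟩
    · exfalso
      exact lit w h1 (-1) (Or.inr rfl) (fun χ => by linarith [hal χ]) hne (fun ρ hρ => h5 ρ (by rwa [← h8])) _
        (h6 h8.symm)

/-- all weights -/
theorem dic_gen {q : ℕ} [NeZero q] (w : (ZMod q)ˣ → ℝ) (h1 : ∑ u, w u = 0) :
    (∀ (C : ℝ) (N : ℕ), ∃ n : ℕ, N < n ∧ C * (Real.sqrt n / Real.log n) < BB w n) ∨
    ∃ β : ℝ, 1 / 2 ≤ β ∧ β < 1 ∧ (1 / 2 < β → 0 < (co w (β : ℂ)).re) ∧ ∀ ρ : ℂ, β < ρ.re → co w ρ = 0 := by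
  by_cases hcon : ∀ (C : ℝ) (N : ℕ), ∃ n : ℕ, N < n ∧ C * (Real.sqrt n / Real.log n) < BB w n
  · exact Or.inl hcon
  · right
    push Not at hcon
    obtain ⟨C, N, hcon⟩ := hcon
    obtain ⟨β, h2, h3, h4, h5, _⟩ := core w h1 C N hcon
    exact ⟨β, h2, h3, h4, h5⟩

private theorem pd_two (R : ℝ → ℂ) (hR : PD R) (t : ℝ) (ht : t ≠ 0) (h : R (-t) = (starRingEnd ℂ) (R t)) :
    ‖R t‖ ≤ (R 0).re := by
  by_cases h0 : R t = 0
  · rw [h0, norm_zero]
    have h1 := hR {0} (fun _ => 1)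
    simp only [Finset.sum_singleton, one_mul, map_one, sub_zero] at h1
    exact h1
  · have h1 := hR {0, t} (fun s => if s = 0 then -(R t / (‖R t‖ : ℂ)) else 1)
    have hn : ((‖R t‖ : ℝ) : ℂ) ≠ 0 := by
      exact_mod_cast (norm_ne_zero_iff.2 h0)
    rw [Finset.sum_pair ht.symm, Finset.sum_pair ht.symm, Finset.sum_pair ht.symm] at h1
    simp only [if_true, if_neg ht, sub_zero, sub_self, zero_sub, map_one, one_mul, mul_one, map_neg, map_div₀,
      Complex.conj_ofReal] at h1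
    rw [h] at h1
    have h2 : R t * (starRingEnd ℂ) (R t) = ((‖R t‖ : ℝ) : ℂ) * ((‖R t‖ : ℝ) : ℂ) := by
      rw [Complex.mul_conj, Complex.normSq_eq_norm_sq]
      push_cast
      ring
    have h3 : -(R t / ((‖R t‖ : ℝ) : ℂ)) * -((starRingEnd ℂ) (R t) / ((‖R t‖ : ℝ) : ℂ)) * R 0 +
        -(R t / ((‖R t‖ : ℝ) : ℂ)) * (starRingEnd ℂ) (R t) +
        (-((starRingEnd ℂ) (R t) / ((‖R t‖ : ℝ) : ℂ)) * R t + R 0) = 2 * R 0 - 2 * ((‖R t‖ : ℝ) : ℂ) := by
      field_simp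
      linear_combination (R 0 - 2 * ((‖R t‖ : ℝ) : ℂ)) * h2
    rw [h3] at h1
    rw [Complex.sub_re, Complex.mul_re, Complex.mul_re, Complex.ofReal_re, Complex.ofReal_im, Complex.re_ofNat,
      Complex.im_ofNat] at h1
    linarith

private theorem co_conj {q : ℕ} [NeZero q] (w : (ZMod q)ˣ → ℝ) (ρ : ℂ) :
    co w ((starRingEnd ℂ) ρ) = (starRingEnd ℂ) (co w ρ) := by
  unfold co
  rw [map_sum, ← Equiv.sum_comp (Equiv.inv (DirichletCharacter ℂ q))]
  refine Finset.sum_congr rfl fun χ _ => ?_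
  rw [Equiv.inv_apply, LL_conj_order χ ρ, map_mul, map_natCast, al_conj]

/-- weights without real singularities -/
theorem dic_zero {q : ℕ} [NeZero q] (w : (ZMod q)ˣ → ℝ) (h1 : ∑ u, w u = 0) (hw : w ≠ 0)
    (hre : ∀ x : ℝ, 1 / 2 ≤ x → x < 1 → co w (x : ℂ) = 0) (hal2 : (al (w2 w) 1).re = 0) :
    ∃ c : ℝ, 0 < c ∧ ∀ N : ℕ, ∃ n : ℕ, N < n ∧ c * (Real.sqrt n / Real.log n) < BB w n := by
  by_contra hcon
  push Not at hcon
  have key : ∀ c : ℝ, 0 < c → (∀ ρ : ℂ, 1 / 2 < ρ.re → co w ρ = 0) ∧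
      PD (fun t : ℝ => if t = 0 then (c : ℂ) else
        co w (1 / 2 + (t : ℂ) * Complex.I) / (1 / 2 + (t : ℂ) * Complex.I)) := by
    intro c hc
    obtain ⟨N, hN⟩ := hcon c hc
    obtain ⟨β, h2, h3, h4, h5, h6⟩ := core w h1 c N hN
    have h7 : β = 1 / 2 := by
      rcases h2.lt_or_eq with h8 | h8
      · have h9 := h4 h8
        rw [hre β h8.le h3, Complex.zero_re] at h9
        exact absurd h9 (lt_irrefl _)
      · exact h8.symm
    refine ⟨fun ρ hρ => h5 ρ (by rwa [h7]), ?_⟩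
    have h8 := h6 h7
    rw [hre (1 / 2) le_rfl (by norm_num), hal2] at h8
    have h9 : c + 2 * ((0 : ℂ).re + 0 / 2) = c := by rw [Complex.zero_re]; ring
    rw [h9] at h8
    exact h8
  obtain ⟨ρ, hρ1, hρ2, hρ3⟩ := exists_pole w h1 hw
  have hρ4 : ρ.re = 1 / 2 := by
    by_contra h
    exact hρ3 ((key 1 one_pos).1 ρ (lt_of_le_of_ne hρ1 (fun h2 => h h2.symm)))
  obtain ⟨t, ht⟩ : ∃ t : ℝ, ρ = 1 / 2 + (t : ℂ) * Complex.I := by
    refine ⟨ρ.im, ?_⟩
    apply Complex.ext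
    · simp [hρ4]
    · simp
  have ht0 : t ≠ 0 := by
    rintro rfl
    apply hρ3
    have h2 : ρ = (((1 / 2 : ℝ)) : ℂ) := by
      rw [ht]
      push_cast
      ring
    rw [h2]
    exact hre _ le_rfl (by norm_num)
  obtain ⟨R, hR⟩ : ∃ R : ℂ, R = co w (1 / 2 + (t : ℂ) * Complex.I) / (1 / 2 + (t : ℂ) * Complex.I) := ⟨_, rfl⟩
  have hRne : R ≠ 0 := by
    rw [hR, ← ht]
    refine div_ne_zero hρ3 ?_
    intro h
    rw [h, Complex.zero_re] at hρ4
    norm_num at hρ4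
  have hRpos : 0 < ‖R‖ := norm_pos_iff.2 hRne
  have h2 := pd_two _ (key (‖R‖ / 2) (by positivity)).2 t ht0 (by
    simp only [if_neg ht0, neg_eq_zero]
    rw [map_div₀, ← co_conj]
    have e : (starRingEnd ℂ) (1 / 2 + (t : ℂ) * Complex.I) = 1 / 2 + ((-t : ℝ) : ℂ) * Complex.I := by
      apply Complex.ext <;> simp
    rw [e])
  simp only [if_neg ht0, if_true, Complex.ofReal_re] at h2
  rw [← hR] at h2
  linarith

/-- odd weights -/
theorem dic_odd {q : ℕ} [NeZero q] (w : (ZMod q)ˣ → ℝ) (h1 : ∑ u, w u = 0) (hw : w ≠ 0)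
    (hal : ∀ χ : DirichletCharacter ℂ q, (al w χ).re = 0) :
    ∃ c : ℝ, 0 < c ∧ ∀ N : ℕ, ∃ n : ℕ, N < n ∧ c * (Real.sqrt n / Real.log n) < BB w n := by
  have hre : ∀ x : ℝ, co w (x : ℂ) = 0 := by
    intro x
    rw [← co_re w x]
    unfold co
    rw [Complex.re_sum, Finset.sum_eq_zero, Complex.ofReal_zero]
    intro χ _
    rw [Complex.mul_re, Complex.natCast_re, Complex.natCast_im, mul_zero, sub_zero, hal χ, zero_mul]
  have hal2 : (al (w2 w) 1).re = 0 := by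
    obtain ⟨r, hr, hr'⟩ := al_w2_one w (fun χ => (hal χ).le)
    obtain ⟨r2, hr2, hr2'⟩ := al_w2_one (fun u => -(w u)) (fun χ => by
      have h2 : al (fun u => -(w u)) χ = -(al w χ) := by
        unfold al
        rw [← Finset.sum_neg_distrib]
        refine Finset.sum_congr rfl fun u _ => ?_
        push_cast
        ring
      rw [h2, Complex.neg_re, hal χ, neg_zero])
    have h3 : al (w2 (fun u => -(w u))) 1 = -(al (w2 w) 1) := by
      unfold al w2
      rw [← Finset.sum_neg_distrib]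
      refine Finset.sum_congr rfl fun u _ => ?_
      push_cast
      ring
    rw [h3, hr'] at hr2'
    have h4 : -r = r2 := by exact_mod_cast hr2'
    rw [hr', Complex.ofReal_re]
    linarith
  exact dic_zero w h1 hw (fun x _ _ => hre x) hal2

end Pool.Agent.H52.PR
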