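import Pool.Agent.H52.PR.Al

/-!
PRIME RACES (MP_2936c6_nt), module Exs: a mixture with `w ≠ 0`, `∑ w = 0` has a zero with nonzero coefficient and `1/2 ≤ Re ρ < 1`.

PROOF. Otherwise `co w ρ = 0` for `1/2 ≤ Re ρ` (for `Re ρ ≥ 1`: `LL χ ρ ≠ 0`, `LF.ne`), and for `0 < Re ρ < 1/2` by the symmetry
`LL_sym` (`RQ/Cz.lean`, `ord_ρ LL χ = ord_(1 - conj ρ) LL χ`); for `Re ρ ≤ 0` a zero of some `LL χ` is `-n`, `n : ℕ` (`chi_left`,
`RL.zeta_left`, see the proof of `cf_left` in `RQ/Cz.lean`). Multiply `LF.explicit` (`RQ/Ef.lean`) for `lfc χ` by `al w χ` and sum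
over `χ` exactly as in `zi_ex` of `RQ/Zi.lean` (with `al w` for `al q a`, `mix` of `RQ/Mx.lean`, `vv_cast`, main term
`al w 1 = 0` by `al_one`): for `Ψ` `C^4` with compact support and `Ψ 0 = 0`:
`∑_n vv w n Ψ(log n) = - ∑_i cc i Lp Ψ i`, the sum over the `ρ = -n` with `cc ρ ≠ 0` (`cc (fun χ => lfc χ) (al w) ρ = co w ρ`).
Choose `u` with `w u ≠ 0` and a prime `p ≥ 3`, `p ≡ u mod q` (Dirichlet: `Nat.forall_exists_prime_gt_and_eq_mod`), `Ψ` a smooth bump
(`ContDiffBump`), `0 ≤ Ψ ≤ 1`, `Ψ(log p) = 1`, support in `[log p - ε, log p + ε]`, `ε < 1/(2p)`, `ε < 1/4`: then the left side is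
`log p w(u)` (no other integer `m` has `|log m - log p| ≤ ε`). `Lp Ψ z = ∫_{v > 0} Ψ(v) exp(z v) dv`, so `|Lp Ψ (-n)| ≤ 2 ε exp(-n/2)`, and
`∑_i ‖cc i‖ exp(-n_i/2) < ∞` (`mix_w` with the weight `1/‖ρ‖^2` and `LF.s_one` as in `zi_s1`; the index `0` separately). Let `ε → 0`:
`log p |w u| ≤ 2 ε M`, a contradiction.
-/

set_option autoImplicit false

namespace Pool.Agent.H52.PR

open Pool.Agent.H50.RQ (LL Vq wq lfc gx LF cc mix mix_w lfc_F lfc_g lfc_p LL_sym chi_left prim_ne_one)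
open Pool.Agent.H50.RL (Lp)
open MeasureTheory hiding Lp
open Filter Topology

private theorem ex_cc {q : ℕ} [NeZero q] (w : (ZMod q)ˣ → ℝ) (ρ : ℂ) :
    cc (fun χ : DirichletCharacter ℂ q => lfc χ) (al w) ρ = co w ρ := by
  unfold cc co
  refine Finset.sum_congr rfl fun χ _ => ?_
  rw [lfc_F]

private theorem ex_ne {q : ℕ} [NeZero q] (w : (ZMod q)ˣ → ℝ) (ρ : ℂ) (h : co w ρ ≠ 0) :
    ∃ χ : DirichletCharacter ℂ q, LL χ ρ = 0 := by
  by_contra hcon
  push Not at hcon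
  apply h
  unfold co
  refine Finset.sum_eq_zero fun χ _ => ?_
  unfold analyticOrderNatAt
  rw [analyticOrderAt_eq_zero.2 (Or.inr (hcon χ))]
  simp

private theorem ex_lt {q : ℕ} [NeZero q] (w : (ZMod q)ˣ → ℝ) (ρ : ℂ) (h : co w ρ ≠ 0) : ρ.re < 1 := by
  obtain ⟨χ, hχ⟩ := ex_ne w ρ h
  by_contra h1
  rw [← lfc_F] at hχ
  exact (lfc χ).ne ρ (not_lt.1 h1) hχ

private theorem ex_left {q : ℕ} [NeZero q] (w : (ZMod q)ˣ → ℝ) (ρ : ℂ) (h : co w ρ ≠ 0) (h0 : ρ.re ≤ 0) :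
    ∃ n : ℕ, ρ = -(n : ℂ) := by
  obtain ⟨χ, hχ⟩ := ex_ne w ρ h
  by_cases h1 : χ = 1
  · rw [LL, if_pos h1, Pool.Agent.H50.RL.FF_zero_iff] at hχ
    obtain ⟨n, hn⟩ := Pool.Agent.H50.RL.zeta_left ρ hχ h0
    exact ⟨2 * (n + 1), by rw [hn]; push_cast; ring⟩
  · rw [LL, if_neg h1] at hχ
    exact chi_left χ.conductor χ.primitiveCharacter χ.primitiveCharacter_isPrimitive (prim_ne_one χ h1) ρ
      hχ h0

private theorem ex_sym {q : ℕ} [NeZero q] (w : (ZMod q)ˣ → ℝ) (ρ : ℂ) (h0 : 0 < ρ.re) (h1 : ρ.re < 1) :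
    co w (1 - (starRingEnd ℂ) ρ) = co w ρ := by
  unfold co
  exact Finset.sum_congr rfl fun χ _ => by rw [LL_sym χ ρ h0 h1]

private theorem ex_fs (Ψ : ℝ → ℝ) (hc : HasCompactSupport Ψ) :
    {n : ℕ | Ψ (Real.log n) ≠ 0}.Finite := by
  obtain ⟨B, hB⟩ := hc.isCompact.bddAbove
  have h0 : ∀ x, B < x → Ψ x = 0 := fun x hx =>
    image_eq_zero_of_notMem_tsupport fun h => absurd (hB h) (not_le.2 hx)
  refine (Set.finite_Iic ⌊Real.exp B⌋₊).subset fun n hn => ?_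
  rw [Set.mem_Iic]
  by_contra hcon
  push Not at hcon
  apply hn
  apply h0
  have h1 : Real.exp B < n := (Nat.floor_lt (Real.exp_pos B).le).1 hcon
  have h2 : (0 : ℝ) < n := (Real.exp_pos B).trans h1
  exact (Real.lt_log_iff_exp_lt h2).2 h1

private theorem ex_p {q : ℕ} [NeZero q] (w : (ZMod q)ˣ → ℝ) (h1 : ∑ u, w u = 0) :
    ∑ χ : DirichletCharacter ℂ q, al w χ * (lfc χ).p = 0 := by
  refine Finset.sum_eq_zero fun χ _ => ?_
  by_cases hχ : χ = 1
  · rw [hχ, al_one w h1, zero_mul]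
  · rw [lfc_p, if_neg hχ, mul_zero]

/-- the explicit formula for the mixture -/
private theorem ex_ef {q : ℕ} [NeZero q] (w : (ZMod q)ˣ → ℝ) (h1 : ∑ u, w u = 0) (Ψ : ℝ → ℝ)
    (hΨ : ContDiff ℝ 4 Ψ) (hc : HasCompactSupport Ψ) (h0 : Ψ 0 = 0) :
    (((∑' n : ℕ, vv w n * Ψ (Real.log n) : ℝ)) : ℂ) =
      - ∑' i : {ρ : ℂ // cc (fun χ : DirichletCharacter ℂ q => lfc χ) (al w) ρ ≠ 0},
          cc (fun χ : DirichletCharacter ℂ q => lfc χ) (al w) i * Lp Ψ i := by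
  choose C0 hC0 using fun χ : DirichletCharacter ℂ q => (lfc χ).explicit
  have hz : ∀ ρ : ℂ, Lp Ψ ρ - (Ψ 0 : ℂ) / (2 - ρ) = Lp Ψ ρ := by
    intro ρ
    rw [h0, Complex.ofReal_zero, zero_div, sub_zero]
  have hm := mix (fun χ : DirichletCharacter ℂ q => lfc χ) (al w)
    (fun ρ => Lp Ψ ρ - (Ψ 0 : ℂ) / (2 - ρ)) (fun χ => (hC0 χ Ψ hΨ hc).1)
  have hfs := ex_fs Ψ hc
  have hsum : ∀ χ : DirichletCharacter ℂ q, Summable fun n : ℕ =>
      al w χ * ((ArithmeticFunction.vonMangoldt n : ℂ) * (lfc χ).g n * (Ψ (Real.log n) : ℂ)) := by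
    intro χ
    refine summable_of_hasFiniteSupport (hfs.subset fun n hn => ?_)
    rw [Function.mem_support] at hn
    intro h0
    apply hn
    rw [h0, Complex.ofReal_zero, mul_zero, mul_zero]
  have hL : (((∑' n : ℕ, vv w n * Ψ (Real.log n) : ℝ)) : ℂ) =
      ∑ χ : DirichletCharacter ℂ q, al w χ *
        ∑' n : ℕ, (ArithmeticFunction.vonMangoldt n : ℂ) * (lfc χ).g n * (Ψ (Real.log n) : ℂ) := by
    rw [Complex.ofReal_tsum]
    have h1 : ∀ χ : DirichletCharacter ℂ q, al w χ *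
        ∑' n : ℕ, (ArithmeticFunction.vonMangoldt n : ℂ) * (lfc χ).g n * (Ψ (Real.log n) : ℂ) =
        ∑' n : ℕ, al w χ * ((ArithmeticFunction.vonMangoldt n : ℂ) * (lfc χ).g n * (Ψ (Real.log n) : ℂ)) :=
      fun χ => tsum_mul_left.symm
    rw [Finset.sum_congr rfl fun χ _ => h1 χ, ← Summable.tsum_finsetSum fun χ _ => hsum χ]
    refine tsum_congr fun n => ?_
    rw [Complex.ofReal_mul, vv_cast, mul_assoc, Finset.sum_mul, Finset.mul_sum]
    refine Finset.sum_congr rfl fun χ _ => ?_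
    rw [lfc_g]
    ring
  rw [hL, Finset.sum_congr rfl fun χ _ => by rw [(hC0 χ Ψ hΨ hc).2]]
  have h2 : ∀ χ : DirichletCharacter ℂ q, al w χ * (C0 χ * (Ψ 0 : ℂ) + (lfc χ).p * Lp Ψ 1 -
      ∑' ρ : (lfc χ).Z, ((lfc χ).m ρ : ℂ) * (Lp Ψ ρ - (Ψ 0 : ℂ) / (2 - (ρ : ℂ)))) =
      al w χ * (lfc χ).p * Lp Ψ 1 -
        al w χ * ∑' ρ : (lfc χ).Z, ((lfc χ).m ρ : ℂ) * (Lp Ψ ρ - (Ψ 0 : ℂ) / (2 - (ρ : ℂ))) := by
    intro χ
    rw [h0, Complex.ofReal_zero]
    ring
  rw [Finset.sum_congr rfl fun χ _ => h2 χ, Finset.sum_sub_distrib, ← Finset.sum_mul, ex_p w h1, zero_mul,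
    zero_sub, hm.2]
  refine congrArg (fun x => -x) (tsum_congr fun i => ?_)
  rw [hz]

/-- the size of the transform of a bump -/
private theorem ex_lp (Ψ : ℝ → ℝ) (x ε : ℝ) (hε : 0 < ε) (hx : 1 / 2 ≤ x - ε) (hΨ0 : ∀ v, 0 ≤ Ψ v)
    (hΨ1 : ∀ v, Ψ v ≤ 1) (hs : ∀ v, ε ≤ |v - x| → Ψ v = 0) (z : ℂ) (hz : z.re ≤ 0) :
    ‖Lp Ψ z‖ ≤ 2 * ε * Real.exp (z.re / 2) := by
  unfold Pool.Agent.H50.RL.Lp
  have h1 : ∫ v in Set.Ioi (0 : ℝ), (Ψ v : ℂ) * Complex.exp (z * v) =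
      ∫ v in Set.Icc (x - ε) (x + ε), (Ψ v : ℂ) * Complex.exp (z * v) := by
    refine setIntegral_eq_of_subset_of_forall_diff_eq_zero measurableSet_Ioi ?_ ?_
    · intro v hv
      rw [Set.mem_Ioi]
      linarith [hv.1]
    · rintro v ⟨-, hv⟩
      have h2 : ε ≤ |v - x| := by
        by_contra h3
        push Not at h3
        rw [abs_lt] at h3
        exact hv ⟨by linarith [h3.1], by linarith [h3.2]⟩
      rw [hs v h2, Complex.ofReal_zero, zero_mul]
  rw [h1]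
  have h2 : ∀ v ∈ Set.Icc (x - ε) (x + ε), ‖(Ψ v : ℂ) * Complex.exp (z * v)‖ ≤ Real.exp (z.re / 2) := by
    intro v hv
    rw [norm_mul, Complex.norm_real, Real.norm_eq_abs, abs_of_nonneg (hΨ0 v), Complex.norm_exp]
    have h3 : (z * v).re = z.re * v := by
      rw [Complex.mul_re, Complex.ofReal_re, Complex.ofReal_im, mul_zero, sub_zero]
    rw [h3]
    have h4 : Real.exp (z.re * v) ≤ Real.exp (z.re / 2) := by
      rw [Real.exp_le_exp]
      nlinarith [hv.1]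
    calc Ψ v * Real.exp (z.re * v) ≤ 1 * Real.exp (z.re * v) :=
          mul_le_mul_of_nonneg_right (hΨ1 v) (Real.exp_pos _).le
      _ ≤ Real.exp (z.re / 2) := by rw [one_mul]; exact h4
  have h3 := norm_setIntegral_le_of_norm_le_const (μ := volume) (s := Set.Icc (x - ε) (x + ε))
    (f := fun v : ℝ => (Ψ v : ℂ) * Complex.exp (z * v)) (C := Real.exp (z.re / 2))
    (by rw [Real.volume_Icc]; exact ENNReal.ofReal_lt_top) h2
  refine h3.trans (le_of_eq ?_)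
  rw [Real.volume_real_Icc_of_le (by linarith)]
  ring

/-- no other integer near a prime, in the logarithmic scale -/
private theorem ex_near (p n : ℕ) (hp : 1 ≤ p) (hn : 1 ≤ n) (hne : n ≠ p) :
    1 / (2 * (p : ℝ)) ≤ |Real.log n - Real.log p| := by
  have hp0 : (0 : ℝ) < p := by exact_mod_cast hp
  have hn0 : (0 : ℝ) < n := by exact_mod_cast hn
  rcases lt_or_gt_of_ne hne with h | h
  · have h1 : (n : ℝ) + 1 ≤ p := by exact_mod_cast h
    have h2 := Real.log_le_sub_one_of_pos (div_pos hn0 hp0)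
    rw [Real.log_div hn0.ne' hp0.ne'] at h2
    have h3 : (n : ℝ) / p ≤ 1 - 1 / p := by
      rw [div_le_iff₀ hp0, sub_mul, one_mul, one_div, inv_mul_cancel₀ hp0.ne']
      linarith
    have h4 : 1 / (2 * (p : ℝ)) ≤ 1 / p := by
      apply one_div_le_one_div_of_le hp0
      linarith
    rw [abs_sub_comm]
    refine le_trans ?_ (le_abs_self _)
    linarith
  · have h1 : (p : ℝ) + 1 ≤ n := by exact_mod_cast h
    have h2 := Real.log_le_sub_one_of_pos (div_pos hp0 hn0)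
    rw [Real.log_div hp0.ne' hn0.ne'] at h2
    have h3 : (p : ℝ) / n ≤ 1 - 1 / (2 * p) := by
      have h5 : (p : ℝ) / n ≤ p / (p + 1) := by
        apply div_le_div_of_nonneg_left hp0.le (by linarith) h1
      refine h5.trans ?_
      have h6 : (p : ℝ) / (p + 1) = 1 - 1 / (p + 1) := by
        field_simp
        ring
      rw [h6]
      have hp1 : (1 : ℝ) ≤ p := by exact_mod_cast hp
      have h7 : 1 / (2 * (p : ℝ)) ≤ 1 / (p + 1) := by
        apply one_div_le_one_div_of_le (by linarith)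
        linarith
      linarith
    refine le_trans ?_ (le_abs_self _)
    linarith

theorem exists_pole {q : ℕ} [NeZero q] (w : (ZMod q)ˣ → ℝ) (h1 : ∑ u, w u = 0) (hw : w ≠ 0) :
    ∃ ρ : ℂ, 1 / 2 ≤ ρ.re ∧ ρ.re < 1 ∧ co w ρ ≠ 0 := by
  by_contra hcon
  push Not at hcon
  -- all indices are nonpositive integers
  have hleft : ∀ i : {ρ : ℂ // cc (fun χ : DirichletCharacter ℂ q => lfc χ) (al w) ρ ≠ 0},
      ∃ n : ℕ, (i : ℂ) = -(n : ℂ) := by
    intro i
    have hi : co w i ≠ 0 := by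
      rw [← ex_cc]
      exact i.2
    have h2 := ex_lt w i hi
    have h3 : (i : ℂ).re < 1 / 2 := by
      by_contra h4
      exact hi (hcon i (not_lt.1 h4) h2)
    have h4 : (i : ℂ).re ≤ 0 := by
      by_contra h5
      push Not at h5
      have h6 := ex_sym w i h5 h2
      have h7 : co w (1 - (starRingEnd ℂ) (i : ℂ)) = 0 := by
        apply hcon
        · rw [Complex.sub_re, Complex.one_re, Complex.conj_re]
          linarith
        · rw [Complex.sub_re, Complex.one_re, Complex.conj_re]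
          linarith
      exact hi (h6 ▸ h7)
    exact ex_left w i hi h4
  have hre : ∀ i : {ρ : ℂ // cc (fun χ : DirichletCharacter ℂ q => lfc χ) (al w) ρ ≠ 0},
      (i : ℂ).re ≤ 0 := by
    intro i
    obtain ⟨n, hn⟩ := hleft i
    rw [hn, Complex.neg_re, Complex.natCast_re]
    linarith [Nat.cast_nonneg (α := ℝ) n]
  -- summability
  have hS : Summable fun i : {ρ : ℂ // cc (fun χ : DirichletCharacter ℂ q => lfc χ) (al w) ρ ≠ 0} =>
      ‖cc (fun χ : DirichletCharacter ℂ q => lfc χ) (al w) i‖ * Real.exp ((i : ℂ).re / 2) := by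
    have h2 := mix_w (fun χ : DirichletCharacter ℂ q => lfc χ) (al w) (fun ρ => 1 / ‖ρ‖ ^ (2 : ℝ))
      (fun ρ => by positivity) (fun χ => ((lfc χ).s_one 2 (by norm_num)).congr fun ρ => by
        rw [mul_one_div])
    refine Summable.of_norm_bounded_eventually (h2.mul_left 8) ?_
    have hfin : {i : {ρ : ℂ // cc (fun χ : DirichletCharacter ℂ q => lfc χ) (al w) ρ ≠ 0} |
        (i : ℂ) = 0}.Finite := by
      refine Set.Subsingleton.finite ?_
      intro a ha b hb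
      exact Subtype.ext (ha.trans hb.symm)
    have hev : ∀ᶠ i : {ρ : ℂ // cc (fun χ : DirichletCharacter ℂ q => lfc χ) (al w) ρ ≠ 0} in cofinite,
        (i : ℂ) ≠ 0 := by
      rw [Filter.eventually_cofinite]
      simpa only [not_not, ne_eq] using hfin
    filter_upwards [hev] with i hi
    obtain ⟨n, hn⟩ := hleft i
    have hn0 : n ≠ 0 := by
      rintro rfl
      apply hi
      rw [hn, Nat.cast_zero, neg_zero]
    have hnp : (0 : ℝ) < n := by exact_mod_cast Nat.pos_of_ne_zero hn0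
    have h3 : (i : ℂ).re = -(n : ℝ) := by rw [hn, Complex.neg_re, Complex.natCast_re]
    have h4 : ‖(i : ℂ)‖ = n := by rw [hn, norm_neg, Complex.norm_natCast]
    have h5 : Real.exp ((i : ℂ).re / 2) ≤ 8 * (1 / ‖(i : ℂ)‖ ^ (2 : ℝ)) := by
      rw [h3, h4, Real.rpow_ofNat]
      have h6 := Real.quadratic_le_exp_of_nonneg (x := (n : ℝ) / 2) (by positivity)
      have h7 : (n : ℝ) ^ 2 / 8 ≤ Real.exp (n / 2) := by nlinarith
      have h8 : Real.exp (-(n : ℝ) / 2) = 1 / Real.exp (n / 2) := by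
        rw [neg_div, Real.exp_neg, one_div]
      rw [h8, mul_one_div, div_le_div_iff₀ (Real.exp_pos _) (by positivity)]
      linarith
    rw [Real.norm_eq_abs, abs_of_nonneg (by positivity)]
    calc ‖cc (fun χ : DirichletCharacter ℂ q => lfc χ) (al w) i‖ * Real.exp ((i : ℂ).re / 2)
        ≤ (1 + ‖cc (fun χ : DirichletCharacter ℂ q => lfc χ) (al w) i‖) *
            (8 * (1 / ‖(i : ℂ)‖ ^ (2 : ℝ))) := by
          refine mul_le_mul (by linarith) h5 (Real.exp_pos _).le (by positivity)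
      _ = _ := by ring
  obtain ⟨M, hM⟩ : ∃ M : ℝ, M =
      ∑' i : {ρ : ℂ // cc (fun χ : DirichletCharacter ℂ q => lfc χ) (al w) ρ ≠ 0},
        ‖cc (fun χ : DirichletCharacter ℂ q => lfc χ) (al w) i‖ * Real.exp ((i : ℂ).re / 2) := ⟨_, rfl⟩
  have hM0 : 0 ≤ M := by
    rw [hM]
    exact tsum_nonneg fun i => by positivity
  -- the prime
  obtain ⟨u, hu⟩ : ∃ u, w u ≠ 0 := by
    by_contra h2
    push Not at h2
    exact hw (funext h2)
  obtain ⟨p, hp3, hp, hpu⟩ := Nat.forall_exists_prime_gt_and_eq_mod (q := q) u.isUnit 2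
  have hp3' : (3 : ℝ) ≤ p := by exact_mod_cast hp3
  have hp0 : (0 : ℝ) < p := by linarith
  have hlog : 1 ≤ Real.log p := by
    rw [Real.le_log_iff_exp_le hp0]
    exact (Real.exp_one_lt_d9.le.trans (by norm_num)).trans hp3'
  have hA : 0 < Real.log p * |w u| := mul_pos (by linarith) (abs_pos.2 hu)
  -- the radius
  obtain ⟨ε, hε, hε1, hε2⟩ : ∃ ε : ℝ, 0 < ε ∧ ε < 1 / (2 * p) ∧ 2 * ε * M < Real.log p * |w u| := by
    refine ⟨min (1 / (4 * p)) (Real.log p * |w u| / (4 * (M + 1))), lt_min (by positivity) (by positivity),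
      (min_le_left _ _).trans_lt ?_, ?_⟩
    · apply one_div_lt_one_div_of_lt (by linarith)
      linarith
    · have h2 := min_le_right (1 / (4 * (p : ℝ))) (Real.log p * |w u| / (4 * (M + 1)))
      have h3 : 2 * min (1 / (4 * (p : ℝ))) (Real.log p * |w u| / (4 * (M + 1))) * M ≤
          2 * (Real.log p * |w u| / (4 * (M + 1))) * M :=
        mul_le_mul_of_nonneg_right (mul_le_mul_of_nonneg_left h2 (by norm_num)) hM0
      refine h3.trans_lt ?_
      rw [mul_div_assoc', div_mul_eq_mul_div, div_lt_iff₀ (by positivity)]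
      nlinarith
  have hε4 : ε ≤ 1 / 6 := by
    refine hε1.le.trans ?_
    rw [div_le_div_iff₀ (by positivity) (by norm_num)]
    linarith
  let Ψ : ContDiffBump (Real.log p) := ⟨ε / 2, ε, by positivity, by linarith⟩
  have hΨs : ∀ v, ε ≤ |v - Real.log p| → (Ψ : ℝ → ℝ) v = 0 := by
    intro v hv
    apply Ψ.zero_of_le_dist
    rw [Real.dist_eq]
    exact hv
  have hΨ0 : (Ψ : ℝ → ℝ) 0 = 0 := by
    apply hΨs
    rw [zero_sub, abs_neg, abs_of_nonneg (by linarith)]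
    linarith
  have hΨ1 : (Ψ : ℝ → ℝ) (Real.log p) = 1 := by
    apply Ψ.one_of_mem_closedBall
    rw [Metric.mem_closedBall, dist_self]
    positivity
  have hef := ex_ef w h1 Ψ (Ψ.contDiff (n := 4)) Ψ.hasCompactSupport hΨ0
  have hlhs : (∑' n : ℕ, vv w n * (Ψ : ℝ → ℝ) (Real.log n)) = Real.log p * w u := by
    rw [tsum_eq_single p]
    · rw [hΨ1, mul_one, vv_coprime, ww_unit w u p hpu, ArithmeticFunction.vonMangoldt_apply_prime hp]
      rw [← ZMod.isUnit_iff_coprime, hpu]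
      exact u.isUnit
    · intro n hn
      rcases Nat.eq_zero_or_pos n with rfl | hn0
      · rw [Nat.cast_zero, Real.log_zero, hΨ0, mul_zero]
      · rw [hΨs _ (hε1.le.trans (ex_near p n hp.one_lt.le hn0 hn)), mul_zero]
  rw [hlhs] at hef
  have hn : ‖((Real.log p * w u : ℝ) : ℂ)‖ = Real.log p * |w u| := by
    rw [Complex.norm_real, Real.norm_eq_abs, abs_mul, abs_of_nonneg (by linarith)]
  have hbd : ∀ i : {ρ : ℂ // cc (fun χ : DirichletCharacter ℂ q => lfc χ) (al w) ρ ≠ 0},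
      ‖cc (fun χ : DirichletCharacter ℂ q => lfc χ) (al w) i * Lp Ψ i‖ ≤
        2 * ε * (‖cc (fun χ : DirichletCharacter ℂ q => lfc χ) (al w) i‖ * Real.exp ((i : ℂ).re / 2)) := by
    intro i
    rw [norm_mul]
    have h2 := ex_lp Ψ (Real.log p) ε hε (by linarith) (fun v => Ψ.nonneg) (fun v => Ψ.le_one) hΨs i (hre i)
    calc ‖cc (fun χ : DirichletCharacter ℂ q => lfc χ) (al w) i‖ * ‖Lp Ψ i‖
        ≤ ‖cc (fun χ : DirichletCharacter ℂ q => lfc χ) (al w) i‖ *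
            (2 * ε * Real.exp ((i : ℂ).re / 2)) := mul_le_mul_of_nonneg_left h2 (norm_nonneg _)
      _ = _ := by ring
  have hfinal : Real.log p * |w u| ≤ 2 * ε * M := by
    rw [← hn, hef, norm_neg, hM, ← tsum_mul_left]
    exact tsum_of_norm_bounded (hS.mul_left (2 * ε)).hasSum hbd
  linarith

end Pool.Agent.H52.PR
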