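import Pool.Agent.H52.PR.Der

/-!
PRIME RACES (MP_2936c6_nt), module Lan: the Landau step, with a general meromorphic function `G`.

PROOF (adapt `aa_abs` of `Pool/Agent/H24/TS/Lnd.lean`; `lnb` of `H24/TS/Lnb.lean` for `BB w`, `bb w` with the constant `∑ |w u|`).
`A(z) = ∑ (C n^α - BB w n) n^(-z)`, nonnegative coefficients, abscissa `≤ 2`; for `Re z > 2`:
`A(z) = C ζ(z-α) - D(z-1)/(z-1) - K(z-1)`. `E(z) = (z-1)(C ζ(z-α) - A(z) - K(z-1))`, so `E(z) = D(z-1)` and `E'(z) = G(z-1)` for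
`Re z > 2`. Let `x₀` be the abscissa and suppose `x₀ > 1 + σ₀ (≥ 1 + α)`. `E` is analytic on `Re z > x₀` and (identity theorem for
meromorphic functions on the connected open half plane: `MeromorphicOn.exists_meromorphicOrderAt_ne_top_iff_forall`,
`meromorphicOrderAt_eq_top_iff`, applied to `E' - G(· - 1)`) `E'(z) = G(z-1)` in a punctured neighbourhood of every point of it. Near the
real point `x₀`: `G(z-1) = κ/(z-x₀) + H(z)`, `κ ≤ 0`. `κ = 0`: take a primitive `P` of `H` on a ball; `E = P + const` on the half ball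
(`E' - P' ` vanishes off a discrete set, so everywhere by continuity), so `A` extends analytically to the ball: `landau_local` gives a
contradiction. `κ < 0`: `E(x) = κ log(x-x₀) + P(x) + const → +∞` as `x ↓ x₀` real, but `Re E(x) ≤ (x-1) Re(C ζ(x-α) - K(x-1))` is bounded
since `A(x) ≥ 0`. Hence the abscissa is `≤ 1 + σ₀`, `E` is analytic on `Re z > 1 + σ₀`, and by the identity theorem again
`G(s) = E'(s+1)` in a punctured neighbourhood of every `ρ` with `Re ρ > σ₀`.
-/

set_option autoImplicit false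

namespace Pool.Agent.H52.PR

open Filter Topology

section Gen

open Complex LSeries Pool.Agent.H24.TS
open scoped ComplexOrder

/-- identity theorem for meromorphic functions on a half plane -/
private theorem mer_id (f g : ℂ → ℂ) (x₀ x₁ : ℝ) (hf : MeromorphicOn f {z : ℂ | x₀ < z.re})
    (hg : MeromorphicOn g {z : ℂ | x₀ < z.re}) (heq : ∀ z : ℂ, x₁ < z.re → f z = g z) (z : ℂ)
    (hz : x₀ < z.re) : f =ᶠ[𝓝[≠] z] g := by
  set U : Set ℂ := {z : ℂ | x₀ < z.re} with hU
  have hUc : IsConnected U := ⟨⟨z, hz⟩, (convex_halfSpace_re_gt x₀).isPreconnected⟩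
  have hm : MeromorphicOn (f - g) U := hf.sub hg
  set b : ℝ := max x₀ x₁ + 1 with hb
  have hb0 : x₀ < b := by rw [hb]; linarith [le_max_left x₀ x₁]
  have hb1 : x₁ < b := by rw [hb]; linarith [le_max_right x₀ x₁]
  have hbU : (b : ℂ) ∈ U := by
    show x₀ < (b : ℂ).re
    rw [ofReal_re]; exact hb0
  have h0 : meromorphicOrderAt (f - g) (b : ℂ) = ⊤ := by
    rw [meromorphicOrderAt_eq_top_iff]
    have h1 : ∀ᶠ s : ℂ in 𝓝 (b : ℂ), x₁ < s.re := by
      refine (isOpen_lt continuous_const Complex.continuous_re).mem_nhds ?_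
      show x₁ < (b : ℂ).re
      rw [ofReal_re]; exact hb1
    filter_upwards [nhdsWithin_le_nhds h1] with s hs
    rw [Pi.sub_apply, heq s hs, sub_self]
  have h2 : meromorphicOrderAt (f - g) z = ⊤ := by
    by_contra hne
    exact (hm.exists_meromorphicOrderAt_ne_top_iff_forall_mem hUc).1 ⟨z, hz, hne⟩ (b : ℂ) hbU h0
  rw [meromorphicOrderAt_eq_top_iff] at h2
  filter_upwards [h2] with s hs
  rw [Pi.sub_apply] at hs
  exact sub_eq_zero.1 hs

private theorem lnd_term' (α : ℝ) {s : ℂ} (hs : s + 1 - α ≠ 0) (n : ℕ) :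
    LSeries.term (fun n => (((n : ℝ) ^ α : ℝ) : ℂ)) (s + 1) n = 1 / (n : ℂ) ^ (s + 1 - α) := by
  rcases Nat.eq_zero_or_pos n with h | h
  · subst h
    rw [LSeries.term_zero, Nat.cast_zero, Complex.zero_cpow hs, div_zero]
  · rw [LSeries.term_of_ne_zero h.ne']
    have h0 : (n : ℂ) ≠ 0 := by exact_mod_cast h.ne'
    rw [Complex.cpow_sub _ _ h0, Complex.ofReal_cpow (Nat.cast_nonneg n), Complex.ofReal_natCast]
    rw [one_div, inv_div]

private theorem lnd_pow' (α : ℝ) {s : ℂ} (hs : α < s.re) :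
    LSeriesHasSum (fun n => (((n : ℝ) ^ α : ℝ) : ℂ)) (s + 1) (riemannZeta (s + 1 - α)) := by
  have hre : 1 < (s + 1 - α).re := by
    simp only [sub_re, add_re, one_re, ofReal_re]
    linarith
  have hne : s + 1 - α ≠ 0 := by
    intro h
    rw [h] at hre
    simp at hre
    linarith
  unfold LSeriesHasSum
  have h1 : (LSeries.term (fun n => (((n : ℝ) ^ α : ℝ) : ℂ)) (s + 1)) =
      fun n : ℕ => 1 / (n : ℂ) ^ (s + 1 - α) := by
    ext n
    exact lnd_term' α hne n
  rw [h1, zeta_eq_tsum_one_div_nat_cpow hre]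
  exact (Complex.summable_one_div_nat_cpow.mpr hre).hasSum

/-- the nonnegative coefficients -/
private noncomputable def aa (B : ℕ → ℝ) (C α : ℝ) (n : ℕ) : ℂ := ((C * (n : ℝ) ^ α - B n : ℝ) : ℂ)

/-- the series of `aa` far to the right -/
private theorem aa_sum (B b : ℕ → ℝ) (C α : ℝ) (hα1 : α ≤ 1) (K : ℂ → ℂ)
    (hK : ∀ s : ℂ, 1 < s.re →
      LSeriesSummable (fun n => ((B n : ℝ) : ℂ)) (s + 1) ∧
      LSeries (fun n => ((B n : ℝ) : ℂ)) (s + 1) =
        LSeries (fun n => ((b n : ℝ) : ℂ)) s / s + K s) {s : ℂ} (hs : 1 < s.re) :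
    LSeriesHasSum (aa B C α) (s + 1)
      (C * riemannZeta (s + 1 - α) - (LSeries (fun n => ((b n : ℝ) : ℂ)) s / s + K s)) := by
  have h1 : LSeriesHasSum (fun n => ((B n : ℝ) : ℂ)) (s + 1)
      (LSeries (fun n => ((b n : ℝ) : ℂ)) s / s + K s) := by
    rw [← (hK s hs).2]
    exact (hK s hs).1.LSeriesHasSum
  have h3 := lnd_pow' α (s := s) (by linarith)
  have h4 := (h3.smul (C : ℂ)).sub h1
  have e4 : aa B C α = (C : ℂ) • (fun n : ℕ => (((n : ℝ) ^ α : ℝ) : ℂ)) -
      (fun n : ℕ => ((B n : ℝ) : ℂ)) := by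
    ext n
    simp only [aa, Pi.sub_apply, Pi.smul_apply, smul_eq_mul]
    push_cast
    ring
  rw [e4]
  exact h4

/-- the function `E`, analytic to the right of the abscissa, with derivative `G (z - 1)` -/
private theorem lan_E (B b : ℕ → ℝ) (C α σ₀ : ℝ) (hα : 0 < α)
    (hασ : α ≤ σ₀) (hσ : σ₀ < 1) (K : ℂ → ℂ) (hK1 : DifferentiableOn ℂ K {s : ℂ | 0 < s.re})
    (hK : ∀ s : ℂ, 1 < s.re →
      LSeriesSummable (fun n => ((B n : ℝ) : ℂ)) (s + 1) ∧
      LSeries (fun n => ((B n : ℝ) : ℂ)) (s + 1) =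
        LSeries (fun n => ((b n : ℝ) : ℂ)) s / s + K s) (G : ℂ → ℂ)
    (hm : MeromorphicOn G {s : ℂ | σ₀ < s.re})
    (hd : ∀ s : ℂ, 1 < s.re → HasDerivAt (LSeries (fun n => ((b n : ℝ) : ℂ))) (G s) s)
    (x₀ : ℝ) (hx : 1 + σ₀ ≤ x₀) (habs : abscissaOfAbsConv (aa B C α) ≤ (x₀ : EReal)) :
    (∀ z : ℂ, x₀ < z.re → AnalyticAt ℂ (fun z => (z - 1) * (C * riemannZeta (z - α) -
        LSeries (aa B C α) z - K (z - 1))) z) ∧
    (∀ z : ℂ, x₀ < z.re → deriv (fun z => (z - 1) * (C * riemannZeta (z - α) -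
        LSeries (aa B C α) z - K (z - 1))) =ᶠ[𝓝[≠] z] fun z => G (z - 1)) := by
  set A : ℂ → ℂ := LSeries (aa B C α) with hA
  have hAan : ∀ z : ℂ, x₀ < z.re → AnalyticAt ℂ A z := by
    intro z hz
    refine LSeries_analyticOnNhd _ z ?_
    show abscissaOfAbsConv (aa B C α) < _
    refine lt_of_le_of_lt habs ?_
    exact_mod_cast hz
  have hKan : ∀ z : ℂ, 1 < z.re → AnalyticAt ℂ (fun z => K (z - 1)) z := by
    intro z hz
    have hU : IsOpen {w : ℂ | 1 < w.re} := isOpen_lt continuous_const Complex.continuous_re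
    have h3 : DifferentiableOn ℂ (fun z : ℂ => K (z - 1)) {w : ℂ | 1 < w.re} := by
      refine hK1.comp (by fun_prop) ?_
      intro w hw
      have hw : 1 < w.re := hw
      show 0 < (w - 1).re
      rw [sub_re, one_re]
      linarith
    exact h3.analyticAt (hU.mem_nhds hz)
  have hZan : ∀ z : ℂ, z - α ≠ 1 → AnalyticAt ℂ (fun z => riemannZeta (z - α)) z := by
    intro z hz
    have hU : IsOpen {w : ℂ | w - α ≠ 1} := by
      refine isOpen_ne_fun (by fun_prop) (by fun_prop)
    have h3 : DifferentiableOn ℂ (fun z : ℂ => riemannZeta (z - α)) {w : ℂ | w - α ≠ 1} := by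
      intro w hw
      refine DifferentiableAt.differentiableWithinAt ?_
      exact DifferentiableAt.comp w (differentiableAt_riemannZeta hw) (by fun_prop)
    exact h3.analyticAt (hU.mem_nhds hz)
  have hne1 : ∀ z : ℂ, x₀ < z.re → z - α ≠ 1 := by
    intro z hz h
    have h3 : (z - α).re = 1 := by rw [h]; simp
    rw [sub_re, ofReal_re] at h3
    linarith
  set E : ℂ → ℂ := fun z => (z - 1) * (C * riemannZeta (z - α) - A z - K (z - 1)) with hE
  have hEan : ∀ z : ℂ, x₀ < z.re → AnalyticAt ℂ E z := by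
    intro z hz
    have h3 := hAan z hz
    have h4 := hKan z (by linarith)
    have h5 := hZan z (hne1 z hz)
    have h6 : AnalyticAt ℂ (fun z : ℂ => z - 1) z := by fun_prop
    exact h6.mul (((analyticAt_const.mul h5).sub h3).sub h4)
  have hED : ∀ z : ℂ, 2 < z.re → E z = LSeries (fun n => ((b n : ℝ) : ℂ)) (z - 1) := by
    intro z hz
    have h3 := (aa_sum B b C α (by linarith) K hK (s := z - 1)
      (by rw [sub_re, one_re]; linarith)).LSeries_eq
    have e : z - 1 + 1 = z := by ring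
    rw [e] at h3
    simp only [hE, hA]
    rw [h3]
    have hz1 : z - 1 ≠ 0 := by
      intro h
      have h4 : (z - 1).re = 0 := by rw [h]; simp
      rw [sub_re, one_re] at h4
      linarith
    field_simp
    ring
  have hE' : ∀ z : ℂ, 2 < z.re → deriv E z = G (z - 1) := by
    intro z hz
    have h3 : E =ᶠ[𝓝 z] fun w => LSeries (fun n => ((b n : ℝ) : ℂ)) (w - 1) := by
      have hU : IsOpen {w : ℂ | 2 < w.re} := isOpen_lt continuous_const Complex.continuous_re
      filter_upwards [hU.mem_nhds hz] with w hw using hED w hw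
    rw [h3.deriv_eq]
    have h4 := hd (z - 1) (by rw [sub_re, one_re]; linarith)
    exact (h4.comp_sub_const z 1).deriv
  refine ⟨hEan, fun z hz => ?_⟩
  refine mer_id (deriv E) (fun z => G (z - 1)) x₀ 2 (fun w hw => (hEan w hw).deriv.meromorphicAt)
    (fun w hw => ?_) hE' z hz
  have hw : x₀ < w.re := hw
  have h7 : MeromorphicAt G (w - 1) := by
    refine hm (w - 1) ?_
    show σ₀ < (w - 1).re
    rw [sub_re, one_re]; linarith
  exact h7.comp_analyticAt (f := G) (g := fun z : ℂ => z - 1) (by fun_prop)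

private theorem lan_gen (B b : ℕ → ℝ) (M : ℝ) (hM0 : 0 ≤ M) (hM : ∀ n : ℕ, |B n| ≤ M * n)
    (hb : ∀ n, B (n + 1) = B n + b (n + 1))
    (hbs : ∀ s : ℂ, 1 < s.re → LSeriesSummable (fun n => ((b n : ℝ) : ℂ)) s)
    (G : ℂ → ℂ) (C α σ₀ : ℝ) (hα : 0 < α)
    (hασ : α ≤ σ₀) (hσ : σ₀ < 1) (hB : ∀ n : ℕ, B n ≤ C * (n : ℝ) ^ α)
    (hm : MeromorphicOn G {s : ℂ | σ₀ < s.re})
    (hd : ∀ s : ℂ, 1 < s.re → HasDerivAt (LSeries (fun n => ((b n : ℝ) : ℂ))) (G s) s)
    (hr : ∀ x : ℝ, σ₀ < x → ∃ κ : ℝ, κ ≤ 0 ∧ ∃ H : ℂ → ℂ, AnalyticAt ℂ H (x : ℂ) ∧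
      ∀ᶠ s in 𝓝[≠] (x : ℂ), G s = (κ : ℂ) / (s - (x : ℂ)) + H s)
    (ρ : ℂ) (hρ : σ₀ < ρ.re) : ∃ H : ℂ → ℂ, AnalyticAt ℂ H ρ ∧ ∀ᶠ s in 𝓝[≠] ρ, G s = H s := by
  obtain ⟨K, hK1, hK⟩ := lnb B b M hM0 hM hb hbs
  have ha : (0 : ℕ → ℂ) ≤ aa B C α := by
    intro n
    exact Complex.zero_le_real.2 (sub_nonneg.2 (hB n))
  have h2 : abscissaOfAbsConv (aa B C α) ≤ ((2 : ℝ) : EReal) := by
    refine abscissaOfAbsConv_le_of_forall_lt_LSeriesSummable fun y hy => ?_
    have h3 := (aa_sum B b C α (by linarith) K hK (s := ((y - 1 : ℝ) : ℂ))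
      (by rw [ofReal_re]; linarith)).LSeriesSummable
    have e : ((y - 1 : ℝ) : ℂ) + 1 = (y : ℂ) := by push_cast; ring
    rwa [e] at h3
  have hfin : abscissaOfAbsConv (aa B C α) ≤ ((1 + σ₀ : ℝ) : EReal) := by
    refine landau_local _ ha _ (ne_of_lt (lt_of_le_of_lt h2 (EReal.coe_lt_top _))) ?_
    intro x₀ hx₀ habs
    obtain ⟨hEan, hEG⟩ := lan_E B b C α σ₀ hα hασ hσ K hK1 hK G hm hd x₀ hx₀.le habs.le
    set A : ℂ → ℂ := LSeries (aa B C α) with hA
    set E : ℂ → ℂ := fun z => (z - 1) * (C * riemannZeta (z - α) - A z - K (z - 1)) with hE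
    obtain ⟨κ, hκ, H, hHan, hHG⟩ := hr (x₀ - 1) (by linarith)
    -- a ball
    have h3 : ∀ᶠ s : ℂ in 𝓝 ((x₀ - 1 : ℝ) : ℂ), AnalyticAt ℂ H s ∧
        (s ≠ ((x₀ - 1 : ℝ) : ℂ) → G s = (κ : ℂ) / (s - ((x₀ - 1 : ℝ) : ℂ)) + H s) := by
      refine hHan.eventually_analyticAt.and ?_
      rw [eventually_nhdsWithin_iff] at hHG
      filter_upwards [hHG] with s hs hne using hs hne
    have hc : Tendsto (fun z : ℂ => z - 1) (𝓝 (x₀ : ℂ)) (𝓝 ((x₀ - 1 : ℝ) : ℂ)) := by
      have e : ((x₀ - 1 : ℝ) : ℂ) = (x₀ : ℂ) - 1 := by push_cast; ring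
      rw [e]
      exact (continuous_id.sub continuous_const).tendsto _
    have h3' := hc.eventually h3
    have h4 : ∀ᶠ z : ℂ in 𝓝 (x₀ : ℂ), 1 < z.re ∧ z - α ≠ 1 := by
      refine Filter.Eventually.and ?_ ?_
      · refine (isOpen_lt continuous_const Complex.continuous_re).mem_nhds ?_
        show 1 < (x₀ : ℂ).re
        rw [ofReal_re]; linarith
      · have hU : IsOpen {w : ℂ | w - α ≠ 1} := isOpen_ne_fun (by fun_prop) (by fun_prop)
        refine hU.mem_nhds ?_
        intro h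
        have h3 : ((x₀ : ℂ) - α).re = 1 := by rw [h]; simp
        rw [sub_re, ofReal_re, ofReal_re] at h3
        linarith
    obtain ⟨R, hR, hbR⟩ := Metric.eventually_nhds_iff_ball.1 (h3'.and h4)
    have hKan : ∀ z ∈ Metric.ball (x₀ : ℂ) R, DifferentiableAt ℂ (fun z => K (z - 1)) z := by
      intro z hz
      have h5 := (hbR z hz).2.1
      have hU : IsOpen {w : ℂ | 0 < w.re} := isOpen_lt continuous_const Complex.continuous_re
      have h6 : DifferentiableAt ℂ K (z - 1) := by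
        refine hK1.differentiableAt (hU.mem_nhds ?_)
        show 0 < (z - 1).re
        rw [sub_re, one_re]; linarith
      exact DifferentiableAt.comp z h6 (by fun_prop)
    have hZan : ∀ z ∈ Metric.ball (x₀ : ℂ) R, DifferentiableAt ℂ (fun z => riemannZeta (z - α)) z := by
      intro z hz
      exact DifferentiableAt.comp z (differentiableAt_riemannZeta (hbR z hz).2.2) (by fun_prop)
    have hHan' : ∀ z ∈ Metric.ball (x₀ : ℂ) R, DifferentiableAt ℂ (fun z => H (z - 1)) z := by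
      intro z hz
      exact DifferentiableAt.comp z (hbR z hz).1.1.differentiableAt (by fun_prop)
    have hHB : DifferentiableOn ℂ (fun z => H (z - 1)) (Metric.ball (x₀ : ℂ) R) :=
      fun z hz => (hHan' z hz).differentiableWithinAt
    obtain ⟨P, hP⟩ := hHB.isExactOn_ball
    set W : Set ℂ := Metric.ball (x₀ : ℂ) R ∩ {z : ℂ | x₀ < z.re} with hW
    have hWo : IsOpen W :=
      Metric.isOpen_ball.inter (isOpen_lt continuous_const Complex.continuous_re)
    have hWc : Convex ℝ W := (convex_ball _ _).inter (convex_halfSpace_re_gt x₀)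
    have hder0 : ∀ z ∈ W, deriv E z = (κ : ℂ) / (z - x₀) + H (z - 1) := by
      intro z hz
      have hz2 : x₀ < z.re := hz.2
      have hzx : z - x₀ ≠ 0 := by
        intro h
        have h5 : (z - (x₀ : ℂ)).re = 0 := by rw [h]; simp
        rw [sub_re, ofReal_re] at h5
        linarith
      have h5 : ContinuousAt (deriv E) z := (hEan z hz2).deriv.continuousAt
      have h6 : ContinuousAt (fun z : ℂ => (κ : ℂ) / (z - x₀) + H (z - 1)) z := by
        refine ContinuousAt.add ?_ (hHan' z hz.1).continuousAt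
        exact ContinuousAt.div continuousAt_const (by fun_prop) hzx
      have h7 : deriv E =ᶠ[𝓝[≠] z] fun z : ℂ => (κ : ℂ) / (z - x₀) + H (z - 1) := by
        have h8 : ∀ᶠ w in 𝓝[≠] z, w ∈ W := nhdsWithin_le_nhds (hWo.mem_nhds hz)
        filter_upwards [hEG z hz2, h8] with w hw hwW
        rw [hw]
        have hw2 : x₀ < w.re := hwW.2
        have h9 := (hbR w hwW.1).1.2 (by
          intro h
          have h10 : (w - 1).re = x₀ - 1 := by rw [h, ofReal_re]
          rw [sub_re, one_re] at h10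
          linarith)
        rw [h9]
        congr 2
        push_cast
        ring
      exact ((h5.eventuallyEq_nhds_iff_eventuallyEq_nhdsNE h6).1 h7).eq_of_nhds
    have hder : ∀ z ∈ W, HasDerivAt (fun w => E w - ((κ : ℂ) * Complex.log (w - x₀) + P w)) 0 z := by
      intro z hz
      have hz2 : x₀ < z.re := hz.2
      have h3 := (hEan z hz2).differentiableAt.hasDerivAt
      rw [hder0 z hz] at h3
      have hsl : z - x₀ ∈ Complex.slitPlane := by
        left
        rw [sub_re, ofReal_re]; linarith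
      have h4 : HasDerivAt (fun w : ℂ => (κ : ℂ) * Complex.log (w - x₀)) ((κ : ℂ) / (z - x₀)) z := by
        have h5 : HasDerivAt (fun w : ℂ => w - x₀) 1 z := (hasDerivAt_id z).sub_const _
        have h6 := (h5.clog hsl).const_mul (κ : ℂ)
        rwa [mul_one_div] at h6
      have h5 := h3.sub (h4.add (hP z hz.1))
      rwa [sub_self] at h5
    obtain ⟨c, hc'⟩ : ∃ c : ℂ, ∀ z ∈ W, E z - ((κ : ℂ) * Complex.log (z - x₀) + P z) = c := by
      refine hWo.exists_is_const_of_deriv_eq_zero hWc.isPreconnected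
        (fun z hz => (hder z hz).differentiableAt.differentiableWithinAt)
        (fun z hz => (hder z hz).deriv)
    rcases hκ.lt_or_eq with hneg | hzero
    · -- `κ < 0`: contradiction
      exfalso
      have hx₀B : (x₀ : ℂ) ∈ Metric.ball (x₀ : ℂ) R := Metric.mem_ball_self hR
      -- the bounded function
      set Q : ℂ → ℂ := fun z => (z - 1) * (C * riemannZeta (z - α) - K (z - 1)) - P z - c with hQ
      have hQc : ContinuousAt Q (x₀ : ℂ) := by
        have h5 := (hKan _ hx₀B).continuousAt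
        have h6 := (hZan _ hx₀B).continuousAt
        have h7 := (hP _ hx₀B).continuousAt
        have h8 : ContinuousAt (fun z : ℂ => z - 1) (x₀ : ℂ) := by fun_prop
        exact ((h8.mul ((continuousAt_const.mul h6).sub h5)).sub h7).sub continuousAt_const
      have hT : Tendsto (fun x : ℝ => (x : ℂ)) (𝓝[>] x₀) (𝓝 (x₀ : ℂ)) :=
        (Complex.continuous_ofReal.tendsto x₀).mono_left nhdsWithin_le_nhds
      have hQ1 : Tendsto (fun x : ℝ => (Q (x : ℂ)).re) (𝓝[>] x₀) (𝓝 (Q (x₀ : ℂ)).re) :=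
        (Complex.continuous_re.continuousAt.tendsto.comp (hQc.tendsto.comp hT))
      have hlog : Tendsto (fun x : ℝ => κ * Real.log (x - x₀)) (𝓝[>] x₀) atTop := by
        have h5 : Tendsto (fun x : ℝ => x - x₀) (𝓝[>] x₀) (𝓝[>] 0) := by
          refine tendsto_nhdsWithin_iff.2 ⟨?_, ?_⟩
          · have h6 : Tendsto (fun x : ℝ => x - x₀) (𝓝 x₀) (𝓝 (x₀ - x₀)) :=
              (continuous_id.sub continuous_const).tendsto _
            rw [sub_self] at h6
            exact h6.mono_left nhdsWithin_le_nhds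
          · filter_upwards [self_mem_nhdsWithin] with x hx
            have hx : x₀ < x := hx
            show 0 < x - x₀
            linarith
        exact (Real.tendsto_log_nhdsGT_zero.comp h5).const_mul_atBot_of_neg hneg
      have hle : ∀ᶠ x : ℝ in 𝓝[>] x₀, κ * Real.log (x - x₀) ≤ (Q (x : ℂ)).re := by
        have h5 : ∀ᶠ x : ℝ in 𝓝[>] x₀, (x : ℂ) ∈ Metric.ball (x₀ : ℂ) R :=
          hT.eventually (Metric.isOpen_ball.mem_nhds hx₀B)
        filter_upwards [h5, self_mem_nhdsWithin] with x hx hx'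
        have hx' : x₀ < x := hx'
        have h6 : (x : ℂ) ∈ W := ⟨hx, by show x₀ < (x : ℂ).re; rw [ofReal_re]; exact hx'⟩
        have h7 := hc' _ h6
        have h8 : Complex.log ((x : ℂ) - x₀) = ((Real.log (x - x₀) : ℝ) : ℂ) := by
          rw [← ofReal_sub, ofReal_log (by linarith)]
        rw [h8] at h7
        have h9 : (0 : ℝ) ≤ (A (x : ℂ)).re := by
          have h10 : (0 : ℂ) ≤ A (x : ℂ) := by
            rw [hA]
            unfold LSeries
            refine tsum_nonneg fun n => ?_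
            rcases eq_or_ne n 0 with rfl | hn
            · simp
            rw [term_of_ne_zero hn, div_eq_mul_inv]
            exact mul_nonneg (ha n) (inv_natCast_cpow_ofReal_pos hn x).le
          exact (Complex.nonneg_iff.1 h10).1
        have h10 : ((κ * Real.log (x - x₀) : ℝ) : ℂ) = Q (x : ℂ) - ((x - 1 : ℝ) : ℂ) * A (x : ℂ) := by
          simp only [hQ]
          simp only [hE] at h7
          push_cast
          linear_combination -h7
        have h11 := congrArg Complex.re h10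
        rw [ofReal_re, sub_re, re_ofReal_mul] at h11
        rw [h11]
        have h12 : 0 ≤ (x - 1) * (A (x : ℂ)).re := mul_nonneg (by linarith) h9
        linarith
      have hQT : Tendsto (fun x : ℝ => (Q (x : ℂ)).re) (𝓝[>] x₀) atTop := tendsto_atTop_mono' _ hle hlog
      exact not_tendsto_nhds_of_tendsto_atTop hQT _ hQ1
    · -- `κ = 0`: extension
      refine ⟨fun z => C * riemannZeta (z - α) - K (z - 1) - (P z + c) / (z - 1), R, hR, ?_, ?_⟩
      · intro z hz
        refine DifferentiableAt.differentiableWithinAt ?_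
        have h5 : z - 1 ≠ 0 := by
          intro h
          have h4 : (z - 1).re = 0 := by rw [h]; simp
          rw [sub_re, one_re] at h4
          have := (hbR z hz).2.1
          linarith
        exact (((hZan z hz).const_mul _).sub (hKan z hz)).sub
          (((hP z hz).differentiableAt.add_const c).div (by fun_prop) h5)
      · intro z hz hz2
        have h3 := hc' z ⟨hz, hz2⟩
        rw [hzero, ofReal_zero, zero_mul, zero_add] at h3
        have h5 : z - 1 ≠ 0 := by
          intro h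
          have h4 : (z - 1).re = 0 := by rw [h]; simp
          rw [sub_re, one_re] at h4
          linarith
        have h4 : P z + c = E z := by rw [← h3]; ring
        show C * riemannZeta (z - α) - K (z - 1) - (P z + c) / (z - 1) = A z
        rw [h4]
        simp only [hE]
        rw [mul_div_cancel_left₀ _ h5]
        ring
  obtain ⟨hEan, hEG⟩ := lan_E B b C α σ₀ hα hασ hσ K hK1 hK G hm hd (1 + σ₀) le_rfl hfin
  set E : ℂ → ℂ := fun z => (z - 1) * (C * riemannZeta (z - α) - LSeries (aa B C α) z - K (z - 1))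
    with hE
  have hre : 1 + σ₀ < (ρ + 1).re := by rw [add_re, one_re]; linarith
  refine ⟨fun s => deriv E (s + 1), ?_, ?_⟩
  · have h3 : AnalyticAt ℂ (deriv E) (ρ + 1) := (hEan _ hre).deriv
    exact AnalyticAt.comp (g := deriv E) (f := fun s : ℂ => s + 1) h3 (by fun_prop)
  · have h3 := hEG _ hre
    have hT : Tendsto (fun s : ℂ => s + 1) (𝓝[≠] ρ) (𝓝[≠] (ρ + 1)) := by
      refine tendsto_nhdsWithin_iff.2 ⟨?_, ?_⟩
      · exact ((continuous_id.add continuous_const).tendsto _).mono_left nhdsWithin_le_nhds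
      · filter_upwards [self_mem_nhdsWithin] with x hx
        have hx : x ≠ ρ := hx
        show x + 1 ≠ ρ + 1
        intro h
        exact hx (add_right_cancel h)
    filter_upwards [hT.eventually h3] with s hs
    have e : s + 1 - 1 = s := by ring
    rw [e] at hs
    exact hs.symm

end Gen

theorem lan {q : ℕ} [NeZero q] (w : (ZMod q)ˣ → ℝ) (G : ℂ → ℂ) (C α σ₀ : ℝ) (hC : 0 ≤ C) (hα : 0 < α)
    (hασ : α ≤ σ₀) (hσ : σ₀ < 1) (hB : ∀ n : ℕ, BB w n ≤ C * (n : ℝ) ^ α)
    (hm : MeromorphicOn G {s : ℂ | σ₀ < s.re})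
    (hd : ∀ s : ℂ, 1 < s.re → HasDerivAt (LSeries (fun n => ((bb w n : ℝ) : ℂ))) (G s) s)
    (hr : ∀ x : ℝ, σ₀ < x → ∃ κ : ℝ, κ ≤ 0 ∧ ∃ H : ℂ → ℂ, AnalyticAt ℂ H (x : ℂ) ∧
      ∀ᶠ s in 𝓝[≠] (x : ℂ), G s = (κ : ℂ) / (s - (x : ℂ)) + H s)
    (ρ : ℂ) (hρ : σ₀ < ρ.re) : ∃ H : ℂ → ℂ, AnalyticAt ℂ H ρ ∧ ∀ᶠ s in 𝓝[≠] ρ, G s = H s := by
  have hb0 : ∀ n : ℕ, |bb w n| ≤ ∑ u : (ZMod q)ˣ, |w u| := by
    intro n
    unfold bb
    split_ifs
    · exact ww_abs w n
    · rw [abs_zero]
      exact Finset.sum_nonneg fun u _ => abs_nonneg _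
  refine lan_gen (BB w) (bb w) (∑ u : (ZMod q)ˣ, |w u|) (Finset.sum_nonneg fun u _ => abs_nonneg _) ?_ ?_
    (fun s hs => bb_summable w s hs) G C α σ₀ hα hασ hσ hB hm hd hr ρ hρ
  · intro n
    unfold BB
    refine (Finset.abs_sum_le_sum_abs _ _).trans ?_
    refine (Finset.sum_le_sum fun k _ => hb0 k).trans ?_
    rw [Finset.sum_const, Nat.card_Icc, nsmul_eq_mul, Nat.add_sub_cancel, mul_comm]
  · intro n
    unfold BB
    rw [Finset.sum_Icc_succ_top (by omega)]

end Pool.Agent.H52.PR
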