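import Pool.Agent.H52.PR.Dic

/-!
PRIME RACES (MP_2936c6_nt) v2, module Led2: class `1` against the others, and the leaders.

PROOF of `leader2`. `leader` (a = 1) gives a class `c ≠ 1` which leads infinitely often. If there are no two such classes, then `c² = 1` (`leader`, a = c), and by
the tie argument no class is ahead of `c` from some point on. So the first alternative of `dic_gen` fails for all the weights `dw a c`, and that of `dic_N`
for `dw 1 c`; take the largest of the `β`.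
-/

set_option autoImplicit false

namespace Pool.Agent.H52.PR

open Pool.Agent.H50.RQ (LL Vq wq lfc gx)

private theorem tot_pos (q : ℕ) [NeZero q] : (0 : ℝ) < (q.totient : ℝ) := by
  exact_mod_cast Nat.totient_pos.mpr (Nat.pos_of_ne_zero (NeZero.ne q))

theorem dw_sum {q : ℕ} [NeZero q] (a b : (ZMod q)ˣ) : ∑ u, dw a b u = 0 := by
  classical
  unfold dw
  rw [Finset.sum_sub_distrib]
  simp

theorem al_dw {q : ℕ} [NeZero q] (a b : (ZMod q)ˣ) (χ : DirichletCharacter ℂ q) :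
    al (dw a b) χ = (χ (((a⁻¹ : (ZMod q)ˣ)) : ZMod q) - χ (((b⁻¹ : (ZMod q)ˣ)) : ZMod q)) / (q.totient : ℂ) := by
  classical
  unfold al dw
  have h1 : ∀ x : (ZMod q)ˣ, ((((if x = a then (1 : ℝ) else 0) - (if x = b then 1 else 0) : ℝ)) : ℂ) *
      (χ (((x⁻¹ : (ZMod q)ˣ)) : ZMod q) / (q.totient : ℂ)) =
      (if x = a then χ (((x⁻¹ : (ZMod q)ˣ)) : ZMod q) / (q.totient : ℂ) else 0) -
        (if x = b then χ (((x⁻¹ : (ZMod q)ˣ)) : ZMod q) / (q.totient : ℂ) else 0) := by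
    intro x
    split_ifs <;> push_cast <;> ring
  rw [Finset.sum_congr rfl fun x _ => h1 x, Finset.sum_sub_distrib]
  simp only [Finset.sum_ite_eq', Finset.mem_univ, if_true]
  ring

private theorem ch_inv_re {q : ℕ} [NeZero q] (χ : DirichletCharacter ℂ q) (u : (ZMod q)ˣ) :
    (χ (((u⁻¹ : (ZMod q)ˣ)) : ZMod q)).re = (χ (u : ZMod q)).re := by
  have h5 := MulChar.star_apply' χ (u : ZMod q)
  rw [MulChar.inv_apply, Ring.inverse_unit] at h5
  rw [← h5]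
  exact Complex.conj_re _

private theorem al_dw_re {q : ℕ} [NeZero q] (a b : (ZMod q)ˣ) (χ : DirichletCharacter ℂ q) :
    (al (dw a b) χ).re = ((χ (a : ZMod q)).re - (χ (b : ZMod q)).re) / (q.totient : ℝ) := by
  rw [al_dw, Complex.div_natCast_re, Complex.sub_re, ch_inv_re, ch_inv_re]

private theorem ch_le {q : ℕ} [NeZero q] (χ : DirichletCharacter ℂ q) (u : (ZMod q)ˣ) : (χ (u : ZMod q)).re ≤ 1 :=
  (Complex.re_le_norm _).trans (DirichletCharacter.norm_le_one χ _)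

private theorem ch_one {q : ℕ} [NeZero q] (χ : DirichletCharacter ℂ q) : (χ (((1 : (ZMod q)ˣ)) : ZMod q)).re = 1 := by
  rw [Units.val_one, map_one, Complex.one_re]

private theorem ch_lt {q : ℕ} [NeZero q] (χ : DirichletCharacter ℂ q) (u : (ZMod q)ˣ) (h : χ (u : ZMod q) ≠ 1) :
    (χ (u : ZMod q)).re < 1 := by
  rcases (ch_le χ u).lt_or_eq with h1 | h1
  · exact h1
  · exfalso
    apply h
    have h2 : ‖χ (u : ZMod q)‖ ≤ 1 := DirichletCharacter.norm_le_one χ _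
    have h3 : ‖χ (u : ZMod q)‖ ^ 2 = (χ (u : ZMod q)).re ^ 2 + (χ (u : ZMod q)).im ^ 2 := by
      rw [← Complex.normSq_eq_norm_sq, Complex.normSq_apply]
      ring
    have h4 : (χ (u : ZMod q)).im = 0 := by
      rw [h1] at h3
      have h5 : 0 ≤ ‖χ (u : ZMod q)‖ := norm_nonneg _
      have h6 : (χ (u : ZMod q)).im ^ 2 ≤ 0 := by nlinarith
      have h7 := sq_nonneg (χ (u : ZMod q)).im
      exact pow_eq_zero_iff (two_ne_zero) |>.1 (le_antisymm h6 h7)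
    exact Complex.ext (by rw [h1, Complex.one_re]) (by rw [h4, Complex.one_im])

private theorem ch_ex {q : ℕ} [NeZero q] (u : (ZMod q)ˣ) (hu : u ≠ 1) : ∃ χ : DirichletCharacter ℂ q, χ (u : ZMod q) ≠ 1 := by
  have h1 : (u : ZMod q) ≠ 1 := by
    intro h
    exact hu (Units.ext h)
  exact DirichletCharacter.exists_apply_ne_one_of_hasEnoughRootsOfUnity ℂ h1

theorem BB_dw {q : ℕ} [NeZero q] (a b : (ZMod q)ˣ) (n : ℕ) :
    BB (dw a b) n = (cu q a (n + 1) : ℝ) - (cu q b (n + 1) : ℝ) := by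
  classical
  rw [BB_cu]
  unfold dw
  have h1 : ∀ x : (ZMod q)ˣ, ((if x = a then (1 : ℝ) else 0) - (if x = b then 1 else 0)) * (cu q x (n + 1) : ℝ) =
      (if x = a then (cu q x (n + 1) : ℝ) else 0) - (if x = b then (cu q x (n + 1) : ℝ) else 0) := by
    intro x
    split_ifs <;> ring
  rw [Finset.sum_congr rfl fun x _ => h1 x, Finset.sum_sub_distrib]
  simp only [Finset.sum_ite_eq', Finset.mem_univ, if_true]

theorem shift (C : ℝ) (n : ℕ) (hn : 2 ≤ n) :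
    C * (Real.sqrt ((n + 1 : ℕ) : ℝ) / Real.log ((n + 1 : ℕ) : ℝ)) ≤ 2 * max C 0 * (Real.sqrt n / Real.log n) := by
  have hn1 : (2 : ℝ) ≤ n := by exact_mod_cast hn
  have hl : 0 < Real.log n := Real.log_pos (by linarith)
  have hl2 : Real.log n ≤ Real.log ((n + 1 : ℕ) : ℝ) := by
    refine Real.log_le_log (by linarith) ?_
    push_cast
    linarith
  have h1 : Real.sqrt ((n + 1 : ℕ) : ℝ) ≤ 2 * Real.sqrt n := by
    rw [Real.sqrt_le_left (by positivity), mul_pow, Real.sq_sqrt (by positivity)]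
    push_cast
    linarith
  have h2 : Real.sqrt ((n + 1 : ℕ) : ℝ) / Real.log ((n + 1 : ℕ) : ℝ) ≤ 2 * (Real.sqrt n / Real.log n) := by
    rw [← mul_div_assoc]
    exact div_le_div₀ (by positivity) h1 hl hl2
  have h3 : 0 ≤ Real.sqrt ((n + 1 : ℕ) : ℝ) / Real.log ((n + 1 : ℕ) : ℝ) := by
    have h4 : 0 < Real.log ((n + 1 : ℕ) : ℝ) := lt_of_lt_of_le hl hl2
    positivity
  calc C * (Real.sqrt ((n + 1 : ℕ) : ℝ) / Real.log ((n + 1 : ℕ) : ℝ))
        ≤ max C 0 * (Real.sqrt ((n + 1 : ℕ) : ℝ) / Real.log ((n + 1 : ℕ) : ℝ)) :=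
        mul_le_mul_of_nonneg_right (le_max_left _ _) h3
    _ ≤ max C 0 * (2 * (Real.sqrt n / Real.log n)) := mul_le_mul_of_nonneg_left h2 (le_max_right _ _)
    _ = 2 * max C 0 * (Real.sqrt n / Real.log n) := by ring

/-- the theorem for weights with `Re ŵ ≤ 0`, not identically zero -/
theorem weights2 {q : ℕ} [NeZero q] (w : (ZMod q)ˣ → ℝ) (h1 : ∑ u, w u = 0)
    (hχ : ∀ χ : DirichletCharacter ℂ q, (∑ u : (ZMod q)ˣ, (w u : ℂ) * χ (u : ZMod q)).re ≤ 0)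
    (hne : ∃ χ : DirichletCharacter ℂ q, (∑ u : (ZMod q)ˣ, (w u : ℂ) * χ (u : ZMod q)).re ≠ 0)
    (C : ℝ) (N : ℕ) :
    ∃ n : ℕ, N < n ∧ C * (Real.sqrt n / Real.log n) < ∑ u : (ZMod q)ˣ, w u * (cu q u n : ℝ) := by
  have h2 : ∃ χ : DirichletCharacter ℂ q, (al w χ).re ≠ 0 := by
    obtain ⟨χ, hχ'⟩ := hne
    refine ⟨χ⁻¹, ?_⟩
    have h3 : al w χ⁻¹ = (∑ u : (ZMod q)ˣ, (w u : ℂ) * χ (u : ZMod q)) / (q.totient : ℂ) := by
      unfold al
      rw [Finset.sum_div]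
      refine Finset.sum_congr rfl fun u _ => ?_
      have h4 : χ⁻¹ (((u⁻¹ : (ZMod q)ˣ)) : ZMod q) = χ (u : ZMod q) := by
        rw [MulChar.inv_apply, Ring.inverse_unit, inv_inv]
      rw [h4, mul_div_assoc]
    rw [h3, Complex.div_natCast_re]
    exact div_ne_zero hχ' (tot_pos q).ne'
  obtain ⟨n, hn, h⟩ := dic_P w h1 (al_re w hχ) h2 (2 * max C 0) (N + 2)
  refine ⟨n + 1, by omega, ?_⟩
  rw [← BB_cu]
  exact lt_of_le_of_lt (shift C n (by omega)) h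

theorem cu_cn {q : ℕ} (u : (ZMod q)ˣ) (a : ℕ) (h : (a : ZMod q) = (u : ZMod q)) (n : ℕ) : cu q u n = cn q a n := by
  unfold cu cn
  refine congrArg Finset.card (Finset.filter_congr fun p _ => ?_)
  rw [← h, ZMod.natCast_eq_natCast_iff' p a q]

/-- every class against the class `1`, unconditionally -/
theorem beat_one2 (b a : ℕ) (hb : 0 < b) (ha : a.Coprime b) (h1 : a % b ≠ 1 % b) (C : ℝ) (N : ℕ) :
    ∃ n : ℕ, N < n ∧ (cn b 1 n : ℝ) + C * (Real.sqrt n / Real.log n) < (cn b a n : ℝ) := by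
  have : NeZero b := ⟨hb.ne'⟩
  obtain ⟨u, hu⟩ := (ZMod.isUnit_iff_coprime a b).2 ha
  have hu1 : u ≠ 1 := by
    intro h
    apply h1
    rw [h] at hu
    rw [← ZMod.natCast_eq_natCast_iff' a 1 b, ← hu, Units.val_one, Nat.cast_one]
  obtain ⟨χ₀, hχ₀⟩ := ch_ex u hu1
  obtain ⟨n, hn, h⟩ := dic_P (dw u 1) (dw_sum u 1) (fun χ => by
    rw [al_dw_re, ch_one]
    exact div_nonpos_of_nonpos_of_nonneg (by linarith [ch_le χ u]) (tot_pos b).le) ⟨χ₀, by
    rw [al_dw_re, ch_one]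
    exact div_ne_zero (by linarith [ch_lt χ₀ u hχ₀]) (tot_pos b).ne'⟩ (2 * max C 0) (N + 2)
  refine ⟨n + 1, by omega, ?_⟩
  have h2 := shift C n (by omega)
  rw [BB_dw, cu_cn u a hu.symm, cu_cn (1 : (ZMod b)ˣ) 1 (by rw [Units.val_one, Nat.cast_one])] at h
  linarith

/-- the class `1` against another class: an exceptional real zero is the only obstruction -/
theorem one_beat2 (b a : ℕ) [NeZero b] (ha : a.Coprime b) (h1 : a % b ≠ 1 % b) :
    (∀ (C : ℝ) (N : ℕ), ∃ n : ℕ, N < n ∧ (cn b a n : ℝ) + C * (Real.sqrt n / Real.log n) < (cn b 1 n : ℝ)) ∨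
    ∃ β : ℝ, 1 / 2 < β ∧ β < 1 ∧
      (∃ χ : DirichletCharacter ℂ b, χ (a : ZMod b) ≠ 1 ∧ χ.LFunction (β : ℂ) = 0) ∧
      ∀ ψ : DirichletCharacter ℂ b, ψ (a : ZMod b) ≠ 1 → ∀ s : ℂ, β < s.re → ψ.LFunction s ≠ 0 := by
  obtain ⟨u, hu⟩ := (ZMod.isUnit_iff_coprime a b).2 ha
  have hu1 : u ≠ 1 := by
    intro h
    apply h1
    rw [h] at hu
    rw [← ZMod.natCast_eq_natCast_iff' a 1 b, ← hu, Units.val_one, Nat.cast_one]
  obtain ⟨χ₀, hχ₀⟩ := ch_ex u hu1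
  have hne1 : ∀ χ : DirichletCharacter ℂ b, χ (u : ZMod b) ≠ 1 → χ ≠ 1 := by
    rintro χ h rfl
    exact h (MulChar.one_apply u.isUnit)
  rcases dic_N (dw 1 u) (dw_sum 1 u) (fun χ => by
    rw [al_dw_re, ch_one]
    exact div_nonneg (by linarith [ch_le χ u]) (tot_pos b).le) ⟨χ₀, by
    rw [al_dw_re, ch_one]
    exact div_ne_zero (by linarith [ch_lt χ₀ u hχ₀]) (tot_pos b).ne'⟩ with h | ⟨β, h2, h3, h4, h5⟩
  · left
    intro C N
    obtain ⟨n, hn, h⟩ := h (2 * max C 0) (N + 2)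
    refine ⟨n + 1, by omega, ?_⟩
    have h2 := shift C n (by omega)
    rw [BB_dw, cu_cn u a hu.symm, cu_cn (1 : (ZMod b)ˣ) 1 (by rw [Units.val_one, Nat.cast_one])] at h
    linarith
  · right
    refine ⟨β, h2, h3, ?_, ?_⟩
    · by_contra hcon
      push Not at hcon
      have h6 : (co (dw 1 u) (β : ℂ)).re ≤ 0 := by
        unfold co
        rw [Complex.re_sum]
        refine Finset.sum_nonpos fun χ _ => ?_
        rw [Complex.mul_re, Complex.natCast_re, Complex.natCast_im, mul_zero, sub_zero]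
        by_cases h7 : χ (u : ZMod b) = 1
        · rw [al_dw_re, ch_one, h7, Complex.one_re, sub_self, zero_div, zero_mul]
        · have h8 := hcon χ (by rwa [← hu])
          have h9 : LL χ (β : ℂ) ≠ 0 := by
            intro h10
            exact h8 ((LL_iff χ (hne1 χ h7) (β : ℂ) (by rw [Complex.ofReal_re]; linarith)).1 h10)
          rw [(ord_iff χ (β : ℂ)).2 h9, Nat.cast_zero, mul_zero]
      linarith
    · intro ψ hψ s hs hz
      rw [← hu] at hψ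
      have h6 := h5 s hs
      have h7 : (co (dw 1 u) s).re = 0 := by rw [h6, Complex.zero_re]
      unfold co at h7
      rw [Complex.re_sum] at h7
      have h8 : ∀ χ ∈ (Finset.univ : Finset (DirichletCharacter ℂ b)),
          0 ≤ (al (dw 1 u) χ * (analyticOrderNatAt (LL χ) s : ℂ)).re := by
        intro χ _
        rw [Complex.mul_re, Complex.natCast_re, Complex.natCast_im, mul_zero, sub_zero]
        refine mul_nonneg ?_ (Nat.cast_nonneg _)
        rw [al_dw_re, ch_one]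
        exact div_nonneg (by linarith [ch_le χ u]) (tot_pos b).le
      have h9 := (Finset.sum_eq_zero_iff_of_nonneg h8).1 h7 ψ (Finset.mem_univ _)
      rw [Complex.mul_re, Complex.natCast_re, Complex.natCast_im, mul_zero, sub_zero] at h9
      rcases mul_eq_zero.1 h9 with h10 | h10
      · rw [al_dw_re, ch_one] at h10
        have h11 := ch_lt ψ u hψ
        rcases div_eq_zero_iff.1 h10 with h12 | h12
        · linarith
        · exact (tot_pos b).ne' h12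
      · have h11 : analyticOrderNatAt (LL ψ) s = 0 := by exact_mod_cast h10
        exact (ord_iff ψ s).1 h11 ((LL_iff ψ (hne1 ψ hψ) s (by linarith)).2 hz)

/-- a class and its inverse: both signs, at the scale `√n/log n` -/
theorem beat_inv2 (b a a' : ℕ) (hb : 0 < b) (haa : (a * a') % b = 1 % b) (h1 : (a * a) % b ≠ 1 % b) :
    ∃ c : ℝ, 0 < c ∧ ∀ N : ℕ, ∃ n : ℕ, N < n ∧ (cn b a' n : ℝ) + c * (Real.sqrt n / Real.log n) < (cn b a n : ℝ) := by
  have : NeZero b := ⟨hb.ne'⟩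
  have h2 : (a : ZMod b) * (a' : ZMod b) = 1 := by
    rw [← ZMod.natCast_eq_natCast_iff' (a * a') 1 b, Nat.cast_mul, Nat.cast_one] at haa
    exact haa
  obtain ⟨u, hu⟩ : ∃ u : (ZMod b)ˣ, (u : ZMod b) = (a : ZMod b) := ⟨Units.mkOfMulEqOne _ _ h2, rfl⟩
  have h3 : (((u⁻¹ : (ZMod b)ˣ)) : ZMod b) = (a' : ZMod b) := by
    have h4 : ((u * u⁻¹ : (ZMod b)ˣ) : ZMod b) = 1 := by rw [mul_inv_cancel, Units.val_one]
    rw [Units.val_mul, hu] at h4
    have h5 : (a' : ZMod b) * ((a : ZMod b) * (((u⁻¹ : (ZMod b)ˣ)) : ZMod b)) = (a' : ZMod b) * 1 := by rw [h4]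
    rw [← mul_assoc, mul_comm (a' : ZMod b), h2, one_mul, mul_one] at h5
    exact h5
  have huv : u ≠ u⁻¹ := by
    intro h
    apply h1
    rw [← ZMod.natCast_eq_natCast_iff' (a * a) 1 b, Nat.cast_mul, Nat.cast_one, ← hu]
    have h4 : ((u * u⁻¹ : (ZMod b)ˣ) : ZMod b) = 1 := by rw [mul_inv_cancel, Units.val_one]
    rw [← h, Units.val_mul] at h4
    exact h4
  obtain ⟨c, hc, h⟩ := dic_odd (dw u u⁻¹) (dw_sum u u⁻¹) (by
    classical
    intro h0
    have h4 := congrFun h0 u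
    unfold dw at h4
    simp only [if_true, if_neg huv, Pi.zero_apply, sub_zero] at h4
    exact one_ne_zero h4) (fun χ => by
    rw [al_dw_re, ch_inv_re, sub_self, zero_div])
  refine ⟨c / 2, by positivity, fun N => ?_⟩
  obtain ⟨n, hn, h⟩ := h (N + 2)
  refine ⟨n + 1, by omega, ?_⟩
  have h5 := shift (c / 2) n (by omega)
  have h6 : max (c / 2) 0 = c / 2 := max_eq_left (by positivity)
  rw [h6] at h5
  rw [BB_dw, cu_cn u a hu.symm, cu_cn u⁻¹ a' h3.symm] at h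
  have h7 : 2 * (c / 2) * (Real.sqrt n / Real.log n) = c * (Real.sqrt n / Real.log n) := by ring
  linarith

private theorem cn_mono (b a : ℕ) {m n : ℕ} (h : m ≤ n) : cn b a m ≤ cn b a n := by
  unfold cn
  refine Finset.card_le_card (Finset.filter_subset_filter _ ?_)
  exact Finset.range_subset_range.2 h

private theorem cn_le (b a n : ℕ) : cn b a n ≤ n := by
  unfold cn
  refine (Finset.card_filter_le _ _).trans ?_
  rw [Finset.card_range]

private theorem cn_succ (b a n : ℕ) : cn b a (n + 1) = cn b a n + (if n.Prime ∧ n % b = a % b then 1 else 0) := by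
  unfold cn
  rw [Finset.range_add_one, Finset.filter_insert]
  split_ifs with h
  · rw [Finset.card_insert_of_notMem (by simp)]
  · rfl

private theorem cn_congr (b a a' n : ℕ) (h : a % b = a' % b) : cn b a n = cn b a' n := by
  unfold cn
  rw [h]

private theorem cn_not (b a n : ℕ) (ha : ¬ a.Coprime b) : cn b a n ≤ 1 := by
  unfold cn
  rw [Finset.card_le_one]
  have key : ∀ p ∈ (Finset.range n).filter (fun p => p.Prime ∧ p % b = a % b), p = Nat.gcd a b := by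
    intro p hp
    rw [Finset.mem_filter] at hp
    obtain ⟨_, hp1, hp2⟩ := hp
    have h1 : Nat.gcd p b = Nat.gcd a b := Nat.ModEq.gcd_eq hp2
    rcases (Nat.dvd_prime hp1).1 (Nat.gcd_dvd_left p b) with h2 | h2
    · exact absurd (h1.symm.trans h2) ha
    · rw [← h1, h2]
  intro p hp p' hp'
  rw [key p hp, key p' hp']

private theorem cn_inf (b a : ℕ) (hb : 0 < b) (ha : a.Coprime b) (K : ℕ) : ∃ n : ℕ, K < cn b a n := by
  have hP : ∀ n : ℕ, ∃ p : ℕ, n < p ∧ p.Prime ∧ p % b = a % b := by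
    intro n
    obtain ⟨p, h1, h2, h3⟩ := Nat.forall_exists_prime_gt_and_modEq n hb.ne' ha
    exact ⟨p, h1, h2, h3⟩
  induction K with
  | zero =>
    obtain ⟨p, _, h2, h3⟩ := hP 0
    refine ⟨p + 1, ?_⟩
    rw [cn_succ, if_pos ⟨h2, h3⟩]
    omega
  | succ K ih =>
    obtain ⟨n, hn⟩ := ih
    obtain ⟨p, h1, h2, h3⟩ := hP n
    refine ⟨p + 1, ?_⟩
    rw [cn_succ, if_pos ⟨h2, h3⟩]
    have := cn_mono b a h1.le
    omega

/-- the tie argument -/
private theorem tie2 (b a : ℕ) (hb : 0 < b) (ha : a.Coprime b) (h : ∀ N : ℕ, ∃ n : ℕ, N < n ∧ ∃ a' : ℕ, cn b a n < cn b a' n)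
    (N : ℕ) :
    ∃ t : ℕ, N < t ∧ ∃ c : ℕ, c.Coprime b ∧ c % b ≠ a % b ∧ ∀ a₂ : ℕ, a₂ % b ≠ c % b → cn b a₂ t < cn b c t := by
  classical
  obtain ⟨n₀, hn₀⟩ := cn_inf b a hb ha (N + 1)
  obtain ⟨n, hn1, a', hn⟩ := h n₀
  have hn2 := cn_mono b a hn1.le
  obtain ⟨k, hk⟩ : ∃ k : ℕ, k = cn b a n + 1 := ⟨_, rfl⟩
  have hex : ∃ t : ℕ, ∃ c : ℕ, k ≤ cn b c t := ⟨n, a', by omega⟩
  obtain ⟨t, ht⟩ : ∃ t : ℕ, t = Nat.find hex := ⟨_, rfl⟩
  have ht1 : ∃ c : ℕ, k ≤ cn b c t := by rw [ht]; exact Nat.find_spec hex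
  have ht2 : ∀ m < t, ∀ c : ℕ, cn b c m < k := by
    intro m hm c
    rw [ht] at hm
    by_contra hcon
    exact Nat.find_min hex hm ⟨c, not_lt.1 hcon⟩
  obtain ⟨c, hc⟩ := ht1
  have ht3 : t ≤ n := by
    rw [ht]
    exact Nat.find_min' hex ⟨a', by omega⟩
  have ht0 : t ≠ 0 := by
    intro h0
    have := cn_le b c t
    omega
  obtain ⟨m, hm⟩ : ∃ m, t = m + 1 := ⟨t - 1, by omega⟩
  have hm2 := fun d => ht2 m (by omega) d
  have hcs := cn_succ b c m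
  have hcm := hm2 c
  rw [hm] at hc
  have hprime : m.Prime ∧ m % b = c % b := by
    by_contra hcon
    rw [if_neg hcon] at hcs
    omega
  rw [if_pos hprime] at hcs
  refine ⟨m + 1, ?_, c, ?_, ?_, ?_⟩
  · have := cn_le b c (m + 1)
    omega
  · by_contra hcon
    have := cn_not b c (m + 1) hcon
    omega
  · intro h0
    have h1 := cn_congr b c a (m + 1) h0
    have h2 := cn_mono b a (show m + 1 ≤ n by omega)
    omega
  · intro a₂ ha₂
    have h1 := cn_succ b a₂ m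
    rw [if_neg (fun h2 => ha₂ (h2.2.symm.trans hprime.2))] at h1
    have h2 := hm2 a₂
    omega

/-- pigeonhole -/
private theorem pig2 (b a : ℕ) (hb : 0 < b) (ha : a.Coprime b) (h : ∀ N : ℕ, ∃ n : ℕ, N < n ∧ ∃ a' : ℕ, cn b a n < cn b a' n) :
    ∃ c : ℕ, c.Coprime b ∧ c % b ≠ a % b ∧ ∀ N : ℕ, ∃ n : ℕ, N < n ∧
      ∀ a₂ : ℕ, a₂ % b ≠ c % b → cn b a₂ n < cn b c n := by
  classical
  by_contra hcon
  push Not at hcon
  have h1 : ∀ r : ℕ, ∃ M : ℕ, ∀ c : ℕ, c.Coprime b → c % b ≠ a % b → c % b = r →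
      ∀ n : ℕ, M < n → ∃ a₂ : ℕ, a₂ % b ≠ c % b ∧ cn b c n ≤ cn b a₂ n := by
    intro r
    by_cases h2 : ∃ c : ℕ, c.Coprime b ∧ c % b ≠ a % b ∧ c % b = r
    · obtain ⟨c, hc1, hc2, hc3⟩ := h2
      obtain ⟨M, hM⟩ := hcon c hc1 hc2
      refine ⟨M, fun c' _ _ hc' n hn => ?_⟩
      obtain ⟨a₂, h3, h4⟩ := hM n hn
      have h5 : c % b = c' % b := by rw [hc3, hc']
      exact ⟨a₂, by rwa [← h5], by rwa [← cn_congr b c c' n h5]⟩
    · exact ⟨0, fun c' h3 h4 h5 => absurd ⟨c', h3, h4, h5⟩ h2⟩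
  choose M hM using h1
  obtain ⟨t, ht, c, hc1, hc2, hc3⟩ := tie2 b a hb ha h (∑ r ∈ Finset.range b, M r)
  have h2 : M (c % b) ≤ ∑ r ∈ Finset.range b, M r :=
    Finset.single_le_sum (fun _ _ => Nat.zero_le _) (Finset.mem_range.2 (Nat.mod_lt c hb))
  obtain ⟨a₂, h3, h4⟩ := hM (c % b) c hc1 hc2 rfl t (by omega)
  have h5 := hc3 a₂ h3
  omega

/-- the exceptional zero -/
private theorem exc {b : ℕ} [NeZero b] (u₀ : (ZMod b)ˣ) (hu : u₀ ≠ 1) (hu2 : u₀ * u₀ = 1)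
    (N₀ : ℕ) (hN : ∀ n : ℕ, N₀ < n → ∀ a : (ZMod b)ˣ, cu b a n ≤ cu b u₀ n) :
    ∃ β : ℝ, 1 / 2 < β ∧ β < 1 ∧
      (∃ χ : DirichletCharacter ℂ b, χ (u₀ : ZMod b) = -1 ∧ χ.LFunction (β : ℂ) = 0) ∧
      ∀ ψ : DirichletCharacter ℂ b, ψ ≠ 1 → ∀ s : ℂ, β < s.re → ψ.LFunction s ≠ 0 := by
  have hno : ∀ a : (ZMod b)ˣ, ¬ (∀ (C : ℝ) (N : ℕ), ∃ n : ℕ, N < n ∧ C * (Real.sqrt n / Real.log n) < BB (dw a u₀) n) := by
    intro a h
    obtain ⟨n, hn, h2⟩ := h 0 N₀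
    rw [zero_mul, BB_dw] at h2
    have h3 := hN (n + 1) (by omega) a
    have h4 : ((cu b a (n + 1) : ℕ) : ℝ) ≤ (cu b u₀ (n + 1) : ℕ) := by exact_mod_cast h3
    linarith
  obtain ⟨χ₀, hχ₀⟩ := ch_ex u₀ hu
  have hβ1 : ∃ β : ℝ, 1 / 2 < β ∧ β < 1 ∧ 0 < (co (dw 1 u₀) (β : ℂ)).re ∧ ∀ ρ : ℂ, β < ρ.re → co (dw 1 u₀) ρ = 0 := by
    rcases dic_N (dw 1 u₀) (dw_sum 1 u₀) (fun χ => by
      rw [al_dw_re, ch_one]
      exact div_nonneg (by linarith [ch_le χ u₀]) (tot_pos b).le) ⟨χ₀, by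
      rw [al_dw_re, ch_one]
      exact div_ne_zero (by linarith [ch_lt χ₀ u₀ hχ₀]) (tot_pos b).ne'⟩ with h | h
    · exact absurd h (hno 1)
    · exact h
  have hall : ∀ a : (ZMod b)ˣ, ∃ β : ℝ, 1 / 2 ≤ β ∧ β < 1 ∧ (1 / 2 < β → 0 < (co (dw a u₀) (β : ℂ)).re) ∧
      (∀ ρ : ℂ, β < ρ.re → co (dw a u₀) ρ = 0) ∧ (a = 1 → 1 / 2 < β) := by
    intro a
    by_cases h1 : a = 1
    · obtain ⟨β, h2, h3, h4, h5⟩ := hβ1
      rw [h1]
      exact ⟨β, h2.le, h3, fun _ => h4, h5, fun _ => h2⟩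
    · rcases dic_gen (dw a u₀) (dw_sum a u₀) with h | ⟨β, h2, h3, h4, h5⟩
      · exact absurd h (hno a)
      · exact ⟨β, h2, h3, h4, h5, fun h => absurd h h1⟩
  choose βf hf1 hf2 hf3 hf4 hf5 using hall
  obtain ⟨a, _, ha⟩ := Finset.exists_max_image (Finset.univ : Finset (ZMod b)ˣ) βf ⟨1, Finset.mem_univ _⟩
  have hβ : 1 / 2 < βf a := lt_of_lt_of_le (hf5 1 rfl) (ha 1 (Finset.mem_univ _))
  refine ⟨βf a, hβ, hf2 a, ?_, ?_⟩
  · by_contra hcon
    push Not at hcon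
    have h2 := hf3 a hβ
    have h6 : (co (dw a u₀) (βf a : ℂ)).re ≤ 0 := by
      unfold co
      rw [Complex.re_sum]
      refine Finset.sum_nonpos fun χ _ => ?_
      rw [Complex.mul_re, Complex.natCast_re, Complex.natCast_im, mul_zero, sub_zero]
      have hsq : χ (u₀ : ZMod b) * χ (u₀ : ZMod b) = 1 := by
        rw [← map_mul, ← Units.val_mul, hu2, Units.val_one, map_one]
      rcases mul_self_eq_one_iff.1 hsq with h7 | h7
      · rw [al_dw_re, h7, Complex.one_re]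
        refine mul_nonpos_of_nonpos_of_nonneg (div_nonpos_of_nonpos_of_nonneg ?_ (tot_pos b).le) (Nat.cast_nonneg _)
        linarith [ch_le χ a]
      · have h8 := hcon χ h7
        have h9 : LL χ (βf a : ℂ) ≠ 0 := by
          intro h10
          refine h8 ((LL_iff χ ?_ (βf a : ℂ) (by rw [Complex.ofReal_re]; linarith)).1 h10)
          rintro rfl
          rw [MulChar.one_apply u₀.isUnit] at h7
          norm_num at h7
        rw [(ord_iff χ (βf a : ℂ)).2 h9, Nat.cast_zero, mul_zero]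
    linarith
  · intro ψ hψ s hs hz
    have h2 : ∀ c : (ZMod b)ˣ, co (dw c u₀) s = 0 := fun c => hf4 c s (lt_of_le_of_lt (ha c (Finset.mem_univ _)) hs)
    exact co_inv u₀ s h2 ψ hψ ((LL_iff ψ hψ s (by linarith)).2 hz)

/-- **the leaders** -/
theorem leader2 (b : ℕ) [NeZero b] (hb : 2 < b) :
    (∃ c d : ℕ, c.Coprime b ∧ d.Coprime b ∧ c % b ≠ d % b ∧
      (∀ N : ℕ, ∃ n : ℕ, N < n ∧ ∀ a₂ : ℕ, a₂ % b ≠ c % b → cn b a₂ n < cn b c n) ∧
      (∀ N : ℕ, ∃ n : ℕ, N < n ∧ ∀ a₂ : ℕ, a₂ % b ≠ d % b → cn b a₂ n < cn b d n)) ∨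
    (∃ c : ℕ, c.Coprime b ∧ c % b ≠ 1 ∧ (c * c) % b = 1 ∧
      (∃ N : ℕ, ∀ n : ℕ, N < n → ∀ a : ℕ, cn b a n ≤ cn b c n) ∧
      ∃ β : ℝ, 1 / 2 < β ∧ β < 1 ∧
        (∃ χ : DirichletCharacter ℂ b, χ (c : ZMod b) = -1 ∧ χ.LFunction (β : ℂ) = 0) ∧
        ∀ ψ : DirichletCharacter ℂ b, ψ ≠ 1 → ∀ s : ℂ, β < s.re → ψ.LFunction s ≠ 0) := by
  by_cases htwo : (∃ c d : ℕ, c.Coprime b ∧ d.Coprime b ∧ c % b ≠ d % b ∧
      (∀ N : ℕ, ∃ n : ℕ, N < n ∧ ∀ a₂ : ℕ, a₂ % b ≠ c % b → cn b a₂ n < cn b c n) ∧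
      (∀ N : ℕ, ∃ n : ℕ, N < n ∧ ∀ a₂ : ℕ, a₂ % b ≠ d % b → cn b a₂ n < cn b d n))
  · exact Or.inl htwo
  · right
    have h1b : 1 % b = 1 := Nat.mod_eq_of_lt (by omega)
    obtain ⟨c, hc1, hc2, hc3⟩ := leader b 1 hb (Or.inl h1b)
    rw [h1b] at hc2
    have hc4 : (c * c) % b = 1 := by
      by_contra h
      obtain ⟨d, hd1, hd2, hd3⟩ := leader b c hb (Or.inr h)
      exact htwo ⟨c, d, hc1, hd1, fun h => hd2 h.symm, hc3, hd3⟩
    have hc5 : ∃ N : ℕ, ∀ n : ℕ, N < n → ∀ a : ℕ, cn b a n ≤ cn b c n := by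
      by_contra h
      push Not at h
      obtain ⟨d, hd1, hd2, hd3⟩ := pig2 b c (by omega) hc1 h
      exact htwo ⟨c, d, hc1, hd1, fun h => hd2 h.symm, hc3, hd3⟩
    obtain ⟨u, hu⟩ := (ZMod.isUnit_iff_coprime c b).2 hc1
    refine ⟨c, hc1, hc2, hc4, hc5, ?_⟩
    obtain ⟨N₀, hN₀⟩ := hc5
    have h := exc u (by
      intro h
      apply hc2
      rw [h] at hu
      rw [← h1b, ← ZMod.natCast_eq_natCast_iff' c 1 b, ← hu, Units.val_one, Nat.cast_one]) (by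
      refine Units.ext ?_
      rw [Units.val_mul, Units.val_one, hu, ← Nat.cast_mul, ← Nat.cast_one, ZMod.natCast_eq_natCast_iff', hc4, h1b])
      N₀ (by
      intro n hn a
      rw [cu_cn u c hu.symm n, cu_cn a (a : ZMod b).val (ZMod.natCast_zmod_val _) n]
      exact hN₀ n hn _)
    rw [hu] at h
    exact h

end Pool.Agent.H52.PR
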