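import Pool.Agent.H52.PR.Sqr

/-!
PRIME RACES (MP_2936c6_nt) v3, module Led3: classes whose quotient is a square.
-/

set_option autoImplicit false

namespace Pool.Agent.H52.PR

open Pool.Agent.H50.RQ (LL Vq wq lfc gx)

/-- classes whose quotient is a square, or a real zero of a non real character -/
private theorem sq_units {b : ℕ} [NeZero b] (x : (ZMod b)ˣ) (hx : x * x ≠ 1)
    (hno : ¬ ∃ ψ : DirichletCharacter ℂ b, ψ (x : ZMod b) * ψ (x : ZMod b) ≠ 1 ∧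
      ∃ β : ℝ, 1 / 2 ≤ β ∧ β < 1 ∧ ψ.LFunction (β : ℂ) = 0) (a : (ZMod b)ˣ) :
    ∃ c : ℝ, 0 < c ∧ ∀ N : ℕ, ∃ n : ℕ, N < n ∧
      (cu b a n : ℝ) + c * (Real.sqrt n / Real.log n) < (cu b (a * (x * x)) n : ℝ) := by
  refine sq_pair a x hx (fun ψ h1 h2 β hβ1 hβ2 hz => hno ⟨ψ, ?_, β, hβ1, hβ2, ?_⟩)
  · intro h3
    apply h2
    rw [Units.val_mul, Units.val_mul, map_mul, map_mul, h3, mul_one]
  · refine (LL_iff ψ ?_ (β : ℂ) (by rw [Complex.ofReal_re]; linarith)).1 hz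
    rintro rfl
    exact h1 (mul_one _)

/-- two classes whose quotient is a square -/
theorem sq_both (b a x : ℕ) [NeZero b] (ha : a.Coprime b) (hx : x.Coprime b) (h1 : (x * x) % b ≠ 1 % b) :
    (∃ c : ℝ, 0 < c ∧ ∀ N : ℕ,
      (∃ n : ℕ, N < n ∧ (cn b a n : ℝ) + c * (Real.sqrt n / Real.log n) < (cn b (a * (x * x)) n : ℝ)) ∧
      (∃ n : ℕ, N < n ∧ (cn b (a * (x * x)) n : ℝ) + c * (Real.sqrt n / Real.log n) < (cn b a n : ℝ))) ∨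
    ∃ ψ : DirichletCharacter ℂ b, ψ (x : ZMod b) ^ 2 ≠ 1 ∧ ∃ β : ℝ, 1 / 2 ≤ β ∧ β < 1 ∧ ψ.LFunction (β : ℂ) = 0 := by
  by_cases hno : ∃ ψ : DirichletCharacter ℂ b, ψ (x : ZMod b) ^ 2 ≠ 1 ∧
      ∃ β : ℝ, 1 / 2 ≤ β ∧ β < 1 ∧ ψ.LFunction (β : ℂ) = 0
  · exact Or.inr hno
  · left
    obtain ⟨u, hu⟩ := (ZMod.isUnit_iff_coprime a b).2 ha
    obtain ⟨v, hv⟩ := (ZMod.isUnit_iff_coprime x b).2 hx
    have hvv : v * v ≠ 1 := by
      intro h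
      apply h1
      rw [← ZMod.natCast_eq_natCast_iff' (x * x) 1 b, Nat.cast_mul, ← hv, ← Units.val_mul, h, Units.val_one, Nat.cast_one]
    have hvi : v⁻¹ * v⁻¹ ≠ 1 := by
      intro h
      apply hvv
      have h2 : (v⁻¹ * v⁻¹)⁻¹ = 1 := by rw [h, inv_one]
      rwa [mul_inv, inv_inv] at h2
    have hc : ((a * (x * x) : ℕ) : ZMod b) = ((u * (v * v) : (ZMod b)ˣ) : ZMod b) := by
      rw [Nat.cast_mul, Nat.cast_mul, Units.val_mul, Units.val_mul, hu, hv]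
    have hno1 : ¬ ∃ ψ : DirichletCharacter ℂ b, ψ (v : ZMod b) * ψ (v : ZMod b) ≠ 1 ∧
        ∃ β : ℝ, 1 / 2 ≤ β ∧ β < 1 ∧ ψ.LFunction (β : ℂ) = 0 := by
      rintro ⟨ψ, h2, h3⟩
      exact hno ⟨ψ, by rw [← hv, pow_two]; exact h2, h3⟩
    have hno2 : ¬ ∃ ψ : DirichletCharacter ℂ b, ψ (((v⁻¹ : (ZMod b)ˣ)) : ZMod b) * ψ (((v⁻¹ : (ZMod b)ˣ)) : ZMod b) ≠ 1 ∧
        ∃ β : ℝ, 1 / 2 ≤ β ∧ β < 1 ∧ ψ.LFunction (β : ℂ) = 0 := by
      rintro ⟨ψ, h2, h3⟩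
      refine hno1 ⟨ψ, fun h4 => h2 ?_, h3⟩
      have h5 : ψ (v : ZMod b) * ψ (((v⁻¹ : (ZMod b)ˣ)) : ZMod b) = 1 := by
        rw [← map_mul, ← Units.val_mul, mul_inv_cancel, Units.val_one, map_one]
      have h6 : (ψ (v : ZMod b) * ψ (v : ZMod b)) * (ψ (((v⁻¹ : (ZMod b)ˣ)) : ZMod b) * ψ (((v⁻¹ : (ZMod b)ˣ)) : ZMod b)) = 1 := by
        rw [mul_mul_mul_comm, h5, one_mul]
      rwa [h4, one_mul] at h6
    obtain ⟨c₁, hc₁, h2⟩ := sq_units v hvv hno1 u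
    obtain ⟨c₂, hc₂, h3⟩ := sq_units v⁻¹ hvi hno2 (u * (v * v))
    have h4 : u * (v * v) * (v⁻¹ * v⁻¹) = u := by
      rw [mul_assoc, mul_mul_mul_comm, mul_inv_cancel, one_mul, mul_one]
    have hpos : ∀ n : ℕ, 2 ≤ n → 0 ≤ Real.sqrt n / Real.log n := by
      intro n hn
      have hn1 : (1 : ℝ) < n := by exact_mod_cast hn
      have := Real.log_pos hn1
      positivity
    refine ⟨min c₁ c₂, lt_min hc₁ hc₂, fun N => ⟨?_, ?_⟩⟩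
    · obtain ⟨n, hn, h⟩ := h2 (N + 2)
      refine ⟨n, by omega, ?_⟩
      rw [cu_cn u a hu.symm, cu_cn (u * (v * v)) (a * (x * x)) hc] at h
      have h5 := mul_le_mul_of_nonneg_right (min_le_left c₁ c₂) (hpos n (by omega))
      linarith
    · obtain ⟨n, hn, h⟩ := h3 (N + 2)
      refine ⟨n, by omega, ?_⟩
      rw [h4, cu_cn u a hu.symm, cu_cn (u * (v * v)) (a * (x * x)) hc] at h
      have h5 := mul_le_mul_of_nonneg_right (min_le_right c₁ c₂) (hpos n (by omega))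
      linarith

end Pool.Agent.H52.PR
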