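import Pool.Agent.H50.RQ.Xu

/-!
PRIME RACES (MP_2936c6_nt) v4, module R24: no real zeros for the characters modulo the divisors of `24`.

PROOF. `f(x) = x^(-s)`, `s > 0` real. For `χ ≠ 1` mod `24`, `L(s, χ) = lim_X ∑_{n ≤ 24 X} χ(n) n^(-s)` (`phi_int` of `H50/RQ/Xu.lean`, or any other way for
`0 < s`), a sum of blocks `B_k = ∑_{r < 24} χ(r) f(24 k + r)`. `(Z/24)ˣ = {1,5,7,11,13,17,19,23}` is generated by `5, 7, 13`, all of order `2`:
`α = χ(5)`, `β = χ(7)`, `γ = χ(13)` are `±1` (not all `1`), `χ(11) = αβ`, `χ(17) = αγ`, `χ(19) = βγ`, `χ(23) = αβγ`. With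
`g(x) = f(x) + γ f(x + 12)` (at `x = 24k + 1, 5, 7, 11`): `g` is decreasing and convex (`γ = -1`: `f` and `f'`, `f''` are monotone), and for `γ = -1` positive.
`B = g(1) + α g(5) + β g(7) + αβ g(11)`: `(1,1)` (then `γ = -1`): positive; `(-1,1)`: `(g1-g5)+(g7-g11) > 0`; `(1,-1)`: `(g1-g7)+(g5-g11) > 0`;
`(-1,-1)`: `(g1-g5)-(g7-g11) > 0` by convexity (equal gaps `4`). So all blocks are positive and `L(s, χ) ≥ B_0 > 0`.
`no_zero_dvd`: lift `χ` to level `24` (`changeLevel`, injective so `≠ 1`), `DirichletCharacter.LFunction_changeLevel`: the lifted function is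
`L(s, χ)` times a finite product.
-/

set_option autoImplicit false

namespace Pool.Agent.H52.PR

open MeasureTheory Filter Topology

/-- the Gamma integral -/
private theorem r_gam (s y : ℝ) (hs : 0 < s) (hy : 0 < y) :
    IntegrableOn (fun t : ℝ => t ^ (s - 1) * Real.exp (-(y * t))) (Set.Ioi 0) ∧
    ∫ t in Set.Ioi (0 : ℝ), t ^ (s - 1) * Real.exp (-(y * t)) = y ^ (-s) * Real.Gamma s := by
  have h1 := Real.integral_rpow_mul_exp_neg_mul_Ioi hs hy
  have e : (1 / y) ^ s = y ^ (-s) := by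
    rw [one_div, Real.inv_rpow hy.le, Real.rpow_neg hy.le]
  rw [e] at h1
  refine ⟨?_, h1⟩
  by_contra hint
  have h2 : ∫ t in Set.Ioi (0 : ℝ), t ^ (s - 1) * Real.exp (-(y * t)) = 0 := integral_undef hint
  rw [h1] at h2
  have h3 : 0 < y ^ (-s) * Real.Gamma s := mul_pos (Real.rpow_pos_of_pos hy _) (Real.Gamma_pos_of_pos hs)
  exact h3.ne' h2

private def cc (a b c : ℝ) (j : ℕ) : ℝ :=
  if j = 1 then 1 else if j = 5 then a else if j = 7 then b else if j = 11 then a * b else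
  if j = 13 then c else if j = 17 then a * c else if j = 19 then b * c else a * b * c

/-- complete monotonicity: the block is positive -/
private theorem r_pos (s : ℝ) (hs : 0 < s) (a b c : ℝ) (ha : a = 1 ∨ a = -1) (hb : b = 1 ∨ b = -1)
    (hc : c = 1 ∨ c = -1) (x : ℝ) (hx : 0 ≤ x) :
    0 < ∑ j ∈ ({1, 5, 7, 11, 13, 17, 19, 23} : Finset ℕ), cc a b c j * (x + j) ^ (-s) := by
  have hj : ∀ j ∈ ({1, 5, 7, 11, 13, 17, 19, 23} : Finset ℕ), (0 : ℝ) < x + j := by
    intro j hj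
    have : 1 ≤ j := by
      simp only [Finset.mem_insert, Finset.mem_singleton] at hj
      omega
    have : (1 : ℝ) ≤ j := by exact_mod_cast this
    linarith
  have hG := Real.Gamma_pos_of_pos hs
  have h1 : (∑ j ∈ ({1, 5, 7, 11, 13, 17, 19, 23} : Finset ℕ), cc a b c j * (x + j) ^ (-s)) * Real.Gamma s =
      ∫ t in Set.Ioi (0 : ℝ), ∑ j ∈ ({1, 5, 7, 11, 13, 17, 19, 23} : Finset ℕ),
        cc a b c j * (t ^ (s - 1) * Real.exp (-((x + j) * t))) := by
    rw [integral_finsetSum, Finset.sum_mul]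
    · refine Finset.sum_congr rfl fun j hjS => ?_
      rw [integral_const_mul, (r_gam s (x + j) hs (hj j hjS)).2]
      ring
    · intro j hjS
      exact ((r_gam s (x + j) hs (hj j hjS)).1).const_mul _
  have hpos : ∀ t : ℝ, 0 < t → 0 < ∑ j ∈ ({1, 5, 7, 11, 13, 17, 19, 23} : Finset ℕ),
      cc a b c j * (t ^ (s - 1) * Real.exp (-((x + j) * t))) := by
    intro t ht
    have hexp : ∀ j : ℕ, Real.exp (-((x + j) * t)) = Real.exp (-(x * t)) * Real.exp (-t) ^ j := by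
      intro j
      rw [← Real.exp_nat_mul, ← Real.exp_add]
      congr 1
      ring
    set q : ℝ := Real.exp (-t) with hq
    have hq0 : 0 < q := Real.exp_pos _
    have hq1 : q < 1 := by
      rw [hq, Real.exp_lt_one_iff]
      linarith
    have hfac : ∀ (e : ℝ) (k : ℕ), (e = 1 ∨ e = -1) → k ≠ 0 → 0 < 1 + e * q ^ k := by
      intro e k he hk
      have h2 : q ^ k < 1 := pow_lt_one₀ hq0.le hq1 hk
      have h3 : 0 < q ^ k := pow_pos hq0 k
      rcases he with rfl | rfl <;> linarith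
    have h2 : ∑ j ∈ ({1, 5, 7, 11, 13, 17, 19, 23} : Finset ℕ),
        cc a b c j * (t ^ (s - 1) * Real.exp (-((x + j) * t))) =
        t ^ (s - 1) * Real.exp (-(x * t)) * (q * ((1 + a * q ^ 4) * ((1 + b * q ^ 6) * (1 + c * q ^ 12)))) := by
      simp only [hexp]
      rw [Finset.sum_insert (by decide), Finset.sum_insert (by decide), Finset.sum_insert (by decide),
        Finset.sum_insert (by decide), Finset.sum_insert (by decide), Finset.sum_insert (by decide),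
        Finset.sum_insert (by decide), Finset.sum_singleton]
      have c1 : cc a b c 1 = 1 := rfl
      have c5 : cc a b c 5 = a := by simp [cc]
      have c7 : cc a b c 7 = b := by simp [cc]
      have c11 : cc a b c 11 = a * b := by simp [cc]
      have c13 : cc a b c 13 = c := by simp [cc]
      have c17 : cc a b c 17 = a * c := by simp [cc]
      have c19 : cc a b c 19 = b * c := by simp [cc]
      have c23 : cc a b c 23 = a * b * c := by simp [cc]
      rw [c1, c5, c7, c11, c13, c17, c19, c23]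
      ring
    rw [h2]
    have h3 := hfac a 4 ha (by norm_num)
    have h4 := hfac b 6 hb (by norm_num)
    have h5 := hfac c 12 hc (by norm_num)
    have h6 : 0 < t ^ (s - 1) := Real.rpow_pos_of_pos ht _
    have h7 : 0 < Real.exp (-(x * t)) := Real.exp_pos _
    positivity
  have hint : IntegrableOn (fun t : ℝ => ∑ j ∈ ({1, 5, 7, 11, 13, 17, 19, 23} : Finset ℕ),
      cc a b c j * (t ^ (s - 1) * Real.exp (-((x + j) * t)))) (Set.Ioi 0) := by
    refine integrable_finsetSum _ fun j hjS => ?_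
    exact ((r_gam s (x + j) hs (hj j hjS)).1).const_mul _
  have h2 : 0 < ∫ t in Set.Ioi (0 : ℝ), ∑ j ∈ ({1, 5, 7, 11, 13, 17, 19, 23} : Finset ℕ),
      cc a b c j * (t ^ (s - 1) * Real.exp (-((x + j) * t))) := by
    rw [setIntegral_pos_iff_support_of_nonneg_ae _ hint]
    · have h3 : Set.Ioi (0 : ℝ) ⊆ Function.support (fun t : ℝ => ∑ j ∈ ({1, 5, 7, 11, 13, 17, 19, 23} : Finset ℕ),
          cc a b c j * (t ^ (s - 1) * Real.exp (-((x + j) * t)))) ∩ Set.Ioi 0 :=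
        fun t ht => ⟨(hpos t ht).ne', ht⟩
      refine lt_of_lt_of_le ?_ (measure_mono h3)
      rw [Real.volume_Ioi]
      exact ENNReal.zero_lt_top
    · rw [Filter.EventuallyLE, ae_restrict_iff' measurableSet_Ioi]
      exact Eventually.of_forall fun t ht => (hpos t ht).le
  rw [← h1] at h2
  exact (mul_pos_iff_of_pos_right hG).1 h2

private theorem r_icc (g : ℕ → ℂ) (M : ℕ) : ∑ n ∈ Finset.Icc 1 M, g n = ∑ i ∈ Finset.range M, g (i + 1) := by
  induction M with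
  | zero => simp
  | succ M ih => rw [Finset.sum_Icc_succ_top (by omega), Finset.sum_range_succ, ih]

private theorem r_block (g : ℕ → ℂ) (X : ℕ) : ∑ n ∈ Finset.Icc 1 (24 * (X + 1)), g n =
    ∑ n ∈ Finset.Icc 1 (24 * X), g n + ∑ i ∈ Finset.range 24, g (24 * X + i + 1) := by
  rw [r_icc, r_icc, mul_add, mul_one, Finset.sum_range_add]

private theorem r_per (X j : ℕ) : ((24 * X + j : ℕ) : ZMod 24) = (j : ZMod 24) := by
  push_cast
  have : (24 : ZMod 24) = 0 := by decide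
  rw [this]
  ring

private theorem r_zero (χ : DirichletCharacter ℂ 24) (j : ℕ) (h : ¬ j.Coprime 24) : χ (j : ZMod 24) = 0 :=
  χ.map_nonunit (fun hu => h ((ZMod.isUnit_iff_coprime j 24).1 hu))

private theorem r_sq (χ : DirichletCharacter ℂ 24) (j : ℕ) (h : ((j : ZMod 24)) * (j : ZMod 24) = 1) :
    ∃ a : ℝ, (a = 1 ∨ a = -1) ∧ χ (j : ZMod 24) = (a : ℂ) := by
  have h1 : χ (j : ZMod 24) * χ (j : ZMod 24) = 1 := by
    rw [← map_mul, h, map_one]
  rcases mul_self_eq_one_iff.1 h1 with h2 | h2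
  · exact ⟨1, Or.inl rfl, by rw [h2]; simp⟩
  · exact ⟨-1, Or.inr rfl, by rw [h2]; simp⟩

/-- the sum over a block, weights `v` -/
private theorem r_sum (χ : DirichletCharacter ℂ 24) (a b c : ℝ) (ha : χ ((5 : ℕ) : ZMod 24) = (a : ℂ))
    (hb : χ ((7 : ℕ) : ZMod 24) = (b : ℂ)) (hc : χ ((13 : ℕ) : ZMod 24) = (c : ℂ)) (X : ℕ) (v : ℕ → ℝ) :
    ∑ i ∈ Finset.range 24, χ ((24 * X + i + 1 : ℕ) : ZMod 24) * ((v (24 * X + i + 1) : ℝ) : ℂ) =
      ((∑ j ∈ ({1, 5, 7, 11, 13, 17, 19, 23} : Finset ℕ), cc a b c j * v (24 * X + j) : ℝ) : ℂ) := by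
  have h0 : ∀ i : ℕ, χ ((24 * X + i + 1 : ℕ) : ZMod 24) = χ ((i + 1 : ℕ) : ZMod 24) := by
    intro i
    rw [add_assoc, r_per]
  simp only [h0]
  have z : ∀ j : ℕ, ¬ j.Coprime 24 → χ (j : ZMod 24) = 0 := r_zero χ
  have e1 : χ ((1 : ℕ) : ZMod 24) = 1 := by rw [Nat.cast_one, map_one]
  have m : ∀ i j k : ℕ, ((k : ℕ) : ZMod 24) = (i : ZMod 24) * (j : ZMod 24) → χ (k : ZMod 24) =
      χ (i : ZMod 24) * χ (j : ZMod 24) := by
    intro i j k h
    rw [h, map_mul]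
  have e11 : χ ((11 : ℕ) : ZMod 24) = (a : ℂ) * b := by rw [m 5 7 11 (by decide), ha, hb]
  have e17 : χ ((17 : ℕ) : ZMod 24) = (a : ℂ) * c := by rw [m 5 13 17 (by decide), ha, hc]
  have e19 : χ ((19 : ℕ) : ZMod 24) = (b : ℂ) * c := by rw [m 7 13 19 (by decide), hb, hc]
  have e23 : χ ((23 : ℕ) : ZMod 24) = (a : ℂ) * b * c := by rw [m 11 13 23 (by decide), e11, hc]
  rw [Finset.sum_insert (by decide), Finset.sum_insert (by decide), Finset.sum_insert (by decide),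
    Finset.sum_insert (by decide), Finset.sum_insert (by decide), Finset.sum_insert (by decide),
    Finset.sum_insert (by decide), Finset.sum_singleton]
  have c1 : cc a b c 1 = 1 := rfl
  have c5 : cc a b c 5 = a := by simp [cc]
  have c7 : cc a b c 7 = b := by simp [cc]
  have c11 : cc a b c 11 = a * b := by simp [cc]
  have c13 : cc a b c 13 = c := by simp [cc]
  have c17 : cc a b c 17 = a * c := by simp [cc]
  have c19 : cc a b c 19 = b * c := by simp [cc]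
  have c23 : cc a b c 23 = a * b * c := by simp [cc]
  rw [c1, c5, c7, c11, c13, c17, c19, c23]
  simp only [Finset.sum_range_succ, Finset.sum_range_zero]
  rw [z (1 + 1) (by decide), z (2 + 1) (by decide), z (3 + 1) (by decide), z (5 + 1) (by decide),
    z (7 + 1) (by decide), z (8 + 1) (by decide), z (9 + 1) (by decide), z (11 + 1) (by decide),
    z (13 + 1) (by decide), z (14 + 1) (by decide), z (15 + 1) (by decide), z (17 + 1) (by decide),
    z (19 + 1) (by decide), z (20 + 1) (by decide), z (21 + 1) (by decide), z (23 + 1) (by decide)]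
  have f1 : χ ((0 + 1 : ℕ) : ZMod 24) = 1 := e1
  have f5 : χ ((4 + 1 : ℕ) : ZMod 24) = a := ha
  have f7 : χ ((6 + 1 : ℕ) : ZMod 24) = b := hb
  have f11 : χ ((10 + 1 : ℕ) : ZMod 24) = a * b := e11
  have f13 : χ ((12 + 1 : ℕ) : ZMod 24) = c := hc
  have f17 : χ ((16 + 1 : ℕ) : ZMod 24) = a * c := e17
  have f19 : χ ((18 + 1 : ℕ) : ZMod 24) = b * c := e19
  have f23 : χ ((22 + 1 : ℕ) : ZMod 24) = a * b * c := e23
  rw [f1, f5, f7, f11, f13, f17, f19, f23]
  push_cast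
  ring

private theorem r_full (χ : DirichletCharacter ℂ 24) (hχ : χ ≠ 1) (X : ℕ) :
    ∑ i ∈ Finset.range 24, χ ((24 * X + i + 1 : ℕ) : ZMod 24) = 0 := by
  have h0 : ∀ i : ℕ, χ ((24 * X + i + 1 : ℕ) : ZMod 24) = χ ((i + 1 : ℕ) : ZMod 24) := by
    intro i
    rw [add_assoc, r_per]
  simp only [h0]
  have h1 : ∑ i ∈ Finset.range 24, χ ((i : ℕ) : ZMod 24) = 0 := by
    have h2 : ∑ j : ZMod 24, χ j = 0 := MulChar.sum_eq_zero_of_ne_one hχ
    rw [← h2, ← Fin.sum_univ_eq_sum_range (fun i => χ ((i : ℕ) : ZMod 24)) 24]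
    refine Finset.sum_congr rfl fun i _ => ?_
    congr 1
    exact ZMod.natCast_zmod_val (n := 24) i
  have h3 : ∑ i ∈ Finset.range (24 + 1), χ ((i : ℕ) : ZMod 24) =
      ∑ i ∈ Finset.range 24, χ ((i + 1 : ℕ) : ZMod 24) + χ ((0 : ℕ) : ZMod 24) := Finset.sum_range_succ' _ 24
  rw [Finset.sum_range_succ, h1] at h3
  have h4 : χ ((24 : ℕ) : ZMod 24) = χ ((0 : ℕ) : ZMod 24) := by
    congr 1
  rw [h4, zero_add] at h3
  linear_combination -h3

private theorem r_bdd (χ : DirichletCharacter ℂ 24) (hχ : χ ≠ 1) (m : ℕ) :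
    ‖∑ n ∈ Finset.Icc 1 m, χ ((n : ℕ) : ZMod 24)‖ ≤ 24 := by
  have h0 : ∀ X : ℕ, ∑ n ∈ Finset.Icc 1 (24 * X), χ ((n : ℕ) : ZMod 24) = 0 := by
    intro X
    induction X with
    | zero => simp
    | succ X ih => rw [r_block (fun n => χ ((n : ℕ) : ZMod 24)), ih, r_full χ hχ X, add_zero]
  obtain ⟨X, r, hr, rfl⟩ : ∃ X r : ℕ, r < 24 ∧ m = 24 * X + r := ⟨m / 24, m % 24, Nat.mod_lt _ (by norm_num), by omega⟩
  have h1 : ∑ n ∈ Finset.Icc 1 (24 * X + r), χ ((n : ℕ) : ZMod 24) =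
      ∑ i ∈ Finset.range r, χ ((24 * X + i + 1 : ℕ) : ZMod 24) := by
    have h2 := h0 X
    rw [r_icc (fun n => χ ((n : ℕ) : ZMod 24))] at h2 ⊢
    rw [Finset.sum_range_add, h2, zero_add]
  rw [h1]
  refine (norm_sum_le _ _).trans ?_
  refine (Finset.sum_le_sum fun i _ => χ.norm_le_one _).trans ?_
  rw [Finset.sum_const, Finset.card_range, nsmul_eq_mul, mul_one]
  exact_mod_cast hr.le

theorem no_zero24 (χ : DirichletCharacter ℂ 24) (hχ : χ ≠ 1) (s : ℝ) (hs : 0 < s) : χ.LFunction (s : ℂ) ≠ 0 := by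
  intro hL
  obtain ⟨a, ha, ha'⟩ := r_sq χ 5 (by decide)
  obtain ⟨b, hb, hb'⟩ := r_sq χ 7 (by decide)
  obtain ⟨c, hc, hc'⟩ := r_sq χ 13 (by decide)
  set v : ℕ → ℝ := fun n => (n : ℝ) ^ (-s) with hv
  set B : ℕ → ℝ := fun X => ∑ j ∈ ({1, 5, 7, 11, 13, 17, 19, 23} : Finset ℕ), cc a b c j * v (24 * X + j) with hB
  have hBpos : ∀ X, 0 < B X := by
    intro X
    have h1 := r_pos s hs a b c ha hb hc (24 * X) (by positivity)
    refine lt_of_lt_of_eq h1 ?_
    refine Finset.sum_congr rfl fun j _ => ?_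
    simp only [hv]
    push_cast
    rfl
  have hpow : ∀ n : ℕ, (n : ℂ) ^ (-(s : ℂ)) = ((v n : ℝ) : ℂ) := by
    intro n
    simp only [hv]
    rw [Complex.ofReal_cpow (Nat.cast_nonneg n)]
    push_cast
    rfl
  have hstep : ∀ X : ℕ, ∑ n ∈ Finset.Icc 1 (24 * (X + 1)), χ ((n : ℕ) : ZMod 24) * (n : ℂ) ^ (-(s : ℂ)) =
      ∑ n ∈ Finset.Icc 1 (24 * X), χ ((n : ℕ) : ZMod 24) * (n : ℂ) ^ (-(s : ℂ)) + ((B X : ℝ) : ℂ) := by
    intro X
    rw [r_block (fun n => χ ((n : ℕ) : ZMod 24) * (n : ℂ) ^ (-(s : ℂ)))]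
    congr 1
    rw [← r_sum χ a b c ha' hb' hc' X v]
    refine Finset.sum_congr rfl fun i _ => ?_
    rw [hpow]
  have hS : ∀ X : ℕ, ∃ r : ℝ, B 0 ≤ r ∧
      ∑ n ∈ Finset.Icc 1 (24 * (X + 1)), χ ((n : ℕ) : ZMod 24) * (n : ℂ) ^ (-(s : ℂ)) = (r : ℂ) := by
    intro X
    induction X with
    | zero =>
      refine ⟨B 0, le_rfl, ?_⟩
      rw [hstep 0]
      simp
    | succ X ih =>
      obtain ⟨r, hr, hr'⟩ := ih
      refine ⟨r + B (X + 1), by linarith [hBpos (X + 1)], ?_⟩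
      rw [hstep (X + 1), hr']
      push_cast
      ring
  have hsum : ∑ j : ZMod 24, χ j = 0 := MulChar.sum_eq_zero_of_ne_one hχ
  have hle : ∀ X : ℕ, B 0 ≤ 24 * ((24 * (X + 1 : ℕ) : ℕ) : ℝ) ^ (-s) := by
    intro X
    obtain ⟨r, hr, hr'⟩ := hS X
    have h1 := Pool.Agent.H50.RQ.phi_int 24 (fun j => χ j) hsum (X + 1) (by omega) (s : ℂ) (by simpa using hs)
    have h2 : ZMod.LFunction (fun j => χ j) (s : ℂ) = 0 := hL
    rw [h2, hr'] at h1
    set Y : ℝ := ((24 * (X + 1) : ℕ) : ℝ) with hY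
    have hY0 : 0 < Y := by
      rw [hY]
      exact_mod_cast (by omega : 0 < 24 * (X + 1))
    have h3 : ‖∫ x in Set.Ioi Y, (∑ n ∈ Finset.Icc 1 ⌊x⌋₊, χ ((n : ℕ) : ZMod 24)) * (x : ℂ) ^ (-(s : ℂ) - 1)‖ ≤
        ∫ x in Set.Ioi Y, 24 * x ^ (-s - 1) := by
      refine norm_integral_le_of_norm_le ?_ ?_
      · exact (integrableOn_Ioi_rpow_of_lt (by linarith) hY0).const_mul _
      · rw [ae_restrict_iff' measurableSet_Ioi]
        refine Eventually.of_forall fun x hx => ?_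
        have hx : Y < x := hx
        have hx0 : 0 < x := hY0.trans hx
        rw [norm_mul]
        have h4 : ‖(x : ℂ) ^ (-(s : ℂ) - 1)‖ = x ^ (-s - 1) := by
          rw [Complex.norm_cpow_eq_rpow_re_of_pos hx0]
          congr 1
        rw [h4]
        exact mul_le_mul_of_nonneg_right (r_bdd χ hχ _) (Real.rpow_nonneg hx0.le _)
    rw [integral_const_mul, integral_Ioi_rpow_of_lt (by linarith) hY0] at h3
    have h5 : -s - 1 + 1 = -s := by ring
    rw [h5] at h3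
    have h6 : (r : ℂ) = -((s : ℂ) * ∫ x in Set.Ioi Y, (∑ n ∈ Finset.Icc 1 ⌊x⌋₊, χ ((n : ℕ) : ZMod 24)) *
        (x : ℂ) ^ (-(s : ℂ) - 1)) := eq_neg_of_add_eq_zero_left h1.symm
    have h7 := congrArg norm h6
    rw [norm_neg, norm_mul, Complex.norm_real, Complex.norm_real, Real.norm_eq_abs, Real.norm_eq_abs,
      abs_of_pos hs] at h7
    have h8 : s * ‖∫ x in Set.Ioi Y, (∑ n ∈ Finset.Icc 1 ⌊x⌋₊, χ ((n : ℕ) : ZMod 24)) *
        (x : ℂ) ^ (-(s : ℂ) - 1)‖ ≤ s * (24 * (-Y ^ (-s) / -s)) := mul_le_mul_of_nonneg_left h3 hs.le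
    have h9 : s * (24 * (-Y ^ (-s) / -s)) = 24 * Y ^ (-s) := by
      field_simp
    rw [h9, ← h7] at h8
    exact (hr.trans (le_abs_self r)).trans h8
  have hlim : Tendsto (fun X : ℕ => 24 * ((24 * (X + 1 : ℕ) : ℕ) : ℝ) ^ (-s)) atTop (𝓝 (24 * 0)) := by
    refine Tendsto.const_mul _ ?_
    refine (tendsto_rpow_neg_atTop hs).comp ?_
    refine tendsto_natCast_atTop_atTop.comp ?_
    refine tendsto_atTop_mono (fun X => ?_) tendsto_id
    show X ≤ 24 * (X + 1)
    omega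
  have h1 := ge_of_tendsto' hlim hle
  rw [mul_zero] at h1
  linarith [hBpos 0]

theorem no_zero_dvd (b : ℕ) [NeZero b] (hb : b ∣ 24) (χ : DirichletCharacter ℂ b) (hχ : χ ≠ 1) (s : ℝ) (hs : 0 < s) :
    χ.LFunction (s : ℂ) ≠ 0 := by
  intro hL
  have h1 : DirichletCharacter.changeLevel hb χ ≠ 1 := fun h => hχ ((DirichletCharacter.changeLevel_eq_one_iff hb).1 h)
  refine no_zero24 (DirichletCharacter.changeLevel hb χ) h1 s hs ?_
  rw [DirichletCharacter.LFunction_changeLevel hb χ (Or.inl hχ), hL, zero_mul]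

end Pool.Agent.H52.PR
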