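import Pool.Agent.H52.PR.Led3
import Pool.Agent.H52.PR.R24

/-!
PRIME RACES (MP_2936c6_nt) v4, module Led4: the leaders, final form: the moduli dividing `24` are not exceptional.
-/

set_option autoImplicit false

namespace Pool.Agent.H52.PR

open Pool.Agent.H50.RQ (LL Vq wq lfc gx)

/-- **the leaders**, final form -/
theorem leader4 (b : ℕ) [NeZero b] (hb : 2 < b) :
    (∃ c d : ℕ, c.Coprime b ∧ d.Coprime b ∧ c % b ≠ d % b ∧
      (∀ N : ℕ, ∃ n : ℕ, N < n ∧ ∀ a₂ : ℕ, a₂ % b ≠ c % b → cn b a₂ n < cn b c n) ∧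
      (∀ N : ℕ, ∃ n : ℕ, N < n ∧ ∀ a₂ : ℕ, a₂ % b ≠ d % b → cn b a₂ n < cn b d n)) ∨
    (¬ b ∣ 24 ∧ ∃ c : ℕ, c.Coprime b ∧ c % b ≠ 1 ∧ (c * c) % b = 1 ∧
      (∃ N : ℕ, ∀ n : ℕ, N < n → ∀ a : ℕ, cn b a n ≤ cn b c n) ∧
      (∃ β : ℝ, 1 / 2 < β ∧ β < 1 ∧
        (∃ χ : DirichletCharacter ℂ b, χ (c : ZMod b) = -1 ∧ χ.LFunction (β : ℂ) = 0) ∧
        ∀ ψ : DirichletCharacter ℂ b, ψ ≠ 1 → ∀ s : ℂ, β < s.re → ψ.LFunction s ≠ 0) ∧
      (∀ x : ℕ, x.Coprime b → (x * x) % b ≠ 1 → ∃ ψ : DirichletCharacter ℂ b, ψ (x : ZMod b) ^ 2 ≠ 1 ∧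
        ∃ β : ℝ, 1 / 2 ≤ β ∧ β < 1 ∧ ψ.LFunction (β : ℂ) = 0)) := by
  have h1b : 1 % b = 1 := Nat.mod_eq_of_lt (by omega)
  rcases leader2 b hb with h | ⟨c, hc1, hc2, hc3, hc4, hc5⟩
  · exact Or.inl h
  · right
    refine ⟨fun h24 => ?_, c, hc1, hc2, hc3, hc4, hc5, fun x hx hxx => ?_⟩
    · obtain ⟨β, h1, h2, ⟨χ, h3, h4⟩, _⟩ := hc5
      refine no_zero_dvd b h24 χ ?_ β (by linarith) h4
      rintro rfl
      rw [MulChar.one_apply ((ZMod.isUnit_iff_coprime c b).2 hc1)] at h3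
      norm_num at h3
    · rcases sq_both b c x hc1 hx (by rwa [h1b]) with h | h
      · exfalso
        obtain ⟨N, hN⟩ := hc4
        obtain ⟨κ, hκ, h⟩ := h
        obtain ⟨n, hn, h2⟩ := (h (N + 2)).1
        have h3 := hN n (by omega) (c * (x * x))
        have hn1 : (1 : ℝ) < n := by exact_mod_cast (by omega : 1 < n)
        have h5 := Real.log_pos hn1
        have h6 : 0 ≤ κ * (Real.sqrt n / Real.log n) := by positivity
        have h4 : (cn b c n : ℝ) < (cn b (c * (x * x)) n : ℝ) := by linarith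
        have h7 : cn b c n < cn b (c * (x * x)) n := by exact_mod_cast h4
        omega
      · exact h

end Pool.Agent.H52.PR
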