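import Pool.Agent.H50.RQ.Lz1
import Pool.Agent.H50.RQ.Gx

/-!
PRIME RACES (MP_2936c6_nt) v2, module Lit0: the trivial zeros.

`LL χ (-n) = 0` for all `n` of one parity (`χ ≠ 1`); the sum over the trivial zeros
`∑ ord_{-n}(LL χ) (s-2)/((s+n)(n+2))` converges for `s ≥ 2` and tends to `+∞` as `s → +∞`.
-/

set_option autoImplicit false

namespace Pool.Agent.H52.PR

open Filter Topology
open Pool.Agent.H50.RQ (LL Vq wq lfc gx LF)

/-- the trivial zeros -/
theorem triv_zero {q : ℕ} [NeZero q] (χ : DirichletCharacter ℂ q) (h : χ ≠ 1) :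
    ∃ e : ℕ, e ≤ 1 ∧ ∀ k : ℕ, LL χ (-((2 * k + e : ℕ) : ℂ)) = 0 := by
  have hL : LL χ = DirichletCharacter.LFunction χ.primitiveCharacter := by
    unfold LL
    rw [if_neg h]
  have h1 := Pool.Agent.H50.RQ.prim_ne_one χ h
  have hN : χ.conductor ≠ 1 := h1 ∘ χ.primitiveCharacter.level_one'
  have hz : ∀ s : ℂ, DirichletCharacter.gammaFactor χ.primitiveCharacter s = 0 → LL χ s = 0 := by
    intro s hs
    rw [hL, DirichletCharacter.LFunction_eq_completed_div_gammaFactor _ s (Or.inr hN), hs, div_zero]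
  rcases χ.primitiveCharacter.even_or_odd with hp | hp
  · refine ⟨0, by norm_num, fun k => hz _ ?_⟩
    rw [hp.gammaFactor_def, Complex.Gammaℝ_eq_zero_iff]
    exact ⟨k, by push_cast; ring⟩
  · refine ⟨1, le_refl 1, fun k => hz _ ?_⟩
    rw [hp.gammaFactor_def, Complex.Gammaℝ_eq_zero_iff]
    exact ⟨k, by push_cast; ring⟩

theorem triv_ord {q : ℕ} [NeZero q] (χ : DirichletCharacter ℂ q) (h : χ ≠ 1) :
    ∃ e : ℕ, e ≤ 1 ∧ ∀ k : ℕ, (1 : ℝ) ≤ (analyticOrderNatAt (LL χ) (-((2 * k + e : ℕ) : ℂ)) : ℝ) := by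
  obtain ⟨e, he, hk⟩ := triv_zero χ h
  refine ⟨e, he, fun k => ?_⟩
  have h1 : (1 : ℝ) ≤ (analyticOrderNatAt (lfc χ).F (-((2 * k + e : ℕ) : ℂ)) : ℝ) :=
    (lfc χ).one_le ⟨-((2 * k + e : ℕ) : ℂ), by rw [Pool.Agent.H50.RQ.lfc_F]; exact hk k⟩
  rw [Pool.Agent.H50.RQ.lfc_F] at h1
  exact h1

private theorem ord_zero {q : ℕ} [NeZero q] (χ : DirichletCharacter ℂ q) {s : ℂ} (h : LL χ s ≠ 0) :
    analyticOrderNatAt (LL χ) s = 0 := by
  have h1 : analyticOrderAt (LL χ) s = 0 := analyticOrderAt_eq_zero.2 (Or.inr h)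
  unfold analyticOrderNatAt
  rw [h1]
  rfl

/-- `∑ ord_{-n}(LL χ) n^(-3/2) < ∞` -/
theorem triv_s {q : ℕ} [NeZero q] (χ : DirichletCharacter ℂ q) :
    Summable fun n : ℕ => (analyticOrderNatAt (LL χ) (-(n : ℂ)) : ℝ) / (n : ℝ) ^ (3 / 2 : ℝ) := by
  set S : Set ℕ := {n : ℕ | LL χ (-(n : ℂ)) = 0} with hS
  set f : ℕ → ℝ := fun n => (analyticOrderNatAt (LL χ) (-(n : ℂ)) : ℝ) / (n : ℝ) ^ (3 / 2 : ℝ) with hf
  have h1 := (lfc χ).s_one (3 / 2) (by norm_num)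
  set g : S → (lfc χ).Z := fun n => ⟨-((n : ℕ) : ℂ), by
    rw [Pool.Agent.H50.RQ.lfc_F]; exact n.2⟩ with hg
  have hinj : Function.Injective g := by
    intro a b hab
    have h2 : (g a : ℂ) = (g b : ℂ) := by rw [hab]
    simp only [hg] at h2
    have h3 : ((a : ℕ) : ℂ) = ((b : ℕ) : ℂ) := neg_injective h2
    exact Subtype.ext (by exact_mod_cast h3)
  have h2 := h1.comp_injective hinj
  have h3 : Summable (f ∘ ((↑) : S → ℕ)) := by
    refine h2.congr fun n => ?_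
    have h6 : (lfc χ).m (g n) = (analyticOrderNatAt (LL χ) (-((n : ℕ) : ℂ)) : ℝ) := by
      have h7 : (lfc χ).m (g n) = (analyticOrderNatAt (lfc χ).F (-((n : ℕ) : ℂ)) : ℝ) := rfl
      rw [h7, Pool.Agent.H50.RQ.lfc_F]
    have h8 : ‖(g n : ℂ)‖ = ((n : ℕ) : ℝ) := by
      have h9 : (g n : ℂ) = -((n : ℕ) : ℂ) := rfl
      rw [h9, norm_neg, Complex.norm_natCast]
    simp only [Function.comp_apply, hf]
    rw [h6, h8]
  have h4 := summable_subtype_iff_indicator.1 h3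
  have h5 : S.indicator f = f := by
    rw [Set.indicator_eq_self]
    intro n hn
    by_contra hnS
    apply hn
    simp only [hf]
    rw [ord_zero χ hnS]
    simp
  rwa [h5] at h4

theorem triv_sum {q : ℕ} [NeZero q] (χ : DirichletCharacter ℂ q) (s : ℝ) (hs : 2 ≤ s) :
    Summable fun n : ℕ => (analyticOrderNatAt (LL χ) (-(n : ℂ)) : ℝ) *
      ((s - 2) / ((s + n) * (n + 2))) := by
  have h1 := (triv_s χ).mul_left s
  refine Summable.of_norm_bounded_eventually_nat h1 ?_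
  filter_upwards [eventually_ge_atTop 1] with n hn
  have hn1 : (1 : ℝ) ≤ n := by exact_mod_cast hn
  have hn0 : (0 : ℝ) < n := by linarith
  have hs2 : 0 ≤ (s - 2) / ((s + n) * (n + 2)) := by
    apply div_nonneg (by linarith)
    positivity
  rw [Real.norm_eq_abs, abs_of_nonneg (mul_nonneg (Nat.cast_nonneg _) hs2)]
  have h2 : (n : ℝ) ^ (3 / 2 : ℝ) ≤ (s + n) * (n + 2) := by
    calc (n : ℝ) ^ (3 / 2 : ℝ) ≤ (n : ℝ) ^ (2 : ℝ) :=
          Real.rpow_le_rpow_of_exponent_le hn1 (by norm_num)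
      _ = (n : ℝ) * n := by rw [Real.rpow_two]; ring
      _ ≤ (s + n) * (n + 2) := by nlinarith
  have h3 : (0 : ℝ) < (n : ℝ) ^ (3 / 2 : ℝ) := by positivity
  have h4 : (s - 2) / ((s + n) * (n + 2)) ≤ s / (n : ℝ) ^ (3 / 2 : ℝ) :=
    div_le_div₀ (by linarith) (by linarith) h3 h2
  calc (analyticOrderNatAt (LL χ) (-(n : ℂ)) : ℝ) * ((s - 2) / ((s + n) * (n + 2))) ≤
        (analyticOrderNatAt (LL χ) (-(n : ℂ)) : ℝ) * (s / (n : ℝ) ^ (3 / 2 : ℝ)) :=
        mul_le_mul_of_nonneg_left h4 (Nat.cast_nonneg _)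
    _ = _ := by ring

/-- **The sum over the trivial zeros tends to infinity.** -/
theorem triv {q : ℕ} [NeZero q] (χ : DirichletCharacter ℂ q) (h : χ ≠ 1) :
    Tendsto (fun s : ℝ => ∑' n : ℕ, (analyticOrderNatAt (LL χ) (-(n : ℂ)) : ℝ) *
      ((s - 2) / ((s + n) * (n + 2)))) atTop atTop := by
  obtain ⟨e, he, hord⟩ := triv_ord χ h
  rw [tendsto_atTop]
  intro M
  -- the divergent series
  have hdiv : Tendsto (fun K : ℕ => ∑ k ∈ Finset.range K, 1 / ((k : ℝ) + 1)) atTop atTop :=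
    Real.tendsto_sum_range_one_div_nat_succ_atTop
  obtain ⟨K, hK⟩ := (hdiv.eventually_ge_atTop (3 * (M + 1))).exists
  have hK2 : M + 1 ≤ ∑ k ∈ Finset.range K, 1 / ((2 * k + e : ℕ) + 2 : ℝ) := by
    have h1 : ∑ k ∈ Finset.range K, 1 / ((k : ℝ) + 1) ≤
        ∑ k ∈ Finset.range K, 3 * (1 / ((2 * k + e : ℕ) + 2 : ℝ)) := by
      refine Finset.sum_le_sum fun k _ => ?_
      have he' : (e : ℝ) ≤ 1 := by exact_mod_cast he
      have hk : (0 : ℝ) ≤ k := Nat.cast_nonneg k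
      have he0 : (0 : ℝ) ≤ e := Nat.cast_nonneg e
      push_cast
      rw [mul_one_div, div_le_div_iff₀ (by linarith) (by linarith)]
      linarith
    rw [← Finset.mul_sum] at h1
    linarith
  have hlim : Tendsto (fun s : ℝ => ∑ k ∈ Finset.range K,
      (s - 2) / ((s + (2 * k + e : ℕ)) * ((2 * k + e : ℕ) + 2 : ℝ))) atTop
      (𝓝 (∑ k ∈ Finset.range K, 1 / ((2 * k + e : ℕ) + 2 : ℝ))) := by
    refine tendsto_finsetSum _ fun k _ => ?_
    set m : ℝ := ((2 * k + e : ℕ) : ℝ) with hm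
    have hm0 : 0 ≤ m := Nat.cast_nonneg _
    have h1 : Tendsto (fun s : ℝ => (1 - (m + 2) * (s + m)⁻¹) * (1 / (m + 2))) atTop
        (𝓝 ((1 - (m + 2) * 0) * (1 / (m + 2)))) := by
      have h2 : Tendsto (fun s : ℝ => (s + m)⁻¹) atTop (𝓝 0) :=
        tendsto_inv_atTop_zero.comp (tendsto_atTop_add_const_right _ m tendsto_id)
      exact ((h2.const_mul _).const_sub 1).mul_const _
    rw [mul_zero, sub_zero, one_mul] at h1
    refine h1.congr' ?_
    filter_upwards [eventually_gt_atTop 0] with s hs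
    have h3 : s + m ≠ 0 := by linarith
    have h4 : m + 2 ≠ 0 := by linarith
    field_simp
    ring
  have hev : ∀ᶠ s : ℝ in atTop, M < ∑ k ∈ Finset.range K,
      (s - 2) / ((s + (2 * k + e : ℕ)) * ((2 * k + e : ℕ) + 2 : ℝ)) :=
    hlim.eventually (lt_mem_nhds (by linarith))
  filter_upwards [hev, eventually_ge_atTop 2] with s hs1 hs2
  refine hs1.le.trans ?_
  have hnn : ∀ n : ℕ, 0 ≤ (s - 2) / ((s + n) * (n + 2)) := by
    intro n
    apply div_nonneg (by linarith)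
    positivity
  have h1 : ∑ k ∈ Finset.range K, (s - 2) / ((s + (2 * k + e : ℕ)) * ((2 * k + e : ℕ) + 2 : ℝ)) ≤
      ∑ k ∈ Finset.range K, (analyticOrderNatAt (LL χ) (-((2 * k + e : ℕ) : ℂ)) : ℝ) *
        ((s - 2) / ((s + (2 * k + e : ℕ)) * ((2 * k + e : ℕ) + 2))) := by
    refine Finset.sum_le_sum fun k _ => ?_
    exact le_mul_of_one_le_left (hnn _) (hord k)
  refine h1.trans ?_
  have h2 : ∑ k ∈ Finset.range K, (analyticOrderNatAt (LL χ) (-((2 * k + e : ℕ) : ℂ)) : ℝ) *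
        ((s - 2) / ((s + (2 * k + e : ℕ)) * ((2 * k + e : ℕ) + 2))) =
      ∑ n ∈ (Finset.range K).image (fun k => 2 * k + e),
        (analyticOrderNatAt (LL χ) (-(n : ℂ)) : ℝ) * ((s - 2) / ((s + n) * (n + 2))) := by
    rw [Finset.sum_image]
    intro a _ b _ hab
    have : 2 * a + e = 2 * b + e := hab
    omega
  rw [h2]
  exact (triv_sum χ s hs2).sum_le_tsum _ fun n _ => mul_nonneg (Nat.cast_nonneg _) (hnn n)

end Pool.Agent.H52.PR
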