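import Pool.Agent.H52.PR.Res
import Pool.Agent.H52.PR.Lit0

/-!
PRIME RACES (MP_2936c6_nt) v2, module Lit1: the sum over the zeros on the critical line tends to minus infinity
(partial fractions of `L'/L` at real points, trivial zeros).
-/

set_option autoImplicit false

namespace Pool.Agent.H52.PR

open Filter Topology
open Pool.Agent.H50.RQ (LL Vq wq lfc gx LF cc mix lfc_F)

/-- the residues of a mixture with coefficients `c` -/
noncomputable def DD {q : ℕ} [NeZero q] (c : DirichletCharacter ℂ q → ℂ) (ρ : ℂ) : ℂ :=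
  ∑ χ : DirichletCharacter ℂ q, c χ * (analyticOrderNatAt (LL χ) ρ : ℂ)

private theorem li_cc {q : ℕ} [NeZero q] (c : DirichletCharacter ℂ q → ℂ) (ρ : ℂ) :
    cc (fun χ : DirichletCharacter ℂ q => lfc χ) c ρ = DD c ρ := by
  unfold cc DD
  refine Finset.sum_congr rfl fun χ _ => ?_
  rw [lfc_F]

/-- the logarithmic derivative is bounded on the real half line from `2` -/
private theorem li_ld (L : LF) : ∃ B : ℝ, ∀ s : ℝ, 2 ≤ s → ‖deriv L.F (s : ℂ) / L.F (s : ℂ)‖ ≤ B := by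
  have hsΛ : Summable fun n : ℕ => ‖LSeries.term
      (fun n => (ArithmeticFunction.vonMangoldt n : ℂ)) 2 n‖ :=
    (ArithmeticFunction.LSeriesSummable_vonMangoldt (s := 2) (by simp)).norm
  refine ⟨(∑' n : ℕ, ‖LSeries.term (fun n => (ArithmeticFunction.vonMangoldt n : ℂ)) 2 n‖) + ‖L.p‖,
    fun s hs => ?_⟩
  have h1 := L.ld (s : ℂ) (by rw [Complex.ofReal_re]; linarith)
  have h2 : ‖∑' n : ℕ, (ArithmeticFunction.vonMangoldt n : ℂ) * L.g n * (n : ℂ) ^ (-(s : ℂ))‖ ≤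
      ∑' n : ℕ, ‖LSeries.term (fun n => (ArithmeticFunction.vonMangoldt n : ℂ)) 2 n‖ := by
    refine tsum_of_norm_bounded hsΛ.hasSum fun n => ?_
    rcases Nat.eq_zero_or_pos n with rfl | hn
    · simp
    · rw [LSeries.norm_term_eq, Complex.re_ofNat, if_neg hn.ne', norm_mul, norm_mul,
        Complex.norm_natCast_cpow_of_pos hn]
      have h3 : (-(s : ℂ)).re = -s := by simp
      rw [h3, div_eq_mul_inv]
      have h4 : (n : ℝ) ^ (-s) ≤ ((n : ℝ) ^ (2 : ℝ))⁻¹ := by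
        rw [← Real.rpow_neg (Nat.cast_nonneg n)]
        exact Real.rpow_le_rpow_of_exponent_le (by exact_mod_cast hn) (by linarith)
      exact mul_le_mul (mul_le_of_le_one_right (norm_nonneg _) (L.gle n)) h4 (by positivity) (norm_nonneg _)
  have h3 : ‖L.p / ((s : ℂ) - 1)‖ ≤ ‖L.p‖ := by
    rw [norm_div]
    have h4 : 1 ≤ ‖(s : ℂ) - 1‖ := by
      have h5 := Complex.re_le_norm ((s : ℂ) - 1)
      rw [Complex.sub_re, Complex.ofReal_re, Complex.one_re] at h5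
      linarith
    exact div_le_self (norm_nonneg _) h4
  have h4 : ‖deriv L.F (s : ℂ) / L.F (s : ℂ)‖ = ‖-(deriv L.F (s : ℂ) / L.F (s : ℂ))‖ := (norm_neg _).symm
  rw [h4, h1]
  exact (norm_sub_le _ _).trans (add_le_add h2 h3)

private theorem li_total {q : ℕ} [NeZero q] (c : DirichletCharacter ℂ q → ℂ) : ∃ B : ℝ, ∀ s : ℝ, 2 ≤ s →
    (Summable fun ρ : ℂ => DD c ρ * (1 / ((s : ℂ) - ρ) - 1 / (2 - ρ))) ∧
    ‖∑' ρ : ℂ, DD c ρ * (1 / ((s : ℂ) - ρ) - 1 / (2 - ρ))‖ ≤ B := by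
  choose C0 hC using fun χ : DirichletCharacter ℂ q => (lfc χ).log_formula
  choose B hB using fun χ : DirichletCharacter ℂ q => li_ld (lfc χ)
  refine ⟨∑ χ : DirichletCharacter ℂ q, ‖c χ‖ * (‖C0 χ‖ + B χ), fun s hs => ?_⟩
  have hs1 : 1 < (s : ℂ).re := by rw [Complex.ofReal_re]; linarith
  have hm := mix (fun χ : DirichletCharacter ℂ q => lfc χ) c
    (fun ρ => 1 / ((s : ℂ) - ρ) - 1 / (2 - ρ)) (fun χ => (hC χ s hs1).1)
  have hi : Function.Injective (Subtype.val :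
      {ρ : ℂ // cc (fun χ : DirichletCharacter ℂ q => lfc χ) c ρ ≠ 0} → ℂ) := Subtype.val_injective
  have hsupp : ∀ x : ℂ, x ∉ Set.range (Subtype.val :
      {ρ : ℂ // cc (fun χ : DirichletCharacter ℂ q => lfc χ) c ρ ≠ 0} → ℂ) →
      DD c x * (1 / ((s : ℂ) - x) - 1 / (2 - x)) = 0 := by
    intro x hx
    have h1 : DD c x = 0 := by
      by_contra h2
      exact hx ⟨⟨x, by rw [li_cc]; exact h2⟩, rfl⟩
    rw [h1, zero_mul]
  constructor
  · refine Summable.of_norm ?_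
    refine (hi.summable_iff fun x hx => ?_).1 ?_
    · rw [hsupp x hx, norm_zero]
    · refine hm.1.congr fun i => ?_
      show _ = ‖DD c i * (1 / ((s : ℂ) - i) - 1 / (2 - i))‖
      rw [norm_mul, li_cc]
  · have h1 : ∑' ρ : ℂ, DD c ρ * (1 / ((s : ℂ) - ρ) - 1 / (2 - ρ)) =
        ∑ χ : DirichletCharacter ℂ q, c χ * (C0 χ + deriv (lfc χ).F (s : ℂ) / (lfc χ).F (s : ℂ)) := by
      have h2 := hi.tsum_eq (f := fun ρ : ℂ => DD c ρ * (1 / ((s : ℂ) - ρ) - 1 / (2 - ρ))) (fun x hx => by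
        by_contra h3
        exact hx (hsupp x h3))
      rw [← h2]
      have h3 : (∑' i : {ρ : ℂ // cc (fun χ : DirichletCharacter ℂ q => lfc χ) c ρ ≠ 0},
          DD c i * (1 / ((s : ℂ) - i) - 1 / (2 - i))) =
          ∑' i : {ρ : ℂ // cc (fun χ : DirichletCharacter ℂ q => lfc χ) c ρ ≠ 0},
          cc (fun χ : DirichletCharacter ℂ q => lfc χ) c i * (1 / ((s : ℂ) - i) - 1 / (2 - i)) :=
        tsum_congr fun i => by rw [li_cc]
      rw [h3, ← hm.2]
      refine Finset.sum_congr rfl fun χ _ => ?_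
      refine congrArg (fun x => c χ * x) ?_
      have h4 := (hC χ s hs1).2
      linear_combination h4
    rw [h1]
    refine (norm_sum_le _ _).trans (Finset.sum_le_sum fun χ _ => ?_)
    rw [norm_mul]
    refine mul_le_mul_of_nonneg_left ?_ (norm_nonneg _)
    exact (norm_add_le _ _).trans (add_le_add le_rfl (hB χ s hs))

/-- a sum over the nonpositive integers and the critical line -/
private theorem li_split (f : ℂ → ℂ) (hf : Summable f)
    (h : ∀ ρ, f ρ ≠ 0 → (∃ n : ℕ, ρ = -(n : ℂ)) ∨ ∃ t : ℝ, ρ = 1 / 2 + (t : ℂ) * Complex.I) :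
    ∑' ρ, f ρ = (∑' n : ℕ, f (-(n : ℂ))) + ∑' t : ℝ, f (1 / 2 + (t : ℂ) * Complex.I) := by
  classical
  have hA : Function.Injective (fun n : ℕ => -(n : ℂ)) := by
    intro a b hab
    have h1 : (a : ℂ) = (b : ℂ) := neg_injective hab
    exact_mod_cast h1
  have hB : Function.Injective (fun t : ℝ => (1 / 2 : ℂ) + (t : ℂ) * Complex.I) := by
    intro a b hab
    have h1 := congrArg Complex.im hab
    simpa using h1
  have hdis : ∀ (n : ℕ) (t : ℝ), -(n : ℂ) ≠ 1 / 2 + (t : ℂ) * Complex.I := by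
    intro n t hnt
    have h1 := congrArg Complex.re hnt
    have h2 : (0 : ℝ) ≤ n := Nat.cast_nonneg n
    simp at h1
    linarith
  have h1 : f = fun ρ => (Set.range (fun n : ℕ => -(n : ℂ))).indicator f ρ +
      (Set.range (fun t : ℝ => (1 / 2 : ℂ) + (t : ℂ) * Complex.I)).indicator f ρ := by
    funext ρ
    by_cases h0 : f ρ = 0
    · have h2 : (Set.range (fun n : ℕ => -(n : ℂ))).indicator f ρ = 0 := by
        rw [Set.indicator_apply, h0, ite_self]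
      have h3 : (Set.range (fun t : ℝ => (1 / 2 : ℂ) + (t : ℂ) * Complex.I)).indicator f ρ = 0 := by
        rw [Set.indicator_apply, h0, ite_self]
      rw [h2, h3, h0, add_zero]
    · rcases h ρ h0 with ⟨n, rfl⟩ | ⟨t, rfl⟩
      · rw [Set.indicator_of_mem (s := Set.range (fun n : ℕ => -(n : ℂ))) ⟨n, rfl⟩, Set.indicator_of_notMem, add_zero]
        rintro ⟨t, ht⟩
        exact hdis n t ht.symm
      · rw [Set.indicator_of_notMem, Set.indicator_of_mem
          (s := Set.range (fun t : ℝ => (1 / 2 : ℂ) + (t : ℂ) * Complex.I)) ⟨t, rfl⟩, zero_add]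
        rintro ⟨n, hn⟩
        exact hdis n t hn
  have h2 : ∑' ρ, f ρ = (∑' ρ, (Set.range (fun n : ℕ => -(n : ℂ))).indicator f ρ) +
      ∑' ρ, (Set.range (fun t : ℝ => (1 / 2 : ℂ) + (t : ℂ) * Complex.I)).indicator f ρ := by
    rw [← Summable.tsum_add (hf.indicator _) (hf.indicator _)]
    exact tsum_congr fun ρ => congrFun h1 ρ
  rw [h2]
  congr 1
  · rw [← hA.tsum_eq (f := (Set.range (fun n : ℕ => -(n : ℂ))).indicator f)
      (Set.support_indicator_subset)]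
    exact tsum_congr fun n => Set.indicator_of_mem (s := Set.range (fun n : ℕ => -(n : ℂ))) ⟨n, rfl⟩ f
  · rw [← hB.tsum_eq (f := (Set.range (fun t : ℝ => (1 / 2 : ℂ) + (t : ℂ) * Complex.I)).indicator f)
      (Set.support_indicator_subset)]
    exact tsum_congr fun t => Set.indicator_of_mem
      (s := Set.range (fun t : ℝ => (1 / 2 : ℂ) + (t : ℂ) * Complex.I)) ⟨t, rfl⟩ f

/-- the trivial zeros in a mixture -/
private theorem li_triv {q : ℕ} [NeZero q] (c : DirichletCharacter ℂ q → ℂ) (s : ℝ) (hs : 2 ≤ s) :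
    (∑' n : ℕ, DD c (-(n : ℂ)) * (1 / ((s : ℂ) - -(n : ℂ)) - 1 / (2 - -(n : ℂ)))).re =
      -∑ χ : DirichletCharacter ℂ q, (c χ).re * ∑' n : ℕ, (analyticOrderNatAt (LL χ) (-(n : ℂ)) : ℝ) *
        ((s - 2) / ((s + n) * (n + 2))) := by
  have h1 : ∀ n : ℕ, DD c (-(n : ℂ)) * (1 / ((s : ℂ) - -(n : ℂ)) - 1 / (2 - -(n : ℂ))) =
      ∑ χ : DirichletCharacter ℂ q, -(c χ * (((analyticOrderNatAt (LL χ) (-(n : ℂ)) : ℝ) *
        ((s - 2) / ((s + n) * (n + 2))) : ℝ) : ℂ)) := by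
    intro n
    unfold DD
    rw [Finset.sum_mul]
    refine Finset.sum_congr rfl fun χ _ => ?_
    have h2 : (s : ℂ) + n ≠ 0 := by
      have h3 : s + n ≠ 0 := by
        have : (0 : ℝ) ≤ n := Nat.cast_nonneg n
        linarith
      exact_mod_cast h3
    have h3 : (n : ℂ) + 2 ≠ 0 := by
      have h4 : (n : ℝ) + 2 ≠ 0 := by
        have : (0 : ℝ) ≤ n := Nat.cast_nonneg n
        linarith
      exact_mod_cast h4
    have h4 : (1 / ((s : ℂ) - -(n : ℂ)) - 1 / (2 - -(n : ℂ))) = -(((s - 2) / ((s + n) * (n + 2)) : ℝ) : ℂ) := by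
      rw [sub_neg_eq_add, sub_neg_eq_add, add_comm (2 : ℂ)]
      push_cast
      field_simp
      ring
    rw [h4, Complex.ofReal_mul, Complex.ofReal_natCast]
    ring
  have h2 : ∀ χ : DirichletCharacter ℂ q, Summable fun n : ℕ =>
      -(c χ * (((analyticOrderNatAt (LL χ) (-(n : ℂ)) : ℝ) * ((s - 2) / ((s + n) * (n + 2))) : ℝ) : ℂ)) := by
    intro χ
    exact ((Complex.ofRealCLM.summable (triv_sum χ s hs)).mul_left (c χ)).neg
  rw [tsum_congr h1, Summable.tsum_finsetSum fun χ _ => h2 χ, Complex.re_sum, ← Finset.sum_neg_distrib]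
  refine Finset.sum_congr rfl fun χ _ => ?_
  rw [tsum_neg, Complex.neg_re, tsum_mul_left, ← Complex.ofReal_tsum, Complex.mul_re, Complex.ofReal_re,
    Complex.ofReal_im, mul_zero, sub_zero]

/-- **The sum over the zeros on the line tends to minus infinity.** -/
theorem li_core {q : ℕ} [NeZero q] (c : DirichletCharacter ℂ q → ℂ) (ε : ℝ) (hε : |ε| = 1)
    (hc : ∀ χ : DirichletCharacter ℂ q, ε * (c χ).re ≤ 0) (χ₀ : DirichletCharacter ℂ q) (h0 : χ₀ ≠ 1)
    (hne : (c χ₀).re ≠ 0)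
    (hD : ∀ ρ, DD c ρ ≠ 0 → (∃ n : ℕ, ρ = -(n : ℂ)) ∨ ∃ t : ℝ, ρ = 1 / 2 + (t : ℂ) * Complex.I) :
    Tendsto (fun s : ℝ => ε * (∑' t : ℝ, DD c (1 / 2 + (t : ℂ) * Complex.I) *
      (1 / ((s : ℂ) - (1 / 2 + (t : ℂ) * Complex.I)) - 1 / (2 - (1 / 2 + (t : ℂ) * Complex.I)))).re)
      atTop atBot := by
  obtain ⟨B, hB⟩ := li_total c
  have hε0 : ε ≠ 0 := by
    rintro rfl
    rw [abs_zero] at hε
    exact zero_ne_one hε
  have hκ : 0 < -(ε * (c χ₀).re) := by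
    have h1 : ε * (c χ₀).re ≠ 0 := mul_ne_zero hε0 hne
    have h2 := hc χ₀
    have h3 := lt_of_le_of_ne h2 h1
    linarith
  have hT := (triv χ₀ h0).const_mul_atTop hκ
  have hT2 : Tendsto (fun s : ℝ => B + -(-(ε * (c χ₀).re) *
      ∑' n : ℕ, (analyticOrderNatAt (LL χ₀) (-(n : ℂ)) : ℝ) * ((s - 2) / ((s + n) * (n + 2))))) atTop atBot :=
    tendsto_atBot_add_const_left _ B (tendsto_neg_atTop_atBot.comp hT)
  refine tendsto_atBot_mono' _ ?_ hT2
  filter_upwards [eventually_ge_atTop 2] with s hs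
  obtain ⟨hs1, hs2⟩ := hB s hs
  have h1 := li_split (fun ρ : ℂ => DD c ρ * (1 / ((s : ℂ) - ρ) - 1 / (2 - ρ))) hs1
    (fun ρ hρ => hD ρ (left_ne_zero_of_mul hρ))
  have h2 := li_triv c s hs
  have h3 : (∑' ρ : ℂ, DD c ρ * (1 / ((s : ℂ) - ρ) - 1 / (2 - ρ))).re =
      (∑' n : ℕ, DD c (-(n : ℂ)) * (1 / ((s : ℂ) - -(n : ℂ)) - 1 / (2 - -(n : ℂ)))).re +
      (∑' t : ℝ, DD c (1 / 2 + (t : ℂ) * Complex.I) *
      (1 / ((s : ℂ) - (1 / 2 + (t : ℂ) * Complex.I)) - 1 / (2 - (1 / 2 + (t : ℂ) * Complex.I)))).re := by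
    rw [h1, Complex.add_re]
  have h4 : ε * (∑' ρ : ℂ, DD c ρ * (1 / ((s : ℂ) - ρ) - 1 / (2 - ρ))).re ≤ B := by
    have h5 : |ε * (∑' ρ : ℂ, DD c ρ * (1 / ((s : ℂ) - ρ) - 1 / (2 - ρ))).re| ≤ B := by
      rw [abs_mul, hε, one_mul]
      exact (Complex.abs_re_le_norm _).trans hs2
    exact (le_abs_self _).trans h5
  have hnn : ∀ χ : DirichletCharacter ℂ q, 0 ≤ ∑' n : ℕ, (analyticOrderNatAt (LL χ) (-(n : ℂ)) : ℝ) *
      ((s - 2) / ((s + n) * (n + 2))) := by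
    intro χ
    refine tsum_nonneg fun n => mul_nonneg (Nat.cast_nonneg _) ?_
    apply div_nonneg (by linarith)
    positivity
  have h5 : -(ε * (c χ₀).re) * ∑' n : ℕ, (analyticOrderNatAt (LL χ₀) (-(n : ℂ)) : ℝ) *
      ((s - 2) / ((s + n) * (n + 2))) ≤ ∑ χ : DirichletCharacter ℂ q, -(ε * (c χ).re) *
      ∑' n : ℕ, (analyticOrderNatAt (LL χ) (-(n : ℂ)) : ℝ) * ((s - 2) / ((s + n) * (n + 2))) := by
    refine Finset.single_le_sum (f := fun χ : DirichletCharacter ℂ q => -(ε * (c χ).re) *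
      ∑' n : ℕ, (analyticOrderNatAt (LL χ) (-(n : ℂ)) : ℝ) * ((s - 2) / ((s + n) * (n + 2))))
      (fun χ _ => ?_) (Finset.mem_univ χ₀)
    exact mul_nonneg (by linarith [hc χ]) (hnn χ)
  have h6 : ∑ χ : DirichletCharacter ℂ q, -(ε * (c χ).re) *
      ∑' n : ℕ, (analyticOrderNatAt (LL χ) (-(n : ℂ)) : ℝ) * ((s - 2) / ((s + n) * (n + 2))) =
      ε * (∑' n : ℕ, DD c (-(n : ℂ)) * (1 / ((s : ℂ) - -(n : ℂ)) - 1 / (2 - -(n : ℂ)))).re := by
    rw [h2, mul_neg, Finset.mul_sum, ← Finset.sum_neg_distrib]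
    refine Finset.sum_congr rfl fun χ _ => ?_
    ring
  rw [h3, mul_add] at h4
  linarith

end Pool.Agent.H52.PR
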