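import Pool.Agent.H52.PR.Res
import Pool.Agent.H52.PR.Lan
import Pool.Agent.H52.PR.Exs

/-!
PRIME RACES (MP_2936c6_nt), module Mn: the theorem for a weight.

PROOF. Suppose `BB w n ≤ C n^α` for all `n > N`. Enlarging `α < 1/2` and `C` this holds for all `n`. `σ₀ < 1/2` with `α ≤ σ₀`, `2/5 < σ₀`
and `LL χ y ≠ 0` for all real `y ≥ 2 σ₀` (`LL_near`). At the real points `x > σ₀` the residue of `GG w` is `co w x ≤ 0`, at `1/2` it is
`co w (1/2) + al (w2 w) 1 / 2 ≤ 0`. By `lan` all the residues of `GG w` with `Re ρ > σ₀` vanish. `exists_pole` gives a `ρ` with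
`co w ρ ≠ 0`, `1/2 ≤ Re ρ < 1`: a contradiction (for `ρ = 1/2` both terms are `≤ 0`).
-/

set_option autoImplicit false

namespace Pool.Agent.H52.PR

open Filter Topology
open Pool.Agent.H50.RQ (LL Vq wq lfc gx)

private theorem no_pole {ρ κ : ℂ} {F G H : ℂ → ℂ} (hG : AnalyticAt ℂ G ρ) (hH : AnalyticAt ℂ H ρ)
    (h1 : ∀ᶠ s in 𝓝[≠] ρ, F s = κ / (s - ρ) + G s) (h2 : ∀ᶠ s in 𝓝[≠] ρ, F s = H s) : κ = 0 := by
  have h3 : ∀ᶠ s in 𝓝[≠] ρ, (s - ρ) * (H s - G s) = κ := by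
    have h6 : ∀ᶠ s in 𝓝[≠] ρ, s ≠ ρ := eventually_mem_nhdsWithin
    filter_upwards [h1, h2, h6] with s h4 h5 h7
    have h8 : s - ρ ≠ 0 := sub_ne_zero.2 h7
    have h9 : H s - G s = κ / (s - ρ) := by rw [← h5, h4]; ring
    rw [h9]
    field_simp
  have h4 : Tendsto (fun s => (s - ρ) * (H s - G s)) (𝓝[≠] ρ) (𝓝 ((ρ - ρ) * (H ρ - G ρ))) := by
    have h5 : ContinuousAt (fun s => (s - ρ) * (H s - G s)) ρ :=
      (continuousAt_id.sub continuousAt_const).mul (hH.continuousAt.sub hG.continuousAt)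
    exact h5.tendsto.mono_left nhdsWithin_le_nhds
  rw [sub_self, zero_mul] at h4
  exact tendsto_nhds_unique (tendsto_const_nhds.congr' (h3.mono fun s hs => hs.symm)) h4

private theorem enlarge {q : ℕ} [NeZero q] (w : (ZMod q)ˣ → ℝ) (α C : ℝ) (N : ℕ)
    (h : ∀ n : ℕ, N < n → BB w n ≤ C * (n : ℝ) ^ α) (α' : ℝ) (hα : α ≤ α') (hα' : 0 < α') :
    ∃ C' : ℝ, 0 ≤ C' ∧ ∀ n : ℕ, BB w n ≤ C' * (n : ℝ) ^ α' := by
  obtain ⟨S, hS⟩ : ∃ S : ℝ, S = ∑ k ∈ Finset.range (N + 1), |BB w k| := ⟨_, rfl⟩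
  have hS0 : 0 ≤ S := by rw [hS]; exact Finset.sum_nonneg fun k _ => abs_nonneg _
  refine ⟨max C 0 + S, by positivity, fun n => ?_⟩
  rcases Nat.eq_zero_or_pos n with h0 | h0
  · rw [h0]
    have h1 : BB w 0 = 0 := by
      unfold BB
      rw [Finset.Icc_eq_empty (by norm_num), Finset.sum_empty]
    rw [h1]
    positivity
  · have hn : (1 : ℝ) ≤ n := by exact_mod_cast h0
    have h1 : (1 : ℝ) ≤ (n : ℝ) ^ α' := Real.one_le_rpow hn hα'.le
    rcases le_or_gt n N with h2 | h2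
    · have h3 : |BB w n| ≤ S := by
        rw [hS]
        exact Finset.single_le_sum (f := fun k => |BB w k|) (fun k _ => abs_nonneg _)
          (Finset.mem_range.2 (by omega))
      have h4 : S ≤ (max C 0 + S) * (n : ℝ) ^ α' := by
        have h5 : 0 ≤ max C 0 := le_max_right _ _
        nlinarith
      exact (le_abs_self _).trans (h3.trans h4)
    · refine (h n h2).trans ?_
      have h3 : (n : ℝ) ^ α ≤ (n : ℝ) ^ α' := Real.rpow_le_rpow_of_exponent_le hn hα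
      have h4 : 0 ≤ (n : ℝ) ^ α := by positivity
      calc C * (n : ℝ) ^ α ≤ max C 0 * (n : ℝ) ^ α := mul_le_mul_of_nonneg_right (le_max_left _ _) h4
        _ ≤ max C 0 * (n : ℝ) ^ α' := mul_le_mul_of_nonneg_left h3 (le_max_right _ _)
        _ ≤ (max C 0 + S) * (n : ℝ) ^ α' := mul_le_mul_of_nonneg_right (by linarith) (by positivity)

theorem main {q : ℕ} [NeZero q] (w : (ZMod q)ˣ → ℝ) (h1 : ∑ u, w u = 0) (hw : w ≠ 0)
    (hχ : ∀ χ : DirichletCharacter ℂ q, (∑ u : (ZMod q)ˣ, (w u : ℂ) * χ (u : ZMod q)).re ≤ 0)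
    (α C : ℝ) (hα : α < 1 / 2) (N : ℕ) : ∃ n : ℕ, N < n ∧ C * (n : ℝ) ^ α < BB w n := by
  by_contra hcon
  push Not at hcon
  have hal : ∀ χ : DirichletCharacter ℂ q, (al w χ).re ≤ 0 := al_re w hχ
  obtain ⟨r2, hr2, hr2'⟩ := al_w2_one w hal
  obtain ⟨α', hα'⟩ : ∃ α' : ℝ, α' = max α (9 / 20) := ⟨_, rfl⟩
  have ha1 : α ≤ α' := by rw [hα']; exact le_max_left _ _
  have ha2 : 9 / 20 ≤ α' := by rw [hα']; exact le_max_right _ _
  have ha3 : α' < 1 / 2 := by rw [hα']; exact max_lt hα (by norm_num)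
  obtain ⟨C', hC', hB⟩ := enlarge w α C N hcon α' ha1 (by linarith)
  obtain ⟨δ, hδ, hL⟩ := LL_near q
  obtain ⟨σ₀, hσ₀⟩ : ∃ σ₀ : ℝ, σ₀ = max α' (1 / 2 - δ / 2) := ⟨_, rfl⟩
  have hs1 : α' ≤ σ₀ := by rw [hσ₀]; exact le_max_left _ _
  have hs2 : 1 / 2 - δ / 2 ≤ σ₀ := by rw [hσ₀]; exact le_max_right _ _
  have hs3 : σ₀ < 1 / 2 := by rw [hσ₀]; exact max_lt ha3 (by linarith)
  have hkey := lan w (GG w) C' α' σ₀ hC' (by linarith) hs1 (by linarith) hB
    (fun s hs => GG_mer w s (by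
      have hs' : σ₀ < s.re := hs
      show 2 / 5 < s.re
      linarith))
    (bb_der w h1)
    (fun x hx => by
      obtain ⟨r, hr, hr'⟩ := co_real w hal x
      by_cases h2 : 2 * (x : ℂ) = 1
      · obtain ⟨H, hH1, hH2⟩ := GG_half w (x : ℂ) h2
        refine ⟨r + r2 / 2, by linarith, H, hH1, ?_⟩
        filter_upwards [hH2] with s hs
        rw [hs, hr', hr2']
        push_cast
        rfl
      · obtain ⟨H, hH1, hH2⟩ := GG_exp w (x : ℂ) (by rw [Complex.ofReal_re]; linarith) h2 (fun χ => by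
          have h3 : 2 * (x : ℂ) = ((2 * x : ℝ) : ℂ) := by push_cast; rfl
          rw [h3]
          exact hL χ (2 * x) (by linarith))
        refine ⟨r, hr, H, hH1, ?_⟩
        filter_upwards [hH2] with s hs
        rw [hs, hr'])
  obtain ⟨ρ, hρ1, hρ2, hρ3⟩ := exists_pole w h1 hw
  obtain ⟨H, hH1, hH2⟩ := hkey ρ (by linarith)
  apply hρ3
  by_cases h2 : 2 * ρ = 1
  · obtain ⟨G, hG1, hG2⟩ := GG_half w ρ h2
    have h3 := no_pole hG1 hH1 hG2 hH2
    have h4 : ρ = (((1 / 2 : ℝ)) : ℂ) := by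
      have h5 : ρ = 1 / 2 := by
        rw [eq_div_iff (by norm_num : (2 : ℂ) ≠ 0), mul_comm]
        exact h2
      rw [h5]
      push_cast
      rfl
    obtain ⟨r, hr, hr'⟩ := co_real w hal (1 / 2)
    rw [h4, hr', hr2'] at h3
    have h5 : r + r2 / 2 = 0 := by exact_mod_cast h3
    have h6 : r = 0 := by linarith
    rw [h4, hr', h6, Complex.ofReal_zero]
  · obtain ⟨G, hG1, hG2⟩ := GG_exp w ρ (by linarith) h2 (fun χ => LL_ne χ _ (by
      rw [Complex.mul_re, Complex.re_ofNat, Complex.im_ofNat, zero_mul, sub_zero]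
      linarith))
    exact no_pole hG1 hH1 hG2 hH2

end Pool.Agent.H52.PR
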