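import Pool.Agent.H52.PR.Al

/-!
PRIME RACES (MP_2936c6_nt), module Oo: the rest `oo w` is absolutely summable for `Re s > 2/5`.

PROOF. `|oo w n| ≤ K Λ(n)`; `oo w n ≠ 0` only for `n = p ^ k` with `p ∣ q` or `k ≥ 3`. So
`∑_{n ≤ N} |oo w n| ≤ K (number of p ∣ q + N^(1/3)) log N = O(N^(2/5))`;
`LSeriesSummable_of_sum_norm_bigO` with `r = 2/5`.
-/

set_option autoImplicit false

namespace Pool.Agent.H52.PR

open Pool.Agent.H50.RQ (LL Vq wq lfc gx)

private theorem oo_h (p N : ℕ) (hp : p.Prime) (hN : 1 ≤ N) (s : Finset ℕ)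
    (hs : ∀ n ∈ s, n ≤ N ∧ ∃ k, 1 ≤ k ∧ n = p ^ k) : (s.card : ℝ) * Real.log p ≤ Real.log N := by
  have h1 : s ⊆ (Finset.Icc 1 (Nat.log p N)).image (fun k => p ^ k) := by
    intro n hn
    obtain ⟨h2, k, hk, h3⟩ := hs n hn
    refine Finset.mem_image.2 ⟨k, Finset.mem_Icc.2 ⟨hk, ?_⟩, h3.symm⟩
    exact Nat.le_log_of_pow_le hp.one_lt (h3 ▸ h2)
  have h2 : s.card ≤ Nat.log p N := by
    refine (Finset.card_le_card h1).trans (Finset.card_image_le.trans ?_)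
    rw [Nat.card_Icc, Nat.add_sub_cancel]
  have h3 : (0 : ℝ) ≤ Real.log p := Real.log_natCast_nonneg p
  have h4 : ((p : ℝ) ^ (Nat.log p N)) ≤ (N : ℝ) := by
    exact_mod_cast Nat.pow_log_le_self p (by omega)
  have h5 : (0 : ℝ) < (p : ℝ) := by exact_mod_cast hp.pos
  calc (s.card : ℝ) * Real.log p ≤ (Nat.log p N : ℝ) * Real.log p :=
        mul_le_mul_of_nonneg_right (by exact_mod_cast h2) h3
    _ = Real.log ((p : ℝ) ^ (Nat.log p N)) := (Real.log_pow _ _).symm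
    _ ≤ Real.log N := Real.log_le_log (pow_pos h5 _) h4

private theorem oo_abs {q : ℕ} [NeZero q] (w : (ZMod q)ˣ → ℝ) (n : ℕ) :
    |oo w n| ≤ (3 * (∑ u : (ZMod q)ˣ, |w u|) + 2 * (∑ u : (ZMod q)ˣ, |w2 w u|)) *
      ArithmeticFunction.vonMangoldt n := by
  classical
  have hL : 0 ≤ ArithmeticFunction.vonMangoldt n := ArithmeticFunction.vonMangoldt_nonneg
  have h1 := vv_abs w n
  have h2 : |sq w n| ≤ 2 * (∑ u : (ZMod q)ˣ, |w2 w u|) * ArithmeticFunction.vonMangoldt n := by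
    unfold sq
    split_ifs with h
    · obtain ⟨m, rfl⟩ := h
      rw [Nat.sqrt_eq]
      have h3 := vv_abs (w2 w) m
      have h4 : ArithmeticFunction.vonMangoldt (m * m) = ArithmeticFunction.vonMangoldt m := by
        rw [← pow_two]
        exact ArithmeticFunction.vonMangoldt_apply_pow two_ne_zero
      rw [h4]
      exact h3
    · rw [abs_zero]
      exact mul_nonneg (mul_nonneg two_pos.le (Finset.sum_nonneg fun _ _ => abs_nonneg _)) hL
  have h3 : |(if n.Prime then Real.log n * ww w n else 0)| ≤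
      (∑ u : (ZMod q)ˣ, |w u|) * ArithmeticFunction.vonMangoldt n := by
    split_ifs with h
    · rw [ArithmeticFunction.vonMangoldt_apply_prime h, abs_mul,
        abs_of_nonneg (Real.log_natCast_nonneg n), mul_comm]
      exact mul_le_mul_of_nonneg_right (ww_abs w n) (Real.log_natCast_nonneg n)
    · rw [abs_zero]
      exact mul_nonneg (Finset.sum_nonneg fun _ _ => abs_nonneg _) hL
  unfold oo
  calc |vv w n - sq w n - (if n.Prime then Real.log n * ww w n else 0)|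
      ≤ |vv w n - sq w n| + |(if n.Prime then Real.log n * ww w n else 0)| := abs_sub _ _
    _ ≤ |vv w n| + |sq w n| + |(if n.Prime then Real.log n * ww w n else 0)| := by
        gcongr
        exact abs_sub _ _
    _ ≤ _ := by linarith

private theorem oo_ne {q : ℕ} [NeZero q] (w : (ZMod q)ˣ → ℝ) (n : ℕ) (h : oo w n ≠ 0) :
    ∃ p k : ℕ, p.Prime ∧ 1 ≤ k ∧ n = p ^ k ∧ (p ∣ q ∨ 3 ≤ k) := by
  classical
  have h1 : IsPrimePow n := by
    by_contra h1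
    apply h
    have h2 := oo_abs w n
    rw [ArithmeticFunction.vonMangoldt_eq_zero_iff.2 h1, mul_zero] at h2
    exact abs_eq_zero.mp (le_antisymm h2 (abs_nonneg _))
  obtain ⟨p, k, hp, hk, h2⟩ := (isPrimePow_nat_iff n).1 h1
  refine ⟨p, k, hp, hk, h2.symm, ?_⟩
  by_contra h3
  push Not at h3
  obtain ⟨h3, h4⟩ := h3
  apply h
  have hc : p.Coprime q := (Nat.Prime.coprime_iff_not_dvd hp).2 h3
  have hk2 : k = 1 ∨ k = 2 := by omega
  rcases hk2 with rfl | rfl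
  · rw [pow_one] at h2
    subst h2
    unfold oo sq
    rw [if_pos hp, if_neg hp.not_isSquare, vv_coprime w p hc,
      ArithmeticFunction.vonMangoldt_apply_prime hp]
    ring
  · subst h2
    have hc2 : (p ^ 2).Coprime q := Nat.Coprime.pow_left 2 hc
    unfold oo sq
    rw [if_neg (Nat.Prime.not_prime_pow le_rfl), if_pos (IsSquare.sq p), Nat.sqrt_eq', vv_coprime w (p ^ 2) hc2,
      vv_coprime (w2 w) p hc, ← ww_sq, ← pow_two,
      ArithmeticFunction.vonMangoldt_apply_pow two_ne_zero]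
    ring

private theorem oo_part {q : ℕ} [NeZero q] (w : (ZMod q)ˣ → ℝ) (N : ℕ) (hN : 1 ≤ N) :
    ∑ n ∈ Finset.Icc 1 N, |oo w n| ≤
      (3 * (∑ u : (ZMod q)ˣ, |w u|) + 2 * (∑ u : (ZMod q)ˣ, |w2 w u|)) *
      (((q.primeFactors.card : ℝ) + (N : ℝ) ^ (1 / 3 : ℝ)) * Real.log N) := by
  classical
  set K : ℝ := 3 * (∑ u : (ZMod q)ˣ, |w u|) + 2 * (∑ u : (ZMod q)ˣ, |w2 w u|) with hK
  have hK0 : 0 ≤ K := by
    have h1 : (0 : ℝ) ≤ ∑ u : (ZMod q)ˣ, |w u| := Finset.sum_nonneg fun _ _ => abs_nonneg _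
    have h2 : (0 : ℝ) ≤ ∑ u : (ZMod q)ˣ, |w2 w u| := Finset.sum_nonneg fun _ _ => abs_nonneg _
    linarith
  set P : Finset ℕ := q.primeFactors ∪ (Finset.Icc 1 N).filter (fun p => p.Prime ∧ p ^ 3 ≤ N) with hP
  have hPp : ∀ p ∈ P, p.Prime := by
    intro p hp
    rcases Finset.mem_union.mp hp with h | h
    · exact Nat.prime_of_mem_primeFactors h
    · exact (Finset.mem_filter.mp h).2.1
  have h1 : ∀ n ∈ Finset.Icc 1 N, |oo w n| ≤
      K * ∑ p ∈ P, (if ∃ k, 1 ≤ k ∧ n = p ^ k then Real.log p else 0) := by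
    intro n hn
    have hnn : ∀ p ∈ P, (0 : ℝ) ≤ (if ∃ k, 1 ≤ k ∧ n = p ^ k then Real.log p else 0) := by
      intro p _
      split_ifs
      · exact Real.log_natCast_nonneg p
      · exact le_refl 0
    by_cases h2 : oo w n = 0
    · rw [h2, abs_zero]
      exact mul_nonneg hK0 (Finset.sum_nonneg hnn)
    · obtain ⟨p, k, hp, hk, h4, h5⟩ := oo_ne w n h2
      have h6 : p ∈ P := by
        rcases h5 with h5 | h5
        · exact Finset.mem_union_left _ (Nat.mem_primeFactors.2 ⟨hp, h5, NeZero.ne q⟩)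
        · refine Finset.mem_union_right _ (Finset.mem_filter.2 ?_)
          have h7 : p ^ 3 ≤ N := (Nat.pow_le_pow_right hp.pos h5).trans
            (h4 ▸ (Finset.mem_Icc.mp hn).2)
          exact ⟨Finset.mem_Icc.2 ⟨hp.one_lt.le, (Nat.le_self_pow (by norm_num) p).trans h7⟩, hp, h7⟩
      refine (oo_abs w n).trans ?_
      rw [← hK]
      refine mul_le_mul_of_nonneg_left (le_trans ?_ (Finset.single_le_sum hnn h6)) hK0
      rw [if_pos ⟨k, hk, h4⟩, h4, ArithmeticFunction.vonMangoldt_apply_pow (by omega),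
        ArithmeticFunction.vonMangoldt_apply_prime hp]
  refine (Finset.sum_le_sum h1).trans ?_
  rw [← Finset.mul_sum]
  refine mul_le_mul_of_nonneg_left ?_ hK0
  rw [Finset.sum_comm]
  have h2 : ∀ p ∈ P, ∑ n ∈ Finset.Icc 1 N,
      (if ∃ k, 1 ≤ k ∧ n = p ^ k then Real.log p else 0) ≤ Real.log N := by
    intro p hp
    rw [← Finset.sum_filter, Finset.sum_const, nsmul_eq_mul]
    refine oo_h p N (hPp p hp) hN _ fun n hn => ?_
    rw [Finset.mem_filter, Finset.mem_Icc] at hn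
    exact ⟨hn.1.2, hn.2⟩
  refine (Finset.sum_le_card_nsmul _ _ _ h2).trans ?_
  rw [nsmul_eq_mul]
  refine mul_le_mul_of_nonneg_right ?_ (Real.log_natCast_nonneg N)
  have h3 : (((Finset.Icc 1 N).filter (fun p => p.Prime ∧ p ^ 3 ≤ N)).card : ℝ) ≤
      (N : ℝ) ^ (1 / 3 : ℝ) := by
    have h4 : (Finset.Icc 1 N).filter (fun p => p.Prime ∧ p ^ 3 ≤ N) ⊆
        Finset.Icc 1 ⌊(N : ℝ) ^ (1 / 3 : ℝ)⌋₊ := by
      intro p hp
      obtain ⟨h5, -, h6⟩ := Finset.mem_filter.mp hp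
      refine Finset.mem_Icc.2 ⟨(Finset.mem_Icc.mp h5).1, Nat.le_floor ?_⟩
      have h7 : ((p : ℝ) ^ 3) ≤ (N : ℝ) := by exact_mod_cast h6
      calc (p : ℝ) = ((p : ℝ) ^ (3 : ℕ)) ^ (1 / 3 : ℝ) := by
            rw [← Real.rpow_natCast, ← Real.rpow_mul (Nat.cast_nonneg p)]
            norm_num
        _ ≤ (N : ℝ) ^ (1 / 3 : ℝ) := Real.rpow_le_rpow (by positivity) h7 (by norm_num)
    calc (((Finset.Icc 1 N).filter (fun p => p.Prime ∧ p ^ 3 ≤ N)).card : ℝ)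
        ≤ ((Finset.Icc 1 ⌊(N : ℝ) ^ (1 / 3 : ℝ)⌋₊).card : ℝ) := by
          exact_mod_cast Finset.card_le_card h4
      _ = (⌊(N : ℝ) ^ (1 / 3 : ℝ)⌋₊ : ℝ) := by rw [Nat.card_Icc, Nat.add_sub_cancel]
      _ ≤ _ := Nat.floor_le (by positivity)
  calc (P.card : ℝ) ≤ (q.primeFactors.card : ℝ) +
        (((Finset.Icc 1 N).filter (fun p => p.Prime ∧ p ^ 3 ≤ N)).card : ℝ) := by
          exact_mod_cast Finset.card_union_le _ _
    _ ≤ _ := by linarith

theorem oo_sum {q : ℕ} [NeZero q] (w : (ZMod q)ˣ → ℝ) (s : ℂ) (hs : 2 / 5 < s.re) :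
    LSeriesSummable (fun n => ((oo w n : ℝ) : ℂ)) s := by
  refine LSeriesSummable_of_sum_norm_bigO (r := 2 / 5) ?_ (by norm_num) hs
  set K : ℝ := 3 * (∑ u : (ZMod q)ˣ, |w u|) + 2 * (∑ u : (ZMod q)ˣ, |w2 w u|) with hK
  have hK0 : 0 ≤ K := by
    have h1 : (0 : ℝ) ≤ ∑ u : (ZMod q)ˣ, |w u| := Finset.sum_nonneg fun _ _ => abs_nonneg _
    have h2 : (0 : ℝ) ≤ ∑ u : (ZMod q)ˣ, |w2 w u| := Finset.sum_nonneg fun _ _ => abs_nonneg _
    linarith
  set c0 : ℝ := (q.primeFactors.card : ℝ) with hc0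
  have hc : 0 ≤ c0 := Nat.cast_nonneg _
  refine Asymptotics.IsBigO.of_bound (K * ((c0 + 1) * 15)) ?_
  filter_upwards [Filter.eventually_ge_atTop 1] with N hN
  have hNr : (1 : ℝ) ≤ (N : ℝ) := by exact_mod_cast hN
  have hN0 : (0 : ℝ) < (N : ℝ) := by linarith
  have h1 : ∑ k ∈ Finset.Icc 1 N, ‖((oo w k : ℝ) : ℂ)‖ = ∑ n ∈ Finset.Icc 1 N, |oo w n| := by
    refine Finset.sum_congr rfl fun n _ => ?_
    rw [Complex.norm_real, Real.norm_eq_abs]
  rw [h1, Real.norm_of_nonneg (Finset.sum_nonneg fun _ _ => abs_nonneg _),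
    Real.norm_of_nonneg (Real.rpow_nonneg hN0.le _)]
  refine (oo_part w N hN).trans ?_
  rw [← hK, ← hc0, mul_assoc]
  refine mul_le_mul_of_nonneg_left ?_ hK0
  have h2 : Real.log N ≤ 15 * (N : ℝ) ^ (1 / 15 : ℝ) := by
    have h3 := Real.log_le_rpow_div hN0.le (ε := 1 / 15) (by norm_num)
    calc Real.log N ≤ (N : ℝ) ^ (1 / 15 : ℝ) / (1 / 15) := h3
      _ = _ := by ring
  have h4 : (1 : ℝ) ≤ (N : ℝ) ^ (1 / 3 : ℝ) := Real.one_le_rpow hNr (by norm_num)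
  have h5 : c0 + (N : ℝ) ^ (1 / 3 : ℝ) ≤ (c0 + 1) * (N : ℝ) ^ (1 / 3 : ℝ) := by nlinarith
  calc (c0 + (N : ℝ) ^ (1 / 3 : ℝ)) * Real.log N
      ≤ ((c0 + 1) * (N : ℝ) ^ (1 / 3 : ℝ)) * (15 * (N : ℝ) ^ (1 / 15 : ℝ)) :=
        mul_le_mul h5 h2 (Real.log_natCast_nonneg N) (by positivity)
    _ = (c0 + 1) * 15 * ((N : ℝ) ^ (1 / 3 : ℝ) * (N : ℝ) ^ (1 / 15 : ℝ)) := by ring
    _ = (c0 + 1) * 15 * (N : ℝ) ^ (2 / 5 : ℝ) := by
        rw [← Real.rpow_add hN0]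
        norm_num

end Pool.Agent.H52.PR
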