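import Pool.Agent.H52.PR.Pdf
import Pool.Agent.H61.PR.Pd1

/-!
PRIME RACES (MP_2936c6_nt) v2, module Pd1: a positive definite function with finite support has a nonnegative sum
(`Pool/Agent/H61/PR/Pd1.lean`, with the coefficients `c = 1`).
-/

set_option autoImplicit false

namespace Pool.Agent.H52.PR

theorem pd_fin (R : ℝ → ℂ) (hR : PD R) (S : Finset ℝ) (hS : ∀ t : ℝ, t ∉ S → R t = 0) :
    0 ≤ (∑ t ∈ S, R t).re := by
  classical
  refine Pool.Agent.H61.PR.pd_sum R S hS fun F => ?_
  have h := hR F fun _ => 1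
  simpa using h

end Pool.Agent.H52.PR
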