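import Pool.Agent.H52.PR.Oo

/-!
PRIME RACES (MP_2936c6_nt), module Res: the residues of `JJ w` and `GG w`.

PROOF. `JJ_exp`: `LL χ = (s - s₀)^n g(s)`, `g(s₀) ≠ 0`, `n` the order (finite: `LL χ` is entire, not identically `0`).
`co_real`: `x` real: `co w x` is its own conjugate (`al_conj`, `LL_conj_order`), the real part is `∑ Re(al w χ) ord ≤ 0`.
`LL_ne`: `LF.ne`, `lfc_F`. `LL_near`: finitely many `χ`, continuity at `1`. `oo_an`: `oo_sum`, `LSeries_analyticOnNhd`.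
-/

set_option autoImplicit false

namespace Pool.Agent.H52.PR

open Filter Topology
open Pool.Agent.H50.RQ (LL Vq wq lfc gx lfc_F LL_conj_order)

theorem LL_ne {q : ℕ} [NeZero q] (χ : DirichletCharacter ℂ q) (s : ℂ) (hs : 1 ≤ s.re) : LL χ s ≠ 0 := by
  rw [← lfc_F]
  exact (lfc χ).ne s hs

private theorem LL_diff {q : ℕ} [NeZero q] (χ : DirichletCharacter ℂ q) : Differentiable ℂ (LL χ) := by
  rw [← lfc_F]
  exact (lfc χ).diff

private theorem LL_top {q : ℕ} [NeZero q] (χ : DirichletCharacter ℂ q) (z : ℂ) : analyticOrderAt (LL χ) z ≠ ⊤ := by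
  intro h
  rw [analyticOrderAt_eq_top] at h
  have h1 : AnalyticOnNhd ℂ (LL χ) Set.univ := fun w _ => (LL_diff χ).analyticAt w
  have h2 := h1.eqOn_zero_of_preconnected_of_eventuallyEq_zero isPreconnected_univ (Set.mem_univ z) h
  exact LL_ne χ 2 (by norm_num) (h2 (Set.mem_univ 2))

private theorem ld_exp {f : ℂ → ℂ} {s₀ : ℂ} (hf : AnalyticAt ℂ f s₀) (ht : analyticOrderAt f s₀ ≠ ⊤) :
    ∃ G : ℂ → ℂ, AnalyticAt ℂ G s₀ ∧
      ∀ᶠ s in 𝓝[≠] s₀, deriv f s / f s = (analyticOrderNatAt f s₀ : ℂ) / (s - s₀) + G s := by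
  obtain ⟨n, hn⟩ : ∃ n : ℕ, n = analyticOrderNatAt f s₀ := ⟨_, rfl⟩
  have h1 : analyticOrderAt f s₀ = (n : ℕ∞) := by
    rw [hn]
    exact (Nat.cast_analyticOrderNatAt ht).symm
  obtain ⟨g, hg1, hg2, hg3⟩ := hf.analyticOrderAt_eq_natCast.1 h1
  refine ⟨fun s => deriv g s / g s, hg1.deriv.div hg1 hg2, ?_⟩
  rw [← hn]
  have h2 : ∀ᶠ s in 𝓝 s₀, AnalyticAt ℂ g s := hg1.eventually_analyticAt
  have h3 : ∀ᶠ s in 𝓝 s₀, g s ≠ 0 := hg1.continuousAt.eventually_ne hg2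
  have h4 : ∀ᶠ s in 𝓝 s₀, f =ᶠ[𝓝 s] fun z => (z - s₀) ^ n * g z := by
    have h5 := hg3.eventually_nhds
    filter_upwards [h5] with s hs
    filter_upwards [hs] with z hz
    rw [hz, smul_eq_mul]
  have h6 : ∀ᶠ s in 𝓝[≠] s₀, s ≠ s₀ := eventually_mem_nhdsWithin
  filter_upwards [h6, h2.filter_mono nhdsWithin_le_nhds, h3.filter_mono nhdsWithin_le_nhds,
    h4.filter_mono nhdsWithin_le_nhds] with s hs hgs hgn hfs
  have hsub : s - s₀ ≠ 0 := sub_ne_zero.2 hs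
  rw [hfs.deriv_eq, hfs.eq_of_nhds]
  have h7 : HasDerivAt (fun z => (z - s₀) ^ n * g z)
      ((n : ℂ) * (s - s₀) ^ (n - 1) * 1 * g s + (s - s₀) ^ n * deriv g s) s := by
    have h8 : HasDerivAt (fun z : ℂ => (z - s₀) ^ n) ((n : ℂ) * (s - s₀) ^ (n - 1) * 1) s :=
      ((hasDerivAt_id s).sub_const s₀).pow n
    exact h8.mul hgs.differentiableAt.hasDerivAt
  rw [h7.deriv]
  rcases Nat.eq_zero_or_pos n with h0 | h0
  · rw [h0]
    simp
  · obtain ⟨m, hm⟩ : ∃ m, n = m + 1 := ⟨n - 1, by omega⟩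
    rw [hm, Nat.add_sub_cancel]
    field_simp
    ring

theorem JJ_exp {q : ℕ} [NeZero q] (w : (ZMod q)ˣ → ℝ) (s₀ : ℂ) : ∃ G : ℂ → ℂ, AnalyticAt ℂ G s₀ ∧
    ∀ᶠ s in 𝓝[≠] s₀, JJ w s = co w s₀ / (s - s₀) + G s := by
  choose G hG1 hG2 using fun χ : DirichletCharacter ℂ q =>
    ld_exp ((LL_diff χ).analyticAt s₀) (LL_top χ s₀)
  refine ⟨fun s => ∑ χ : DirichletCharacter ℂ q, al w χ * G χ s, ?_, ?_⟩
  · refine Finset.analyticAt_fun_sum _ fun χ _ => ?_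
    exact analyticAt_const.mul (hG1 χ)
  · have h1 : ∀ᶠ s in 𝓝[≠] s₀, ∀ χ : DirichletCharacter ℂ q,
        deriv (LL χ) s / LL χ s = (analyticOrderNatAt (LL χ) s₀ : ℂ) / (s - s₀) + G χ s :=
      eventually_all.2 hG2
    filter_upwards [h1] with s hs
    unfold JJ co
    rw [Finset.sum_div, ← Finset.sum_add_distrib]
    refine Finset.sum_congr rfl fun χ _ => ?_
    rw [hs χ]
    ring

theorem JJ_an {q : ℕ} [NeZero q] (w : (ZMod q)ˣ → ℝ) (s₀ : ℂ) (h : ∀ χ : DirichletCharacter ℂ q, LL χ s₀ ≠ 0) :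
    AnalyticAt ℂ (JJ w) s₀ := by
  unfold JJ
  refine Finset.analyticAt_fun_sum _ fun χ _ => ?_
  exact analyticAt_const.mul (((LL_diff χ).analyticAt s₀).deriv.div ((LL_diff χ).analyticAt s₀) (h χ))

theorem co_real {q : ℕ} [NeZero q] (w : (ZMod q)ˣ → ℝ) (h : ∀ χ : DirichletCharacter ℂ q, (al w χ).re ≤ 0) (x : ℝ) :
    ∃ r : ℝ, r ≤ 0 ∧ co w (x : ℂ) = (r : ℂ) := by
  have h1 : (starRingEnd ℂ) (co w (x : ℂ)) = co w (x : ℂ) := by
    unfold co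
    rw [map_sum, ← Equiv.sum_comp (Equiv.inv (DirichletCharacter ℂ q))
      (fun χ : DirichletCharacter ℂ q => al w χ * (analyticOrderNatAt (LL χ) (x : ℂ) : ℂ))]
    refine Finset.sum_congr rfl fun χ _ => ?_
    have h2 := LL_conj_order χ (x : ℂ)
    rw [Complex.conj_ofReal] at h2
    rw [Equiv.inv_apply, map_mul, map_natCast, al_conj, h2]
  refine ⟨(co w (x : ℂ)).re, ?_, (Complex.conj_eq_iff_re.1 h1).symm⟩
  unfold co
  rw [Complex.re_sum]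
  refine Finset.sum_nonpos fun χ _ => ?_
  rw [Complex.mul_re, Complex.natCast_re, Complex.natCast_im, mul_zero, sub_zero]
  exact mul_nonpos_of_nonpos_of_nonneg (h χ) (Nat.cast_nonneg _)

theorem LL_near (q : ℕ) [NeZero q] : ∃ δ : ℝ, 0 < δ ∧ ∀ (χ : DirichletCharacter ℂ q) (y : ℝ), 1 - δ ≤ y →
    LL χ (y : ℂ) ≠ 0 := by
  have h1 : ∀ᶠ y : ℝ in 𝓝 1, ∀ χ : DirichletCharacter ℂ q, LL χ (y : ℂ) ≠ 0 := by
    refine eventually_all.2 fun χ => ?_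
    have h2 : ContinuousAt (fun y : ℝ => LL χ (y : ℂ)) 1 :=
      ((LL_diff χ).continuous.comp Complex.continuous_ofReal).continuousAt
    refine h2.eventually_ne ?_
    exact LL_ne χ _ (by rw [Complex.ofReal_re])
  obtain ⟨ε, hε, hb⟩ := Metric.eventually_nhds_iff_ball.1 h1
  refine ⟨ε / 2, by positivity, fun χ y hy => ?_⟩
  rcases le_or_gt 1 y with h3 | h3
  · exact LL_ne χ _ (by rwa [Complex.ofReal_re])
  · refine hb y ?_ χ
    rw [Metric.mem_ball, Real.dist_eq, abs_lt]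
    constructor <;> linarith

theorem oo_an {q : ℕ} [NeZero q] (w : (ZMod q)ˣ → ℝ) (s : ℂ) (hs : 2 / 5 < s.re) :
    AnalyticAt ℂ (LSeries (fun n => ((oo w n : ℝ) : ℂ))) s := by
  refine LSeries_analyticOnNhd _ s ?_
  have h1 : LSeries.abscissaOfAbsConv (fun n => ((oo w n : ℝ) : ℂ)) ≤ ((2 / 5 : ℝ) : EReal) := by
    refine LSeries.abscissaOfAbsConv_le_of_forall_lt_LSeriesSummable fun y hy => ?_
    exact oo_sum w _ (by simpa using hy)
  exact lt_of_le_of_lt h1 (by exact_mod_cast hs)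

private theorem J2_an {q : ℕ} [NeZero q] (w : (ZMod q)ˣ → ℝ) (s₀ : ℂ)
    (h : ∀ χ : DirichletCharacter ℂ q, LL χ (2 * s₀) ≠ 0) : AnalyticAt ℂ (fun s => JJ (w2 w) (2 * s)) s₀ := by
  have h1 : AnalyticAt ℂ (fun s : ℂ => 2 * s) s₀ := by fun_prop
  exact AnalyticAt.fun_comp (JJ_an (w2 w) (2 * s₀) h) h1

/-- away from `1/2` -/
theorem GG_exp {q : ℕ} [NeZero q] (w : (ZMod q)ˣ → ℝ) (s₀ : ℂ) (hs : 2 / 5 < s₀.re) (hne : 2 * s₀ ≠ 1)
    (h : ∀ χ : DirichletCharacter ℂ q, LL χ (2 * s₀) ≠ 0) : ∃ G : ℂ → ℂ, AnalyticAt ℂ G s₀ ∧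
    ∀ᶠ s in 𝓝[≠] s₀, GG w s = co w s₀ / (s - s₀) + G s := by
  obtain ⟨G, hG1, hG2⟩ := JJ_exp w s₀
  refine ⟨fun s => G s - JJ (w2 w) (2 * s) + al (w2 w) 1 / (2 * s - 1) +
    LSeries (fun n => ((oo w n : ℝ) : ℂ)) s, ?_, ?_⟩
  · have h1 : AnalyticAt ℂ (fun s : ℂ => al (w2 w) 1 / (2 * s - 1)) s₀ :=
      analyticAt_const.div (by fun_prop) (sub_ne_zero.2 hne)
    exact ((hG1.sub (J2_an w s₀ h)).add h1).add (oo_an w s₀ hs)
  · filter_upwards [hG2] with s hs'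
    unfold GG
    rw [hs']
    ring

/-- at `1/2` -/
theorem GG_half {q : ℕ} [NeZero q] (w : (ZMod q)ˣ → ℝ) (s₀ : ℂ) (he : 2 * s₀ = 1) : ∃ G : ℂ → ℂ, AnalyticAt ℂ G s₀ ∧
    ∀ᶠ s in 𝓝[≠] s₀, GG w s = (co w s₀ + al (w2 w) 1 / 2) / (s - s₀) + G s := by
  obtain ⟨G, hG1, hG2⟩ := JJ_exp w s₀
  have hre : s₀.re = 1 / 2 := by
    have h1 := congrArg Complex.re he
    simp at h1
    linarith
  refine ⟨fun s => G s - JJ (w2 w) (2 * s) + LSeries (fun n => ((oo w n : ℝ) : ℂ)) s, ?_, ?_⟩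
  · refine (hG1.sub (J2_an w s₀ fun χ => ?_)).add (oo_an w s₀ (by rw [hre]; norm_num))
    rw [he]
    exact LL_ne χ 1 (by rw [Complex.one_re])
  · have h6 : ∀ᶠ s in 𝓝[≠] s₀, s ≠ s₀ := eventually_mem_nhdsWithin
    filter_upwards [hG2, h6] with s hs' hne
    unfold GG
    rw [hs']
    have h2 : s - s₀ ≠ 0 := sub_ne_zero.2 hne
    have h3 : 2 * s - 1 = 2 * (s - s₀) := by rw [← he]; ring
    rw [h3]
    field_simp
    ring

private theorem JJ_mer {q : ℕ} [NeZero q] (w : (ZMod q)ˣ → ℝ) (s₀ : ℂ) : MeromorphicAt (JJ w) s₀ := by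
  unfold JJ
  refine MeromorphicAt.fun_sum fun χ _ => ?_
  exact (analyticAt_const.meromorphicAt).mul
    (((LL_diff χ).analyticAt s₀).deriv.meromorphicAt.div ((LL_diff χ).analyticAt s₀).meromorphicAt)

theorem GG_mer {q : ℕ} [NeZero q] (w : (ZMod q)ˣ → ℝ) : MeromorphicOn (GG w) {s : ℂ | 2 / 5 < s.re} := by
  intro s₀ hs
  have h1 : MeromorphicAt (fun s => JJ (w2 w) (2 * s)) s₀ := by
    unfold JJ
    refine MeromorphicAt.fun_sum fun χ _ => ?_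
    have h2 : AnalyticAt ℂ (fun s : ℂ => 2 * s) s₀ := by fun_prop
    have h3 : AnalyticAt ℂ (fun s => LL χ (2 * s)) s₀ := AnalyticAt.fun_comp ((LL_diff χ).analyticAt _) h2
    have h4 : AnalyticAt ℂ (fun s => deriv (LL χ) (2 * s)) s₀ :=
      AnalyticAt.fun_comp ((LL_diff χ).analyticAt (2 * s₀)).deriv h2
    exact (analyticAt_const.meromorphicAt).mul (h4.meromorphicAt.div h3.meromorphicAt)
  have h5 : MeromorphicAt (fun s : ℂ => al (w2 w) 1 / (2 * s - 1)) s₀ := by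
    have h6 : AnalyticAt ℂ (fun s : ℂ => 2 * s - 1) s₀ := by fun_prop
    exact (analyticAt_const.meromorphicAt).div h6.meromorphicAt
  unfold GG
  exact (((JJ_mer w s₀).sub h1).add h5).add (oo_an w s₀ hs).meromorphicAt

end Pool.Agent.H52.PR
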