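import Pool.Agent.H52.PR.Led2

/-!
PRIME RACES (MP_2936c6_nt) v3, module Sqr: classes whose quotient is a square.

PROOF. If `a = c x²`, then `al (dw a c) χ = 0` for all real `χ`, and the numbers of square roots of `a` and `c` are equal, so `al (w2 w) 1 = 0`:
`dic_zero` applies unless a non real character has a real zero.
-/

set_option autoImplicit false

namespace Pool.Agent.H52.PR

open Filter Topology
open Pool.Agent.H50.RQ (LL Vq wq lfc gx lfc_F)

/-- no bias if the quotient is a square -/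
private theorem al_w2_dw {q : ℕ} [NeZero q] (a x : (ZMod q)ˣ) : al (w2 (dw (a * (x * x)) a)) 1 = 0 := by
  classical
  unfold al w2 dw
  have h1 : ∀ u : (ZMod q)ˣ, ((((if u * u = a * (x * x) then (1 : ℝ) else 0) - (if u * u = a then 1 else 0) : ℝ)) : ℂ) *
      ((1 : DirichletCharacter ℂ q) (((u⁻¹ : (ZMod q)ˣ)) : ZMod q) / (q.totient : ℂ)) =
      (if u * u = a * (x * x) then 1 / (q.totient : ℂ) else 0) - (if u * u = a then 1 / (q.totient : ℂ) else 0) := by
    intro u
    rw [MulChar.one_apply (Units.isUnit _)]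
    split_ifs <;> push_cast <;> ring
  rw [Finset.sum_congr rfl fun u _ => h1 u, Finset.sum_sub_distrib, sub_eq_zero]
  refine Fintype.sum_equiv (Equiv.mulRight x⁻¹) _ _ fun u => ?_
  rw [Equiv.coe_mulRight]
  have h2 : u * x⁻¹ * (u * x⁻¹) = a ↔ u * u = a * (x * x) := by
    have e : u * x⁻¹ * (u * x⁻¹) = (u * u) * (x * x)⁻¹ := by rw [mul_mul_mul_comm, ← mul_inv]
    rw [e, mul_inv_eq_iff_eq_mul]
  by_cases h3 : u * u = a * (x * x)
  · rw [if_pos h3, if_pos (h2.2 h3)]
  · rw [if_neg h3, if_neg (fun h => h3 (h2.1 h))]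

private theorem ch_inv_eq {q : ℕ} [NeZero q] (χ : DirichletCharacter ℂ q) (u : (ZMod q)ˣ) :
    χ (((u⁻¹ : (ZMod q)ˣ)) : ZMod q) = (χ (u : ZMod q))⁻¹ := by
  have h1 : χ (u : ZMod q) * χ (((u⁻¹ : (ZMod q)ˣ)) : ZMod q) = 1 := by
    rw [← map_mul, ← Units.val_mul, mul_inv_cancel, Units.val_one, map_one]
  exact (inv_eq_of_mul_eq_one_right h1).symm

/-- two classes whose quotient is a square -/
theorem sq_pair {q : ℕ} [NeZero q] (a x : (ZMod q)ˣ) (hx : x * x ≠ 1)
    (hz : ∀ ψ : DirichletCharacter ℂ q, ψ * ψ ≠ 1 → ψ ((a * (x * x) : (ZMod q)ˣ) : ZMod q) ≠ ψ (a : ZMod q) →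
      ∀ β : ℝ, 1 / 2 ≤ β → β < 1 → LL ψ (β : ℂ) ≠ 0) :
    ∃ c : ℝ, 0 < c ∧ ∀ N : ℕ, ∃ n : ℕ, N < n ∧
      (cu q a n : ℝ) + c * (Real.sqrt n / Real.log n) < (cu q (a * (x * x)) n : ℝ) := by
  have hne : a * (x * x) ≠ a := by
    intro h
    exact hx (mul_eq_left.1 h)
  obtain ⟨c, hc, h⟩ := dic_zero (dw (a * (x * x)) a) (dw_sum _ _) (by
    classical
    intro h0
    have h4 := congrFun h0 a
    unfold dw at h4
    simp only [if_true, if_neg hne.symm, Pi.zero_apply, zero_sub] at h4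
    norm_num at h4) (fun y hy1 hy2 => by
    unfold co
    refine Finset.sum_eq_zero fun χ _ => ?_
    by_cases h5 : χ ((a * (x * x) : (ZMod q)ˣ) : ZMod q) = χ (a : ZMod q)
    · rw [al_dw, ch_inv_eq, ch_inv_eq, h5, sub_self, zero_div, zero_mul]
    · have h6 : χ * χ ≠ 1 := by
        intro h7
        apply h5
        have h8 : χ (x : ZMod q) * χ (x : ZMod q) = 1 := by
          rw [← MulChar.mul_apply, h7, MulChar.one_apply x.isUnit]
        rw [Units.val_mul, Units.val_mul, map_mul, map_mul, h8, mul_one]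
      rw [(ord_iff χ (y : ℂ)).2 (hz χ h6 h5 y hy1 hy2), Nat.cast_zero, mul_zero]) (by
    rw [al_w2_dw a x, Complex.zero_re])
  refine ⟨c / 2, by positivity, fun N => ?_⟩
  obtain ⟨n, hn, h⟩ := h (N + 2)
  refine ⟨n + 1, by omega, ?_⟩
  have h5 := shift (c / 2) n (by omega)
  have h6 : max (c / 2) 0 = c / 2 := max_eq_left (by positivity)
  rw [h6] at h5
  rw [BB_dw] at h
  have h7 : 2 * (c / 2) * (Real.sqrt n / Real.log n) = c * (Real.sqrt n / Real.log n) := by ring
  linarith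

/-- if `b` does not divide `24` then some reduced class has order larger than `2` -/
theorem not_dvd (b : ℕ) [NeZero b] (hb : ¬ b ∣ 24) : ∃ x : (ZMod b)ˣ, x * x ≠ 1 := by
  by_contra hcon
  push Not at hcon
  apply hb
  by_cases h5 : 5 ∣ b
  · exfalso
    obtain ⟨x, hx⟩ := ZMod.unitsMap_surjective h5 (Units.mkOfMulEqOne (2 : ZMod 5) 3 (by decide))
    have h1 := congrArg (ZMod.unitsMap h5) (hcon x)
    rw [map_mul, map_one, hx] at h1
    have h2 := congrArg Units.val h1
    rw [Units.val_mul, Units.val_one] at h2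
    revert h2
    show ¬ ((2 : ZMod 5) * 2 = 1)
    decide
  · have h1 : Nat.Coprime 5 b := (Nat.Prime.coprime_iff_not_dvd (by norm_num)).2 h5
    obtain ⟨x, hx⟩ := (ZMod.isUnit_iff_coprime 5 b).2 h1
    have h2 := congrArg Units.val (hcon x)
    rw [Units.val_mul, Units.val_one, hx] at h2
    rw [← ZMod.natCast_eq_zero_iff 24 b]
    have h3 : ((24 : ℕ) : ZMod b) = ((5 : ℕ) : ZMod b) * ((5 : ℕ) : ZMod b) - 1 := by
      push_cast
      norm_num
    rw [h3, h2, sub_self]

end Pool.Agent.H52.PR
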